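import Pool.Agent.W_04c03c_h62.CLA

/-!
# Normalization of a crossed homomorphism
-/

namespace Q62

theorem clb_chiT {N : Type*} [Group N] (ψ : N →* Multiplicative ℤ) (g : N) :
    ((chiT ψ g : LFˣ) : LF) = algebraMap LP LF (LaurentPolynomial.T (ψ g).toAdd) := by
  rw [chiT_apply]
  generalize (ψ g).toAdd = k
  cases k with
  | ofNat n =>
    rw [Int.ofNat_eq_natCast, zpow_natCast, Units.val_pow_eq_pow_val]
    change (algebraMap LP LF (LaurentPolynomial.T 1)) ^ n = _
    rw [← map_pow, LaurentPolynomial.T_pow, mul_one]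
  | negSucc n =>
    rw [zpow_negSucc, ← inv_pow, Units.val_pow_eq_pow_val]
    change (algebraMap LP LF (LaurentPolynomial.T (-1))) ^ (n + 1) = _
    rw [← map_pow, LaurentPolynomial.T_pow, Int.negSucc_eq]
    congr 2
    push_cast
    ring

theorem clb_principal (J : Ideal LP) : ∃ h, J = Ideal.span {h} := by
  have h1 := IsLocalization.map_under (Submonoid.powers (Polynomial.X : Polynomial (ZMod 2))) LP J
  obtain ⟨g, hg⟩ := (IsPrincipalIdealRing.principal
    (Ideal.under (Polynomial (ZMod 2)) J)).principal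
  refine ⟨algebraMap (Polynomial (ZMod 2)) LP g, ?_⟩
  rw [← h1]
  have h2 : Ideal.under (Polynomial (ZMod 2)) J = Ideal.span {g} := hg
  rw [h2, Ideal.map_span, Set.image_singleton]

theorem clb_one {N : Type*} [Group N] (ψ : N →* Multiplicative ℤ) (e : N → LP)
    (he : ∀ g h, e (g * h) = e g + LaurentPolynomial.T (ψ g).toAdd * e h) : e 1 = 0 := by
  have h := he 1 1
  rw [mul_one, map_one, toAdd_one, LaurentPolynomial.T_zero, one_mul] at h
  exact left_eq_add.1 h

theorem clb_conj {N : Type*} [Group N] (ψ : N →* Multiplicative ℤ) (e : N → LP)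
    (he : ∀ g h, e (g * h) = e g + LaurentPolynomial.T (ψ g).toAdd * e h) (g n : N) (hn : ψ n = 1) :
    e (g * n * g⁻¹) = LaurentPolynomial.T (ψ g).toAdd * e n := by
  have h1 : e g + LaurentPolynomial.T (ψ g).toAdd * e g⁻¹ = 0 := by
    rw [← he, mul_inv_cancel, clb_one ψ e he]
  rw [he, he, map_mul, hn, mul_one]
  linear_combination h1

/-- Clearing denominators and normalizing: the crossed homomorphism can be chosen with values in the
Laurent polynomials, onto on `ker ψ`, and zero on an element `s` with `ψ s` the generator.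

Proof. `N` is finitely generated, so there is `q ≠ 0` in `LP` with `q * d s ∈ LP` for the generators
(`IsLocalization.exist_integer_multiples_of_finset`), hence for all `g` (closure induction with the
crossed rule, also for inverses). So assume `d` has values in `LP` (as a subset of `LF`). The image
`J` of `ker ψ` is an additive subgroup of `LP`, nonzero (`exists_ne_zero_ker`), and stable under
multiplication by `t` and `t⁻¹`: `d (s * n * s⁻¹) = t * d n` for `n ∈ ker ψ`. As the coefficients are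
in `ZMod 2`, `J` is an ideal of `LP`. `LP` is a principal ideal ring
(it is a localization of `(ZMod 2)[X]`; if this is not in Mathlib use `IsPrincipalIdealRing` of the
localization `LaurentPolynomial.isLocalization`), `J = (h)` with `h ≠ 0`. Put `d' g = d g / h`,
`m = d' s / (t - 1)` and `D g = d' g - (t ^ (ψ g) - 1) * m`. Then `D s = 0`, `D = d'` on `ker ψ`, so
`D (ker ψ) = LP`, and `D (n * s ^ k) = d' n ∈ LP` for all `n ∈ ker ψ`. -/
theorem exists_normalized {N : Type*} [Group N] [Group.FG N] (ψ : N →* Multiplicative ℤ)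
    (hψ : Function.Surjective ψ) (d : N → LF)
    (hd : ∀ g h, d (g * h) = d g + ((chiT ψ g : LFˣ) : LF) * d h)
    (hn : ¬ ∃ m : LF, ∀ g, d g = (((chiT ψ g : LFˣ) : LF) - 1) * m) :
    ∃ D : N → LP, (∀ g h, D (g * h) = D g + LaurentPolynomial.T (ψ g).toAdd * D h) ∧
      (∃ a, ψ a = 1 ∧ D a = 1) ∧ ∃ s, ψ s = Multiplicative.ofAdd 1 ∧ D s = 0 := by
  classical
  have hinj : Function.Injective (algebraMap LP LF) := IsFractionRing.injective LP LF
  have hd1 : d 1 = 0 := by
    have h := hd 1 1
    rw [mul_one, map_one, Units.val_one, one_mul] at h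
    exact left_eq_add.1 h
  -- clear denominators
  obtain ⟨S, hS⟩ := Group.fg_def.1 (inferInstance : Group.FG N)
  obtain ⟨q, hq⟩ := IsLocalization.exist_integer_multiples_of_finset (nonZeroDivisors LP)
    (S.image d)
  have hq0 : (q : LP) ≠ 0 := nonZeroDivisors.ne_zero q.2
  have hall : ∀ g, ∃ x : LP, algebraMap LP LF x = algebraMap LP LF q * d g := by
    intro g
    have hg : g ∈ Subgroup.closure (S : Set N) := by
      rw [hS]
      trivial
    induction hg using Subgroup.closure_induction with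
    | mem x hx =>
      obtain ⟨y, hy⟩ := hq (d x) (Finset.mem_image_of_mem d hx)
      refine ⟨y, ?_⟩
      rw [hy, Algebra.smul_def]
    | one => exact ⟨0, by rw [hd1, mul_zero, map_zero]⟩
    | mul x y _ _ hx hy =>
      obtain ⟨a, ha⟩ := hx
      obtain ⟨b, hb⟩ := hy
      refine ⟨a + LaurentPolynomial.T (ψ x).toAdd * b, ?_⟩
      rw [map_add, map_mul, ha, hb, hd, clb_chiT]
      ring
    | inv x _ hx =>
      obtain ⟨a, ha⟩ := hx
      refine ⟨-(LaurentPolynomial.T (-(ψ x).toAdd) * a), ?_⟩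
      have h1 : d x + ((chiT ψ x : LFˣ) : LF) * d x⁻¹ = 0 := by
        rw [← hd, mul_inv_cancel, hd1]
      have h2 : algebraMap LP LF (LaurentPolynomial.T (-(ψ x).toAdd)) *
          algebraMap LP LF (LaurentPolynomial.T (ψ x).toAdd) = 1 := by
        rw [← map_mul, ← LaurentPolynomial.T_add, neg_add_cancel, LaurentPolynomial.T_zero, map_one]
      rw [clb_chiT] at h1
      rw [map_neg, map_mul, ha]
      linear_combination (-(algebraMap LP LF q) * algebraMap LP LF
        (LaurentPolynomial.T (-(ψ x).toAdd))) * h1 + (algebraMap LP LF q) * d x⁻¹ * h2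
  choose e he using hall
  have hec : ∀ g h, e (g * h) = e g + LaurentPolynomial.T (ψ g).toAdd * e h := by
    intro g h
    apply hinj
    rw [map_add, map_mul, he, he, he, hd, clb_chiT]
    ring
  have he1 := clb_one ψ e hec
  -- the ideal
  let J : Ideal LP :=
    { carrier := {x | ∃ n, ψ n = 1 ∧ e n = x}
      zero_mem' := ⟨1, map_one ψ, he1⟩
      add_mem' := by
        rintro _ _ ⟨n, hn1, rfl⟩ ⟨m, hm1, rfl⟩
        refine ⟨n * m, by rw [map_mul, hn1, hm1, one_mul], ?_⟩
        rw [hec, hn1, toAdd_one, LaurentPolynomial.T_zero, one_mul]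
      smul_mem' := by
        intro c x hx
        have hadd : ∀ x y : LP, (∃ n, ψ n = 1 ∧ e n = x) → (∃ n, ψ n = 1 ∧ e n = y) →
            (∃ n, ψ n = 1 ∧ e n = x + y) := by
          rintro _ _ ⟨n, hn1, rfl⟩ ⟨m, hm1, rfl⟩
          refine ⟨n * m, by rw [map_mul, hn1, hm1, one_mul], ?_⟩
          rw [hec, hn1, toAdd_one, LaurentPolynomial.T_zero, one_mul]
        change ∃ n, ψ n = 1 ∧ e n = c * x
        induction c using LaurentPolynomial.induction_on' with
        | add c₁ c₂ h₁ h₂ =>
          rw [add_mul]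
          exact hadd _ _ h₁ h₂
        | C_mul_T n a =>
          have ha : a = 0 ∨ a = 1 := by
            revert a
            decide
          rcases ha with rfl | rfl
          · rw [map_zero, zero_mul, zero_mul]
            exact ⟨1, map_one ψ, he1⟩
          · rw [map_one, one_mul]
            obtain ⟨m, hm1, rfl⟩ := hx
            obtain ⟨g, hg⟩ := hψ (Multiplicative.ofAdd n)
            refine ⟨g * m * g⁻¹, ?_, ?_⟩
            · rw [map_mul, map_mul, hm1, mul_one, map_inv, mul_inv_cancel]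
            · rw [clb_conj ψ e hec g m hm1, hg, toAdd_ofAdd] }
  obtain ⟨h, hJ⟩ := clb_principal J
  have hh0 : h ≠ 0 := by
    rintro rfl
    obtain ⟨n, hn1, hn2⟩ := exists_ne_zero_ker ψ hψ d hd hn
    have h1 : e n ∈ J := ⟨n, hn1, rfl⟩
    rw [hJ, Ideal.span_singleton_eq_bot.2 rfl, Ideal.mem_bot] at h1
    have h2 := he n
    rw [h1, map_zero] at h2
    rcases mul_eq_zero.1 h2.symm with h3 | h3
    · exact hq0 (hinj (by rw [h3, map_zero]))
    · exact hn2 h3
  obtain ⟨s, hs⟩ := hψ (Multiplicative.ofAdd 1)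
  have hk : ∀ g : N, ψ (g * s ^ (-(ψ g).toAdd)) = 1 := by
    intro g
    rw [map_mul, map_zpow, hs, ← ofAdd_zsmul]
    rw [smul_eq_mul, mul_one, ofAdd_neg, ofAdd_toAdd, mul_inv_cancel]
  have hdiv : ∀ g : N, ∃ x, e (g * s ^ (-(ψ g).toAdd)) = x * h := by
    intro g
    have h1 : e (g * s ^ (-(ψ g).toAdd)) ∈ J := ⟨_, hk g, rfl⟩
    rw [hJ, Ideal.mem_span_singleton'] at h1
    obtain ⟨a, ha⟩ := h1
    exact ⟨a, ha.symm⟩
  choose D hD using hdiv
  refine ⟨D, fun g g' => ?_, ?_, s, hs, ?_⟩
  · apply mul_right_cancel₀ hh0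
    rw [add_mul, mul_assoc, ← hD, ← hD, ← hD]
    have h1 : g * g' * s ^ (-(ψ (g * g')).toAdd) = (g * s ^ (-(ψ g).toAdd)) *
        (s ^ ((ψ g).toAdd) * (g' * s ^ (-(ψ g').toAdd)) * (s ^ ((ψ g).toAdd))⁻¹) := by
      rw [map_mul, toAdd_mul, neg_add, zpow_add, zpow_neg, zpow_neg]
      have hcomm : (s ^ (ψ g).toAdd)⁻¹ * (s ^ (ψ g').toAdd)⁻¹ =
          (s ^ (ψ g').toAdd)⁻¹ * (s ^ (ψ g).toAdd)⁻¹ := by
        rw [← zpow_neg, ← zpow_neg, ← zpow_add, ← zpow_add, add_comm]
      rw [hcomm]
      group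
    rw [h1, hec, hk, toAdd_one, LaurentPolynomial.T_zero, one_mul, clb_conj ψ e hec _ _ (hk g'),
      map_zpow, hs, ← ofAdd_zsmul, smul_eq_mul, mul_one, toAdd_ofAdd]
  · have h1 : h ∈ J := by
      rw [hJ]
      exact Ideal.mem_span_singleton_self h
    obtain ⟨a, ha1, ha2⟩ := h1
    refine ⟨a, ha1, ?_⟩
    have h2 := hD a
    rw [ha1, toAdd_one, neg_zero, zpow_zero, mul_one, ha2] at h2
    exact (mul_right_cancel₀ hh0 (by rw [one_mul]; exact h2)).symm
  · have h2 := hD s
    rw [hs, toAdd_ofAdd, zpow_neg, zpow_one, mul_inv_cancel, he1] at h2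
    rcases mul_eq_zero.1 h2.symm with h3 | h3
    · exact h3
    · exact absurd h3 hh0

end Q62
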