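import Pool.Agent.W_04c03c_h62.CLDef

/-!
# The surjection onto the lamplighter group
-/

namespace Q62

theorem CLC.coeff_T_mul (n : ℤ) (f : LP) :
    (LaurentPolynomial.T n * f : LP).coeff = shiftEquiv n f.coeff := by
  refine Finsupp.ext fun j => ?_
  rw [shiftEquiv_apply]
  induction f using LaurentPolynomial.induction_on' with
  | add p q hp hq =>
    rw [mul_add]
    simp only [AddMonoidAlgebra.coeff_add, Finsupp.add_apply]
    rw [hp, hq]
  | C_mul_T m a =>
    rw [← LaurentPolynomial.single_eq_C_mul_T]
    unfold LaurentPolynomial.T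
    rw [AddMonoidAlgebra.single_mul_single]
    simp only [AddMonoidAlgebra.coeff_single, one_mul, Finsupp.single_apply]
    congr 1
    apply propext
    constructor <;> intro h <;> linarith

/-- the homomorphism to the lamplighter group -/
noncomputable def CLC.hom {N : Type*} [Group N] (ψ : N →* Multiplicative ℤ) (D : N → LP)
    (hD : ∀ g h, D (g * h) = D g + LaurentPolynomial.T (ψ g).toAdd * D h) : N →* Lamp :=
  MonoidHom.mk' (fun g => ⟨Multiplicative.ofAdd (D g).coeff, ψ g⟩) (by
    intro g h
    refine SemidirectProduct.ext ?_ ?_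
    · show Multiplicative.ofAdd (D (g * h)).coeff =
        Multiplicative.ofAdd (D g).coeff * (shiftHom (ψ g)) (Multiplicative.ofAdd (D h).coeff)
      rw [hD, AddMonoidAlgebra.coeff_add, CLC.coeff_T_mul]
      rfl
    · show ψ (g * h) = ψ g * ψ h
      exact map_mul ψ g h)

theorem CLC.inl_single (H : Subgroup Lamp) (hA : lampA ∈ H) (hS : lampS ∈ H) (j : ℤ) :
    (SemidirectProduct.inl (Multiplicative.ofAdd (Finsupp.single j (1 : ZMod 2))) : Lamp) ∈ H := by
  have h := H.mul_mem (H.mul_mem (H.zpow_mem hS j) hA) (H.inv_mem (H.zpow_mem hS j))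
  have e : lampS ^ j * lampA * (lampS ^ j)⁻¹ =
      (SemidirectProduct.inl (Multiplicative.ofAdd (Finsupp.single j (1 : ZMod 2))) : Lamp) := by
    unfold lampS lampA
    rw [← map_zpow, ← map_inv, ← SemidirectProduct.inl_aut]
    congr 1
    have : (Multiplicative.ofAdd (1 : ℤ)) ^ j = Multiplicative.ofAdd j := by
      rw [← ofAdd_zsmul]
      simp
    rw [this]
    show Multiplicative.ofAdd (shiftEquiv j (Finsupp.single 0 1)) = _
    rw [shiftEquiv_single, zero_add]
  rwa [e] at h

theorem CLC.top_of_mem (H : Subgroup Lamp) (hA : lampA ∈ H) (hS : lampS ∈ H) : H = ⊤ := by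
  rw [eq_top_iff]
  rintro ⟨x, n⟩ -
  have h1 : (⟨x, n⟩ : Lamp) = SemidirectProduct.inl x * SemidirectProduct.inr n := by
    refine SemidirectProduct.ext ?_ ?_
    · simp
    · simp
  rw [h1]
  refine H.mul_mem ?_ ?_
  · have key : ∀ f : ℤ →₀ ZMod 2,
        (SemidirectProduct.inl (Multiplicative.ofAdd f) : Lamp) ∈ H := by
      intro f
      induction f using Finsupp.induction_linear with
      | zero =>
        have : (SemidirectProduct.inl (Multiplicative.ofAdd (0 : ℤ →₀ ZMod 2)) : Lamp) = 1 := by
          rw [ofAdd_zero, map_one]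
        rw [this]
        exact H.one_mem
      | add f g hf hg =>
        rw [ofAdd_add, map_mul]
        exact H.mul_mem hf hg
      | single j c =>
        fin_cases c
        · have : (SemidirectProduct.inl (Multiplicative.ofAdd
              (Finsupp.single j (0 : ZMod 2))) : Lamp) = 1 := by
            rw [Finsupp.single_zero, ofAdd_zero, map_one]
          exact this ▸ H.one_mem
        · exact CLC.inl_single H hA hS j
    exact key x.toAdd
  · have h2 : (SemidirectProduct.inr n : Lamp) = lampS ^ n.toAdd := by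
      unfold lampS
      rw [← map_zpow, ← ofAdd_zsmul]
      simp
    rw [h2]
    exact H.zpow_mem hS _

/-- Such a crossed homomorphism gives a surjection onto the lamplighter group.

Proof. Identify `LP` with `ℤ →₀ ZMod 2` by the coefficients (`T n` acts by `shiftEquiv n`). The map
`g ↦ inl (D g) * inr (ψ g)` is a homomorphism `N → Lamp`; its image contains `lampA` (image of `a`)
and `lampS` (image of `s`), which generate `Lamp`: the conjugates `lampS ^ j * lampA * lampS ^ (-j)`
are the elements `inl (single j 1)`, which generate the base group. -/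
theorem lamp_of_LP {N : Type*} [Group N] (ψ : N →* Multiplicative ℤ) (D : N → LP)
    (hD : ∀ g h, D (g * h) = D g + LaurentPolynomial.T (ψ g).toAdd * D h)
    (ha : ∃ a, ψ a = 1 ∧ D a = 1) (hs : ∃ s, ψ s = Multiplicative.ofAdd 1 ∧ D s = 0) :
    ∃ Φ : N →* Lamp, Function.Surjective Φ := by
  refine ⟨CLC.hom ψ D hD, ?_⟩
  rw [← MonoidHom.range_eq_top]
  refine CLC.top_of_mem _ ?_ ?_
  · obtain ⟨a, h1, h2⟩ := ha
    refine ⟨a, ?_⟩
    refine SemidirectProduct.ext ?_ ?_
    · show Multiplicative.ofAdd (D a).coeff = Multiplicative.ofAdd (Finsupp.single 0 1)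
      rw [h2]
      rfl
    · exact h1
  · obtain ⟨s, h1, h2⟩ := hs
    refine ⟨s, ?_⟩
    refine SemidirectProduct.ext ?_ ?_
    · show Multiplicative.ofAdd (D s).coeff = 1
      rw [h2]
      rfl
    · exact h1

end Q62
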