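import Pool.Agent.W_04c03c_h62.Defs

/-!
# Finite presentation for subgroups of finite index
-/

namespace Q62

/-- A subgroup of finite index of a finitely presented group is finitely presented over a free
group.

Proof. Let `φ : FreeGroup (Fin n) → G` be onto with kernel the normal closure of the finite set `S`
(`Group.IsFinitelyPresented.out`). `K = N.comap φ`, `π : K → N` the restriction (onto). `K` has
finite index; let `T` be a finite set of representatives of the right cosets `K t` (finite index).
`R = {t * r * t⁻¹ | t ∈ T, r ∈ S} ⊆ φ.ker ≤ K`. The kernel of `π` is `φ.ker` (as a subgroup of `K`).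
Every conjugate `g * r * g⁻¹` is `k * (t * r * t⁻¹) * k⁻¹` with `g = k * t`, so `φ.ker`, which is the
closure of the conjugates of `S`, is contained in the normal closure of `R` in `K`. -/
theorem FPFree.of_finiteIndex {G : Type*} [Group G] (h : Group.IsFinitelyPresented G)
    (N : Subgroup G) [N.FiniteIndex] : FPFree N := by
  classical
  obtain ⟨n, φ, hφ, S, hS, hSφ⟩ := h.out
  have hKi : (N.comap φ).FiniteIndex :=
    ⟨by rw [Subgroup.index_comap_of_surjective N hφ]; exact Subgroup.FiniteIndex.index_ne_zero⟩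
  have hfin : Finite (FreeGroup (Fin n) ⧸ (N.comap φ)) := Subgroup.finite_quotient_of_finiteIndex
  have hSfin : Finite S := hS
  have hS1 : ∀ r ∈ S, φ r = 1 := by
    intro r hr
    rw [← MonoidHom.mem_ker, ← hSφ]
    exact Subgroup.subset_normalClosure hr
  let c : (FreeGroup (Fin n) ⧸ (N.comap φ)) × S → (N.comap φ) := fun x =>
    ⟨(x.1.out)⁻¹ * (x.2 : FreeGroup (Fin n)) * x.1.out, by
      rw [Subgroup.mem_comap, map_mul, map_mul, hS1 _ x.2.2, mul_one, ← map_mul,
        inv_mul_cancel, map_one]
      exact one_mem _⟩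
  refine ⟨n, N.comap φ, φ.subgroupComap N, Set.range c,
    φ.subgroupComap_surjective_of_surjective N hφ, Set.finite_range c, le_antisymm ?_ ?_⟩
  · have key : φ.ker ≤ (Subgroup.normalClosure (Set.range c)).map (N.comap φ).subtype := by
      rw [← hSφ, Subgroup.normalClosure, Subgroup.closure_le]
      intro x hx
      obtain ⟨r, hr, hrx⟩ := Group.mem_conjugatesOfSet_iff.1 hx
      obtain ⟨g, hg⟩ := isConj_iff.1 hrx
      -- `g⁻¹ = q.out * k`
      have hq : (QuotientGroup.mk g⁻¹ : FreeGroup (Fin n) ⧸ (N.comap φ)).out⁻¹ * g⁻¹ ∈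
          N.comap φ := by
        rw [← QuotientGroup.eq, QuotientGroup.out_eq']
      set q : FreeGroup (Fin n) ⧸ (N.comap φ) := QuotientGroup.mk g⁻¹ with hqdef
      let k : (N.comap φ) := ⟨q.out⁻¹ * g⁻¹, hq⟩
      refine ⟨k⁻¹ * c (q, ⟨r, hr⟩) * k, ?_, ?_⟩
      · have h1 := Subgroup.normalClosure_normal.conj_mem (c (q, ⟨r, hr⟩))
          (Subgroup.subset_normalClosure (Set.mem_range_self (f := c) (q, ⟨r, hr⟩))) k⁻¹
        rwa [inv_inv] at h1
      · change (q.out⁻¹ * g⁻¹)⁻¹ * (q.out⁻¹ * r * q.out) * (q.out⁻¹ * g⁻¹) = x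
        rw [← hg]
        group
    intro k hk
    have hk1 : (k : FreeGroup (Fin n)) ∈ φ.ker := by
      have h1 : φ.subgroupComap N k = 1 := hk
      rw [MonoidHom.mem_ker]
      exact congrArg Subtype.val h1
    obtain ⟨k', hk', hkk⟩ := key hk1
    have h2 : k' = k := Subtype.ext hkk
    rwa [← h2]
  · apply Subgroup.normalClosure_le_normal
    rintro _ ⟨⟨q, r⟩, rfl⟩
    change φ.subgroupComap N (c (q, r)) = 1
    apply Subtype.ext
    change φ (q.out⁻¹ * (r : FreeGroup (Fin n)) * q.out) = 1
    rw [map_mul, map_mul, hS1 _ r.2, mul_one, ← map_mul, inv_mul_cancel, map_one]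

/-- Finitely presented groups are finitely generated, also their subgroups of finite index. -/
theorem FG_of_FP {G : Type*} [Group G] (h : Group.IsFinitelyPresented G) (N : Subgroup G)
    [N.FiniteIndex] : Group.FG N := by
  obtain ⟨n, φ, hφ, -⟩ := h.out
  have hG : Group.FG G := Group.fg_of_surjective hφ
  exact Subgroup.fg_of_index_ne_zero N

end Q62
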