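import Pool.Agent.W_04c03c_h62.Defs

/-!
# From homomorphisms to `ℚ` to surjections onto `ℤ`
-/

namespace Q62

/-- A nonzero homomorphism from a finitely generated group to `ℚ` can be scaled to a surjection
onto `ℤ` with the same kernel.

Proof. Let `S` be a finite generating set and `D` a common denominator of the `φ s`; then
`ψ g = D * φ g` is an integer for all `g` (closure induction), so `ψ : N → ℤ` is a nonzero
homomorphism; its image is `m ℤ` with `m ≠ 0` (`Int.subgroup_cyclic` / `AddSubgroup.zmultiples`);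
put `φ' g = ψ g / m`. -/
theorem exists_surj_int {N : Type*} [Group N] [Group.FG N] (φ : N → ℚ)
    (hadd : ∀ g h, φ (g * h) = φ g + φ h) (hne : ∃ g, φ g ≠ 0) :
    ∃ ψ : N →* Multiplicative ℤ, Function.Surjective ψ ∧ ∀ g, φ g = 0 → ψ g = 1 := by
  classical
  obtain ⟨S, hS⟩ := (Group.FG.out : (⊤ : Subgroup N).FG)
  have h1 : φ 1 = 0 := by
    have := hadd 1 1
    rw [mul_one] at this
    linarith
  have hinv : ∀ g, φ g⁻¹ = - φ g := by
    intro g
    have := hadd g g⁻¹
    rw [mul_inv_cancel, h1] at this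
    linarith
  let D : ℤ := ∏ s ∈ S, ((φ s).den : ℤ)
  have hD : (D : ℚ) ≠ 0 := by
    have : D ≠ 0 := Finset.prod_ne_zero_iff.2 fun s _ => by
      exact_mod_cast (φ s).den_ne_zero
    exact_mod_cast this
  have hint : ∀ g, ∃ k : ℤ, (D : ℚ) * φ g = k := by
    intro g
    have hg : g ∈ Subgroup.closure (S : Set N) := by rw [hS]; trivial
    induction hg using Subgroup.closure_induction with
    | mem s hs =>
      obtain ⟨c, hc⟩ := Finset.dvd_prod_of_mem (fun s => ((φ s).den : ℤ)) (Finset.mem_coe.1 hs)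
      refine ⟨c * (φ s).num, ?_⟩
      have h2 : (D : ℚ) = ((φ s).den : ℚ) * c := by
        have : D = ((φ s).den : ℤ) * c := hc
        rw [this]
        push_cast
        ring
      have h3 : φ s * ((φ s).den : ℚ) = (φ s).num := Rat.mul_den_eq_num (φ s)
      rw [h2]
      push_cast
      rw [← h3]
      ring
    | one => exact ⟨0, by rw [h1]; simp⟩
    | mul x y _ _ hx hy =>
      obtain ⟨a, ha⟩ := hx
      obtain ⟨b, hb⟩ := hy
      exact ⟨a + b, by rw [hadd, mul_add, ha, hb]; push_cast; ring⟩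
    | inv x _ hx =>
      obtain ⟨a, ha⟩ := hx
      exact ⟨-a, by rw [hinv, mul_neg, ha]; push_cast; ring⟩
  choose F hF using hint
  have hFadd : ∀ g h, F (g * h) = F g + F h := by
    intro g h
    have : (F (g * h) : ℚ) = F g + F h := by
      rw [← hF, ← hF, ← hF, hadd]
      ring
    exact_mod_cast this
  have hF1 : F 1 = 0 := by
    have := hFadd 1 1
    rw [mul_one] at this
    omega
  let f0 : Additive N →+ ℤ :=
    { toFun := fun g => F g.toMul
      map_zero' := hF1
      map_add' := fun a b => hFadd _ _ }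
  obtain ⟨m, hm⟩ := Int.subgroup_cyclic f0.range
  have hm0 : m ≠ 0 := by
    rintro rfl
    obtain ⟨g, hg⟩ := hne
    have h4 : F g ∈ f0.range := ⟨Additive.ofMul g, rfl⟩
    rw [hm, ← AddSubgroup.zmultiples_eq_closure, AddSubgroup.mem_zmultiples_iff] at h4
    obtain ⟨k, hk⟩ := h4
    have h5 : F g = 0 := by rw [← hk]; simp
    have h6 := hF g
    rw [h5] at h6
    have : (D : ℚ) * φ g ≠ 0 := mul_ne_zero hD hg
    apply this
    rw [h6]
    simp
  have hdvd : ∀ g, ∃ k : ℤ, F g = k * m := by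
    intro g
    have h4 : F g ∈ f0.range := ⟨Additive.ofMul g, rfl⟩
    rw [hm, ← AddSubgroup.zmultiples_eq_closure, AddSubgroup.mem_zmultiples_iff] at h4
    obtain ⟨k, hk⟩ := h4
    exact ⟨k, by rw [← hk]; simp⟩
  choose E hE using hdvd
  have hEadd : ∀ g h, E (g * h) = E g + E h := by
    intro g h
    have h7 := hFadd g h
    rw [hE, hE, hE, ← add_mul] at h7
    exact mul_right_cancel₀ hm0 h7
  have hE1 : E 1 = 0 := by
    have := hEadd 1 1
    rw [mul_one] at this
    omega
  refine ⟨{ toFun := fun g => Multiplicative.ofAdd (E g)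
            map_one' := by rw [hE1]; rfl
            map_mul' := fun a b => by rw [hEadd]; rfl }, ?_, ?_⟩
  · have h8 : m ∈ f0.range := by
      rw [hm]
      exact AddSubgroup.subset_closure rfl
    obtain ⟨g0, hg0⟩ := h8
    have hEg : E g0.toMul = 1 := by
      have h9 : F g0.toMul = m := hg0
      rw [hE] at h9
      have h10 : E g0.toMul * m = 1 * m := by rw [h9, one_mul]
      exact mul_right_cancel₀ hm0 h10
    have hpow : ∀ n : ℕ, E (g0.toMul ^ n) = n := by
      intro n
      induction n with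
      | zero => simpa using hE1
      | succ n ih => rw [pow_succ, hEadd, ih, hEg]; push_cast; ring
    intro k
    rcases Int.eq_nat_or_neg k.toAdd with ⟨n, hn | hn⟩
    · refine ⟨g0.toMul ^ n, ?_⟩
      show Multiplicative.ofAdd (E (g0.toMul ^ n)) = k
      rw [hpow, ← hn]
      rfl
    · refine ⟨(g0.toMul ^ n)⁻¹, ?_⟩
      show Multiplicative.ofAdd (E (g0.toMul ^ n)⁻¹) = k
      have h11 := hEadd (g0.toMul ^ n) (g0.toMul ^ n)⁻¹
      rw [mul_inv_cancel, hE1, hpow] at h11
      have h12 : E (g0.toMul ^ n)⁻¹ = -(n : ℤ) := by omega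
      rw [h12, ← hn]
      rfl
  · intro g hg
    show Multiplicative.ofAdd (E g) = 1
    have h13 := hF g
    rw [hg, mul_zero, hE] at h13
    have h14 : E g * m = 0 := by exact_mod_cast h13.symm
    have h15 : E g = 0 := by
      rcases mul_eq_zero.1 h14 with h | h
      · exact h
      · exact absurd h hm0
    rw [h15]
    rfl

/-- If a homomorphism to `ℤ` kills `x ^ m` and `y ^ m` (`m > 0`), it kills every element of the form
`x ^ a * y ^ b` of its domain (`x`, `y` commute; they need not be in the domain).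

Proof. `(x ^ a * y ^ b) ^ m = (x ^ m) ^ a * (y ^ m) ^ b`, so `m * φ (x ^ a * y ^ b) = 0`. -/
theorem kills_of_pow {G : Type*} [Group G] (N : Subgroup G) (ψ : N →* Multiplicative ℤ) {x y : G}
    (hxy : x * y = y * x) {m : ℕ} (hm : 0 < m) (hx : x ^ m ∈ N) (hy : y ^ m ∈ N)
    (h1 : ψ ⟨x ^ m, hx⟩ = 1) (h2 : ψ ⟨y ^ m, hy⟩ = 1) (z : N) (a b : ℤ)
    (hz : (z : G) = x ^ a * y ^ b) : ψ z = 1 := by
  have hc : Commute x y := hxy
  have hzm : z ^ m = (⟨x ^ m, hx⟩ : N) ^ a * (⟨y ^ m, hy⟩ : N) ^ b := by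
    apply Subtype.ext
    push_cast
    rw [hz, (hc.zpow_zpow a b).mul_pow]
    congr 1
    · rw [← zpow_natCast, ← zpow_natCast, ← zpow_mul, ← zpow_mul, mul_comm]
    · rw [← zpow_natCast, ← zpow_natCast, ← zpow_mul, ← zpow_mul, mul_comm]
  have h3 : ψ z ^ m = 1 := by
    rw [← map_pow, hzm, map_mul, map_zpow, map_zpow, h1, h2]
    simp
  have h4 : (m : ℤ) * (ψ z).toAdd = 0 := by
    have h5 := congrArg Multiplicative.toAdd h3
    rw [toAdd_pow] at h5
    simpa using h5
  have h6 : (ψ z).toAdd = 0 := by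
    rcases mul_eq_zero.1 h4 with h | h
    · omega
    · exact h
  apply Multiplicative.toAdd.injective
  rw [h6]
  rfl

end Q62
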