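import Pool.Agent.W_04c03c_h62.LampKer
import Pool.Agent.W_04c03c_h62.Theta

/-!
# Finitely presented groups with a lamplighter quotient are large
-/

namespace Q62

/-- A group which is finitely presented over a free group and maps onto the lamplighter group is
large.

Proof. Let `N = K / <<R>>` with `K` a subgroup of a free group, hence free (Nielsen-Schreier,
`subgroupIsFreeOfIsFree`), `π : K → N`. As `K` is free and `alpha : L2 → Lamp` is onto, there is
`lam : K → L2` with `alpha ∘ lam = Φ ∘ π` (`IsFreeGroup.lift`). Choose `wa, ws ∈ K` with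
`Φ (π wa) = lampA`, `Φ (π ws) = lampS`. The elements `lam r` (`r ∈ R`), `lam wa * l2a⁻¹`,
`lam ws * l2s⁻¹` are in the kernel of `alpha`; by `exists_rel_of_finite` they are in
`normalClosure (rel n)` for some `n`. Let `m = n + 1`. By `theta_rel` `theta m` kills them. So
`theta m ∘ lam` kills `R`, hence `π.ker = normalClosure R`, and descends to `f : N → WR m`
(`MonoidHom.liftOfSurjective` or via `QuotientGroup`), `f (π wa) = theta m (lam wa) = theta m l2a`,
`f (π ws) = theta m l2s`. Use `large_of_theta`. -/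
theorem large_of_lamp {N : Type*} [Group N] (hfp : FPFree N) (Φ : N →* Lamp)
    (hΦ : Function.Surjective Φ) : IsLarge N := by
  obtain ⟨n₀, K, π, R, hπ, hR, hker⟩ := hfp
  choose pre hpre using alpha_surjective
  obtain ⟨lam, hlam⟩ : ∃ lam : K →* L2, ∀ k, alpha (lam k) = Φ (π k) := by
    refine ⟨IsFreeGroup.lift (fun x => pre (Φ (π (IsFreeGroup.of x)))), ?_⟩
    have h : alpha.comp (IsFreeGroup.lift (fun x => pre (Φ (π (IsFreeGroup.of x))))) =
        Φ.comp π := by
      refine IsFreeGroup.ext_hom fun x => ?_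
      rw [MonoidHom.comp_apply, IsFreeGroup.lift_of, hpre, MonoidHom.comp_apply]
    intro k
    exact DFunLike.congr_fun h k
  obtain ⟨na, hna⟩ := hΦ lampA
  obtain ⟨ns, hns⟩ := hΦ lampS
  obtain ⟨wa, hwa⟩ := hπ na
  obtain ⟨ws, hws⟩ := hπ ns
  have haA : alpha l2a = lampA := by
    unfold alpha l2a
    rw [FreeGroup.lift_apply_of]
    rfl
  have haS : alpha l2s = lampS := by
    unfold alpha l2s
    rw [FreeGroup.lift_apply_of]
    rfl
  have hW : (lam '' R ∪ {lam wa * l2a⁻¹, lam ws * l2s⁻¹}).Finite :=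
    (hR.image _).union (Set.toFinite _)
  have hWα : ∀ w ∈ lam '' R ∪ {lam wa * l2a⁻¹, lam ws * l2s⁻¹}, alpha w = 1 := by
    rintro w (⟨r, hr, rfl⟩ | hw | hw)
    · rw [hlam]
      have h1 : r ∈ π.ker := by
        rw [hker]
        exact Subgroup.subset_normalClosure hr
      rw [MonoidHom.mem_ker.mp h1, map_one]
    · rw [hw, map_mul, map_inv, hlam, hwa, hna, haA, mul_inv_cancel]
    · rw [Set.mem_singleton_iff.mp hw, map_mul, map_inv, hlam, hws, hns, haS, mul_inv_cancel]
  obtain ⟨n, hn⟩ := exists_rel_of_finite hW hWα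
  have hkill : ∀ w, w ∈ Subgroup.normalClosure (rel n) → theta (n + 1) w = 1 := by
    intro w hw
    have h1 : Subgroup.normalClosure (rel n) ≤ (theta (n + 1)).ker := by
      refine Subgroup.normalClosure_le_normal fun x hx => ?_
      exact MonoidHom.mem_ker.mpr (theta_rel (Nat.lt_succ_self n) hx)
    exact MonoidHom.mem_ker.mp (h1 hw)
  have hle : π.ker ≤ ((theta (n + 1)).comp lam).ker := by
    rw [hker]
    refine Subgroup.normalClosure_le_normal fun x hx => ?_
    exact MonoidHom.mem_ker.mpr (hkill _ (hn _ (Or.inl ⟨x, hx, rfl⟩)))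
  obtain ⟨f, hf⟩ : ∃ f : N →* WR (n + 1), ∀ k, f (π k) = theta (n + 1) (lam k) := by
    refine ⟨π.liftOfSurjective hπ ⟨(theta (n + 1)).comp lam, hle⟩, fun k => ?_⟩
    exact MonoidHom.liftOfRightInverse_comp_apply _ _ _ _ _
  have hmul : ∀ x y : L2, theta (n + 1) (x * y⁻¹) = 1 → theta (n + 1) x = theta (n + 1) y := by
    intro x y hxy
    rw [map_mul, map_inv] at hxy
    exact mul_inv_eq_one.mp hxy
  refine large_of_theta (Nat.succ_pos n) f ⟨π wa, ?_⟩ ⟨π ws, ?_⟩
  · rw [hf]
    exact hmul _ _ (hkill _ (hn _ (Or.inr (Or.inl rfl))))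
  · rw [hf]
    exact hmul _ _ (hkill _ (hn _ (Or.inr (Or.inr rfl))))

end Q62
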