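import Pool.Agent.W_04c03c_h62.Defs

/-!
# Residually finite groups with few orbits
-/

namespace Q62

open MulAction

/-- Residual finiteness. -/
def ResFin (G : Type*) [Group G] : Prop :=
  ∀ g : G, g ≠ 1 → ∃ N : Subgroup G, N.Normal ∧ N.FiniteIndex ∧ g ∉ N

/-- The index of `Stab(ξ) N` is at most the number of `N`-orbits.

Proof. The map `G ⧸ (stabilizer G ξ ⊔ N) → Ξ/N` which sends the class of `g` to the class of
`g • ξ` need not be well defined, but `Quotient.out` helps: `x ↦ N • (x.out • ξ)` is injective,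
because `n • g • ξ = h • ξ` with `n ∈ N` gives `h⁻¹ * n * g ∈ stabilizer G ξ`, so
`h⁻¹ * g = (h⁻¹ * n * g) * (g⁻¹ * n⁻¹ * g)` is in `stabilizer G ξ ⊔ N` (`N` normal). -/
theorem index_le {G : Type*} [Group G] {Ξ : Type*} [MulAction G Ξ] (ξ : Ξ) (N : Subgroup G)
    (hN : N.Normal) [N.FiniteIndex] (hfin : Finite (orbitRel.Quotient N Ξ)) :
    (stabilizer G ξ ⊔ N).index ≤ Nat.card (orbitRel.Quotient N Ξ) := by
  rw [Subgroup.index]
  refine Nat.card_le_card_of_injective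
    (fun x : G ⧸ (stabilizer G ξ ⊔ N) => (Quotient.mk'' (x.out • ξ) : orbitRel.Quotient N Ξ)) ?_
  intro x y hxy
  have h1 : (orbitRel N Ξ) (x.out • ξ) (y.out • ξ) := Quotient.exact hxy
  rw [orbitRel_apply] at h1
  obtain ⟨n, hn⟩ := h1
  have hn' : (n : G) • y.out • ξ = x.out • ξ := hn
  have h2 : (x.out)⁻¹ * (n : G) * y.out ∈ stabilizer G ξ := by
    rw [mem_stabilizer_iff, mul_smul, mul_smul, hn', inv_smul_smul]
  have h3 : (y.out)⁻¹ * (n : G)⁻¹ * y.out ∈ N := by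
    have := hN.conj_mem (n : G)⁻¹ (N.inv_mem n.2) (y.out)⁻¹
    simpa using this
  have h4 : (x.out)⁻¹ * y.out ∈ stabilizer G ξ ⊔ N := by
    have h5 := Subgroup.mul_mem_sup h2 h3
    have h6 : (x.out)⁻¹ * (n : G) * y.out * ((y.out)⁻¹ * (n : G)⁻¹ * y.out) =
        (x.out)⁻¹ * y.out := by group
    rwa [h6] at h5
  have h7 : (QuotientGroup.mk x.out : G ⧸ (stabilizer G ξ ⊔ N)) = QuotientGroup.mk y.out :=
    QuotientGroup.eq.2 h4
  simpa using h7

/-- If `P` is a commutative subgroup of a residually finite group `G` and `P N` has index at most two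
for all normal subgroups `N` of finite index, then `G` has a commutative subgroup of index at most
two.

Proof. Choose `N₀` (normal, finite index) such that the index of `A = P ⊔ N₀` is as large as possible
(it is `1` or `2`; `N₀ = ⊤` exists). For every `N` the subgroup `P ⊔ (N₀ ⊓ N)` is contained in `A` and
its index is at least that of `A` and at most that of `A` (by maximality), so they are equal
(`Subgroup.eq_of_le_of_card_ge` / relIndex argument: `relIndex * index = index`). Let `a b ∈ A`. If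
`a * b * a⁻¹ * b⁻¹ ≠ 1` choose `N` which does not contain it; write `a = p * n`, `b = q * n'` with
`p, q ∈ P` and `n, n' ∈ N₀ ⊓ N` (`Subgroup.mem_sup_of_normal_right` or
`Subgroup.mul_normal`). In `G ⧸ N` the images of `a, b` are those of `p, q`, which commute; so
`a * b * a⁻¹ * b⁻¹ ∈ N`, contradiction. -/
theorem abelian_of_resFin {G : Type*} [Group G] (hG : ResFin G) (P : Subgroup G)
    (hP : ∀ a ∈ P, ∀ b ∈ P, a * b = b * a)
    (h2 : ∀ N : Subgroup G, N.Normal → N.FiniteIndex → (P ⊔ N).index ≤ 2) :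
    ∃ A : Subgroup G, A.FiniteIndex ∧ A.index ≤ 2 ∧ ∀ a ∈ A, ∀ b ∈ A, a * b = b * a := by
  have hpos : ∀ N : Subgroup G, N.FiniteIndex → (P ⊔ N).index ≠ 0 := by
    intro N hN
    have : (P ⊔ N).FiniteIndex := Subgroup.finiteIndex_of_le (le_sup_right : N ≤ P ⊔ N)
    exact this.index_ne_zero
  obtain ⟨N₀, hN₀, hF₀, hmax⟩ : ∃ N₀ : Subgroup G, N₀.Normal ∧ N₀.FiniteIndex ∧
      ∀ N : Subgroup G, N.Normal → N.FiniteIndex → (P ⊔ N).index ≤ (P ⊔ N₀).index := by
    by_cases hex : ∃ N₀ : Subgroup G, N₀.Normal ∧ N₀.FiniteIndex ∧ (P ⊔ N₀).index = 2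
    · obtain ⟨N₀, a, b, c⟩ := hex
      exact ⟨N₀, a, b, fun N hN hF => by rw [c]; exact h2 N hN hF⟩
    · push Not at hex
      refine ⟨⊤, inferInstance, inferInstance, fun N hN hF => ?_⟩
      have h3 := h2 N hN hF
      have h4 := hex N hN hF
      have h5 := hpos N hF
      have h6 := hpos ⊤ inferInstance
      omega
  have hFA : (P ⊔ N₀).FiniteIndex := Subgroup.finiteIndex_of_le (le_sup_right : N₀ ≤ P ⊔ N₀)
  refine ⟨P ⊔ N₀, hFA, h2 N₀ hN₀ hF₀, ?_⟩
  intro a ha b hb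
  by_contra hab
  have hc : a * b * a⁻¹ * b⁻¹ ≠ 1 := by
    intro h
    apply hab
    have h3 : a * b * a⁻¹ * b⁻¹ * b * a = 1 * b * a := by rw [h]
    simpa [mul_assoc] using h3
  obtain ⟨N, hN, hF, hcN⟩ := hG _ hc
  have hN' : (N₀ ⊓ N).Normal := inferInstance
  have hF' : (N₀ ⊓ N).FiniteIndex := inferInstance
  have hle : P ⊔ (N₀ ⊓ N) ≤ P ⊔ N₀ := sup_le_sup_left inf_le_left P
  have hind := Subgroup.relIndex_mul_index hle
  have hmx := hmax _ hN' hF'
  have hp0 := hpos N₀ hF₀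
  have hp1 := hpos (N₀ ⊓ N) hF'
  have hrel : (P ⊔ (N₀ ⊓ N)).relIndex (P ⊔ N₀) = 1 := by
    rcases Nat.lt_trichotomy ((P ⊔ (N₀ ⊓ N)).relIndex (P ⊔ N₀)) 1 with h | h | h
    · have : (P ⊔ (N₀ ⊓ N)).relIndex (P ⊔ N₀) = 0 := by omega
      rw [this, zero_mul] at hind
      exact absurd hind.symm hp1
    · exact h
    · exfalso
      have h7 : 2 * (P ⊔ N₀).index ≤ (P ⊔ (N₀ ⊓ N)).relIndex (P ⊔ N₀) * (P ⊔ N₀).index :=
        Nat.mul_le_mul_right _ h
      omega
  have hge : P ⊔ N₀ ≤ P ⊔ (N₀ ⊓ N) := Subgroup.relIndex_eq_one.1 hrel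
  have hdec : ∀ x ∈ P ⊔ N₀, ∃ p ∈ P, ∃ n ∈ N, x = p * n := by
    intro x hx
    have hx' : x ∈ ((P ⊔ (N₀ ⊓ N) : Subgroup G) : Set G) := hge hx
    rw [Subgroup.mul_normal] at hx'
    obtain ⟨p, hp, n, hn, rfl⟩ := hx'
    exact ⟨p, hp, n, hn.2, rfl⟩
  obtain ⟨p, hp, n, hn, rfl⟩ := hdec a ha
  obtain ⟨q, hq, n', hn', rfl⟩ := hdec b hb
  apply hcN
  rw [← QuotientGroup.eq_one_iff]
  have e1 : ((n : G) : G ⧸ N) = 1 := (QuotientGroup.eq_one_iff n).2 hn
  have e2 : ((n' : G) : G ⧸ N) = 1 := (QuotientGroup.eq_one_iff n').2 hn'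
  simp only [QuotientGroup.mk_mul, QuotientGroup.mk_inv, e1, e2, mul_one]
  rw [← QuotientGroup.mk_mul, hP p hp q hq, QuotientGroup.mk_mul]
  group

end Q62
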