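import Mathlib

/-!
# Poincare duality pairs of dimension 3 in cells, with torus cusps

`G` is a group, `Ξ` a `G`-set (the set of cusps: its stabilizers are the peripheral subgroups).
-/

namespace Q62

open MulAction

/-- A free `G`-set with finitely many orbits. -/
structure FreeFin (G : Type*) [Group G] (S : Type*) [MulAction G S] : Prop where
  free : ∀ (g : G) (s : S), g • s = s → g = 1
  fin : Finite (orbitRel.Quotient G S)

/-- A `G`-invariant integer matrix with finite rows and finite columns, indexed by `S × T`. -/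
structure IMat (G : Type*) [Group G] (S T : Type*) [MulAction G S] [MulAction G T] where
  row : S → T →₀ ℤ
  col : T → S →₀ ℤ
  tr : ∀ s t, row s t = col t s
  inv : ∀ (g : G) (s : S) (t : T), row (g • s) (g • t) = row s t

namespace IMat

variable {G : Type*} [Group G] {S T : Type*} [MulAction G S] [MulAction G T]

/-- The chain map `ℤ[S] → ℤ[T]` of the matrix. -/
noncomputable def rowMap (M : IMat G S T) : (S →₀ ℤ) →ₗ[ℤ] (T →₀ ℤ) :=
  Finsupp.linearCombination ℤ M.row

/-- The transposed map `ℤ[T] → ℤ[S]` (cochains with finite support). -/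
noncomputable def colMap (M : IMat G S T) : (T →₀ ℤ) →ₗ[ℤ] (S →₀ ℤ) :=
  Finsupp.linearCombination ℤ M.col

end IMat

/-- The weighted sum `x ↦ ∑ w ξ * x ξ`. -/
noncomputable def waug {Ξ : Type*} (w : Ξ → ℤ) : (Ξ →₀ ℤ) →ₗ[ℤ] ℤ :=
  Finsupp.linearCombination ℤ w

/-- `(G, Ξ)` is a Poincare duality pair of dimension 3, in cells: the chains of a free `G`-complex
with cells `S0, S1, S2` resolve `ℤ`, and its cochains with finite support resolve the kernel of
`ℤ[Ξ] → ℤ`, `x ↦ ∑ w ξ * x ξ`, where the signs `w` are equivariant under the orientation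
character `eps`. -/
structure PD (G : Type*) [Group G] (Ξ S0 S1 S2 : Type*) [MulAction G Ξ] [MulAction G S0]
    [MulAction G S1] [MulAction G S2] where
  D1 : IMat G S1 S0
  D2 : IMat G S2 S1
  eta : S2 → Ξ →₀ ℤ
  w : Ξ → ℤˣ
  eps : G →* ℤˣ
  free0 : FreeFin G S0
  free1 : FreeFin G S1
  free2 : FreeFin G S2
  eta_inv : ∀ (g : G) (s : S2) (ξ : Ξ), eta (g • s) (g • ξ) = eta s ξ
  w_inv : ∀ (g : G) (ξ : Ξ), w (g • ξ) = eps g * w ξ
  ne0 : Nonempty S0
  inj2 : Function.Injective D2.rowMap
  ex1 : LinearMap.ker D1.rowMap = LinearMap.range D2.rowMap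
  ex0 : LinearMap.range D1.rowMap = LinearMap.ker (waug fun _ : S0 => 1)
  inj0' : Function.Injective D1.colMap
  ex1' : LinearMap.ker D2.colMap = LinearMap.range D1.colMap
  ex2' : LinearMap.ker (Finsupp.linearCombination ℤ eta) = LinearMap.range D2.colMap
  ex3' : LinearMap.range (Finsupp.linearCombination ℤ eta) = LinearMap.ker (waug fun ξ => (w ξ : ℤ))

/-- A group is large if a subgroup of finite index maps onto a free group of rank two. -/
def IsLarge (G : Type*) [Group G] : Prop :=
  ∃ H : Subgroup G, H.FiniteIndex ∧ ∃ f : H →* FreeGroup (Fin 2), Function.Surjective f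

/-- `N` is finitely presented over some free group. -/
def FPFree (N : Type*) [Group N] : Prop :=
  ∃ (n : ℕ) (K : Subgroup (FreeGroup (Fin n))) (π : K →* N) (R : Set K),
    Function.Surjective π ∧ R.Finite ∧ π.ker = Subgroup.normalClosure R

end Q62
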