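import Pool.Agent.W_04c03c_h62.Defs

/-!
# Bases of the cusp groups
-/

namespace Q62

open MulAction

universe u

/-- Every stabilizer `ℤ²` has a basis `x, y`.

Proof. Transport the standard basis of `ℤ × ℤ` by the isomorphism. -/
theorem exists_basis_of_Z2 {H : Type*} [Group H] (e : Nonempty (H ≃* Multiplicative (ℤ × ℤ))) :
    ∃ x y : H, x * y = y * x ∧ (∀ h : H, ∃ a b : ℤ, h = x ^ a * y ^ b) ∧
      ∀ a b : ℤ, x ^ a * y ^ b = 1 → a = 0 ∧ b = 0 := by
  obtain ⟨f⟩ := e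
  set g : Multiplicative (ℤ × ℤ) →* H := f.symm.toMonoidHom with hg
  have hgf : ∀ h : H, g (f h) = h := fun h => f.symm_apply_apply h
  have hfg : ∀ m, f (g m) = m := fun m => f.apply_symm_apply m
  have key : ∀ a b : ℤ, g (Multiplicative.ofAdd ((1 : ℤ), (0 : ℤ))) ^ a *
      g (Multiplicative.ofAdd ((0 : ℤ), (1 : ℤ))) ^ b =
      g (Multiplicative.ofAdd (a, b)) := by
    intro a b
    rw [← map_zpow g, ← map_zpow g, ← map_mul g, ← ofAdd_zsmul, ← ofAdd_zsmul, ← ofAdd_add]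
    congr 2
    ext <;> simp
  refine ⟨g (Multiplicative.ofAdd ((1 : ℤ), (0 : ℤ))),
    g (Multiplicative.ofAdd ((0 : ℤ), (1 : ℤ))), ?_, ?_, ?_⟩
  · rw [← map_mul g, ← map_mul g]
    exact congrArg g (mul_comm _ _)
  · intro h
    refine ⟨(Multiplicative.toAdd (f h)).1, (Multiplicative.toAdd (f h)).2, ?_⟩
    rw [key]
    exact (hgf h).symm
  · intro a b hab
    rw [key] at hab
    have h1 : Multiplicative.ofAdd ((a, b) : ℤ × ℤ) = 1 := by
      have h2 := congrArg f hab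
      rwa [hfg, map_one] at h2
    have h3 : ((a, b) : ℤ × ℤ) = 0 := Multiplicative.ofAdd.injective h1
    exact Prod.mk_eq_zero.1 h3

end Q62
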