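import Pool.Agent.W_04c03c_h62.Coef

/-!
# Exchange of sums over orbits
-/

namespace Q62

open MulAction

/-- A free `G`-set is the product of its orbit set and `G`. -/
noncomputable def exchEquiv {G : Type*} [Group G] {T : Type*} [MulAction G T]
    (hT : FreeFin G T) : orbitRel.Quotient G T × G ≃ T := by
  refine Equiv.ofBijective (fun p => p.2 • p.1.out) ⟨?_, ?_⟩
  · rintro ⟨r, g⟩ ⟨r', g'⟩ h
    simp only at h
    have hr : r = r' := by
      have h1 : (Quotient.mk _ (g • r.out) : orbitRel.Quotient G T) = r := by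
        refine Eq.trans (Quotient.sound ?_) (Quotient.out_eq r)
        exact ⟨g, rfl⟩
      have h2 : (Quotient.mk _ (g' • r'.out) : orbitRel.Quotient G T) = r' := by
        refine Eq.trans (Quotient.sound ?_) (Quotient.out_eq r')
        exact ⟨g', rfl⟩
      rw [← h1, ← h2, h]
    subst hr
    have h3 : (g'⁻¹ * g) • r.out = r.out := by
      rw [mul_smul, h, inv_smul_smul]
    have h4 := hT.free _ _ h3
    have h5 : g = g' := by
      rw [inv_mul_eq_one] at h4
      exact h4.symm
    rw [h5]
  · intro t
    obtain ⟨g, hg⟩ := Quotient.mk_out (s := orbitRel G T) t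
    simp only at hg
    exact ⟨(Quotient.mk _ t, g⁻¹), by simp only; rw [← hg, inv_smul_smul]⟩

theorem exchEquiv_apply {G : Type*} [Group G] {T : Type*} [MulAction G T]
    (hT : FreeFin G T) (r : orbitRel.Quotient G T) (g : G) :
    exchEquiv hT (r, g) = g • r.out := rfl

theorem exch_split {G : Type*} [Group G] {T : Type*} [MulAction G T]
    {F : Type*} [Field F] (hT : FreeFin G T) (f : T → F) (hf : (Function.support f).Finite) :
    ∑ᶠ t, f t = ∑ᶠ r : orbitRel.Quotient G T, ∑ᶠ g : G, f (g • r.out) := by
  rw [← finsum_comp_equiv (exchEquiv hT)]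
  rw [finsum_curry]
  · rfl
  · exact hf.preimage (exchEquiv hT).injective.injOn

/-- Let `S`, `T` be free `G`-sets with finitely many orbits and `f : S → T → F` a `G`-invariant
function with finite rows and columns. Then the sum of the row sums over representatives of `S/G`
is the sum of the column sums over representatives of `T/G`.

Proof. Every `t : T` is `g • r.out` for a unique orbit `r` and a unique `g : G`, so
`∑ᶠ t, f q.out t = ∑ r, ∑ᶠ g : G, f q.out (g • r.out) = ∑ r, ∑ᶠ g : G, f (g⁻¹ • q.out) r.out`
(bijection `T ≃ (T/G) × G`, finite supports), and in the same way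
`∑ᶠ s, f s r.out = ∑ q, ∑ᶠ g : G, f (g • q.out) r.out`; substitute `g ↦ g⁻¹` and exchange the
two finite sums. -/
theorem exchange {G : Type*} [Group G] {S T : Type*} [MulAction G S] [MulAction G T]
    {F : Type*} [Field F] (hS : FreeFin G S) (hT : FreeFin G T) (f : S → T → F)
    (hf : ∀ (g : G) (s : S) (t : T), f (g • s) (g • t) = f s t)
    (hrow : ∀ s, (Function.support (f s)).Finite)
    (hcol : ∀ t, (Function.support fun s => f s t).Finite) :
    ∑ᶠ q : orbitRel.Quotient G S, ∑ᶠ t, f q.out t =
      ∑ᶠ r : orbitRel.Quotient G T, ∑ᶠ s, f s r.out := by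
  have hL : ∀ q : orbitRel.Quotient G S, ∑ᶠ t, f q.out t =
      ∑ᶠ r : orbitRel.Quotient G T, ∑ᶠ g : G, f q.out (g • r.out) := fun q =>
    exch_split hT _ (hrow _)
  have hR : ∀ r : orbitRel.Quotient G T, ∑ᶠ s, f s r.out =
      ∑ᶠ q : orbitRel.Quotient G S, ∑ᶠ g : G, f q.out (g • r.out) := by
    intro r
    rw [exch_split hS _ (hcol _)]
    refine finsum_congr fun q => ?_
    rw [← finsum_comp_equiv (Equiv.inv G)]
    refine finsum_congr fun g => ?_
    rw [Equiv.inv_apply, ← hf g, smul_inv_smul]
  rw [finsum_congr hL, finsum_congr hR]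
  have := hS.fin
  have := hT.fin
  have := Fintype.ofFinite (orbitRel.Quotient G S)
  have := Fintype.ofFinite (orbitRel.Quotient G T)
  simp only [finsum_eq_sum_of_fintype (α := orbitRel.Quotient G S),
    finsum_eq_sum_of_fintype (α := orbitRel.Quotient G T)]
  exact Finset.sum_comm

end Q62
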