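import Pool.Agent.W_04c03c_h62.BformA
import Pool.Agent.W_04c03c_h62.Exch

/-!
# The pairing vanishes on coboundaries
-/

namespace Q62

open MulAction

section
variable {G : Type*} [Group G] {Ξ S0 S1 S2 : Type*} [MulAction G Ξ] [MulAction G S0]
    [MulAction G S1] [MulAction G S2] (P : PD G Ξ S0 S1 S2)
variable {F : Type*} [Field F] (χ : G →* Fˣ)

theorem bformB_ev_eq_finsum {S F : Type*} [Field F] (u : S → F) (x : S →₀ ℤ) :
    ev u x = ∑ᶠ b, ((x b : ℤ) : F) * u b := by
  unfold ev
  rw [Finsupp.linearCombination_apply, Finsupp.sum, finsum_eq_sum_of_support_subset]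
  · exact Finset.sum_congr rfl fun b _ => zsmul_eq_mul _ _
  · intro b hb
    rw [Function.mem_support] at hb
    rw [Finset.mem_coe, Finsupp.mem_support_iff]
    intro h
    apply hb
    rw [h]
    simp

/-- The pairing vanishes on coboundaries.

Proof. `Bom P ω (P.D2.pull u) = ∑ᶠ q, ev ω (P.eta q.out) * ∑ᶠ b, (P.D2.row q.out b) * u b`. Apply
`exchange` (with `P.free2`, `P.free1`) to
`f s b = ev ω (P.eta s) * ((P.D2.row s b : ℤ) : F) * u b`, which is invariant because
`ev ω (P.eta (g • s)) = χ(g)⁻¹ ..` and `u (g • b) = χ g * u b`; rows and columns are finite by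
`P.D2.row`, `P.D2.col`, `P.D2.tr`. The result is
`∑ᶠ r, u r.out * ∑ᶠ s, (P.D2.col r.out s) * ev ω (P.eta s)`, and the inner sum is
`ev ω (linearCombination eta (P.D2.col r.out)) = ev ω (linearCombination eta (P.D2.colMap (single
r.out 1))) = 0` by `PD.eta_colMap`. -/
theorem Bom_pull {ω : Ξ → F} (hω : ω ∈ VF F χ⁻¹ Ξ) {u : S1 → F} (hu : u ∈ VF F χ S1) :
    Bom P ω (P.D2.pull u) = 0 := by
  unfold Bom
  have h1 : ∀ q : orbitRel.Quotient G S2, ev ω (P.eta q.out) * P.D2.pull u q.out =
      ∑ᶠ b, (fun (s : S2) (b : S1) => ev ω (P.eta s) * (((P.D2.row s b : ℤ) : F) * u b))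
        q.out b := by
    intro q
    unfold IMat.pull
    rw [bformB_ev_eq_finsum u, mul_finsum]
  rw [finsum_congr h1]
  refine (exchange P.free2 P.free1
    (fun (s : S2) (b : S1) => ev ω (P.eta s) * (((P.D2.row s b : ℤ) : F) * u b))
    ?_ ?_ ?_).trans ?_
  rotate_left 3
  · rw [← finsum_zero (α := orbitRel.Quotient G S1)]
    refine finsum_congr fun r => ?_
    have h2 : ∀ s : S2, ev ω (P.eta s) * (((P.D2.row s r.out : ℤ) : F) * u r.out) =
        u r.out * (((P.D2.col r.out s : ℤ) : F) * ev ω (P.eta s)) := by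
      intro s
      rw [P.D2.tr]
      ring
    rw [finsum_congr h2, ← mul_finsum]
    · rw [← bformB_ev_eq_finsum (fun s => ev ω (P.eta s))]
      have h3 : ev (fun s => ev ω (P.eta s)) (P.D2.col r.out) =
          ev ω (Finsupp.linearCombination ℤ P.eta (P.D2.col r.out)) := by
        rw [Finsupp.linearCombination_apply ℤ (v := P.eta), map_finsuppSum]
        unfold ev
        rw [Finsupp.linearCombination_apply]
        refine Finsupp.sum_congr fun s _ => ?_
        rw [map_zsmul]
      have h4 : P.D2.col r.out = P.D2.colMap (Finsupp.single r.out 1) := by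
        unfold IMat.colMap
        rw [Finsupp.linearCombination_single, one_smul]
      rw [h3, h4, P.eta_colMap, map_zero, mul_zero]
  · intro g s b
    rw [P.ev_eta_smul χ hω, P.D2.inv, (mem_VF χ).1 hu g b]
    have h5 : ((χ⁻¹ g : Fˣ) : F) * ((χ g : Fˣ) : F) = 1 := by
      rw [MonoidHom.inv_apply, ← Units.val_mul, inv_mul_cancel, Units.val_one]
    linear_combination (ev ω (P.eta s) * ((P.D2.row s b : ℤ) : F) * u b) * h5
  · intro s
    refine (P.D2.row s).hasFiniteSupport.subset ?_
    intro b hb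
    rw [Function.mem_support] at hb ⊢
    intro h
    apply hb
    rw [h]
    simp
  · intro t
    refine (P.D2.col t).hasFiniteSupport.subset ?_
    intro s hs
    rw [Function.mem_support] at hs ⊢
    intro h
    apply hs
    rw [P.D2.tr, h]
    simp

end

end Q62
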