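import Pool.Agent.W_04c03c_h62.Coef

/-!
# The spaces `VF`
-/

namespace Q62

open MulAction

section
variable {G : Type*} [Group G] {F : Type*} [Field F] (χ : G →* Fˣ)
variable {S : Type*} [MulAction G S]

theorem VDim_delta (s0 : S) (h : ∀ g ∈ stabilizer G s0, χ g = 1) :
    ∃ u ∈ VF F χ S, u s0 = 1 ∧ ∀ s, s ∉ orbit G s0 → u s = 0 := by
  classical
  refine ⟨fun s => if hs : ∃ g : G, g • s0 = s then (χ hs.choose : F) else 0, ?_, ?_, ?_⟩
  · intro g s
    by_cases hs : ∃ g : G, g • s0 = s
    · have hs' : ∃ k : G, k • s0 = g • s := by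
        obtain ⟨k, hk⟩ := hs
        exact ⟨g * k, by rw [mul_smul, hk]⟩
      simp only [dif_pos hs, dif_pos hs']
      have h1 := hs'.choose_spec
      have h2 := hs.choose_spec
      have h3 : ((g * hs.choose)⁻¹ * hs'.choose) • s0 = s0 := by
        rw [mul_smul, h1, inv_smul_eq_iff, mul_smul, h2]
      have h4 := h _ (mem_stabilizer_iff.2 h3)
      rw [map_mul, map_inv, inv_mul_eq_one] at h4
      rw [← h4, map_mul, Units.val_mul]
    · have hs' : ¬ ∃ k : G, k • s0 = g • s := by
        rintro ⟨k, hk⟩
        exact hs ⟨g⁻¹ * k, by rw [mul_smul, hk, inv_smul_smul]⟩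
      simp only [dif_neg hs, dif_neg hs', mul_zero]
  · have hs : ∃ g : G, g • s0 = s0 := ⟨1, one_smul _ _⟩
    simp only [dif_pos hs]
    have := h _ (mem_stabilizer_iff.2 hs.choose_spec)
    rw [this, Units.val_one]
  · intro s hs
    simp only
    rw [dif_neg]
    rintro ⟨g, hg⟩
    exact hs ⟨g, hg⟩

theorem VDim_key (hst : ∀ s : S, ∀ g ∈ stabilizer G s, χ g = 1)
    (hfin : Finite (orbitRel.Quotient G S)) :
    FiniteDimensional F (VF F χ S) ∧
      Module.finrank F (VF F χ S) = Nat.card (orbitRel.Quotient G S) := by
  classical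
  have := Fintype.ofFinite (orbitRel.Quotient G S)
  let r : VF F χ S →ₗ[F] (orbitRel.Quotient G S → F) :=
    { toFun := fun u q => u.1 q.out
      map_add' := fun _ _ => rfl
      map_smul' := fun _ _ => rfl }
  have hr : Function.Injective r := by
    rw [← LinearMap.ker_eq_bot, LinearMap.ker_eq_bot']
    intro u hu
    apply Subtype.ext
    funext s
    have h1 : (Quotient.mk'' s : orbitRel.Quotient G S).out ∈ orbit G s := by
      have := Quotient.exact (s := orbitRel G S)
        (Quotient.out_eq (Quotient.mk'' s : orbitRel.Quotient G S))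
      exact orbitRel_apply.1 this
    obtain ⟨g, hg⟩ := h1
    have h2 : u.1 (Quotient.mk'' s : orbitRel.Quotient G S).out = 0 := congrFun hu _
    have h3 : g • s = (Quotient.mk'' s : orbitRel.Quotient G S).out := hg
    rw [← h3, u.2 g s] at h2
    exact (mul_eq_zero.1 h2).resolve_left (χ g).ne_zero
  choose d hd1 hd2 hd3 using fun s : S => VDim_delta χ s (hst s)
  have hs : Function.Surjective r := by
    intro f
    refine ⟨⟨fun s => f (Quotient.mk'' s) *
      d (Quotient.mk'' s : orbitRel.Quotient G S).out s, ?_⟩, ?_⟩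
    · intro g s
      have h1 : (Quotient.mk'' (g • s) : orbitRel.Quotient G S) = Quotient.mk'' s :=
        Quotient.sound (s := orbitRel G S) (orbitRel_apply.2 ⟨g, rfl⟩)
      simp only
      rw [h1, hd1 _ g s]
      ring
    · funext q
      show f (Quotient.mk'' q.out) * d (Quotient.mk'' q.out : orbitRel.Quotient G S).out q.out = f q
      have h1 : (Quotient.mk'' q.out : orbitRel.Quotient G S) = q := Quotient.out_eq q
      rw [h1, hd2, mul_one]
  let e := LinearEquiv.ofBijective r ⟨hr, hs⟩
  have hfd : FiniteDimensional F (VF F χ S) := e.symm.finiteDimensional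
  refine ⟨hfd, ?_⟩
  rw [e.finrank_eq, Module.finrank_fintype_fun_eq_card, Nat.card_eq_fintype_card]

/-- On the free orbit of `s0` there is a function in `VF` with value `1` at `s0`, zero outside the
orbit.

Proof. `u s = χ g` if `s = g • s0` (`g` is unique by freeness), `u s = 0` if `s` is not in the
orbit. -/
theorem exists_VF_delta (h : FreeFin G S) (s0 : S) :
    ∃ u ∈ VF F χ S, u s0 = 1 ∧ ∀ s, s ∉ orbit G s0 → u s = 0 := by
  refine VDim_delta χ s0 ?_
  intro g hg
  rw [h.free g s0 hg, map_one]

/-- For a free `G`-set with finitely many orbits, `VF` has dimension the number of orbits.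

Proof. Restriction to the representatives `q.out` is a linear isomorphism
`VF F χ S ≃ (orbitRel.Quotient G S → F)`: it is injective because `u (g • q.out) = χ g * u q.out`
and surjective by `exists_VF_delta` (or define the inverse directly). -/
theorem finrank_VF_free (h : FreeFin G S) :
    FiniteDimensional F (VF F χ S) ∧
      Module.finrank F (VF F χ S) = Nat.card (orbitRel.Quotient G S) := by
  refine VDim_key χ ?_ h.fin
  intro s g hg
  rw [h.free g s hg, map_one]

/-- For the trivial character and any `G`-set with finitely many orbits, `VF` (the functions which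
are constant on orbits) has dimension the number of orbits.

Proof. `VF F 1 S` is linearly isomorphic to the functions on the quotient. -/
theorem finrank_VF_one (h : Finite (orbitRel.Quotient G S)) :
    FiniteDimensional F (VF F (1 : G →* Fˣ) S) ∧
      Module.finrank F (VF F (1 : G →* Fˣ) S) = Nat.card (orbitRel.Quotient G S) := by
  refine VDim_key (1 : G →* Fˣ) ?_ h
  intro s g hg
  rfl

/-- If the character is trivial on the stabilizer of `ξ`, some function in `VF` does not vanish at
`ξ`.

Proof. `u (g • ξ) = χ g` on the orbit of `ξ` (well defined), zero elsewhere. -/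
theorem exists_VF_of_stab (ξ : S) (h : ∀ g ∈ stabilizer G ξ, χ g = 1) :
    ∃ u ∈ VF F χ S, u ξ ≠ 0 := by
  obtain ⟨u, hu, h1, -⟩ := VDim_delta χ ξ h
  exact ⟨u, hu, by rw [h1]; exact one_ne_zero⟩

end

end Q62
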