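import Pool.Agent.W_04c03c_h62.BformA
import Pool.Agent.W_04c03c_h62.VDim

/-!
# The kernel of the pairing
-/

namespace Q62

open MulAction

section
variable {G : Type*} [Group G] {Ξ S0 S1 S2 : Type*} [MulAction G Ξ] [MulAction G S0]
    [MulAction G S1] [MulAction G S2] (P : PD G Ξ S0 S1 S2)
variable {F : Type*} [Field F] (χ : G →* Fˣ)

/-- If `ω` pairs to zero with all of `VF F χ S2` then `ev ω` vanishes on all `eta s`.

Proof. For an orbit `q` take `u` from `exists_VF_delta` at `s0 = q.out`: `u q'.out = 0` for `q' ≠ q`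
and `u q.out = 1`, so `Bom P ω u = ev ω (P.eta q.out)`. The other points of the orbit follow by
`ev_eta_smul`. -/
theorem ev_eta_of_Bom {ω : Ξ → F} (hω : ω ∈ VF F χ⁻¹ Ξ)
    (h : ∀ u ∈ VF F χ S2, Bom P ω u = 0) (s : S2) : ev ω (P.eta s) = 0 := by
  obtain ⟨q, hq⟩ : ∃ q : orbitRel.Quotient G S2, q = Quotient.mk _ s := ⟨_, rfl⟩
  obtain ⟨u, huV, hu1, hu0⟩ := exists_VF_delta χ P.free2 q.out
  have h1 : Bom P ω u = ev ω (P.eta q.out) * u q.out := by
    unfold Bom
    refine finsum_eq_single _ q fun q' hne => ?_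
    rw [hu0 q'.out, mul_zero]
    intro hmem
    apply hne
    have h2 : (orbitRel G S2).r q'.out q.out := hmem
    have h3 := Quotient.sound h2
    rwa [Quotient.out_eq, Quotient.out_eq] at h3
  rw [h u huV, hu1, mul_one] at h1
  have h4 : (orbitRel G S2).r q.out s := by
    have h5 : (Quotient.mk (orbitRel G S2) q.out) = Quotient.mk _ s := by
      rw [Quotient.out_eq, hq]
    exact Quotient.exact h5
  obtain ⟨g, hg⟩ := h4
  have hg' : g • s = q.out := hg
  have h6 : s = g⁻¹ • q.out := by rw [← hg', inv_smul_smul]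
  rw [h6, P.ev_eta_smul χ hω, ← h1, mul_zero]

/-- If `ev ω` vanishes on all `eta s`, then `ω` is a multiple of `w`.

Proof. `ev ω` vanishes on `range (linearCombination eta) = ker (waug w)` (`P.ex3'`). If `Ξ` is empty
take `c = 0`. Otherwise fix `ξ0` and put `c = w ξ0 * ω ξ0`. The chain
`single ξ (w ξ) - single ξ0 (w ξ0)` is in `ker (waug w)` because `w ξ * w ξ = 1`; evaluating:
`w ξ * ω ξ = w ξ0 * ω ξ0 = c`, hence `ω ξ = c * w ξ`. -/
theorem eq_w_of_ev_eta {ω : Ξ → F} (h : ∀ s : S2, ev ω (P.eta s) = 0) :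
    ∃ c : F, ∀ ξ, ω ξ = c * (((P.w ξ : ℤˣ) : ℤ) : F) := by
  classical
  have h0 : ∀ x ∈ LinearMap.ker (waug fun ξ => (P.w ξ : ℤ)), ev ω x = 0 := by
    intro x hx
    rw [← P.ex3'] at hx
    obtain ⟨y, rfl⟩ := hx
    induction y using Finsupp.induction_linear with
    | zero => rw [map_zero, map_zero]
    | add a b ha hb => rw [map_add, map_add, ha, hb, add_zero]
    | single s n => rw [Finsupp.linearCombination_single, map_zsmul, h s, smul_zero]
  rcases isEmpty_or_nonempty Ξ with hE | ⟨⟨ξ₀⟩⟩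
  · exact ⟨0, fun ξ => (hE.false ξ).elim⟩
  · have hw : ∀ ξ, ((P.w ξ : ℤˣ) : ℤ) * ((P.w ξ : ℤˣ) : ℤ) = 1 := fun ξ => by
      rw [← Units.val_mul, Int.units_mul_self, Units.val_one]
    refine ⟨(((P.w ξ₀ : ℤˣ) : ℤ) : F) * ω ξ₀, fun ξ => ?_⟩
    have h1 : (Finsupp.single ξ ((P.w ξ : ℤˣ) : ℤ) - Finsupp.single ξ₀ ((P.w ξ₀ : ℤˣ) : ℤ) : Ξ →₀ ℤ) ∈
        LinearMap.ker (waug fun ξ => (P.w ξ : ℤ)) := by
      rw [LinearMap.mem_ker, waug, map_sub, Finsupp.linearCombination_single,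
        Finsupp.linearCombination_single, smul_eq_mul, smul_eq_mul, hw, hw, sub_self]
    have h2 := h0 _ h1
    rw [map_sub, ev_single, ev_single, sub_eq_zero] at h2
    rw [← h2, mul_comm, ← mul_assoc, ← Int.cast_mul, hw, Int.cast_one, one_mul]

end

end Q62
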