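import Pool.Agent.W_04c03c_h62.BformD

/-!
# The pairing: elementary facts
-/

namespace Q62

open MulAction

theorem BformA_ev_add {S F : Type*} [Field F] (u v : S → F) (x : S →₀ ℤ) :
    ev (u + v) x = ev u x + ev v x := by
  induction x using Finsupp.induction_linear with
  | zero => simp
  | add x y hx hy =>
    rw [map_add, map_add, map_add, hx, hy]
    ring
  | single s n =>
    rw [ev_single, ev_single, ev_single, Pi.add_apply]
    ring

theorem BformA_ev_smul {S F : Type*} [Field F] (c : F) (u : S → F) (x : S →₀ ℤ) :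
    ev (c • u) x = c * ev u x := by
  induction x using Finsupp.induction_linear with
  | zero => simp
  | add x y hx hy =>
    rw [map_add, map_add, hx, hy]
    ring
  | single s n =>
    rw [ev_single, ev_single, Pi.smul_apply, smul_eq_mul]
    ring

section
variable {G : Type*} [Group G] {Ξ S0 S1 S2 : Type*} [MulAction G Ξ] [MulAction G S0]
    [MulAction G S1] [MulAction G S2] (P : PD G Ξ S0 S1 S2)
variable {F : Type*} [Field F] (χ : G →* Fˣ)

/-- `eta` is equivariant. -/
theorem PD.eta_smul (g : G) (s : S2) : P.eta (g • s) = (P.eta s).mapDomain (g • ·) := by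
  ext ξ
  have h1 := Finsupp.mapDomain_apply (MulAction.injective g) (P.eta s) (g⁻¹ • ξ)
  have h2 := P.eta_inv g s (g⁻¹ • ξ)
  rw [smul_inv_smul] at h1 h2
  rw [h2]
  exact h1.symm

/-- `ev ω ∘ eta` transforms by `χ⁻¹` if `ω ∈ VF F χ⁻¹ Ξ`. Proof: `eta_smul`, `ev_mapDomain`. -/
theorem PD.ev_eta_smul {ω : Ξ → F} (hω : ω ∈ VF F χ⁻¹ Ξ) (g : G) (s : S2) :
    ev ω (P.eta (g • s)) = ((χ⁻¹ g : Fˣ) : F) * ev ω (P.eta s) := by
  rw [P.eta_smul, ev_mapDomain χ⁻¹ hω]

/-- The composition `ℤ[S1] → ℤ[S2] → ℤ[Ξ]` vanishes. Proof: `P.ex2'`. -/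
theorem PD.eta_colMap (x : S1 →₀ ℤ) :
    Finsupp.linearCombination ℤ P.eta (P.D2.colMap x) = 0 := by
  have h : P.D2.colMap x ∈ LinearMap.ker (Finsupp.linearCombination ℤ P.eta) := by
    rw [P.ex2']
    exact ⟨x, rfl⟩
  exact h

/-- `Bom P ω` is linear in `u` on `VF F χ S2`, as a linear functional, and linear in `ω`.

Proof. The number of orbits is finite (`P.free2.fin`), so the finsum is a finite sum;
`finsum_add_distrib` etc. or convert with `finsum_eq_sum_of_fintype`. -/
theorem exists_Blin :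
    ∃ B : (Ξ → F) →ₗ[F] (S2 → F) →ₗ[F] F, ∀ ω u, B ω u = Bom P ω u := by
  have hfin := P.free2.fin
  have hft : Fintype (orbitRel.Quotient G S2) := Fintype.ofFinite _
  have hB : ∀ (ω : Ξ → F) (u : S2 → F), Bom P ω u =
      ∑ q : orbitRel.Quotient G S2, ev ω (P.eta q.out) * u q.out := fun ω u =>
    finsum_eq_sum_of_fintype _
  refine ⟨LinearMap.mk₂ F (Bom P) ?_ ?_ ?_ ?_, fun ω u => rfl⟩
  · intro ω ω' u
    rw [hB, hB, hB, ← Finset.sum_add_distrib]
    refine Finset.sum_congr rfl fun q _ => ?_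
    rw [BformA_ev_add, add_mul]
  · intro c ω u
    rw [hB, hB, smul_eq_mul, Finset.mul_sum]
    refine Finset.sum_congr rfl fun q _ => ?_
    rw [BformA_ev_smul, mul_assoc]
  · intro ω u u'
    rw [hB, hB, hB, ← Finset.sum_add_distrib]
    refine Finset.sum_congr rfl fun q _ => ?_
    rw [Pi.add_apply, mul_add]
  · intro c ω u
    rw [hB, hB, smul_eq_mul, Finset.mul_sum]
    refine Finset.sum_congr rfl fun q _ => ?_
    rw [Pi.smul_apply, smul_eq_mul]
    ring

end

end Q62
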