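import Pool.Agent.W_04c03c_h62.Pull

/-!
# The pairing: definition
-/

namespace Q62

open MulAction

section
variable {G : Type*} [Group G] {Ξ S0 S1 S2 : Type*} [MulAction G Ξ] [MulAction G S0]
    [MulAction G S1] [MulAction G S2] (P : PD G Ξ S0 S1 S2)
variable {F : Type*} [Field F] (χ : G →* Fˣ)

/-- The pairing of `ω : Ξ → F` with `u : S2 → F`. -/
noncomputable def Bom (ω : Ξ → F) (u : S2 → F) : F :=
  ∑ᶠ q : orbitRel.Quotient G S2, ev ω (P.eta q.out) * u q.out

end

end Q62
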