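import Pool.Agent.W_04c03c_h62.CLDef

/-!
# Laurent polynomials over the field with two elements
-/

namespace Q62

theorem LF_char_two : CharP LF 2 := by
  have h := ((algebraMap LP LF).comp (LaurentPolynomial.C : ZMod 2 →+* LP)).injective
  exact charP_of_injective_ringHom h 2

theorem tU_zpow_val (n : ℤ) : ((tU ^ n : LFˣ) : LF) = algebraMap LP LF (LaurentPolynomial.T n) := by
  have h1 : ((tU : LFˣ) : LF) = algebraMap LP LF (LaurentPolynomial.T 1) := rfl
  have h2 : ((tU⁻¹ : LFˣ) : LF) = algebraMap LP LF (LaurentPolynomial.T (-1)) := rfl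
  induction n using Int.induction_on with
  | zero => simp [LaurentPolynomial.T_zero]
  | succ n ih =>
    rw [zpow_add_one, Units.val_mul, ih, h1, ← map_mul, ← LaurentPolynomial.T_add]
  | pred n ih =>
    rw [zpow_sub_one, Units.val_mul, ih, h2, ← map_mul, ← LaurentPolynomial.T_add]
    rfl

/-- `t ≠ 1` in the field of fractions, and `t ^ n = 1` only for `n = 0`. -/
theorem tU_zpow_eq_one {n : ℤ} (h : tU ^ n = 1) : n = 0 := by
  have h1 := congrArg (fun u : LFˣ => (u : LF)) h
  simp only [tU_zpow_val, Units.val_one] at h1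
  rw [← map_one (algebraMap LP LF)] at h1
  have h2 := IsFractionRing.injective LP LF h1
  rw [← LaurentPolynomial.T_zero] at h2
  unfold LaurentPolynomial.T at h2
  exact (AddMonoidAlgebra.single_left_inj one_ne_zero).1 h2

/-- A crossed homomorphism which is not principal does not vanish on the kernel of `ψ`.

Proof. Otherwise, with `ψ s = 1` (generator) and `m = d s / (t - 1)`, one gets
`d (s ^ k) = (t ^ k - 1) * m` for all integers `k`, and every `g` is `n * s ^ k` with `n ∈ ker ψ`,
`k = ψ g`, so `d g = d n + d (s ^ k) = (t ^ (ψ g) - 1) * m`. -/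
theorem exists_ne_zero_ker {N : Type*} [Group N] (ψ : N →* Multiplicative ℤ)
    (hψ : Function.Surjective ψ) (d : N → LF)
    (hd : ∀ g h, d (g * h) = d g + ((chiT ψ g : LFˣ) : LF) * d h)
    (hn : ¬ ∃ m : LF, ∀ g, d g = (((chiT ψ g : LFˣ) : LF) - 1) * m) :
    ∃ n, ψ n = 1 ∧ d n ≠ 0 := by
  by_contra hcon
  push Not at hcon
  apply hn
  obtain ⟨s, hs⟩ := hψ (Multiplicative.ofAdd 1)
  have ht1 : ((tU : LFˣ) : LF) - 1 ≠ 0 := by
    intro h
    have h3 : tU ^ (1 : ℤ) = 1 := by
      rw [zpow_one]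
      apply Units.ext
      rw [Units.val_one]
      exact sub_eq_zero.1 h
    exact one_ne_zero (tU_zpow_eq_one h3)
  have hchs : ∀ k : ℤ, chiT ψ (s ^ k) = tU ^ k := by
    intro k
    rw [chiT_apply, map_zpow, hs, toAdd_zpow]
    simp
  have hd1 : d 1 = 0 := by
    have h4 := hd 1 1
    rw [mul_one, map_one, Units.val_one, one_mul] at h4
    have h5 : d 1 + 0 = d 1 + d 1 := by rw [add_zero]; exact h4
    exact (add_left_cancel h5).symm
  set m : LF := d s / (((tU : LFˣ) : LF) - 1) with hm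
  have hds : d s = (((tU : LFˣ) : LF) - 1) * m := by
    rw [hm]
    field_simp
  have hk : ∀ k : ℤ, d (s ^ k) = (((tU ^ k : LFˣ) : LF) - 1) * m := by
    intro k
    induction k using Int.induction_on with
    | zero => simp [hd1]
    | succ k ih =>
      rw [zpow_add_one, hd, ih, hchs, hds, zpow_add_one, Units.val_mul]
      ring
    | pred k ih =>
      have h6 := hd (s ^ (-(k : ℤ) - 1)) s
      rw [← zpow_add_one, sub_add_cancel, ih, hchs, hds] at h6
      have h7 : ((tU ^ (-(k : ℤ)) : LFˣ) : LF) = ((tU ^ (-(k : ℤ) - 1) : LFˣ) : LF) * (tU : LF) := by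
        rw [← Units.val_mul, ← zpow_add_one, sub_add_cancel]
      rw [h7] at h6
      have h8 : d (s ^ (-(k : ℤ) - 1)) = (((tU ^ (-(k : ℤ) - 1) : LFˣ) : LF) * (tU : LF) - 1) * m -
          ((tU ^ (-(k : ℤ) - 1) : LFˣ) : LF) * ((((tU : LFˣ) : LF) - 1) * m) := by
        rw [h6]
        ring
      rw [h8]
      ring
  refine ⟨m, fun g => ?_⟩
  set k : ℤ := (ψ g).toAdd with hkdef
  have hg : g = (g * (s ^ k)⁻¹) * s ^ k := by group
  have hker : ψ (g * (s ^ k)⁻¹) = 1 := by
    rw [map_mul, map_inv, map_zpow, hs]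
    apply Multiplicative.toAdd.injective
    rw [toAdd_mul, toAdd_inv, toAdd_zpow, ← hkdef]
    simp
  have h9 := hd (g * (s ^ k)⁻¹) (s ^ k)
  rw [← hg, hcon _ hker, hk, chiT_apply, hker, toAdd_one, zpow_zero, Units.val_one, one_mul,
    zero_add] at h9
  rw [h9, chiT_apply]

end Q62
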