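import Pool.Agent.W_04c03c_h62.Lamp

/-!
# From a crossed homomorphism which is not principal to the lamplighter group
-/

namespace Q62

/-- Laurent polynomials over the field with two elements. -/
abbrev LP := LaurentPolynomial (ZMod 2)

/-- Their field of fractions. -/
abbrev LF := FractionRing LP

instance : IsDomain LP := inferInstance

/-- The variable as a unit of the field of fractions. -/
noncomputable def tU : LFˣ := by
  classical
  exact Units.map (algebraMap LP LF).toMonoidHom
    ⟨LaurentPolynomial.T 1, LaurentPolynomial.T (-1), by
      rw [← LaurentPolynomial.T_add]; simp, by rw [← LaurentPolynomial.T_add]; simp⟩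

/-- The character `g ↦ t ^ (φ g)`. -/
noncomputable def chiT {N : Type*} [Group N] (ψ : N →* Multiplicative ℤ) : N →* LFˣ :=
  (zpowersHom LFˣ tU).comp ψ

theorem chiT_apply {N : Type*} [Group N] (ψ : N →* Multiplicative ℤ) (g : N) :
    chiT ψ g = tU ^ (ψ g).toAdd := rfl

end Q62
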