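import Pool.Agent.W_04c03c_h62.Coef

/-!
# Coboundaries preserve equivariance
-/

namespace Q62

open MulAction

section
variable {G : Type*} [Group G] {S T : Type*} [MulAction G S] [MulAction G T]
variable {F : Type*} [Field F] (χ : G →* Fˣ)

/-- Evaluation of an equivariant function on a translated chain.

Proof. `Finsupp.induction_linear` on `x`. -/
theorem ev_mapDomain {u : S → F} (hu : u ∈ VF F χ S) (g : G) (x : S →₀ ℤ) :
    ev u (x.mapDomain (g • ·)) = (χ g : F) * ev u x := by
  induction x using Finsupp.induction_linear with
  | zero => simp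
  | add x y hx hy => rw [Finsupp.mapDomain_add, map_add, hx, hy, map_add, mul_add]
  | single s n =>
    rw [Finsupp.mapDomain_single, ev_single, ev_single, (mem_VF χ).1 hu g s]
    ring

/-- The rows of an invariant matrix are equivariant.

Proof. Evaluate at `t = g • (g⁻¹ • t)` and use `M.inv`. -/
theorem IMat.row_smul (M : IMat G S T) (g : G) (s : S) :
    M.row (g • s) = (M.row s).mapDomain (g • ·) := by
  ext t
  have h1 : t = (fun x : T => g • x) (g⁻¹ • t) := by
    simp
  rw [h1, Finsupp.mapDomain_apply (MulAction.injective g)]
  exact M.inv g s (g⁻¹ • t)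

/-- The columns of an invariant matrix are equivariant. -/
theorem IMat.col_smul (M : IMat G S T) (g : G) (t : T) :
    M.col (g • t) = (M.col t).mapDomain (g • ·) := by
  ext s
  have h1 : s = (fun x : S => g • x) (g⁻¹ • s) := by
    simp
  rw [h1, Finsupp.mapDomain_apply (MulAction.injective g), ← M.tr, ← M.tr]
  exact M.inv g (g⁻¹ • s) t

theorem IMat.pull_mem (M : IMat G S T) {u : T → F} (hu : u ∈ VF F χ T) :
    M.pull u ∈ VF F χ S := by
  intro g s
  unfold IMat.pull
  rw [M.row_smul, ev_mapDomain χ hu]

/-- The chain map commutes with the action.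

Proof. `Finsupp.induction_linear` and `row_smul`. -/
theorem IMat.rowMap_mapDomain (M : IMat G S T) (g : G) (x : S →₀ ℤ) :
    M.rowMap (x.mapDomain (g • ·)) = (M.rowMap x).mapDomain (g • ·) := by
  induction x using Finsupp.induction_linear with
  | zero => simp
  | add x y hx hy =>
    rw [Finsupp.mapDomain_add, map_add, hx, hy, map_add, Finsupp.mapDomain_add]
  | single s n =>
    unfold IMat.rowMap
    rw [Finsupp.mapDomain_single, Finsupp.linearCombination_single,
      Finsupp.linearCombination_single, M.row_smul, Finsupp.mapDomain_smul]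

/-- `M.pull` as a linear map `VF F χ T → VF F χ S`. -/
noncomputable def IMat.pullV (M : IMat G S T) : VF F χ T →ₗ[F] VF F χ S where
  toFun u := ⟨M.pull u.1, M.pull_mem χ u.2⟩
  map_add' := by
    intro u v
    apply Subtype.ext
    funext s
    show ev (u.1 + v.1) (M.row s) = ev u.1 (M.row s) + ev v.1 (M.row s)
    unfold ev
    rw [Finsupp.linearCombination_apply, Finsupp.linearCombination_apply,
      Finsupp.linearCombination_apply]
    simp [smul_add, Finsupp.sum_add]
  map_smul' := by
    intro c u
    apply Subtype.ext
    funext s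
    show ev (c • u.1) (M.row s) = c * ev u.1 (M.row s)
    unfold ev
    rw [Finsupp.linearCombination_apply, Finsupp.linearCombination_apply, Finsupp.mul_sum]
    refine Finsupp.sum_congr fun t _ => ?_
    simp only [Pi.smul_apply, smul_eq_mul, zsmul_eq_mul]
    ring

theorem IMat.pullV_coe (M : IMat G S T) (u : VF F χ T) : (M.pullV χ u : S → F) = M.pull u.1 := rfl

end

end Q62
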