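import Pool.Agent.W_04c03c_h62.FFRXi
import Pool.Agent.W_04c03c_h62.Pull

/-!
# The Euler characteristic of the trivial module, first resolution
-/

namespace Q62

open MulAction

universe u

theorem GM.ker_eq_range {G : Type u} [Group G] {A B C : Type u} [MulAction G A] [MulAction G B]
    [MulAction G C] (f : (A →₀ ℤ) →ₗ[ℤ] (B →₀ ℤ)) (g : (B →₀ ℤ) →ₗ[ℤ] (C →₀ ℤ))
    (hf : ∀ (k : G) (x : A →₀ ℤ), f (x.mapDomain (fun s : A => k • s)) =
      (f x).mapDomain (fun t : B => k • t))
    (hg : ∀ (k : G) (x : B →₀ ℤ), g (x.mapDomain (fun s : B => k • s)) =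
      (g x).mapDomain (fun t : C => k • t))
    (h : LinearMap.ker g = LinearMap.range f) :
    LinearMap.ker (GM.map g hg) = LinearMap.range (GM.map f hf) := by
  ext x
  obtain ⟨z, rfl⟩ := (permRep G B).asModuleEquiv.symm.surjective x
  rw [LinearMap.mem_ker, LinearMap.mem_range]
  constructor
  · intro h1
    have h2 : g z = 0 := by
      rw [← GM.map_apply g hg z, h1, map_zero]
    have h3 : z ∈ LinearMap.ker g := h2
    rw [h] at h3
    obtain ⟨y, hy⟩ := h3
    refine ⟨(permRep G A).asModuleEquiv.symm y, ?_⟩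
    apply (permRep G B).asModuleEquiv.injective
    rw [GM.map_apply f hf y, hy, LinearEquiv.apply_symm_apply]
  · rintro ⟨y', hy⟩
    obtain ⟨y, rfl⟩ := (permRep G A).asModuleEquiv.symm.surjective y'
    have h2 := congrArg (permRep G B).asModuleEquiv hy
    rw [GM.map_apply f hf y, LinearEquiv.apply_symm_apply] at h2
    have h3 : z ∈ LinearMap.ker g := by
      rw [h, ← h2]
      exact ⟨y, rfl⟩
    apply (permRep G C).asModuleEquiv.injective
    rw [GM.map_apply g hg z, map_zero]
    exact h3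

section
variable {G : Type u} [Group G] {Ξ S0 S1 S2 : Type u} [MulAction G Ξ] [MulAction G S0]
    [MulAction G S1] [MulAction G S2] (P : PD G Ξ S0 S1 S2)

include P

/-- `ℤ` (= `GM G PUnit`, trivial action) has Euler characteristic `s0 - s1 + s2`.

Proof. `FFR.four` for `0 → ℤ[S2] → ℤ[S1] → ℤ[S0] → ℤ[PUnit] → 0` with the maps `GM.map` of
`P.D2.rowMap`, `P.D1.rowMap` (equivariance `IMat.rowMap_mapDomain`) and `Finsupp.lmapDomain` of the
constant map (it corresponds to `waug 1` under `x ↦ x PUnit.unit`), exactness `P.inj2`, `P.ex1`,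
`P.ex0`, `P.ne0`; ranks by `GM.FFR_free`. The action of `G` on `PUnit` is the trivial one, given
here as an explicit argument. -/
theorem PD.FFR_Z (a : MulAction G PUnit.{u + 1}) :
    FFR (MonoidAlgebra ℤ G) (GM G PUnit.{u + 1})
      ((Nat.card (orbitRel.Quotient G S0) : ℤ) -
        ((Nat.card (orbitRel.Quotient G S1) : ℤ) - Nat.card (orbitRel.Quotient G S2))) := by
  have hi : ∀ (g : G) (x : S2 →₀ ℤ), P.D2.rowMap (x.mapDomain (fun s : S2 => g • s)) =
      (P.D2.rowMap x).mapDomain (fun t : S1 => g • t) := fun g x => P.D2.rowMap_mapDomain g x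
  have hj : ∀ (g : G) (x : S1 →₀ ℤ), P.D1.rowMap (x.mapDomain (fun s : S1 => g • s)) =
      (P.D1.rowMap x).mapDomain (fun t : S0 => g • t) := fun g x => P.D1.rowMap_mapDomain g x
  let q : (S0 →₀ ℤ) →ₗ[ℤ] (PUnit.{u + 1} →₀ ℤ) :=
    Finsupp.lmapDomain ℤ ℤ (fun _ : S0 => PUnit.unit)
  have hqa : ∀ x : S0 →₀ ℤ, q x = Finsupp.single PUnit.unit ((waug fun _ : S0 => 1) x) := by
    intro x
    induction x using Finsupp.induction_linear with
    | zero => simp
    | add x y hx hy => rw [map_add, hx, hy, map_add, Finsupp.single_add]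
    | single s n =>
      show (Finsupp.single s n).mapDomain _ = _
      rw [Finsupp.mapDomain_single]
      unfold waug
      rw [Finsupp.linearCombination_single, smul_eq_mul, mul_one]
  have hq : ∀ (g : G) (x : S0 →₀ ℤ), q (x.mapDomain (fun s : S0 => g • s)) =
      (q x).mapDomain (fun t : PUnit.{u + 1} => g • t) := by
    intro g x
    show (x.mapDomain (fun s : S0 => g • s)).mapDomain _ = (x.mapDomain _).mapDomain _
    rw [← Finsupp.mapDomain_comp, ← Finsupp.mapDomain_comp]
    rfl
  have h0 : LinearMap.ker q = LinearMap.range P.D1.rowMap := by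
    rw [P.ex0]
    ext x
    rw [LinearMap.mem_ker, LinearMap.mem_ker, hqa, Finsupp.single_eq_zero]
  refine FFR.four (GM.map P.D2.rowMap hi) (GM.map P.D1.rowMap hj) (GM.map q hq) ?_
    (GM.ker_eq_range _ _ hi hj P.ex1) (GM.ker_eq_range _ _ hj hq h0) ?_ (GM.FFR_free P.free2)
    (GM.FFR_free P.free1) (GM.FFR_free P.free0)
  · intro x y hxy
    obtain ⟨x', rfl⟩ := (permRep G S2).asModuleEquiv.symm.surjective x
    obtain ⟨y', rfl⟩ := (permRep G S2).asModuleEquiv.symm.surjective y
    have h2 := congrArg (permRep G S1).asModuleEquiv hxy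
    rw [GM.map_apply _ hi, GM.map_apply _ hi] at h2
    rw [P.inj2 h2]
  · intro y
    obtain ⟨s⟩ := P.ne0
    obtain ⟨z, rfl⟩ := (permRep G PUnit).asModuleEquiv.symm.surjective y
    refine ⟨(permRep G S0).asModuleEquiv.symm (Finsupp.single s (z PUnit.unit)), ?_⟩
    apply (permRep G PUnit).asModuleEquiv.injective
    rw [GM.map_apply q hq, LinearEquiv.apply_symm_apply]
    show (Finsupp.single s (z PUnit.unit)).mapDomain _ = _
    rw [Finsupp.mapDomain_single]
    ext
    simp

end

end Q62
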