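import Pool.Agent.W_04c03c_h62.FFRXi
import Pool.Agent.W_04c03c_h62.Pull

/-!
# The Euler characteristic of the trivial module, dual resolution
-/

namespace Q62

open MulAction

universe u

theorem chiB_map_eq_zero {G : Type u} [Group G] {S T : Type u} [MulAction G S] [MulAction G T]
    (f : (S →₀ ℤ) →ₗ[ℤ] (T →₀ ℤ))
    (hf : ∀ (g : G) (x : S →₀ ℤ), f (x.mapDomain (fun s : S => g • s)) =
      (f x).mapDomain (fun t : T => g • t)) (x : S →₀ ℤ) :
    GM.map f hf ((permRep G S).asModuleEquiv.symm x) = 0 ↔ f x = 0 := by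
  constructor
  · intro h
    have h1 := GM.map_apply f hf x
    rw [h, map_zero] at h1
    exact h1.symm
  · intro h
    apply (permRep G T).asModuleEquiv.injective
    rw [GM.map_apply, h, map_zero]

theorem chiB_ker_range {G : Type u} [Group G] {S T W : Type u} [MulAction G S] [MulAction G T]
    [MulAction G W] (f : (S →₀ ℤ) →ₗ[ℤ] (T →₀ ℤ))
    (hf : ∀ (g : G) (x : S →₀ ℤ), f (x.mapDomain (fun s : S => g • s)) =
      (f x).mapDomain (fun t : T => g • t))
    (g : (T →₀ ℤ) →ₗ[ℤ] (W →₀ ℤ))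
    (hg : ∀ (a : G) (x : T →₀ ℤ), g (x.mapDomain (fun s : T => a • s)) =
      (g x).mapDomain (fun t : W => a • t))
    (h : LinearMap.ker g = LinearMap.range f) :
    LinearMap.ker (GM.map g hg) = LinearMap.range (GM.map f hf) := by
  ext x
  obtain ⟨y, rfl⟩ := (permRep G T).asModuleEquiv.symm.surjective x
  rw [LinearMap.mem_ker, chiB_map_eq_zero, ← LinearMap.mem_ker, h]
  constructor
  · rintro ⟨z, hz⟩
    refine ⟨(permRep G S).asModuleEquiv.symm z, ?_⟩
    apply (permRep G T).asModuleEquiv.injective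
    rw [GM.map_apply, hz, LinearEquiv.apply_symm_apply]
  · rintro ⟨z, hz⟩
    obtain ⟨w, rfl⟩ := (permRep G S).asModuleEquiv.symm.surjective z
    refine ⟨w, ?_⟩
    have h1 := congrArg (permRep G T).asModuleEquiv hz
    rw [GM.map_apply, LinearEquiv.apply_symm_apply] at h1
    exact h1

theorem chiB_inj {G : Type u} [Group G] {S T : Type u} [MulAction G S] [MulAction G T]
    (f : (S →₀ ℤ) →ₗ[ℤ] (T →₀ ℤ))
    (hf : ∀ (g : G) (x : S →₀ ℤ), f (x.mapDomain (fun s : S => g • s)) =
      (f x).mapDomain (fun t : T => g • t)) (h : Function.Injective f) :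
    Function.Injective (GM.map f hf) := by
  rw [injective_iff_map_eq_zero]
  intro x hx
  obtain ⟨y, rfl⟩ := (permRep G S).asModuleEquiv.symm.surjective x
  rw [chiB_map_eq_zero] at hx
  have h1 : y = 0 := h (by rw [hx, map_zero])
  rw [h1, map_zero]

theorem chiB_colMap {G : Type*} [Group G] {S T : Type*} [MulAction G S] [MulAction G T]
    (M : IMat G S T) (g : G) (x : T →₀ ℤ) :
    M.colMap (x.mapDomain (g • ·)) = (M.colMap x).mapDomain (g • ·) := by
  induction x using Finsupp.induction_linear with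
  | zero => simp
  | add x y hx hy =>
    rw [Finsupp.mapDomain_add, map_add, hx, hy, map_add, Finsupp.mapDomain_add]
  | single s n =>
    unfold IMat.colMap
    rw [Finsupp.mapDomain_single, Finsupp.linearCombination_single,
      Finsupp.linearCombination_single, M.col_smul, Finsupp.mapDomain_smul]

theorem chiB_eta {G : Type*} [Group G] {S T : Type*} [MulAction G S] [MulAction G T]
    (η : S → T →₀ ℤ) (hη : ∀ (g : G) (s : S) (t : T), η (g • s) (g • t) = η s t)
    (g : G) (x : S →₀ ℤ) :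
    Finsupp.linearCombination ℤ η (x.mapDomain (g • ·)) =
      (Finsupp.linearCombination ℤ η x).mapDomain (g • ·) := by
  induction x using Finsupp.induction_linear with
  | zero => simp
  | add x y hx hy =>
    rw [Finsupp.mapDomain_add, map_add, hx, hy, map_add, Finsupp.mapDomain_add]
  | single s n =>
    rw [Finsupp.mapDomain_single, Finsupp.linearCombination_single,
      Finsupp.linearCombination_single, Finsupp.mapDomain_smul]
    congr 1
    ext t
    have h1 : t = (fun x : T => g • x) (g⁻¹ • t) := by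
      simp
    rw [h1, Finsupp.mapDomain_apply (MulAction.injective g)]
    exact hη g s (g⁻¹ • t)

theorem chiB_aug_equi {G : Type u} [Group G] {Ξ : Type u} [MulAction G Ξ]
    (a : MulAction G PUnit.{u + 1}) (g : G) (x : Ξ →₀ ℤ) :
    Finsupp.lmapDomain ℤ ℤ (fun _ : Ξ => PUnit.unit.{u + 1})
        (x.mapDomain (fun s : Ξ => g • s)) =
      (Finsupp.lmapDomain ℤ ℤ (fun _ : Ξ => PUnit.unit.{u + 1}) x).mapDomain
        (fun t : PUnit.{u + 1} => g • t) := by
  rw [Finsupp.lmapDomain_apply, Finsupp.lmapDomain_apply, ← Finsupp.mapDomain_comp,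
    ← Finsupp.mapDomain_comp]
  congr 1

theorem chiB_aug_zero {Ξ : Type u} (w : Ξ → ℤ) (hw : ∀ ξ, w ξ = 1) (x : Ξ →₀ ℤ) :
    Finsupp.lmapDomain ℤ ℤ (fun _ : Ξ => PUnit.unit.{u + 1}) x = 0 ↔ waug w x = 0 := by
  have h1 : (Finsupp.lmapDomain ℤ ℤ (fun _ : Ξ => PUnit.unit.{u + 1}) x) PUnit.unit =
      waug w x := by
    induction x using Finsupp.induction_linear with
    | zero => simp
    | add x y hx hy =>
      rw [map_add (waug w), ← hx, ← hy, map_add (Finsupp.lmapDomain ℤ ℤ _)]
      rfl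
    | single s n =>
      rw [Finsupp.lmapDomain_apply, Finsupp.mapDomain_single, Finsupp.single_eq_same]
      unfold waug
      rw [Finsupp.linearCombination_single, hw]
      simp
  rw [← h1]
  constructor
  · intro h
    rw [h]
    rfl
  · intro h
    ext
    exact h

section
variable {G : Type u} [Group G] {Ξ S0 S1 S2 : Type u} [MulAction G Ξ] [MulAction G S0]
    [MulAction G S1] [MulAction G S2] (P : PD G Ξ S0 S1 S2)

include P

/-- If `w` is constant equal to `1`, also the duality gives a resolution: Euler characteristic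
`0 - (s2 - (s1 - s0))` for `ℤ`.

Proof. `0 → ℤ[S0] → ℤ[S1] → ℤ[S2] → Δ → 0` with `Δ` the kernel (a submodule over the group ring) of
`GM.map` of `Finsupp.lmapDomain` of the constant map `GM G Ξ → GM G PUnit`; the maps are `GM.map` of
`P.D1.colMap`, `P.D2.colMap` (equivariance as for `rowMap`) and `linearCombination ℤ P.eta`
with codomain restricted to `Δ`; exactness `P.inj0'`, `P.ex1'`, `P.ex2'`, `P.ex3'`. So
`FFR Δ (s2 - (s1 - s0))` by `FFR.four`. Then `0 → Δ → ℤ[Ξ] → ℤ → 0` is exact (`Ξ` nonempty), and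
`FFR.quotient` with `FFR_cusps` gives `0 - (s2 - (s1 - s0))`. -/
theorem PD.FFR_Z' (a : MulAction G PUnit.{u + 1}) [Nonempty Ξ]
    (hfin : Finite (orbitRel.Quotient G Ξ))
    (hstab : ∀ ξ : Ξ, Nonempty (stabilizer G ξ ≃* Multiplicative (ℤ × ℤ)))
    (hw : ∀ ξ, P.w ξ = 1) :
    FFR (MonoidAlgebra ℤ G) (GM G PUnit.{u + 1})
      (0 - ((Nat.card (orbitRel.Quotient G S2) : ℤ) -
        ((Nat.card (orbitRel.Quotient G S1) : ℤ) - Nat.card (orbitRel.Quotient G S0)))) := by
  have hw' : ∀ ξ, (fun ξ => (P.w ξ : ℤ)) ξ = 1 := by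
    intro ξ
    show ((P.w ξ : ℤˣ) : ℤ) = 1
    rw [hw]
    rfl
  set aug : GM G Ξ →ₗ[MonoidAlgebra ℤ G] GM G PUnit.{u + 1} :=
    GM.map (Finsupp.lmapDomain ℤ ℤ (fun _ : Ξ => PUnit.unit.{u + 1})) (chiB_aug_equi a) with haug
  set i : GM G S0 →ₗ[MonoidAlgebra ℤ G] GM G S1 := GM.map P.D1.colMap (chiB_colMap P.D1) with hi
  set j : GM G S1 →ₗ[MonoidAlgebra ℤ G] GM G S2 := GM.map P.D2.colMap (chiB_colMap P.D2) with hj
  set e : GM G S2 →ₗ[MonoidAlgebra ℤ G] GM G Ξ :=
    GM.map (Finsupp.linearCombination ℤ P.eta) (chiB_eta P.eta P.eta_inv) with he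
  have hker : LinearMap.ker aug = LinearMap.range e := by
    apply chiB_ker_range
    rw [P.ex3']
    ext x
    rw [LinearMap.mem_ker, LinearMap.mem_ker]
    exact chiB_aug_zero _ hw' x
  have hsurj : Function.Surjective aug := by
    intro y
    obtain ⟨y, rfl⟩ := (permRep G PUnit.{u + 1}).asModuleEquiv.symm.surjective y
    obtain ⟨ξ⟩ := (inferInstance : Nonempty Ξ)
    refine ⟨(permRep G Ξ).asModuleEquiv.symm (Finsupp.single ξ (y PUnit.unit)), ?_⟩
    apply (permRep G PUnit.{u + 1}).asModuleEquiv.injective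
    rw [haug, GM.map_apply, LinearEquiv.apply_symm_apply, Finsupp.lmapDomain_apply,
      Finsupp.mapDomain_single]
    ext
    rw [Finsupp.single_eq_same]
  set q : GM G S2 →ₗ[MonoidAlgebra ℤ G] LinearMap.ker aug :=
    e.codRestrict (LinearMap.ker aug) (fun x => by rw [hker]; exact ⟨x, rfl⟩) with hq
  have hqker : LinearMap.ker q = LinearMap.ker e := by
    rw [hq, LinearMap.ker_codRestrict]
  have hqs : Function.Surjective q := by
    rintro ⟨x, hx⟩
    have hx' := hx
    rw [hker] at hx'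
    obtain ⟨y, hy⟩ := hx'
    refine ⟨y, ?_⟩
    apply Subtype.ext
    exact hy
  have h1 : FFR (MonoidAlgebra ℤ G) (LinearMap.ker aug)
      ((Nat.card (orbitRel.Quotient G S2) : ℤ) -
        ((Nat.card (orbitRel.Quotient G S1) : ℤ) - Nat.card (orbitRel.Quotient G S0))) := by
    refine FFR.four i j q ?_ ?_ ?_ hqs (GM.FFR_free P.free0) (GM.FFR_free P.free1)
      (GM.FFR_free P.free2)
    · exact chiB_inj _ _ P.inj0'
    · exact chiB_ker_range _ _ _ _ P.ex1'
    · rw [hqker]
      exact chiB_ker_range _ _ _ _ P.ex2'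
  exact FFR.quotient (LinearMap.ker aug).subtype aug (Submodule.injective_subtype _) hsurj
    (by rw [Submodule.range_subtype]) h1 (FFR_cusps hfin hstab)

end

end Q62
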