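import Pool.Agent.W_04c03c_h62.Defs

/-!
# Change of signs
-/

namespace Q62

open MulAction

universe u

/-- The automorphism `x ↦ (ξ ↦ w ξ * x ξ)` of `ℤ[Ξ]`. -/
noncomputable def signTwist {Ξ : Type*} (w : Ξ → ℤˣ) : (Ξ →₀ ℤ) →ₗ[ℤ] (Ξ →₀ ℤ) :=
  Finsupp.linearCombination ℤ fun ξ => Finsupp.single ξ (w ξ : ℤ)

theorem signTwist_single {Ξ : Type*} (w : Ξ → ℤˣ) (ξ : Ξ) (n : ℤ) :
    signTwist w (Finsupp.single ξ n) = Finsupp.single ξ ((w ξ : ℤ) * n) := by
  unfold signTwist
  rw [Finsupp.linearCombination_single, Finsupp.smul_single, smul_eq_mul, mul_comm]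

theorem signTwist_apply {Ξ : Type*} (w : Ξ → ℤˣ) (x : Ξ →₀ ℤ) (ξ : Ξ) :
    signTwist w x ξ = (w ξ : ℤ) * x ξ := by
  classical
  induction x using Finsupp.induction_linear with
  | zero => simp
  | add x y hx hy => rw [map_add, Finsupp.add_apply, hx, hy, Finsupp.add_apply, mul_add]
  | single s n =>
    rw [signTwist_single, Finsupp.single_apply, Finsupp.single_apply]
    split_ifs with h
    · rw [h]
    · rw [mul_zero]

theorem signTwist_signTwist {Ξ : Type*} (w : Ξ → ℤˣ) (x : Ξ →₀ ℤ) :
    signTwist w (signTwist w x) = x := by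
  ext ξ
  rw [signTwist_apply, signTwist_apply, ← mul_assoc, ← Units.val_mul, Int.units_mul_self,
    Units.val_one, one_mul]

theorem waug_signTwist {Ξ : Type*} (w : Ξ → ℤˣ) (x : Ξ →₀ ℤ) :
    (waug fun ξ => (w ξ : ℤ)) (signTwist w x) = (waug fun _ => 1) x := by
  induction x using Finsupp.induction_linear with
  | zero => simp
  | add x y hx hy => rw [map_add, map_add, hx, hy, map_add]
  | single s n =>
    rw [signTwist_single]
    unfold waug
    rw [Finsupp.linearCombination_single, Finsupp.linearCombination_single, smul_eq_mul,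
      smul_eq_mul, mul_comm (w s : ℤ) n, mul_assoc, ← Units.val_mul, Int.units_mul_self,
      Units.val_one]

section
variable {G : Type u} [Group G] {Ξ S0 S1 S2 : Type u} [MulAction G Ξ] [MulAction G S0]
    [MulAction G S1] [MulAction G S2] (P : PD G Ξ S0 S1 S2)

include P

/-- Change of signs: if `eps` is trivial, the signs `w` can be absorbed into `eta`.

Proof. `eta' s ξ = w ξ * eta s ξ` (as a finsupp: apply the automorphism `x ↦ (ξ ↦ w ξ * x ξ)` of
`ℤ[Ξ]`, which commutes with `G` because `w (g • ξ) = w ξ`), `w' = 1`. The kernel of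
`linearCombination eta'` is that of `linearCombination eta`, and the range is the image of the range
under the automorphism, which maps `ker (waug w)` onto `ker (waug 1)` (`w ξ * w ξ = 1`). -/
theorem PD.exists_w_one (he : ∀ g, P.eps g = 1) :
    ∃ P' : PD G Ξ S0 S1 S2, ∀ ξ, P'.w ξ = 1 := by
  have hlc : ∀ x : S2 →₀ ℤ, Finsupp.linearCombination ℤ (fun s => signTwist P.w (P.eta s)) x =
      signTwist P.w (Finsupp.linearCombination ℤ P.eta x) := by
    intro x
    induction x using Finsupp.induction_linear with
    | zero => simp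
    | add x y hx hy => rw [map_add, hx, hy, map_add, map_add]
    | single s n =>
      rw [Finsupp.linearCombination_single, Finsupp.linearCombination_single, map_smul]
  refine ⟨{ P with
    eta := fun s => signTwist P.w (P.eta s)
    w := fun _ => 1
    eps := 1
    eta_inv := ?_
    w_inv := ?_
    ex2' := ?_
    ex3' := ?_ }, fun ξ => rfl⟩
  · intro g s ξ
    rw [signTwist_apply, signTwist_apply, P.eta_inv, P.w_inv, he, one_mul]
  · intro g ξ
    simp
  · rw [← P.ex2']
    ext x
    rw [LinearMap.mem_ker, LinearMap.mem_ker, hlc]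
    constructor
    · intro h
      have h1 := congrArg (signTwist P.w) h
      rwa [signTwist_signTwist, map_zero] at h1
    · intro h
      rw [h, map_zero]
  · ext y
    have h0 := P.ex3'
    rw [LinearMap.mem_range, LinearMap.mem_ker]
    constructor
    · rintro ⟨x, rfl⟩
      rw [hlc]
      have h1 : Finsupp.linearCombination ℤ P.eta x ∈
          LinearMap.ker (waug fun ξ => (P.w ξ : ℤ)) := by
        rw [← h0]
        exact ⟨x, rfl⟩
      rw [LinearMap.mem_ker] at h1
      have h2 := waug_signTwist P.w (signTwist P.w (Finsupp.linearCombination ℤ P.eta x))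
      rw [signTwist_signTwist, h1] at h2
      simpa using h2.symm
    · intro h
      have h1 : signTwist P.w y ∈ LinearMap.ker (waug fun ξ => (P.w ξ : ℤ)) := by
        rw [LinearMap.mem_ker, waug_signTwist]
        simpa using h
      rw [← h0] at h1
      obtain ⟨x, hx⟩ := h1
      refine ⟨x, ?_⟩
      rw [hlc, hx, signTwist_signTwist]

end

end Q62
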