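import Pool.Agent.W_04c03c_h62.Orb

/-!
# Restriction of the duality data to a subgroup of finite index
-/

namespace Q62

open MulAction

/-- Restriction of an invariant matrix. -/
def IMat.res {G : Type*} [Group G] {S T : Type*} [MulAction G S] [MulAction G T]
    (M : IMat G S T) (N : Subgroup G) : IMat N S T where
  row := M.row
  col := M.col
  tr := M.tr
  inv := fun g s t => M.inv (g : G) s t

/-- Restriction of the duality data to a subgroup of finite index. -/
def PD.res {G : Type*} [Group G] {Ξ S0 S1 S2 : Type*} [MulAction G Ξ] [MulAction G S0]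
    [MulAction G S1] [MulAction G S2] (P : PD G Ξ S0 S1 S2) (N : Subgroup G) [N.FiniteIndex] :
    PD N Ξ S0 S1 S2 where
  D1 := P.D1.res N
  D2 := P.D2.res N
  eta := P.eta
  w := P.w
  eps := P.eps.comp N.subtype
  free0 := (P.free0.sub N).1
  free1 := (P.free1.sub N).1
  free2 := (P.free2.sub N).1
  eta_inv := fun g s ξ => P.eta_inv (g : G) s ξ
  w_inv := fun g ξ => P.w_inv (g : G) ξ
  ne0 := P.ne0
  inj2 := P.inj2
  ex1 := P.ex1
  ex0 := P.ex0
  inj0' := P.inj0'
  ex1' := P.ex1'
  ex2' := P.ex2'
  ex3' := P.ex3'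

end Q62
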