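import Pool.Agent.W_04c03c_h62.ChiA
import Pool.Agent.W_04c03c_h62.ChiB
import Pool.Agent.W_04c03c_h62.ChiC
import Pool.Agent.W_04c03c_h62.Res

/-!
# The Euler characteristic is zero
-/

namespace Q62

open MulAction

universe u

section
variable {G : Type u} [Group G] {Ξ S0 S1 S2 : Type u} [MulAction G Ξ] [MulAction G S0]
    [MulAction G S1] [MulAction G S2] (P : PD G Ξ S0 S1 S2)

include P

/-- The Euler characteristic vanishes if `w = 1`. -/
theorem PD.chi_one [Nonempty Ξ] (hfin : Finite (orbitRel.Quotient G Ξ))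
    (hstab : ∀ ξ : Ξ, Nonempty (stabilizer G ξ ≃* Multiplicative (ℤ × ℤ)))
    (hw : ∀ ξ, P.w ξ = 1) :
    Nat.card (orbitRel.Quotient G S0) + Nat.card (orbitRel.Quotient G S2) =
      Nat.card (orbitRel.Quotient G S1) := by
  let a : MulAction G PUnit.{u + 1} :=
    { smul := fun _ _ => PUnit.unit, one_smul := fun _ => rfl, mul_smul := fun _ _ _ => rfl }
  have h1 := P.FFR_Z a
  have h2 := P.FFR_Z' a hfin hstab hw
  have h3 := h1.unique h2
  omega

end

/-- The stabilizers in the kernel of `eps` are the stabilizers in `G`. -/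
noncomputable def ChiD_stab {G : Type*} [Group G] {Ξ S0 S1 S2 : Type*} [MulAction G Ξ]
    [MulAction G S0] [MulAction G S1] [MulAction G S2] (P : PD G Ξ S0 S1 S2) (ξ : Ξ) :
    stabilizer P.eps.ker ξ ≃* stabilizer G ξ where
  toFun n := ⟨((n : P.eps.ker) : G), n.2⟩
  invFun g := ⟨⟨g, by
    have h1 := P.w_inv g ξ
    have h2 : (g : G) • ξ = ξ := g.2
    rw [h2] at h1
    rw [MonoidHom.mem_ker]
    exact (mul_eq_right.1 h1.symm)⟩, g.2⟩
  left_inv _ := rfl
  right_inv _ := rfl
  map_mul' _ _ := rfl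

/-- The Euler characteristic vanishes.

Proof. Let `N = ker P.eps`, of index one or two. `(P.res N)` has trivial `eps`, so by
`PD.exists_w_one` and `PD.chi_one` (the stabilizers in `N` are isomorphic to the stabilizers in `G`,
because `g • ξ = ξ` implies `eps g = 1` by `P.w_inv`) `s0' + s2' = s1'` for the numbers of
`N`-orbits, `s_i' = N.index * s_i` by `FreeFin.sub`; cancel the index. -/
theorem PD.chi {G : Type u} [Group G] {Ξ S0 S1 S2 : Type u} [MulAction G Ξ] [MulAction G S0]
    [MulAction G S1] [MulAction G S2] (P : PD G Ξ S0 S1 S2) [Nonempty Ξ]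
    (hfin : Finite (orbitRel.Quotient G Ξ))
    (hstab : ∀ ξ : Ξ, Nonempty (stabilizer G ξ ≃* Multiplicative (ℤ × ℤ))) :
    Nat.card (orbitRel.Quotient G S0) + Nat.card (orbitRel.Quotient G S2) =
      Nat.card (orbitRel.Quotient G S1) := by
  have hNi : (P.eps.ker).FiniteIndex := inferInstance
  have he : ∀ g, (P.res P.eps.ker).eps g = 1 := fun g => g.2
  obtain ⟨P', hw⟩ := (P.res P.eps.ker).exists_w_one he
  have hfin' : Finite (orbitRel.Quotient P.eps.ker Ξ) := finite_quotient_sub hfin P.eps.ker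
  have hst : ∀ ξ : Ξ, Nonempty (stabilizer P.eps.ker ξ ≃* Multiplicative (ℤ × ℤ)) := by
    intro ξ
    obtain ⟨φ⟩ := hstab ξ
    exact ⟨(ChiD_stab P ξ).trans φ⟩
  have h1 := P'.chi_one hfin' hst hw
  rw [(P.free0.sub P.eps.ker).2, (P.free1.sub P.eps.ker).2, (P.free2.sub P.eps.ker).2,
    ← Nat.mul_add] at h1
  exact Nat.eq_of_mul_eq_mul_left
    (Nat.pos_of_ne_zero (Subgroup.FiniteIndex.index_ne_zero (H := P.eps.ker))) h1

end Q62
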