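import Pool.Agent.W_04c03c_h62.Defs

/-!
# Cochains with coefficients in a one-dimensional representation: definitions
-/

namespace Q62

open MulAction

section
variable {G : Type*} [Group G] (F : Type*) [Field F] (χ : G →* Fˣ) (S : Type*) [MulAction G S]

/-- Functions `u : S → F` with `u (g • s) = χ g * u s`. -/
def VF : Submodule F (S → F) where
  carrier := {u | ∀ (g : G) (s : S), u (g • s) = (χ g : F) * u s}
  add_mem' := by
    intro a b ha hb g s
    simp only [Pi.add_apply]
    rw [ha, hb, mul_add]
  zero_mem' := by
    intro g s
    simp
  smul_mem' := by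
    intro c u hu g s
    simp only [Pi.smul_apply, smul_eq_mul]
    rw [hu]
    ring

variable {F S}

theorem mem_VF {u : S → F} : u ∈ VF F χ S ↔ ∀ (g : G) (s : S), u (g • s) = (χ g : F) * u s :=
  Iff.rfl

/-- Evaluation of a function `u : S → F` on an integral chain. -/
noncomputable def ev (u : S → F) : (S →₀ ℤ) →ₗ[ℤ] F := Finsupp.linearCombination ℤ u

theorem ev_single (u : S → F) (s : S) (n : ℤ) : ev u (Finsupp.single s n) = (n : F) * u s := by
  simp [ev]

end

section
variable {G : Type*} [Group G] {S T : Type*} [MulAction G S] [MulAction G T]
variable {F : Type*} [Field F] (χ : G →* Fˣ)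

/-- The coboundary of a function `u : T → F` along an invariant matrix. -/
noncomputable def IMat.pull (M : IMat G S T) (u : T → F) : S → F := fun s => ev u (M.row s)

theorem IMat.ev_pull (M : IMat G S T) (u : T → F) (x : S →₀ ℤ) :
    ev (M.pull u) x = ev u (M.rowMap x) := by
  induction x using Finsupp.induction_linear with
  | zero => simp
  | add x y hx hy => rw [map_add, hx, hy, map_add, map_add]
  | single s n =>
    rw [ev_single]
    unfold IMat.pull IMat.rowMap
    rw [Finsupp.linearCombination_single, map_zsmul, zsmul_eq_mul]

end

end Q62
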