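import Pool.Agent.W_04c03c_h62.CrossA

/-!
# Principal crossed homomorphisms come from coboundaries
-/

namespace Q62

open MulAction

section
variable {G : Type*} [Group G] {Ξ S0 S1 S2 : Type*} [MulAction G Ξ] [MulAction G S0]
    [MulAction G S1] [MulAction G S2] (P : PD G Ξ S0 S1 S2)
variable {F : Type*} [Field F] (χ : G →* Fˣ)

/-- If the crossed homomorphism is principal, the cocycle is a coboundary.

Proof. Put `v s = ev u (z s) + m`.
Equivariance: `z (g • s)` and `(z s).mapDomain (g • ·) + z (g • s0)` have the same boundary, so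
`ev u (z (g • s)) = χ g * ev u (z s) + (χ g - 1) * m` and `v (g • s) = χ g * v s`.
`P.D1.pull v b = ∑ row b s * (ev u (z s) + m) = ev u (linearCombination ℤ z (P.D1.row b)) +
m * (waug 1 (P.D1.row b))`; the last term is `0` (`P.ex0`), and `linearCombination ℤ z (P.D1.row b)`
has the boundary `∑ row b s • (single s 1 - single s0 1) = P.D1.row b - 0`, the same as
`single b 1`; so the value is `ev u (single b 1) = u b` by `PD.ev_eq`. -/
theorem PD.principal {s0 : S0} {z : S0 → (S1 →₀ ℤ)}
    (hz : ∀ s, P.D1.rowMap (z s) = Finsupp.single s 1 - Finsupp.single s0 1) {u : S1 → F}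
    (hu : u ∈ VF F χ S1) (hu0 : P.D2.pull u = 0) {m : F}
    (hm : ∀ g : G, ev u (z (g • s0)) = ((χ g : F) - 1) * m) :
    ∃ v ∈ VF F χ S0, P.D1.pull v = u := by
  refine ⟨fun s => ev u (z s) + m, fun g s => ?_, ?_⟩
  · have h1 : ev u (z (g • s)) = ev u ((z s).mapDomain (g • ·) + z (g • s0)) := by
      refine P.ev_eq hu0 ?_
      rw [map_add, IMat.rowMap_mapDomain, hz, hz, hz]
      have h1 : (Finsupp.single s (1 : ℤ) - Finsupp.single s0 1).mapDomain (g • ·) =
          Finsupp.single (g • s) (1 : ℤ) - Finsupp.single (g • s0) 1 := by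
        rw [sub_eq_add_neg, ← Finsupp.single_neg, Finsupp.mapDomain_add, Finsupp.mapDomain_single,
          Finsupp.mapDomain_single, Finsupp.single_neg, ← sub_eq_add_neg]
      rw [h1]
      abel
    simp only
    rw [h1, map_add, ev_mapDomain χ hu, hm]
    ring
  · funext b
    have key : ∀ x : S0 →₀ ℤ, ev (fun s => ev u (z s) + m) x =
        ev u (Finsupp.linearCombination ℤ z x) + (waug (fun _ : S0 => 1) x : ℤ) * m := by
      intro x
      induction x using Finsupp.induction_linear with
      | zero => simp
      | add a b ha hb =>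
        rw [map_add, ha, hb, map_add, map_add, map_add]
        push_cast
        ring
      | single s n =>
        rw [ev_single, Finsupp.linearCombination_single, map_zsmul]
        simp only [waug, Finsupp.linearCombination_single, smul_eq_mul, mul_one, zsmul_eq_mul]
        ring
    have hb : P.D1.row b ∈ LinearMap.ker (waug fun _ : S0 => 1) := by
      rw [← P.ex0]
      refine ⟨Finsupp.single b 1, ?_⟩
      simp [IMat.rowMap]
    rw [LinearMap.mem_ker] at hb
    have hbd : ∀ x : S0 →₀ ℤ, P.D1.rowMap (Finsupp.linearCombination ℤ z x) =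
        x - (waug (fun _ : S0 => 1) x) • Finsupp.single s0 1 := by
      intro x
      induction x using Finsupp.induction_linear with
      | zero => simp
      | add a b ha hb =>
        rw [map_add, map_add, ha, hb, map_add, add_smul]
        abel
      | single s n =>
        rw [Finsupp.linearCombination_single, map_zsmul, hz]
        simp [waug, smul_sub]
    have h2 : ev u (Finsupp.linearCombination ℤ z (P.D1.row b)) = ev u (Finsupp.single b 1) := by
      refine P.ev_eq hu0 ?_
      rw [hbd, hb, zero_smul, sub_zero]
      simp [IMat.rowMap]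
    show ev (fun s => ev u (z s) + m) (P.D1.row b) = u b
    rw [key, h2, hb, ev_single]
    simp

end

end Q62
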