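import Pool.Agent.W_04c03c_h62.Rank
import Pool.Agent.W_04c03c_h62.Cross

/-!
# A crossed homomorphism which is not principal
-/

namespace Q62

open MulAction

section
variable {G : Type*} [Group G] {Ξ S0 S1 S2 : Type*} [MulAction G Ξ] [MulAction G S0]
    [MulAction G S1] [MulAction G S2] (P : PD G Ξ S0 S1 S2)
variable {F : Type*} [Field F] (χ : G →* Fˣ)

include P in
/-- If the Euler characteristic is zero, `char F = 2`, `χ ≠ 1` and there is a nonzero `ω`, then
there is a crossed homomorphism `G → F` which is not principal.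

Proof. `finrank (ker (P.D2.pullV χ)) = #(S1/G) - rank ≥ #(S1/G) - #(S2/G) + 1 = #(S0/G) + 1`
(`rank_two`, `finrank_VF_free`, `hc`), and the range of `P.D1.pullV χ` has dimension at most
`#(S0/G)` (`rank_one`). So there is `u` in the kernel which is not in the range. Take `z` from
`PD.exists_path` and `d g = ev u (z (g • s0))`: crossed by `PD.crossed`, not principal by
`PD.principal`. -/
theorem exists_crossed
    (hc : Nat.card (orbitRel.Quotient G S0) + Nat.card (orbitRel.Quotient G S2) =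
      Nat.card (orbitRel.Quotient G S1))
    (hchar : CharP F 2) (hχ : ∃ g, χ g ≠ 1) {ω : Ξ → F} (hω : ω ∈ VF F χ⁻¹ Ξ) (h0 : ω ≠ 0) :
    ∃ d : G → F, (∀ g h, d (g * h) = d g + (χ g : F) * d h) ∧
      ¬ ∃ m : F, ∀ g, d g = ((χ g : F) - 1) * m := by
  obtain ⟨s0⟩ := P.ne0
  obtain ⟨z, hz⟩ := P.exists_path s0
  have h2 := rank_two P χ hchar hχ hω h0
  have h1 := rank_one P χ
  obtain ⟨hfd1, hd1⟩ := finrank_VF_free (F := F) χ P.free1
  have := hfd1
  have hrn := LinearMap.finrank_range_add_finrank_ker (P.D2.pullV χ)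
  rw [hd1] at hrn
  have hex : ∃ u : VF F χ S1, P.D2.pullV χ u = 0 ∧ u ∉ LinearMap.range (P.D1.pullV χ) := by
    by_contra hcon
    push Not at hcon
    have hle : LinearMap.ker (P.D2.pullV χ) ≤ LinearMap.range (P.D1.pullV χ) := by
      intro u hu
      exact hcon u hu
    have h3 := Submodule.finrank_mono hle
    omega
  obtain ⟨u, hu2, hur⟩ := hex
  have hu0 : P.D2.pull u.1 = 0 := congrArg Subtype.val hu2
  refine ⟨fun g => ev u.1 (z (g • s0)), fun g h => P.crossed χ hz u.2 hu0 g h, ?_⟩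
  rintro ⟨m, hm⟩
  obtain ⟨v, hv, hvu⟩ := P.principal χ hz u.2 hu0 hm
  exact hur ⟨⟨v, hv⟩, Subtype.ext hvu⟩

end

end Q62
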