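import Pool.Agent.W_04c03c_h62.Rank
import Pool.Agent.W_04c03c_h62.Cross

/-!
# Homomorphisms to `ℚ` killing two given elements
-/

namespace Q62

open MulAction

section
variable {G : Type*} [Group G] {Ξ S0 S1 S2 : Type*} [MulAction G Ξ] [MulAction G S0]
    [MulAction G S1] [MulAction G S2] (P : PD G Ξ S0 S1 S2)

include P in
/-- If the Euler characteristic is zero and `G` has at least three orbits on `Ξ`, then for any two
elements `x y : G` there is a nonzero homomorphism `G → ℚ` which kills `x` and `y`.

Proof. `F = ℚ`, `χ = 1`. Let `K` be the kernel of `P.D2.pullV 1`; by `rank_two_one` and `hc`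
`finrank K ≥ #(S1/G) - (#(S2/G) + 1 - k) = #(S0/G) + k - 1 ≥ #(S0/G) + 2`. The subspace `K'` of
those `u ∈ K` with `ev u (z (x • s0)) = 0` and `ev u (z (y • s0)) = 0` (`z` from `PD.exists_path`)
has dimension at least `#(S0/G)`, larger than the dimension of the range of `P.D1.pullV 1`
(`rank_one_one`). So there is `u ∈ K'` not in this range. Put `φ g = ev u (z (g • s0))`:
`PD.crossed` with `χ = 1` gives additivity, and `φ = 0` would imply by `PD.principal` (`m = 0`)
that `u` is in the range. -/
theorem exists_hom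
    (hc : Nat.card (orbitRel.Quotient G S0) + Nat.card (orbitRel.Quotient G S2) =
      Nat.card (orbitRel.Quotient G S1))
    (hfin : Finite (orbitRel.Quotient G Ξ)) (h3 : 3 ≤ Nat.card (orbitRel.Quotient G Ξ)) (x y : G) :
    ∃ φ : G → ℚ, (∀ g h, φ (g * h) = φ g + φ h) ∧ φ x = 0 ∧ φ y = 0 ∧ ∃ g, φ g ≠ 0 := by
  obtain ⟨s0⟩ := P.ne0
  obtain ⟨z, hz⟩ := P.exists_path s0
  have h20 := rank_two_one P (F := ℚ) hfin
  have h10 := rank_one_one P (F := ℚ)
  obtain ⟨hfd1, hd1⟩ := finrank_VF_free (F := ℚ) (1 : G →* ℚˣ) P.free1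
  have := hfd1
  set d1 := P.D1.pullV (1 : G →* ℚˣ) with hd1def
  set d2 := P.D2.pullV (1 : G →* ℚˣ) with hd2def
  have hrn := LinearMap.finrank_range_add_finrank_ker d2
  -- the two functionals
  let f : VF ℚ (1 : G →* ℚˣ) S1 →ₗ[ℚ] (ℚ × ℚ) :=
    { toFun := fun u => (ev u.1 (z (x • s0)), ev u.1 (z (y • s0)))
      map_add' := by
        intro u v
        have h : ∀ c : S1 →₀ ℤ, ev (u.1 + v.1) c = ev u.1 c + ev v.1 c := by
          intro c
          induction c using Finsupp.induction_linear with
          | zero => simp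
          | add a b ha hb => rw [map_add, ha, hb, map_add, map_add]; ring
          | single s n => simp only [ev_single, Pi.add_apply]; ring
        show (ev (u.1 + v.1) _, ev (u.1 + v.1) _) = _
        rw [h, h]
        rfl
      map_smul' := by
        intro r u
        have h : ∀ c : S1 →₀ ℤ, ev (r • u.1) c = r * ev u.1 c := by
          intro c
          induction c using Finsupp.induction_linear with
          | zero => simp
          | add a b ha hb => rw [map_add, ha, hb, map_add]; ring
          | single s n => simp only [ev_single, Pi.smul_apply, smul_eq_mul]; ring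
        show (ev (r • u.1) _, ev (r • u.1) _) = _
        rw [h, h]
        rfl }
  let g : LinearMap.ker d2 →ₗ[ℚ] (ℚ × ℚ) := f ∘ₗ (LinearMap.ker d2).subtype
  have hrg := LinearMap.finrank_range_add_finrank_ker (K := ℚ) (V := LinearMap.ker d2) (V₂ := ℚ × ℚ) g
  have hg2 : Module.finrank ℚ (LinearMap.range g) ≤ 2 := by
    refine (Submodule.finrank_le _).trans ?_
    simp
  have hker : Nat.card (orbitRel.Quotient G S0) ≤ Module.finrank ℚ (LinearMap.ker g) := by
    omega
  -- an element of `ker g` outside of the range of `d1`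
  have hex : ∃ u : VF ℚ (1 : G →* ℚˣ) S1, d2 u = 0 ∧ f u = 0 ∧ u ∉ LinearMap.range d1 := by
    by_contra hcon
    push Not at hcon
    have hle : (LinearMap.ker g).map (LinearMap.ker d2).subtype ≤ LinearMap.range d1 := by
      rintro _ ⟨u, hu, rfl⟩
      exact hcon u.1 u.2 hu
    have h1 := Submodule.finrank_mono hle
    rw [Submodule.finrank_map_subtype_eq] at h1
    omega
  obtain ⟨u, hu2, huf, hur⟩ := hex
  have hu0 : P.D2.pull u.1 = 0 := by
    have := congrArg Subtype.val hu2
    exact this
  refine ⟨fun g => ev u.1 (z (g • s0)), ?_, ?_, ?_, ?_⟩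
  · intro g h
    have := P.crossed (1 : G →* ℚˣ) hz u.2 hu0 g h
    simpa using this
  · exact congrArg Prod.fst huf
  · exact congrArg Prod.snd huf
  · by_contra hcon
    push Not at hcon
    obtain ⟨v, hv, hvu⟩ := P.principal (1 : G →* ℚˣ) hz u.2 hu0 (m := 0) (by
      intro g
      rw [hcon g]
      simp)
    exact hur ⟨⟨v, hv⟩, Subtype.ext hvu⟩

end

end Q62
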