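import Pool.Agent.W_04c03c_h62.Rank
import Pool.Agent.W_04c03c_h62.Cross

/-!
# The first Betti number is at least the number of cusps
-/

namespace Q62

open MulAction

theorem CohC_li {K V W : Type*} [Field K] [AddCommGroup V] [Module K V] [FiniteDimensional K V]
    [AddCommGroup W] [Module K W] (A R : Submodule K V) (Φ : V →ₗ[K] W) {k : ℕ}
    (hr : ∀ u ∈ A, Φ u = 0 → u ∈ R)
    (hk : k + Module.finrank K R ≤ Module.finrank K A) :
    ∃ v : Fin k → V, (∀ i, v i ∈ A) ∧ LinearIndependent K (fun i => Φ (v i)) := by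
  have hrg := LinearMap.finrank_range_add_finrank_ker (Φ ∘ₗ A.subtype)
  have hker : Module.finrank K (LinearMap.ker (Φ ∘ₗ A.subtype)) ≤ Module.finrank K R := by
    have hle : (LinearMap.ker (Φ ∘ₗ A.subtype)).map A.subtype ≤ R := by
      rintro _ ⟨u, hu, rfl⟩
      exact hr u.1 u.2 hu
    have h1 := Submodule.finrank_mono hle
    rw [Submodule.finrank_map_subtype_eq] at h1
    exact h1
  have hk' : k ≤ Module.finrank K (LinearMap.range (Φ ∘ₗ A.subtype)) := by omega
  let b := Module.finBasis K (LinearMap.range (Φ ∘ₗ A.subtype))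
  have hb := b.linearIndependent.comp (Fin.castLE hk') (Fin.castLE_injective hk')
  choose v hv using fun i => (b (Fin.castLE hk' i)).2
  refine ⟨fun i => (v i).1, fun i => (v i).2, ?_⟩
  have h1 := hb.map' (LinearMap.range (Φ ∘ₗ A.subtype)).subtype (Submodule.ker_subtype _)
  have h2 : (fun i => Φ (v i).1) =
      (LinearMap.range (Φ ∘ₗ A.subtype)).subtype ∘ (fun i => b (Fin.castLE hk' i)) := by
    funext i
    exact hv i
  rw [h2]
  exact h1

section
variable {G : Type*} [Group G] {Ξ S0 S1 S2 : Type*} [MulAction G Ξ] [MulAction G S0]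
    [MulAction G S1] [MulAction G S2] (P : PD G Ξ S0 S1 S2)

include P in
/-- If the Euler characteristic is zero, there are as many linearly independent homomorphisms
`G → F` as orbits of `G` on `Ξ`.

Proof. `χ = 1`. Let `K` be the kernel of `P.D2.pullV 1`; by `rank_two_one` and `hc`
`finrank K ≥ #(S1/G) - (#(S2/G) + 1 - k) = #(S0/G) + k - 1`. The linear map
`K → (Additive G →+ F)`, `u ↦ (g ↦ ev u (z (g • s0)))` (`z` from `PD.exists_path`; additivity by
`PD.crossed` with `χ = 1`) has kernel contained in the range of `P.D1.pullV 1` (`PD.principal` with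
`m = 0`), of dimension at most `#(S0/G) - 1` (`rank_one_one`). So its range has dimension at least
`k`; choose `k` linearly independent elements of it. (If `k = 0` there is nothing to prove.) -/
theorem exists_homs (F : Type*) [Field F]
    (hc : Nat.card (orbitRel.Quotient G S0) + Nat.card (orbitRel.Quotient G S2) =
      Nat.card (orbitRel.Quotient G S1))
    (hfin : Finite (orbitRel.Quotient G Ξ)) :
    ∃ f : Fin (Nat.card (orbitRel.Quotient G Ξ)) → (Additive G →+ F), LinearIndependent F f := by
  obtain ⟨s0⟩ := P.ne0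
  obtain ⟨z, hz⟩ := P.exists_path s0
  have h20 := rank_two_one P (F := F) hfin
  have h10 := rank_one_one P (F := F)
  obtain ⟨hfd1, hd1⟩ := finrank_VF_free (F := F) (1 : G →* Fˣ) P.free1
  have := hfd1
  set d1 := P.D1.pullV (1 : G →* Fˣ) with hd1def
  set d2 := P.D2.pullV (1 : G →* Fˣ) with hd2def
  have hrn := LinearMap.finrank_range_add_finrank_ker d2
  have hadd : ∀ (u v : S1 → F) (c : S1 →₀ ℤ), ev (u + v) c = ev u c + ev v c := by
    intro u v c
    induction c using Finsupp.induction_linear with
    | zero => simp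
    | add a b ha hb => rw [map_add, ha, hb, map_add, map_add]; ring
    | single s n => simp only [ev_single, Pi.add_apply]; ring
  have hsmul : ∀ (r : F) (u : S1 → F) (c : S1 →₀ ℤ), ev (r • u) c = r * ev u c := by
    intro r u c
    induction c using Finsupp.induction_linear with
    | zero => simp
    | add a b ha hb => rw [map_add, ha, hb, map_add]; ring
    | single s n => simp only [ev_single, Pi.smul_apply, smul_eq_mul]; ring
  have hcoc : ∀ u ∈ LinearMap.ker d2, P.D2.pull u.1 = 0 := by
    intro u hu
    exact congrArg Subtype.val (LinearMap.mem_ker.1 hu)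
  let Φ : VF F (1 : G →* Fˣ) S1 →ₗ[F] (G → F) :=
    { toFun := fun u g => ev u.1 (z (g • s0))
      map_add' := by
        intro u v
        funext g
        exact hadd u.1 v.1 _
      map_smul' := by
        intro r u
        funext g
        exact hsmul r u.1 _ }
  have hΦ : ∀ (u : VF F (1 : G →* Fˣ) S1) (g : G), Φ u g = ev u.1 (z (g • s0)) :=
    fun _ _ => rfl
  have hker : ∀ u ∈ LinearMap.ker d2, Φ u = 0 → u ∈ LinearMap.range d1 := by
    intro u hu hu0
    obtain ⟨v, hv, hvu⟩ := P.principal (1 : G →* Fˣ) hz u.2 (hcoc u hu) (m := 0) (by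
      intro g
      rw [← hΦ, hu0]
      simp)
    exact ⟨⟨v, hv⟩, Subtype.ext hvu⟩
  have hkk : Nat.card (orbitRel.Quotient G Ξ) + Module.finrank F (LinearMap.range d1) ≤
      Module.finrank F (LinearMap.ker d2) := by
    omega
  obtain ⟨v, hv1, hv⟩ := CohC_li (LinearMap.ker d2) (LinearMap.range d1) Φ hker hkk
  refine ⟨fun i => AddMonoidHom.mk' (fun g => Φ (v i) g.toMul) (by
        intro a b
        have := P.crossed (1 : G →* Fˣ) hz (v i).2 (hcoc (v i) (hv1 i)) a.toMul b.toMul
        simpa [hΦ] using this), ?_⟩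
  let c : (Additive G →+ F) →ₗ[F] (G → F) :=
    { toFun := fun f g => f (Additive.ofMul g)
      map_add' := fun _ _ => rfl
      map_smul' := fun _ _ => rfl }
  exact LinearIndependent.of_comp c hv

end

end Q62
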