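import Pool.Agent.W_04c03c_h62.Rank
import Pool.Agent.W_04c03c_h62.Cross

/-!
# Upper bound for the first Betti number
-/

namespace Q62

open MulAction

section
variable {S : Type*} {F : Type*} [Field F]

theorem CohD_ev_zero (x : S →₀ ℤ) : ev (0 : S → F) x = 0 := by
  induction x using Finsupp.induction_linear with
  | zero => simp
  | add a b ha hb => rw [map_add, ha, hb, add_zero]
  | single s n => rw [ev_single, Pi.zero_apply, mul_zero]

theorem CohD_ev_add (u v : S → F) (x : S →₀ ℤ) : ev (u + v) x = ev u x + ev v x := by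
  induction x using Finsupp.induction_linear with
  | zero => simp
  | add a b ha hb => rw [map_add, ha, hb, map_add, map_add]; ring
  | single s n => simp only [ev_single, Pi.add_apply]; ring

theorem CohD_ev_smul (r : F) (u : S → F) (x : S →₀ ℤ) : ev (r • u) x = r * ev u x := by
  induction x using Finsupp.induction_linear with
  | zero => simp
  | add a b ha hb => rw [map_add, ha, hb, map_add]; ring
  | single s n => simp only [ev_single, Pi.smul_apply, smul_eq_mul]; ring

theorem CohD_ev_sub (u v : S → F) (x : S →₀ ℤ) : ev (u - v) x = ev u x - ev v x := by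
  induction x using Finsupp.induction_linear with
  | zero => simp
  | add a b ha hb => rw [map_add, ha, hb, map_add, map_add]; ring
  | single s n => simp only [ev_single, Pi.sub_apply]; ring

end

/-- An equivariant map of a free `G`-set to `G`. -/
theorem CohD_gamma {G : Type*} [Group G] {S : Type*} [MulAction G S] (h : FreeFin G S) :
    ∃ γ : S → G, ∀ (g : G) (s : S), γ (g • s) = g * γ s := by
  have h1 : ∀ s : S, ∃ g : G, g • (Quotient.mk'' s : orbitRel.Quotient G S).out = s := by
    intro s
    have h2 : s ∈ orbit G (Quotient.mk'' s : orbitRel.Quotient G S).out := by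
      have h3 := Quotient.exact (s := orbitRel G S)
        (Quotient.out_eq (Quotient.mk'' s : orbitRel.Quotient G S)).symm
      exact orbitRel_apply.1 h3
    exact h2
  choose γ hγ using h1
  refine ⟨γ, fun g s => ?_⟩
  have h4 : (Quotient.mk'' (g • s) : orbitRel.Quotient G S) = Quotient.mk'' s :=
    Quotient.sound (s := orbitRel G S) (orbitRel_apply.2 ⟨g, rfl⟩)
  have h5 := hγ (g • s)
  rw [h4] at h5
  have h6 := hγ s
  have h7 : ((g * γ s)⁻¹ * γ (g • s)) • (Quotient.mk'' s : orbitRel.Quotient G S).out =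
      (Quotient.mk'' s : orbitRel.Quotient G S).out := by
    rw [mul_smul, h5, inv_smul_eq_iff, mul_smul, h6]
  have h8 := h.free _ _ h7
  exact (inv_mul_eq_one.1 h8).symm

/-- Independence of a family modulo a subspace gives a bound for dimensions. -/
theorem CohD_dim {K H V : Type*} [Field K] [AddCommGroup H] [Module K H] [AddCommGroup V]
    [Module K V] [FiniteDimensional K V] (A R : Submodule K V) (Ψ : H →ₗ[K] V)
    (hA : ∀ x, Ψ x ∈ A) (hR : R ≤ A) (hi : ∀ x, Ψ x ∈ R → x = 0) {b : ℕ} (f : Fin b → H)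
    (hf : LinearIndependent K f) :
    b + Module.finrank K R ≤ Module.finrank K A := by
  let Θ : ((Fin b → K) × R) →ₗ[K] A :=
    { toFun := fun c => ⟨Ψ (∑ i, c.1 i • f i) + c.2.1, A.add_mem (hA _) (hR c.2.2)⟩
      map_add' := by
        intro c d
        apply Subtype.ext
        show Ψ (∑ i, (c.1 i + d.1 i) • f i) + (c.2.1 + d.2.1) =
          (Ψ (∑ i, c.1 i • f i) + c.2.1) + (Ψ (∑ i, d.1 i • f i) + d.2.1)
        simp only [add_smul, Finset.sum_add_distrib, map_add]
        abel
      map_smul' := by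
        intro r c
        apply Subtype.ext
        show Ψ (∑ i, (r * c.1 i) • f i) + r • c.2.1 = r • (Ψ (∑ i, c.1 i • f i) + c.2.1)
        simp only [mul_smul, ← Finset.smul_sum, map_smul, smul_add] }
  have hΘ : Function.Injective Θ := by
    rw [← LinearMap.ker_eq_bot, LinearMap.ker_eq_bot']
    rintro ⟨c, r⟩ h
    have h1 : Ψ (∑ i, c i • f i) + r.1 = 0 := congrArg Subtype.val h
    have h2 : Ψ (∑ i, c i • f i) ∈ R := by
      rw [eq_neg_of_add_eq_zero_left h1]
      exact R.neg_mem r.2
    have h3 := hi _ h2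
    have h4 := Fintype.linearIndependent_iff.1 hf c h3
    have h5 : c = 0 := funext h4
    rw [h3, map_zero, zero_add] at h1
    rw [h5]
    exact Prod.ext rfl (Subtype.ext h1)
  have h := LinearMap.finrank_le_finrank_of_injective hΘ
  rw [Module.finrank_prod, Module.finrank_fin_fun] at h
  exact h

section
variable {G : Type*} [Group G] {Ξ S0 S1 S2 : Type*} [MulAction G Ξ] [MulAction G S0]
    [MulAction G S1] [MulAction G S2] (P : PD G Ξ S0 S1 S2)

/-- A function on `S0` with zero coboundary is constant.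

Proof. By `PD.exists_path` `single s 1 - single s0 1 = P.D1.rowMap (z s)`; evaluate `v` on it:
`v s - v s0 = ev v (P.D1.rowMap (z s)) = ev (P.D1.pull v) (z s) = 0` (`IMat.ev_pull`). -/
theorem PD.const_of_pull {F : Type*} [Field F] {v : S0 → F} (hv : P.D1.pull v = 0) (s s' : S0) :
    v s = v s' := by
  obtain ⟨s0⟩ := P.ne0
  obtain ⟨z, hz⟩ := P.exists_path s0
  have key : ∀ t, v t = v s0 := by
    intro t
    have h1 : ev (P.D1.pull v) (z t) = ev v (P.D1.rowMap (z t)) := IMat.ev_pull P.D1 v (z t)
    rw [hv, hz t, map_sub, ev_single, ev_single, CohD_ev_zero, Int.cast_one, one_mul,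
      one_mul] at h1
    exact (sub_eq_zero.1 h1.symm)
  rw [key s, key s']

/-- The rank of the first coboundary for the trivial character is at least `#(S0/G) - 1`.

Proof. The kernel of `P.D1.pullV 1` consists of constant functions (`PD.const_of_pull`), so it has
dimension at most one; rank-nullity and `finrank_VF_free`. -/
theorem PD.rank_one_ge (F : Type*) [Field F] :
    Nat.card (orbitRel.Quotient G S0) ≤
      Module.finrank F (LinearMap.range (P.D1.pullV (F := F) (1 : G →* Fˣ))) + 1 := by
  obtain ⟨hfd, hd⟩ := finrank_VF_free (F := F) (1 : G →* Fˣ) P.free0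
  have := hfd
  have hrn := LinearMap.finrank_range_add_finrank_ker (P.D1.pullV (F := F) (1 : G →* Fˣ))
  obtain ⟨s0⟩ := P.ne0
  let r : LinearMap.ker (P.D1.pullV (F := F) (1 : G →* Fˣ)) →ₗ[F] F :=
    { toFun := fun u => u.1.1 s0
      map_add' := fun _ _ => rfl
      map_smul' := fun _ _ => rfl }
  have hr : Function.Injective r := by
    intro u u' hu
    apply Subtype.ext
    apply Subtype.ext
    funext s
    have h1 : P.D1.pull u.1.1 = 0 := congrArg Subtype.val (LinearMap.mem_ker.1 u.2)
    have h2 : P.D1.pull u'.1.1 = 0 := congrArg Subtype.val (LinearMap.mem_ker.1 u'.2)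
    rw [P.const_of_pull h1 s s0, P.const_of_pull h2 s s0]
    exact hu
  have h1 := LinearMap.finrank_le_finrank_of_injective hr
  rw [Module.finrank_self] at h1
  rw [hd] at hrn
  omega

/-- The first Betti number is at most `#(S2/G) - rank + 1`, in the form: if there are `b` linearly
independent homomorphisms, then `b + rank ≤ #(S2/G) + 1`.

Proof. For `φ : Additive G →+ F` choose `v_φ : S0 → F` with `v_φ (g • s) = v_φ s + φ g`
(`v_φ (g • q.out) = φ g` for the representatives `q.out` of the orbits, well defined by freeness),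
linear in `φ`. The function `u_φ = P.D1.pull v_φ` is in `VF F 1 S1` (the constant `φ g` has zero
coboundary because `∑ P.D1.row b = 0` by `P.ex0`), and `P.D2.pull u_φ = 0` (for every `s`,
`P.D1.rowMap (P.D2.row s) = 0` by `P.ex1`). If `u_φ = P.D1.pull v` with `v ∈ VF F 1 S0`, then
`v_φ - v` is constant (`PD.const_of_pull`) and `φ g = v_φ (g • s) - v_φ s = v (g • s) - v s = 0`.
So `φ ↦ u_φ` is an injective linear map of `Additive G →+ F` into
`ker (P.D2.pullV 1) / range (P.D1.pullV 1)` (the range is contained in the kernel), of dimension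
`(#(S1/G) - rank) - rank (P.D1.pullV 1) ≤ #(S1/G) - rank - #(S0/G) + 1 = #(S2/G) - rank + 1`. -/
theorem PD.hom_le (F : Type*) [Field F]
    (hc : Nat.card (orbitRel.Quotient G S0) + Nat.card (orbitRel.Quotient G S2) =
      Nat.card (orbitRel.Quotient G S1))
    {b : ℕ} (f : Fin b → (Additive G →+ F)) (hf : LinearIndependent F f) :
    b + Module.finrank F (LinearMap.range (P.D2.pullV (F := F) (1 : G →* Fˣ))) ≤
      Nat.card (orbitRel.Quotient G S2) + 1 := by
  classical
  obtain ⟨hfd1, hd1⟩ := finrank_VF_free (F := F) (1 : G →* Fˣ) P.free1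
  have := hfd1
  have hrk := P.rank_one_ge F
  obtain ⟨γ, hγ⟩ := CohD_gamma P.free0
  let vf : (Additive G →+ F) → (S0 → F) := fun φ s => φ (Additive.ofMul (γ s))
  have hvf : ∀ (φ : Additive G →+ F) (g : G) (s : S0),
      vf φ (g • s) = vf φ s + φ (Additive.ofMul g) := by
    intro φ g s
    show φ (Additive.ofMul (γ (g • s))) = φ (Additive.ofMul (γ s)) + φ (Additive.ofMul g)
    rw [hγ, ofMul_mul, map_add, add_comm]
  have hrow : ∀ bb : S1, ∀ c : F, ev (fun _ : S0 => c) (P.D1.row bb) = 0 := by
    intro bb c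
    have hb : P.D1.row bb ∈ LinearMap.ker (waug fun _ : S0 => 1) := by
      rw [← P.ex0]
      refine ⟨Finsupp.single bb 1, ?_⟩
      simp [IMat.rowMap]
    rw [LinearMap.mem_ker] at hb
    have h1 : (fun _ : S0 => c) = c • (fun _ : S0 => (1 : F)) := by
      funext s
      simp
    rw [h1, CohD_ev_smul, RankC_ev_one, hb, Int.cast_zero, mul_zero]
  have hmap : ∀ (φ : Additive G →+ F) (g : G) (x : S0 →₀ ℤ),
      ev (vf φ) (x.mapDomain (g • ·)) = ev (vf φ) x + ev (fun _ : S0 => φ (Additive.ofMul g)) x := by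
    intro φ g x
    induction x using Finsupp.induction_linear with
    | zero => simp
    | add a b ha hb =>
      rw [Finsupp.mapDomain_add, map_add, ha, hb, map_add, map_add]
      ring
    | single s n =>
      rw [Finsupp.mapDomain_single, ev_single, ev_single, ev_single, hvf]
      ring
  have hmem : ∀ φ : Additive G →+ F, P.D1.pull (vf φ) ∈ VF F (1 : G →* Fˣ) S1 := by
    intro φ g s
    show ev (vf φ) (P.D1.row (g • s)) = ((1 : G →* Fˣ) g : F) * ev (vf φ) (P.D1.row s)
    rw [P.D1.row_smul, hmap, hrow, add_zero]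
    simp
  let Ψ : (Additive G →+ F) →ₗ[F] VF F (1 : G →* Fˣ) S1 :=
    { toFun := fun φ => ⟨P.D1.pull (vf φ), hmem φ⟩
      map_add' := by
        intro φ ψ
        apply Subtype.ext
        funext s
        exact CohD_ev_add (vf φ) (vf ψ) (P.D1.row s)
      map_smul' := by
        intro r φ
        apply Subtype.ext
        funext s
        exact CohD_ev_smul r (vf φ) (P.D1.row s) }
  have hΨ : ∀ φ, (Ψ φ).1 = P.D1.pull (vf φ) := fun _ => rfl
  have hcc : ∀ v : S0 → F, P.D2.pull (P.D1.pull v) = 0 := by
    intro v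
    funext s
    show ev (P.D1.pull v) (P.D2.row s) = 0
    rw [IMat.ev_pull]
    have h1 : P.D2.row s ∈ LinearMap.ker P.D1.rowMap := by
      rw [P.ex1]
      refine ⟨Finsupp.single s 1, ?_⟩
      simp [IMat.rowMap]
    rw [LinearMap.mem_ker.1 h1, map_zero]
  have hA : ∀ φ, Ψ φ ∈ LinearMap.ker (P.D2.pullV (F := F) (1 : G →* Fˣ)) := by
    intro φ
    rw [LinearMap.mem_ker]
    apply Subtype.ext
    exact hcc (vf φ)
  have hR : LinearMap.range (P.D1.pullV (F := F) (1 : G →* Fˣ)) ≤
      LinearMap.ker (P.D2.pullV (F := F) (1 : G →* Fˣ)) := by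
    rintro _ ⟨v, rfl⟩
    rw [LinearMap.mem_ker]
    apply Subtype.ext
    exact hcc v.1
  have hi : ∀ φ, Ψ φ ∈ LinearMap.range (P.D1.pullV (F := F) (1 : G →* Fˣ)) → φ = 0 := by
    rintro φ ⟨v, hv⟩
    have h1 : P.D1.pull v.1 = P.D1.pull (vf φ) := congrArg Subtype.val hv
    have h2 : P.D1.pull (vf φ - v.1) = 0 := by
      funext s
      show ev (vf φ - v.1) (P.D1.row s) = 0
      rw [CohD_ev_sub]
      exact sub_eq_zero.2 (congrFun h1 s).symm
    obtain ⟨s0⟩ := P.ne0
    refine AddMonoidHom.ext fun g => ?_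
    have h3 := P.const_of_pull h2 (g.toMul • s0) s0
    rw [Pi.sub_apply, Pi.sub_apply, hvf, v.2 g.toMul s0] at h3
    simp only [MonoidHom.one_apply, Units.val_one, one_mul, ofMul_toMul] at h3
    rw [AddMonoidHom.zero_apply]
    linear_combination h3
  have hfin := CohD_dim _ _ Ψ hA hR hi f hf
  have hrn := LinearMap.finrank_range_add_finrank_ker (P.D2.pullV (F := F) (1 : G →* Fˣ))
  rw [hd1] at hrn
  omega

end

end Q62
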