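import Pool.Agent.W_04c03c_h62.Bform

/-!
# The second coboundary, trivial character
-/

namespace Q62

open MulAction

section
variable {G : Type*} [Group G] {Ξ S0 S1 S2 : Type*} [MulAction G Ξ] [MulAction G S0]
    [MulAction G S1] [MulAction G S2] (P : PD G Ξ S0 S1 S2)
variable {F : Type*} [Field F] (χ : G →* Fˣ)

theorem RankB_inv_mem {ω : Ξ → F} (h : ω ∈ VF F (1 : G →* Fˣ) Ξ) :
    ω ∈ VF F (1 : G →* Fˣ)⁻¹ Ξ := by
  intro g s
  have := h g s
  simpa using this

/-- For the trivial character the corank of the second coboundary is at least the number of orbits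
on `Ξ` minus one.

Proof. Let `W = VF F 1 Ξ`, of dimension `k = #(Ξ/G)` (`finrank_VF_one`; note `(1 : G →* Fˣ)⁻¹ = 1`).
The linear map `Λ : W → Dual F (VF F 1 S2)`, `ω ↦ Bom P ω` (from `exists_Blin`) has kernel of
dimension at most one (`ev_eta_of_Bom`, `eq_w_of_ev_eta`: the kernel is contained in the multiples
of `w`). So its image has dimension at least `k - 1`, and it is contained in the dual annihilator
of the range of `P.D2.pullV 1`, which has dimension `#(S2/G) - finrank range`. -/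
theorem rank_two_one (hfin : Finite (orbitRel.Quotient G Ξ)) :
    Module.finrank F (LinearMap.range (P.D2.pullV (1 : G →* Fˣ))) +
        Nat.card (orbitRel.Quotient G Ξ) ≤
      Nat.card (orbitRel.Quotient G S2) + 1 := by
  obtain ⟨B, hB⟩ := exists_Blin P (F := F)
  obtain ⟨hfd, hd⟩ := finrank_VF_free (F := F) (1 : G →* Fˣ) P.free2
  obtain ⟨hfx, hx⟩ := finrank_VF_one (G := G) (F := F) (S := Ξ) hfin
  have := hfd
  have := hfx
  let Λ : VF F (1 : G →* Fˣ) Ξ →ₗ[F] Module.Dual F (VF F (1 : G →* Fˣ) S2) :=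
    (LinearMap.lcomp F F (VF F (1 : G →* Fˣ) S2).subtype) ∘ₗ B ∘ₗ
      (VF F (1 : G →* Fˣ) Ξ).subtype
  have hΛ : ∀ ω u, Λ ω u = Bom P ω.1 u.1 := by
    intro ω u
    rw [← hB]
    rfl
  have hrn := LinearMap.finrank_range_add_finrank_ker Λ
  have hker : Module.finrank F (LinearMap.ker Λ) ≤ 1 := by
    have hle : (LinearMap.ker Λ).map (VF F (1 : G →* Fˣ) Ξ).subtype ≤
        Submodule.span F {fun ξ => (((P.w ξ : ℤˣ) : ℤ) : F)} := by
      rintro _ ⟨ω, hω, rfl⟩
      have h1 : ∀ u ∈ VF F (1 : G →* Fˣ) S2, Bom P ω.1 u = 0 := by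
        intro u hu
        have h2 : Λ ω ⟨u, hu⟩ = 0 := by
          rw [LinearMap.mem_ker.1 hω]
          rfl
        rw [hΛ] at h2
        exact h2
      obtain ⟨c, hc⟩ := eq_w_of_ev_eta P (fun s => ev_eta_of_Bom P (1 : G →* Fˣ)
        (RankB_inv_mem ω.2) h1 s)
      rw [Submodule.mem_span_singleton]
      refine ⟨c, ?_⟩
      funext ξ
      exact (hc ξ).symm
    have h1 := Submodule.finrank_mono hle
    rw [Submodule.finrank_map_subtype_eq] at h1
    refine h1.trans ?_
    refine (finrank_span_le_card _).trans ?_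
    simp
  have hle : LinearMap.range Λ ≤
      (LinearMap.range (P.D2.pullV (1 : G →* Fˣ))).dualAnnihilator := by
    rintro _ ⟨ω, rfl⟩
    rw [Submodule.mem_dualAnnihilator]
    rintro _ ⟨u, rfl⟩
    rw [hΛ]
    exact Bom_pull P (1 : G →* Fˣ) (RankB_inv_mem ω.2) u.2
  have h1 := Submodule.finrank_mono hle
  have h2 := Subspace.finrank_add_finrank_dualAnnihilator_eq
    (LinearMap.range (P.D2.pullV (1 : G →* Fˣ)))
  rw [hx] at hrn
  rw [hd] at h2
  omega

end

end Q62
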