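import Pool.Agent.W_04c03c_h62.Pull
import Pool.Agent.W_04c03c_h62.VDim

/-!
# The first coboundary
-/

namespace Q62

open MulAction

section
variable {G : Type*} [Group G] {Ξ S0 S1 S2 : Type*} [MulAction G Ξ] [MulAction G S0]
    [MulAction G S1] [MulAction G S2] (P : PD G Ξ S0 S1 S2)
variable {F : Type*} [Field F] (χ : G →* Fˣ)

theorem RankC_ev_one (x : S0 →₀ ℤ) :
    ev (fun _ : S0 => (1 : F)) x = ((waug (fun _ : S0 => 1) x : ℤ) : F) := by
  induction x using Finsupp.induction_linear with
  | zero => simp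
  | add a b ha hb =>
    rw [map_add, ha, hb, map_add]
    push_cast
    ring
  | single s n =>
    rw [ev_single]
    simp [waug, Finsupp.linearCombination_single]

/-- For the trivial character the first coboundary kills the constants.

Proof. The constant function `1` is in `VF F 1 S0`, it is nonzero (`P.ne0`), and
`P.D1.pull 1 b = ev 1 (P.D1.row b) = (waug 1 (P.D1.row b) : F) = 0`, because
`P.D1.row b = P.D1.rowMap (single b 1)` is in `ker waug` by `P.ex0`. So the kernel of
`P.D1.pullV 1` has dimension at least one; rank-nullity and `finrank_VF_free`. -/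
theorem rank_one_one :
    Module.finrank F (LinearMap.range (P.D1.pullV (1 : G →* Fˣ))) + 1 ≤
      Nat.card (orbitRel.Quotient G S0) := by
  obtain ⟨hfd, hd⟩ := finrank_VF_free (F := F) (1 : G →* Fˣ) P.free0
  have := hfd
  have hrn := LinearMap.finrank_range_add_finrank_ker (P.D1.pullV (1 : G →* Fˣ))
  have hker : 1 ≤ Module.finrank F (LinearMap.ker (P.D1.pullV (1 : G →* Fˣ))) := by
    have hmem : (fun _ : S0 => (1 : F)) ∈ VF F (1 : G →* Fˣ) S0 := by
      intro g s
      simp
    have hk : (⟨fun _ : S0 => (1 : F), hmem⟩ : VF F (1 : G →* Fˣ) S0) ∈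
        LinearMap.ker (P.D1.pullV (1 : G →* Fˣ)) := by
      rw [LinearMap.mem_ker]
      apply Subtype.ext
      funext b
      show ev (fun _ : S0 => (1 : F)) (P.D1.row b) = 0
      have hb : P.D1.row b ∈ LinearMap.ker (waug fun _ : S0 => 1) := by
        rw [← P.ex0]
        refine ⟨Finsupp.single b 1, ?_⟩
        simp [IMat.rowMap]
      rw [LinearMap.mem_ker] at hb
      rw [RankC_ev_one, hb, Int.cast_zero]
    obtain ⟨s0⟩ := P.ne0
    have hne : (⟨_, hk⟩ : LinearMap.ker (P.D1.pullV (1 : G →* Fˣ))) ≠ 0 := by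
      intro h
      have h1 := congrArg (fun u : LinearMap.ker (P.D1.pullV (1 : G →* Fˣ)) => u.1.1 s0) h
      exact one_ne_zero (α := F) h1
    have : Nontrivial (LinearMap.ker (P.D1.pullV (1 : G →* Fˣ))) := ⟨⟨_, _, hne⟩⟩
    exact Module.finrank_pos (R := F) (M := LinearMap.ker (P.D1.pullV (1 : G →* Fˣ)))
  rw [hd] at hrn
  omega

/-- The rank of the first coboundary is at most the dimension of its source. -/
theorem rank_one :
    Module.finrank F (LinearMap.range (P.D1.pullV χ)) ≤ Nat.card (orbitRel.Quotient G S0) := by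
  obtain ⟨hfd, hd⟩ := finrank_VF_free (F := F) χ P.free0
  have := hfd
  have hrn := LinearMap.finrank_range_add_finrank_ker (P.D1.pullV χ)
  rw [hd] at hrn
  omega

end

end Q62
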