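import Pool.Agent.W_04c03c_h62.CohEd
import Pool.Agent.W_04c03c_h62.Rank
import Pool.Agent.W_04c03c_h62.BformB

/-!
# The dimension of U2
-/

namespace Q62

open MulAction

section
variable {G : Type*} [Group G] {Ξ S0 S1 S2 : Type*} [MulAction G Ξ] [MulAction G S0]
    [MulAction G S1] [MulAction G S2] (P : PD G Ξ S0 S1 S2)

/-- The transpose identity for invariant functions. -/
theorem cohEa_transpose {F : Type*} [Field F] {u : S2 → F} {v : S1 → F}
    (hu : u ∈ VF F (1 : G →* Fˣ) S2) (hv : v ∈ VF F (1 : G →* Fˣ) S1) :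
    ∑ᶠ q : orbitRel.Quotient G S2, u q.out * P.D2.pull v q.out =
      ∑ᶠ r : orbitRel.Quotient G S1, ev u (P.D2.col r.out) * v r.out := by
  have h1 : ∀ q : orbitRel.Quotient G S2, u q.out * P.D2.pull v q.out =
      ∑ᶠ b, (fun (s : S2) (b : S1) => u s * (((P.D2.row s b : ℤ) : F) * v b)) q.out b := by
    intro q
    unfold IMat.pull
    rw [bformB_ev_eq_finsum v, mul_finsum]
  rw [finsum_congr h1]
  refine (exchange P.free2 P.free1
    (fun (s : S2) (b : S1) => u s * (((P.D2.row s b : ℤ) : F) * v b)) ?_ ?_ ?_).trans ?_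
  rotate_left 3
  · refine finsum_congr fun r => ?_
    have h2 : ∀ s : S2, u s * (((P.D2.row s r.out : ℤ) : F) * v r.out) =
        (((P.D2.col r.out s : ℤ) : F) * u s) * v r.out := by
      intro s
      rw [P.D2.tr]
      ring
    rw [finsum_congr h2, ← finsum_mul, ← bformB_ev_eq_finsum u]
  · intro g s b
    rw [P.D2.inv, (mem_VF (1 : G →* Fˣ)).1 hu g s, (mem_VF (1 : G →* Fˣ)).1 hv g b]
    simp
  · intro s
    refine (P.D2.row s).hasFiniteSupport.subset ?_
    intro b hb
    rw [Function.mem_support] at hb ⊢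
    intro h
    apply hb
    rw [h]
    simp
  · intro t
    refine (P.D2.col t).hasFiniteSupport.subset ?_
    intro s hs
    rw [Function.mem_support] at hs ⊢
    intro h
    apply hs
    rw [P.D2.tr, h]
    simp

/-- An invariant function which pairs to zero with all coboundaries vanishes on all columns. -/
theorem cohEa_col_zero {F : Type*} [Field F] {u : S2 → F}
    (hu : u ∈ VF F (1 : G →* Fˣ) S2)
    (h : ∀ v ∈ VF F (1 : G →* Fˣ) S1,
      ∑ᶠ q : orbitRel.Quotient G S2, u q.out * P.D2.pull v q.out = 0) (b : S1) :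
    ev u (P.D2.col b) = 0 := by
  obtain ⟨q, hq⟩ : ∃ q : orbitRel.Quotient G S1, q = Quotient.mk _ b := ⟨_, rfl⟩
  obtain ⟨v, hvV, hv1, hv0⟩ := exists_VF_delta (1 : G →* Fˣ) P.free1 q.out
  have h1 : ∑ᶠ r : orbitRel.Quotient G S1, ev u (P.D2.col r.out) * v r.out =
      ev u (P.D2.col q.out) * v q.out := by
    refine finsum_eq_single _ q fun q' hne => ?_
    rw [hv0 q'.out, mul_zero]
    intro hmem
    apply hne
    have h2 : (orbitRel G S1).r q'.out q.out := hmem
    have h3 := Quotient.sound h2
    rwa [Quotient.out_eq, Quotient.out_eq] at h3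
  rw [← cohEa_transpose P hu hvV, h v hvV, hv1, mul_one] at h1
  have h4 : (orbitRel G S1).r q.out b := by
    have h5 : (Quotient.mk (orbitRel G S1) q.out) = Quotient.mk _ b := by
      rw [Quotient.out_eq, hq]
    exact Quotient.exact h5
  obtain ⟨g, hg⟩ := h4
  have hg' : g • b = q.out := hg
  have h6 : b = g⁻¹ • q.out := by rw [← hg', inv_smul_smul]
  rw [h6, P.D2.col_smul, ev_mapDomain (1 : G →* Fˣ) hu, ← h1, mul_zero]

/-- The dimension of `U2`.

Proof. Pairing `⟨u, v⟩ = ∑ᶠ q : S2/G, u q.out * v q.out` on `VF F 1 S2` (nondegenerate by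
`exists_VF_delta`). For `u ∈ VF F 1 S2` and `v ∈ VF F 1 S1`,
`⟨u, P.D2.pull v⟩ = ∑ᶠ r : S1/G, ev u (P.D2.col r.out) * v r.out`
(`exchange` with `f s b = u s * ((P.D2.row s b : ℤ) : F) * v b`). So the annihilator in
`VF F 1 S2` of the range of `P.D2.pullV 1` is contained in `P.U2 F` (take `v` from
`exists_VF_delta`), and it has dimension at least `#(S2/G) - rank` (the annihilator of a subspace of
dimension `r` in a space of dimension `n` with a nondegenerate pairing has dimension `n - r`). -/
theorem PD.finrank_U2 (F : Type*) [Field F] :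
    FiniteDimensional F (P.U2 F) ∧ Nat.card (orbitRel.Quotient G S2) ≤
      Module.finrank F (P.U2 F) +
        Module.finrank F (LinearMap.range (P.D2.pullV (F := F) (1 : G →* Fˣ))) := by
  classical
  obtain ⟨hfd2, hd2⟩ := finrank_VF_free (F := F) (1 : G →* Fˣ) P.free2
  have := hfd2
  have hfinq := P.free2.fin
  have := Fintype.ofFinite (orbitRel.Quotient G S2)
  have hU : P.U2 F ≤ VF F (1 : G →* Fˣ) S2 := fun u hu => hu.1
  have hUfd : FiniteDimensional F (P.U2 F) :=
    FiniteDimensional.of_injective (Submodule.inclusion hU) (Submodule.inclusion_injective hU)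
  refine ⟨hUfd, ?_⟩
  set D := P.D2.pullV (F := F) (1 : G →* Fˣ) with hD
  let B : VF F (1 : G →* Fˣ) S2 →ₗ[F] Module.Dual F (VF F (1 : G →* Fˣ) S2) :=
    LinearMap.mk₂ F (fun u v => ∑ q : orbitRel.Quotient G S2, u.1 q.out * v.1 q.out)
      (by
        intro u u' v
        simp only [Submodule.coe_add, Pi.add_apply, add_mul, Finset.sum_add_distrib])
      (by
        intro c u v
        simp only [Submodule.coe_smul, Pi.smul_apply, smul_eq_mul, mul_assoc, Finset.mul_sum])
      (by
        intro u v v'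
        simp only [Submodule.coe_add, Pi.add_apply, mul_add, Finset.sum_add_distrib])
      (by
        intro c u v
        simp only [Submodule.coe_smul, Pi.smul_apply, smul_eq_mul, Finset.mul_sum]
        refine Finset.sum_congr rfl fun q _ => ?_
        ring)
  let Φ : VF F (1 : G →* Fˣ) S2 →ₗ[F] Module.Dual F (LinearMap.range D) :=
    (LinearMap.range D).subtype.dualMap ∘ₗ B
  have hrn := LinearMap.finrank_range_add_finrank_ker Φ
  have hr : Module.finrank F (LinearMap.range Φ) ≤ Module.finrank F (LinearMap.range D) := by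
    refine (Submodule.finrank_le _).trans ?_
    exact le_of_eq (Subspace.dual_finrank_eq (K := F) (V := LinearMap.range D))
  have hk : ∀ u : LinearMap.ker Φ, (u.1.1 : S2 → F) ∈ P.U2 F := by
    intro u
    refine ⟨u.1.2, ?_⟩
    refine cohEa_col_zero P u.1.2 ?_
    intro v hv
    have h1 : Φ u.1 = 0 := u.2
    have h2 := LinearMap.congr_fun h1 ⟨D ⟨v, hv⟩, LinearMap.mem_range_self D ⟨v, hv⟩⟩
    rw [finsum_eq_sum_of_fintype]
    exact h2
  let j : LinearMap.ker Φ →ₗ[F] P.U2 F :=
    { toFun := fun u => ⟨u.1.1, hk u⟩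
      map_add' := fun _ _ => rfl
      map_smul' := fun _ _ => rfl }
  have hj : Function.Injective j := by
    intro a b hab
    apply Subtype.ext
    apply Subtype.ext
    have h3 : (j a).1 = (j b).1 := congrArg Subtype.val hab
    exact h3
  have hle := LinearMap.finrank_le_finrank_of_injective hj
  rw [hd2] at hrn
  omega

end

end Q62
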