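import Pool.Agent.W_04c03c_h62.CohEd
import Pool.Agent.W_04c03c_h62.Bform

/-!
# Functionals on the kernel of the augmentation
-/

namespace Q62

open MulAction

section
variable {G : Type*} [Group G] {Ξ S0 S1 S2 : Type*} [MulAction G Ξ] [MulAction G S0]
    [MulAction G S1] [MulAction G S2] (P : PD G Ξ S0 S1 S2)

/-- Every `u ∈ U2` gives a functional on the kernel of `waug` (if `w = 1`): there is
`H : Ξ → F` with `ev u x = ev H (linearCombination eta x)` for all chains `x`, and
`H ξ0 = 0`. It is unique, hence linear in `u`.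

Proof. `h (linearCombination eta x) = ev u x` is a well defined additive functional on
`range (linearCombination eta) = ker (waug 1)` (`P.ex3'`, `hw`), because the kernel of
`linearCombination eta` is the range of `P.D2.colMap` (`P.ex2'`), on which `ev u` vanishes (it is
generated by the columns). Put `H ξ = h (single ξ 1 - single ξ0 1)`. For `y ∈ ker (waug 1)`:
`y = ∑ y ξ • (single ξ 1 - single ξ0 1)`, so `h y = ev H y`. Uniqueness: every
`single ξ 1 - single ξ0 1` is `linearCombination eta x` for some `x`. For the equivariance: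
`H (g • ξ) - H (g • ξ0) = H ξ` because `u` is invariant and `eta` is equivariant
(`(x.mapDomain (g • ·))`, `ev_mapDomain`, `PD.eta_smul`). -/
theorem PD.exists_H (F : Type*) [Field F] (hw : ∀ ξ, P.w ξ = 1) (ξ0 : Ξ) {u : S2 → F}
    (hu : u ∈ P.U2 F) :
    ∃ H : Ξ → F, (∀ x : S2 →₀ ℤ, ev u x = ev H (Finsupp.linearCombination ℤ P.eta x)) ∧
      H ξ0 = 0 ∧ (∀ H' : Ξ → F, (∀ x : S2 →₀ ℤ,
        ev u x = ev H' (Finsupp.linearCombination ℤ P.eta x)) → H' ξ0 = 0 → H' = H) ∧
      ∀ (g : G) (ξ : Ξ), H (g • ξ) = H ξ + H (g • ξ0) := by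
  obtain ⟨huV, huc⟩ := hu
  -- `ev u` vanishes on the kernel of `eta`
  have hker : ∀ x : S2 →₀ ℤ, Finsupp.linearCombination ℤ P.eta x = 0 → ev u x = 0 := by
    intro x hx
    have h1 : x ∈ LinearMap.ker (Finsupp.linearCombination ℤ P.eta) := hx
    rw [P.ex2'] at h1
    obtain ⟨y, rfl⟩ := h1
    induction y using Finsupp.induction_linear with
    | zero => simp
    | add a b ha hb =>
      have h2 : ∀ z : S1 →₀ ℤ, ev u (P.D2.colMap z) = 0 := by
        intro z
        induction z using Finsupp.induction_linear with
        | zero => simp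
        | add a b ha hb => rw [map_add, map_add, ha, hb, add_zero]
        | single b n =>
          unfold IMat.colMap
          rw [Finsupp.linearCombination_single, map_zsmul, huc, smul_zero]
      exact h2 _
    | single b n =>
      unfold IMat.colMap
      rw [Finsupp.linearCombination_single, map_zsmul, huc, smul_zero]
  have heq : ∀ x x' : S2 →₀ ℤ, Finsupp.linearCombination ℤ P.eta x =
      Finsupp.linearCombination ℤ P.eta x' → ev u x = ev u x' := by
    intro x x' h
    have h1 : ev u (x - x') = 0 := hker _ (by rw [map_sub, h, sub_self])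
    rw [map_sub] at h1
    exact sub_eq_zero.1 h1
  -- the chosen chains
  have hex : ∀ ξ : Ξ, ∃ x : S2 →₀ ℤ, Finsupp.linearCombination ℤ P.eta x =
      Finsupp.single ξ 1 - Finsupp.single ξ0 1 := by
    intro ξ
    have h1 : (Finsupp.single ξ (1 : ℤ) - Finsupp.single ξ0 1) ∈
        LinearMap.ker (waug fun ξ => (P.w ξ : ℤ)) := by
      rw [LinearMap.mem_ker]
      unfold waug
      rw [map_sub, Finsupp.linearCombination_single, Finsupp.linearCombination_single, hw, hw,
        sub_self]
    rw [← P.ex3'] at h1
    exact h1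
  choose c hc using hex
  -- sums
  have hsum : ∀ y : Ξ →₀ ℤ, ev (fun ξ => ev u (c ξ)) y = ev u (Finsupp.linearCombination ℤ c y) := by
    intro y
    induction y using Finsupp.induction_linear with
    | zero => simp
    | add a b ha hb => rw [map_add, map_add, map_add, ha, hb]
    | single ξ n =>
      rw [ev_single, Finsupp.linearCombination_single, map_zsmul, zsmul_eq_mul]
  have hetac : ∀ y : Ξ →₀ ℤ, Finsupp.linearCombination ℤ P.eta (Finsupp.linearCombination ℤ c y) =
      y - Finsupp.single ξ0 (Finsupp.linearCombination ℤ (fun _ : Ξ => (1 : ℤ)) y) := by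
    intro y
    induction y using Finsupp.induction_linear with
    | zero => simp
    | add a b ha hb =>
      rw [map_add, map_add, ha, hb, map_add, Finsupp.single_add]
      abel
    | single ξ n =>
      rw [Finsupp.linearCombination_single, map_zsmul, hc, Finsupp.linearCombination_single,
        smul_sub, Finsupp.smul_single, Finsupp.smul_single, smul_eq_mul, mul_one]
  refine ⟨fun ξ => ev u (c ξ), ?_, ?_, ?_, ?_⟩
  · intro x
    rw [hsum]
    apply heq
    rw [hetac]
    have h1 : Finsupp.linearCombination ℤ P.eta x ∈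
        LinearMap.range (Finsupp.linearCombination ℤ P.eta) := ⟨x, rfl⟩
    rw [P.ex3', LinearMap.mem_ker] at h1
    have h2 : (fun ξ => (P.w ξ : ℤ)) = fun _ : Ξ => (1 : ℤ) := by
      funext ξ
      rw [hw]
      rfl
    unfold waug at h1
    rw [h2] at h1
    rw [h1, Finsupp.single_zero, sub_zero]
  · apply hker
    rw [hc, sub_self]
  · intro H' hH' hH0
    funext ξ
    have h1 := hH' (c ξ)
    rw [hc, map_sub, ev_single, ev_single, hH0] at h1
    rw [h1]
    simp
  · intro g ξ
    have h1 : ∀ x : S2 →₀ ℤ, Finsupp.linearCombination ℤ P.eta (x.mapDomain (g • ·)) =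
        (Finsupp.linearCombination ℤ P.eta x).mapDomain (g • ·) := by
      intro x
      induction x using Finsupp.induction_linear with
      | zero => simp
      | add a b ha hb => rw [Finsupp.mapDomain_add, map_add, map_add, Finsupp.mapDomain_add, ha, hb]
      | single s n =>
        rw [Finsupp.mapDomain_single, Finsupp.linearCombination_single,
          Finsupp.linearCombination_single, P.eta_smul, Finsupp.mapDomain_smul]
    have h2 : ∀ ξ', (Finsupp.single ξ' (1 : ℤ) - Finsupp.single ξ0 1).mapDomain (g • ·) =
        Finsupp.single (g • ξ') (1 : ℤ) - Finsupp.single (g • ξ0) 1 := by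
      intro ξ'
      rw [sub_eq_add_neg, ← Finsupp.single_neg, Finsupp.mapDomain_add, Finsupp.mapDomain_single,
        Finsupp.mapDomain_single, Finsupp.single_neg, ← sub_eq_add_neg]
    have h3 : ev u ((c ξ).mapDomain (g • ·)) = ev u (c ξ) := by
      rw [ev_mapDomain (1 : G →* Fˣ) huV]
      simp
    have h4 : ev u (c (g • ξ)) = ev u ((c ξ).mapDomain (g • ·) + c (g • ξ0)) := by
      apply heq
      rw [map_add, h1, hc, hc, hc, h2]
      abel
    show ev u (c (g • ξ)) = ev u (c ξ) + ev u (c (g • ξ0))
    rw [h4, map_add, h3]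

end

end Q62
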