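import Pool.Agent.W_04c03c_h62.CohEa
import Pool.Agent.W_04c03c_h62.CohEb

/-!
# Homomorphisms which vanish on all cusps
-/

namespace Q62

open MulAction

theorem CohEc_ev_add {S F : Type*} [Field F] (u v : S → F) (x : S →₀ ℤ) :
    ev (u + v) x = ev u x + ev v x := by
  unfold ev
  rw [Finsupp.linearCombination_apply, Finsupp.linearCombination_apply,
    Finsupp.linearCombination_apply]
  simp [smul_add, Finsupp.sum_add]

theorem CohEc_ev_smul {S F : Type*} [Field F] (c : F) (u : S → F) (x : S →₀ ℤ) :
    ev (c • u) x = c * ev u x := by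
  unfold ev
  rw [Finsupp.linearCombination_apply, Finsupp.linearCombination_apply, Finsupp.mul_sum]
  refine Finsupp.sum_congr fun t _ => ?_
  simp only [Pi.smul_apply, smul_eq_mul, zsmul_eq_mul]
  ring

section
variable {G : Type*} [Group G] {Ξ S0 S1 S2 : Type*} [MulAction G Ξ] [MulAction G S0]
    [MulAction G S1] [MulAction G S2] (P : PD G Ξ S0 S1 S2)

/-- If `w = 1`, the Euler characteristic is zero and there are more than `#(Ξ/G)` linearly
independent homomorphisms to `F`, then some nonzero homomorphism vanishes on all stabilizers of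
points of `Ξ`.

Proof. Fix `ξ0` (if `Ξ` is empty any nonzero homomorphism will do). For `u ∈ P.U2 F` let `H u` be
the function of `PD.exists_H`, linear in `u` by uniqueness, and `φ u g = H u (g • ξ0)`. By the
equivariance `φ u (g * g') = H u (g • g' • ξ0) = φ u g' + φ u g`, so `φ u` is a homomorphism; for
`g • ξ = ξ` the equivariance gives `φ u g = 0`. If `φ u = 0` then `H u` is invariant, i.e. in
`VF F 1 Ξ`, and vanishes at `ξ0`; `u` is determined by `H u`. So the kernel of `φ` has dimension at
most `k - 1` where `k = #(Ξ/G)` (`finrank_VF_one`; the functions vanishing at `ξ0` are a proper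
subspace), and `finrank U2 ≥ #(S2/G) - rank ≥ b - 1 ≥ k` by `PD.finrank_U2` and `PD.hom_le`
(`b = k + 1`). So `φ ≠ 0`. -/
theorem PD.exists_kill (F : Type*) [Field F] (hw : ∀ ξ, P.w ξ = 1)
    (hc : Nat.card (orbitRel.Quotient G S0) + Nat.card (orbitRel.Quotient G S2) =
      Nat.card (orbitRel.Quotient G S1))
    (hfin : Finite (orbitRel.Quotient G Ξ))
    (f : Fin (Nat.card (orbitRel.Quotient G Ξ) + 1) → (Additive G →+ F))
    (hf : LinearIndependent F f) :
    ∃ φ : G → F, (∀ g h, φ (g * h) = φ g + φ h) ∧ (∃ g, φ g ≠ 0) ∧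
      ∀ (ξ : Ξ), ∀ g ∈ stabilizer G ξ, φ g = 0 := by
  classical
  rcases isEmpty_or_nonempty Ξ with hΞ | ⟨⟨ξ0⟩⟩
  · have h0 : f 0 ≠ 0 := hf.ne_zero 0
    refine ⟨fun g => f 0 (Additive.ofMul g), fun g h => ?_, ?_, fun ξ => (hΞ.false ξ).elim⟩
    · simp only [ofMul_mul, map_add]
    · by_contra hcon
      push Not at hcon
      exact h0 (DFunLike.ext _ _ fun g => hcon (Additive.toMul g))
  · choose H hH1 hH2 hH3 hH4 using fun u : P.U2 F => P.exists_H F hw ξ0 u.2
    by_cases hex : ∃ u : P.U2 F, ∃ g : G, H u (g • ξ0) ≠ 0
    · obtain ⟨u, g0, hg0⟩ := hex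
      refine ⟨fun g => H u (g • ξ0), fun g h => ?_, ⟨g0, hg0⟩, fun ξ g hg => ?_⟩
      · beta_reduce
        rw [mul_smul, hH4 u g (h • ξ0), add_comm]
      · have h1 := hH4 u g ξ
        rw [mem_stabilizer_iff.1 hg] at h1
        exact left_eq_add.1 h1
    · exfalso
      push Not at hex
      obtain ⟨hfd, hk⟩ := finrank_VF_one (G := G) (F := F) (S := Ξ) hfin
      let V0 : Submodule F (Ξ → F) :=
        VF F (1 : G →* Fˣ) Ξ ⊓ LinearMap.ker (LinearMap.proj (R := F) (φ := fun _ : Ξ => F) ξ0)
      have hlt : V0 < VF F (1 : G →* Fˣ) Ξ := by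
        refine lt_of_le_of_ne inf_le_left fun h => ?_
        have h1 : (fun _ : Ξ => (1 : F)) ∈ VF F (1 : G →* Fˣ) Ξ := by
          intro g s
          simp
        rw [← h] at h1
        have h2 : (1 : F) = 0 := h1.2
        exact one_ne_zero h2
      have hV0 : FiniteDimensional F V0 := Submodule.finiteDimensional_of_le hlt.le
      have h3 : Module.finrank F V0 < Module.finrank F (VF F (1 : G →* Fˣ) Ξ) :=
        Submodule.finrank_lt_finrank_of_lt hlt
      let L : P.U2 F →ₗ[F] V0 :=
        { toFun := fun u => ⟨H u, by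
            refine ⟨fun g ξ => ?_, hH2 u⟩
            rw [hH4 u g ξ, hex u g, add_zero]
            simp⟩
          map_add' := fun u v => by
            apply Subtype.ext
            symm
            refine hH3 (u + v) _ (fun x => ?_) ?_
            · change ev ((u : S2 → F) + (v : S2 → F)) x = ev (H u + H v) _
              rw [CohEc_ev_add, CohEc_ev_add, hH1 u, hH1 v]
            · change H u ξ0 + H v ξ0 = 0
              rw [hH2, hH2, add_zero]
          map_smul' := fun c u => by
            apply Subtype.ext
            symm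
            refine hH3 (c • u) _ (fun x => ?_) ?_
            · change ev (c • (u : S2 → F)) x = ev (c • H u) _
              rw [CohEc_ev_smul, CohEc_ev_smul, hH1 u]
            · change c * H u ξ0 = 0
              rw [hH2, mul_zero] }
      have hL : Function.Injective L := by
        rw [← LinearMap.ker_eq_bot, LinearMap.ker_eq_bot']
        intro u hu
        have h4 : H u = 0 := congrArg Subtype.val hu
        apply Subtype.ext
        funext s
        have h5 := hH1 u (Finsupp.single s 1)
        rw [ev_single, h4, Int.cast_one, one_mul] at h5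
        rw [h5]
        unfold ev
        rw [Finsupp.linearCombination_apply]
        simp
      have h6 : Module.finrank F (P.U2 F) ≤ Module.finrank F V0 :=
        LinearMap.finrank_le_finrank_of_injective hL
      have h7 := (P.finrank_U2 F).2
      have h8 := P.hom_le F hc f hf
      omega

end

end Q62
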