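import Pool.Agent.W_04c03c_h62.CohD

/-!
# Homomorphisms which vanish on all cusps
-/

namespace Q62

open MulAction

section
variable {G : Type*} [Group G] {Ξ S0 S1 S2 : Type*} [MulAction G Ξ] [MulAction G S0]
    [MulAction G S1] [MulAction G S2] (P : PD G Ξ S0 S1 S2)

/-- The invariant functions `u` on `S2` which vanish on all columns. -/
def PD.U2 (F : Type*) [Field F] : Submodule F (S2 → F) where
  carrier := {u | u ∈ VF F (1 : G →* Fˣ) S2 ∧ ∀ b : S1, ev u (P.D2.col b) = 0}
  add_mem' := by
    rintro u v ⟨hu, hu'⟩ ⟨hv, hv'⟩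
    refine ⟨(VF F (1 : G →* Fˣ) S2).add_mem hu hv, fun b => ?_⟩
    have : ev (u + v) (P.D2.col b) = ev u (P.D2.col b) + ev v (P.D2.col b) := by
      unfold ev
      rw [Finsupp.linearCombination_apply, Finsupp.linearCombination_apply,
        Finsupp.linearCombination_apply]
      simp [smul_add, Finsupp.sum_add]
    rw [this, hu' b, hv' b, add_zero]
  zero_mem' := by
    refine ⟨(VF F (1 : G →* Fˣ) S2).zero_mem, fun b => ?_⟩
    unfold ev
    rw [Finsupp.linearCombination_apply]
    simp
  smul_mem' := by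
    rintro c u ⟨hu, hu'⟩
    refine ⟨(VF F (1 : G →* Fˣ) S2).smul_mem c hu, fun b => ?_⟩
    have : ev (c • u) (P.D2.col b) = c * ev u (P.D2.col b) := by
      unfold ev
      rw [Finsupp.linearCombination_apply, Finsupp.linearCombination_apply, Finsupp.mul_sum]
      refine Finsupp.sum_congr fun t _ => ?_
      simp only [Pi.smul_apply, smul_eq_mul, zsmul_eq_mul]
      ring
    rw [this, hu' b, mul_zero]

end

end Q62
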