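import Pool.Agent.W_04c03c_h62.Pull

/-!
# Paths and cocycles
-/

namespace Q62

open MulAction

section
variable {G : Type*} [Group G] {Ξ S0 S1 S2 : Type*} [MulAction G Ξ] [MulAction G S0]
    [MulAction G S1] [MulAction G S2] (P : PD G Ξ S0 S1 S2)
variable {F : Type*} [Field F] (χ : G →* Fˣ)

/-- Every difference of two points of `S0` is a boundary.

Proof. `single s 1 - single s0 1` is in `ker (waug 1) = range P.D1.rowMap` (`P.ex0`). -/
theorem PD.exists_path (s0 : S0) :
    ∃ z : S0 → (S1 →₀ ℤ), ∀ s, P.D1.rowMap (z s) = Finsupp.single s 1 - Finsupp.single s0 1 := by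
  have h : ∀ s : S0, ∃ y : S1 →₀ ℤ,
      P.D1.rowMap y = Finsupp.single s 1 - Finsupp.single s0 1 := by
    intro s
    have h1 : (Finsupp.single s 1 - Finsupp.single s0 1 : S0 →₀ ℤ) ∈
        LinearMap.ker (waug fun _ : S0 => 1) := by
      rw [LinearMap.mem_ker]
      simp [waug]
    rw [← P.ex0] at h1
    exact h1
  choose z hz using h
  exact ⟨z, hz⟩

/-- A cocycle (`P.D2.pull u = 0`) takes the same value on chains with the same boundary.

Proof. `x - y ∈ ker P.D1.rowMap = range P.D2.rowMap` (`P.ex1`), and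
`ev u (P.D2.rowMap c) = ev (P.D2.pull u) c = 0` by `IMat.ev_pull`. -/
theorem PD.ev_eq {u : S1 → F} (hu : P.D2.pull u = 0) {x y : S1 →₀ ℤ}
    (h : P.D1.rowMap x = P.D1.rowMap y) : ev u x = ev u y := by
  have h1 : x - y ∈ LinearMap.ker P.D1.rowMap := by
    rw [LinearMap.mem_ker, map_sub, h, sub_self]
  rw [P.ex1] at h1
  obtain ⟨c, hc⟩ := h1
  have h2 : ev u (P.D2.rowMap c) = 0 := by
    rw [← IMat.ev_pull, hu]
    induction c using Finsupp.induction_linear with
    | zero => simp
    | add a b ha hb =>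
      simp [ev]
    | single s n => simp [ev]
  rw [hc, map_sub, sub_eq_zero] at h2
  exact h2

end

end Q62
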