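import Pool.Agent.W_04c03c_h62.CrossA

/-!
# Cocycles give crossed homomorphisms
-/

namespace Q62

open MulAction

section
variable {G : Type*} [Group G] {Ξ S0 S1 S2 : Type*} [MulAction G Ξ] [MulAction G S0]
    [MulAction G S1] [MulAction G S2] (P : PD G Ξ S0 S1 S2)
variable {F : Type*} [Field F] (χ : G →* Fˣ)

/-- A cocycle defines a crossed homomorphism `d g = ev u (z (g • s0))`.

Proof. `z ((g * h) • s0)` and `z (g • s0) + (z (h • s0)).mapDomain (g • ·)` have the same boundary
`single ((g * h) • s0) 1 - single s0 1` (`IMat.rowMap_mapDomain`, `Finsupp.mapDomain_single`); use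
`PD.ev_eq` and `ev_mapDomain`. -/
theorem PD.crossed {s0 : S0} {z : S0 → (S1 →₀ ℤ)}
    (hz : ∀ s, P.D1.rowMap (z s) = Finsupp.single s 1 - Finsupp.single s0 1) {u : S1 → F}
    (hu : u ∈ VF F χ S1) (hu0 : P.D2.pull u = 0) (g h : G) :
    ev u (z ((g * h) • s0)) = ev u (z (g • s0)) + (χ g : F) * ev u (z (h • s0)) := by
  rw [← ev_mapDomain χ hu, ← map_add]
  refine P.ev_eq hu0 ?_
  rw [map_add, IMat.rowMap_mapDomain, hz, hz, hz]
  have h1 : (Finsupp.single (h • s0) (1 : ℤ) - Finsupp.single s0 1).mapDomain (g • ·) =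
      Finsupp.single (g • h • s0) (1 : ℤ) - Finsupp.single (g • s0) 1 := by
    rw [sub_eq_add_neg, ← Finsupp.single_neg, Finsupp.mapDomain_add, Finsupp.mapDomain_single,
      Finsupp.mapDomain_single, Finsupp.single_neg, ← sub_eq_add_neg]
  rw [h1, mul_smul]
  abel

end

end Q62
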