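import Pool.Agent.W_04c03c_h62.Defs

/-!
# Cyclic coverings
-/

namespace Q62

open MulAction

/-- If `ψ : N → ℤ` is onto and kills the stabilizer of a point `ξ`, then the subgroup
`ψ⁻¹(3ℤ)` has at least three orbits on the set.

Proof. `N₃ = (zpowers (ofAdd 3)).comap ψ`, of index three. The points `s ^ j • ξ` with `ψ s = ofAdd 1`,
`j = 0, 1, 2` are in different `N₃`-orbits: `n • s ^ i • ξ = s ^ j • ξ` gives
`s ^ (-j) * n * s ^ i ∈ stabilizer N ξ`, so `ψ n * ofAdd (i - j) = 1`, so `3 ∣ i - j`. The set of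
orbits of `N₃` is finite by assumption. -/
theorem three_orbits {N : Type*} [Group N] {Ξ : Type*} [MulAction N Ξ]
    (ψ : N →* Multiplicative ℤ) (hψ : Function.Surjective ψ) (ξ : Ξ)
    (hξ : ∀ g ∈ stabilizer N ξ, ψ g = 1)
    (hfin : ∀ H : Subgroup N, H.FiniteIndex → Finite (orbitRel.Quotient H Ξ)) :
    ∃ H : Subgroup N, H.FiniteIndex ∧ 3 ≤ Nat.card (orbitRel.Quotient H Ξ) := by
  classical
  let A : Subgroup (Multiplicative ℤ) := Subgroup.zpowers (Multiplicative.ofAdd (3 : ℤ))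
  have hA : A.FiniteIndex := by
    have h1 : A.index = 3 := by
      have h2 : (AddSubgroup.zmultiples (3 : ℤ)).index = 3 := by
        rw [Int.index_zmultiples]; rfl
      exact h2
    exact ⟨by rw [h1]; norm_num⟩
  let H : Subgroup N := A.comap ψ
  have hH : H.FiniteIndex := by
    constructor
    have h1 : H.index = A.index := Subgroup.index_comap_of_surjective A hψ
    rw [h1]
    exact hA.index_ne_zero
  refine ⟨H, hH, ?_⟩
  obtain ⟨s, hs⟩ := hψ (Multiplicative.ofAdd (1 : ℤ))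
  have hf : Finite (orbitRel.Quotient H Ξ) := hfin H hH
  let f : Fin 3 → orbitRel.Quotient H Ξ := fun j => Quotient.mk'' (s ^ (j : ℕ) • ξ)
  have hinj : Function.Injective f := by
    intro i j hij
    have h1 : (orbitRel H Ξ) (s ^ (i : ℕ) • ξ) (s ^ (j : ℕ) • ξ) := Quotient.exact hij
    rw [orbitRel_apply, mem_orbit_iff] at h1
    obtain ⟨⟨n, hn⟩, hn2⟩ := h1
    have hn3 : n • s ^ (j : ℕ) • ξ = s ^ (i : ℕ) • ξ := hn2
    have hst : (s ^ (i : ℕ))⁻¹ * n * s ^ (j : ℕ) ∈ stabilizer N ξ := by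
      rw [mem_stabilizer_iff, mul_smul, mul_smul, hn3, inv_smul_smul]
    have h4 := hξ _ hst
    rw [map_mul, map_mul, map_inv, map_pow, map_pow, hs] at h4
    have hn4 : ψ n ∈ A := hn
    obtain ⟨k, hk⟩ := Subgroup.mem_zpowers_iff.1 hn4
    rw [← hk] at h4
    have h5 : -((i : ℕ) : ℤ) + k * 3 + ((j : ℕ) : ℤ) = 0 := by
      have h6 := congrArg Multiplicative.toAdd h4
      simpa using h6
    have hi := i.2
    have hj := j.2
    apply Fin.ext
    omega
  have hc := Nat.card_le_card_of_injective f hinj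
  simpa using hc

/-- Orbits of a subgroup of a subgroup.

Proof. The two orbit relations on `Ξ` coincide. -/
theorem card_map {G : Type*} [Group G] {Ξ : Type*} [MulAction G Ξ] (N : Subgroup G)
    (H : Subgroup N) :
    Nat.card (orbitRel.Quotient (H.map N.subtype) Ξ) = Nat.card (orbitRel.Quotient H Ξ) := by
  have h : orbitRel (H.map N.subtype) Ξ = orbitRel H Ξ := by
    ext a b
    rw [orbitRel_apply, orbitRel_apply, mem_orbit_iff, mem_orbit_iff]
    constructor
    · rintro ⟨⟨x, hx⟩, hx2⟩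
      obtain ⟨y, hy, rfl⟩ := Subgroup.mem_map.1 hx
      exact ⟨⟨y, hy⟩, hx2⟩
    · rintro ⟨⟨y, hy⟩, hy2⟩
      exact ⟨⟨N.subtype y, Subgroup.mem_map.2 ⟨y, hy, rfl⟩⟩, hy2⟩
  unfold orbitRel.Quotient
  rw [h]

end Q62
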