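import Pool.Agent.W_04c03c_h62.Defs

/-!
# Large groups have subgroups with three orbits
-/

namespace Q62

open MulAction

/-- A character of the free group of rank two with values in `ℤ/3`. -/
noncomputable def cycBchi (s t : ZMod 3) : FreeGroup (Fin 2) →* Multiplicative (ZMod 3) :=
  FreeGroup.lift (fun i => Multiplicative.ofAdd (if i = 0 then s else t))

/-- The first generator of the Heisenberg group mod 3. -/
def cycBU : (Matrix (Fin 3) (Fin 3) (ZMod 3))ˣ where
  val := !![1, 1, 0; 0, 1, 0; 0, 0, 1]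
  inv := !![1, -1, 0; 0, 1, 0; 0, 0, 1]
  val_inv := by decide
  inv_val := by decide

/-- The second generator of the Heisenberg group mod 3. -/
def cycBV : (Matrix (Fin 3) (Fin 3) (ZMod 3))ˣ where
  val := !![1, 0, 0; 0, 1, 1; 0, 0, 1]
  inv := !![1, 0, 0; 0, 1, -1; 0, 0, 1]
  val_inv := by decide
  inv_val := by decide

/-- The representation in the Heisenberg group mod 3. -/
noncomputable def cycBrho : FreeGroup (Fin 2) →* (Matrix (Fin 3) (Fin 3) (ZMod 3))ˣ :=
  FreeGroup.lift (fun i => if i = 0 then cycBU else cycBV)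

theorem cycBchi_zero (s t : ZMod 3) : cycBchi s t (FreeGroup.of 0) = Multiplicative.ofAdd s := by
  simp [cycBchi]

theorem cycBchi_one (s t : ZMod 3) : cycBchi s t (FreeGroup.of 1) = Multiplicative.ofAdd t := by
  simp [cycBchi]

theorem cycB_chi (s t : ZMod 3) (w : FreeGroup (Fin 2)) :
    (cycBchi s t w).toAdd = s * (cycBchi 1 0 w).toAdd + t * (cycBchi 0 1 w).toAdd := by
  induction w using FreeGroup.induction_on with
  | C1 => simp
  | of i => fin_cases i <;> simp [cycBchi]
  | inv_of i h => rw [map_inv (cycBchi s t), map_inv (cycBchi 1 0), map_inv (cycBchi 0 1), toAdd_inv, toAdd_inv,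
      toAdd_inv, h]; ring
  | mul x y hx hy =>
    rw [map_mul (cycBchi s t), map_mul (cycBchi 1 0), map_mul (cycBchi 0 1), toAdd_mul, toAdd_mul,
      toAdd_mul, hx, hy]
    ring

theorem cycB_rho (w : FreeGroup (Fin 2)) : ∃ c : ZMod 3,
    ((cycBrho w : (Matrix (Fin 3) (Fin 3) (ZMod 3))ˣ) : Matrix (Fin 3) (Fin 3) (ZMod 3)) =
      !![1, (cycBchi 1 0 w).toAdd, c; 0, 1, (cycBchi 0 1 w).toAdd; 0, 0, 1] := by
  have hU : cycBrho (FreeGroup.of 0) = cycBU := by simp [cycBrho]
  have hV : cycBrho (FreeGroup.of 1) = cycBV := by simp [cycBrho]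
  induction w using FreeGroup.induction_on with
  | C1 =>
    refine ⟨0, ?_⟩
    ext i j
    fin_cases i <;> fin_cases j <;> simp
  | of i =>
    refine ⟨0, ?_⟩
    rcases (by omega : i = 0 ∨ i = 1) with rfl | rfl
    · rw [hU, cycBchi_zero, cycBchi_zero]
      simp [cycBU]
    · rw [hV, cycBchi_one, cycBchi_one]
      simp [cycBV]
  | inv_of i h =>
    refine ⟨0, ?_⟩
    rcases (by omega : i = 0 ∨ i = 1) with rfl | rfl
    · rw [map_inv cycBrho, map_inv (cycBchi 1 0), map_inv (cycBchi 0 1), hU, cycBchi_zero,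
        cycBchi_zero]
      change cycBU.inv = _
      simp [cycBU]
    · rw [map_inv cycBrho, map_inv (cycBchi 1 0), map_inv (cycBchi 0 1), hV, cycBchi_one,
        cycBchi_one]
      change cycBV.inv = _
      simp [cycBV]
  | mul x y hx hy =>
    obtain ⟨c, hc⟩ := hx
    obtain ⟨d, hd⟩ := hy
    refine ⟨d + (cycBchi 1 0 x).toAdd * (cycBchi 0 1 y).toAdd + c, ?_⟩
    rw [map_mul, Units.val_mul, hc, hd]
    ext i j
    fin_cases i <;> fin_cases j <;> simp [Matrix.mul_apply, Fin.sum_univ_three] <;> ring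

theorem cycB_comm {v w : FreeGroup (Fin 2)} (h : v * w = w * v) :
    (cycBchi 1 0 v).toAdd * (cycBchi 0 1 w).toAdd =
      (cycBchi 1 0 w).toAdd * (cycBchi 0 1 v).toAdd := by
  obtain ⟨c, hc⟩ := cycB_rho v
  obtain ⟨d, hd⟩ := cycB_rho w
  have h1 := congrArg (fun z => ((cycBrho z : (Matrix (Fin 3) (Fin 3) (ZMod 3))ˣ) :
    Matrix (Fin 3) (Fin 3) (ZMod 3)) 0 2) h
  simp only [map_mul, Units.val_mul, hc, hd] at h1
  simp [Matrix.mul_apply, Fin.sum_univ_three] at h1
  linear_combination h1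

/-- A commuting set of elements of the free group of rank two is killed by a nonzero character
with values in `ℤ/3`. -/
theorem cycB_kill (S : Set (FreeGroup (Fin 2))) (hS : ∀ v ∈ S, ∀ w ∈ S, v * w = w * v) :
    ∃ s t : ZMod 3, (s ≠ 0 ∨ t ≠ 0) ∧ ∀ w ∈ S, (cycBchi s t w).toAdd = 0 := by
  by_cases h : ∃ v ∈ S, (cycBchi 1 0 v).toAdd ≠ 0 ∨ (cycBchi 0 1 v).toAdd ≠ 0
  · obtain ⟨v, hv, hne⟩ := h
    refine ⟨(cycBchi 0 1 v).toAdd, -(cycBchi 1 0 v).toAdd, ?_, ?_⟩
    · rcases hne with h1 | h1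
      · exact Or.inr (neg_ne_zero.2 h1)
      · exact Or.inl h1
    · intro w hw
      rw [cycB_chi]
      have h1 := cycB_comm (hS v hv w hw)
      linear_combination -h1
  · push Not at h
    refine ⟨1, 0, Or.inl one_ne_zero, fun w hw => (h w hw).1⟩

/-- Large groups have subgroups of finite index with three orbits.

Proof. Let `H ≤ G` of finite index and `f : H → FreeGroup (Fin 2)` onto. The stabilizer `P` of `ξ`
in `H` is commutative, and its image in the free group is a commutative subgroup, hence cyclic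
(contained in a cyclic group: subgroups of free groups are free, and a free commutative group has
rank at most one). Compose with the map `FreeGroup (Fin 2) → (ZMod 3)²`; the image of `P` in `(ZMod 3)²`
is cyclic, so it has at most three elements, and its index is at least three. Let `H' ≤ H` be the
kernel of `H → (ZMod 3)²`; the number of `H'`-orbits on the `H`-orbit of `ξ` is the index of
`P H'` in `H`, i.e. of the image of `P` in `(ZMod 3)²`, which is at least three (as in `index_le`: the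
points `g • ξ` and `g' • ξ` are in the same `H'`-orbit only if the images of `g` and `g'` in
`(ZMod 3)²` differ by an element of the image of `P`). -/
theorem three_of_large {G : Type*} [Group G] {Ξ : Type*} [MulAction G Ξ] (h : IsLarge G) (ξ : Ξ)
    (hcomm : ∀ a ∈ stabilizer G ξ, ∀ b ∈ stabilizer G ξ, a * b = b * a)
    (hfin : ∀ H : Subgroup G, H.FiniteIndex → Finite (orbitRel.Quotient H Ξ)) :
    ∃ N : Subgroup G, N.FiniteIndex ∧ 3 ≤ Nat.card (orbitRel.Quotient N Ξ) := by
  obtain ⟨H, hH, f, hf⟩ := h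
  obtain ⟨s, t, hst, hkill⟩ := cycB_kill {x | ∃ g : H, (g : G) • ξ = ξ ∧ f g = x} (by
    rintro v ⟨a, ha, rfl⟩ w ⟨b, hb, rfl⟩
    rw [← map_mul, ← map_mul]
    congr 1
    apply Subtype.ext
    exact hcomm a (mem_stabilizer_iff.2 ha) b (mem_stabilizer_iff.2 hb))
  set χ : H →* Multiplicative (ZMod 3) := (cycBchi s t).comp f with hχ
  obtain ⟨g0, hg0⟩ : ∃ g0 : H, (χ g0).toAdd ≠ 0 := by
    rcases hst with h1 | h1
    · obtain ⟨g0, hg0⟩ := hf (FreeGroup.of 0)
      refine ⟨g0, ?_⟩
      rw [hχ, MonoidHom.comp_apply, hg0, cycBchi_zero]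
      exact h1
    · obtain ⟨g0, hg0⟩ := hf (FreeGroup.of 1)
      refine ⟨g0, ?_⟩
      rw [hχ, MonoidHom.comp_apply, hg0, cycBchi_one]
      exact h1
  set N : Subgroup G := χ.ker.map H.subtype with hN
  have hNfin : N.FiniteIndex := by
    constructor
    rw [hN, Subgroup.index_map_subtype]
    exact mul_ne_zero (Subgroup.finiteIndex_ker χ).index_ne_zero hH.index_ne_zero
  refine ⟨N, hNfin, ?_⟩
  have hF := hfin N hNfin
  let q : Fin 3 → orbitRel.Quotient N Ξ := fun i =>
    Quotient.mk (orbitRel N Ξ) (((g0 ^ (i : ℕ) : H) : G) • ξ)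
  have hq : Function.Injective q := by
    intro i j hij
    have h1 : (((g0 ^ (i : ℕ) : H) : G) • ξ) ∈ orbit N (((g0 ^ (j : ℕ) : H) : G) • ξ) :=
      orbitRel_apply.1 (Quotient.exact hij)
    obtain ⟨⟨n, hn⟩, hn2⟩ := h1
    obtain ⟨k, hk, rfl⟩ := hn
    have hk1 : χ k = 1 := hk
    have h2 : (k : G) • (((g0 ^ (j : ℕ) : H) : G) • ξ) = ((g0 ^ (i : ℕ) : H) : G) • ξ := hn2
    have h3 := hkill (f ((g0 ^ (i : ℕ))⁻¹ * k * g0 ^ (j : ℕ))) ⟨_, by
      rw [Subgroup.coe_mul, Subgroup.coe_mul, Subgroup.coe_inv, mul_smul, mul_smul, h2,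
        inv_smul_smul], rfl⟩
    have h4 : (χ ((g0 ^ (i : ℕ))⁻¹ * k * g0 ^ (j : ℕ))).toAdd = 0 := h3
    rw [map_mul χ, map_mul χ, hk1, mul_one, map_inv χ, map_pow χ, map_pow χ, toAdd_mul,
      toAdd_inv, toAdd_pow, toAdd_pow] at h4
    set u : ZMod 3 := (χ g0).toAdd with hu
    clear_value u
    have h5 : ∀ (u : ZMod 3) (i j : Fin 3), u ≠ 0 → -((i : ℕ) • u) + (j : ℕ) • u = 0 → i = j := by
      decide
    exact h5 u i j hg0 h4
  have h6 := Nat.card_le_card_of_injective q hq
  simpa using h6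

end Q62
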