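import Pool.Agent.W_04c03c_h62.Defs

/-!
# Restriction of homomorphisms
-/

namespace Q62

open MulAction

/-- Restriction of homomorphisms to a subgroup of finite index is injective: linearly independent
homomorphisms to a field of characteristic zero stay linearly independent.

Proof. A linear combination which vanishes on `N` vanishes on `G`: `g ^ n ∈ N` for some `n > 0` and
`n * φ g = φ (g ^ n) = 0`. -/
theorem restrict_indep {G : Type*} [Group G] (N : Subgroup G) [N.FiniteIndex] {b : ℕ}
    (f : Fin b → (Additive G →+ ℚ)) (hf : LinearIndependent ℚ f) :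
    LinearIndependent ℚ fun i => (f i).comp (MonoidHom.toAdditive N.subtype) := by
  rw [Fintype.linearIndependent_iff] at hf ⊢
  intro c hc
  apply hf c
  refine DFunLike.ext _ _ fun g => ?_
  obtain ⟨n, hn, -, hgn⟩ := Subgroup.exists_pow_mem_of_index_ne_zero
    (Subgroup.FiniteIndex.index_ne_zero (H := N)) (Additive.toMul g)
  have h1 := DFunLike.congr_fun hc (Additive.ofMul ⟨_, hgn⟩)
  rw [AddMonoidHom.finsetSum_apply] at h1 ⊢
  simp only [AddMonoidHom.smul_apply, smul_eq_mul, AddMonoidHom.zero_apply] at h1 ⊢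
  have h2 : ∀ i, (f i).comp (MonoidHom.toAdditive N.subtype) (Additive.ofMul ⟨_, hgn⟩) =
      (n : ℚ) * f i g := by
    intro i
    have h3 : (f i).comp (MonoidHom.toAdditive N.subtype) (Additive.ofMul ⟨_, hgn⟩) =
        f i (n • g) := rfl
    rw [h3, map_nsmul, nsmul_eq_mul]
  have h4 : (n : ℚ) * ∑ i, c i * f i g = 0 := by
    rw [Finset.mul_sum, ← h1]
    refine Finset.sum_congr rfl fun i _ => ?_
    rw [h2]
    ring
  have hn0 : (n : ℚ) ≠ 0 := by exact_mod_cast hn.ne'
  exact (mul_eq_zero.1 h4).resolve_left hn0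

end Q62
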