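import Pool.Agent.W_04c03c_h62.FFRDef

/-!
# The lemma of Schanuel
-/

namespace Q62

universe u

variable {R : Type u} [Ring R]

/-- Schanuel: two surjections from free modules of finite rank onto the same module.

Proof. Lift `f` through `g` and `g` through `f` (`Module.projective_lifting_property`):
`f = g ∘ a`, `g = f ∘ b`. The pullback `P = {(x, y) | f x = g y}` is isomorphic to
`ker g × (Fin n → R)` by `(x, y) ↦ (y - a x, x)` and to `ker f × (Fin m → R)` by
`(x, y) ↦ (x - b y, y)`. -/
theorem schanuel {M : Type u} [AddCommGroup M] [Module R M] {n m : ℕ}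
    (f : (Fin n → R) →ₗ[R] M) (g : (Fin m → R) →ₗ[R] M) (hf : Function.Surjective f)
    (hg : Function.Surjective g) :
    Nonempty ((LinearMap.ker g × (Fin n → R)) ≃ₗ[R] (LinearMap.ker f × (Fin m → R))) := by
  obtain ⟨a, ha⟩ := Module.projective_lifting_property g f hg
  obtain ⟨b, hb⟩ := Module.projective_lifting_property f g hf
  have ha' : ∀ x, g (a x) = f x := fun x => LinearMap.congr_fun ha x
  have hb' : ∀ x, f (b x) = g x := fun x => LinearMap.congr_fun hb x
  refine ⟨{
    toFun := fun p => (⟨p.2 - b ((p.1 : Fin m → R) + a p.2), ?_⟩, (p.1 : Fin m → R) + a p.2)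
    map_add' := ?_
    map_smul' := ?_
    invFun := fun q => (⟨q.2 - a ((q.1 : Fin n → R) + b q.2), ?_⟩, (q.1 : Fin n → R) + b q.2)
    left_inv := ?_
    right_inv := ?_ }⟩
  · rw [LinearMap.mem_ker, map_sub, hb', map_add, ha', LinearMap.mem_ker.mp p.1.2]
    simp
  · rintro ⟨k, x⟩ ⟨k', x'⟩
    ext i
    · simp only [Prod.fst_add, Prod.snd_add, Submodule.coe_add, map_add, Pi.sub_apply,
        Pi.add_apply]
      abel
    · simp only [Prod.fst_add, Prod.snd_add, Submodule.coe_add, map_add, Pi.add_apply]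
      abel
  · rintro r ⟨k, x⟩
    ext i
    · simp only [Prod.smul_mk, RingHom.id_apply, Submodule.coe_smul, map_add, map_smul,
        Pi.sub_apply, Pi.add_apply, Pi.smul_apply, smul_eq_mul, mul_sub, mul_add]
    · simp only [Prod.smul_mk, RingHom.id_apply, Submodule.coe_smul, map_smul,
        Pi.add_apply, Pi.smul_apply, smul_eq_mul, mul_add]
  · rw [LinearMap.mem_ker, map_sub, ha', map_add, hb', LinearMap.mem_ker.mp q.1.2]
    simp
  · rintro ⟨k, x⟩
    ext i
    · simp
    · simp
  · rintro ⟨k, x⟩
    ext i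
    · simp
    · simp

end Q62
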