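import Pool.Agent.W_04c03c_h62.FFRDef

/-!
# Elementary properties of finite free resolutions
-/

namespace Q62

universe u

variable {R : Type u} [Ring R]

/-- Invariance under isomorphism.

Proof. Cases on `l`; compose `f` with the isomorphism, the kernel is the same submodule
(`LinearMap.ker` of the composition equals `ker f`; transport along this equality, e.g.
`by rw`/`LinearEquiv.ofEq` and induction on `l`). -/
theorem FFRl.equiv {l : ℕ} {M M' : Type u} [AddCommGroup M] [Module R M] [AddCommGroup M']
    [Module R M'] {c : ℤ} (h : FFRl R l M c) (e : M ≃ₗ[R] M') : FFRl R l M' c := by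
  cases l with
  | zero =>
    obtain ⟨n, ⟨e'⟩, hc⟩ := h
    exact ⟨n, ⟨e.symm.trans e'⟩, hc⟩
  | succ l =>
    obtain ⟨n, f, hf, c', hc', hc⟩ := h
    refine ⟨n, e.toLinearMap ∘ₗ f, e.surjective.comp hf, c', ?_, hc⟩
    have hk : LinearMap.ker (e.toLinearMap ∘ₗ f) = LinearMap.ker f := LinearEquiv.ker_comp e f
    rw [hk]
    exact hc'

/-- The free module on `Fin (m + n)` is the product of those on `Fin m` and `Fin n`. -/
noncomputable def ffrAppend (R : Type u) [Ring R] (m n : ℕ) :
    (Fin (m + n) → R) ≃ₗ[R] (Fin m → R) × (Fin n → R) :=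
  (LinearEquiv.funCongrLeft R R (finSumFinEquiv (m := m) (n := n))).trans
    (LinearEquiv.sumArrowLequivProdArrow (Fin m) (Fin n) R R)

/-- Kernel of `f × id`. -/
noncomputable def ffrKerProd {m n : ℕ} {M : Type u} [AddCommGroup M] [Module R M]
    (f : (Fin m → R) →ₗ[R] M) :
    LinearMap.ker f ≃ₗ[R] LinearMap.ker
      ((f.prodMap (LinearMap.id (R := R) (M := Fin n → R))) ∘ₗ (ffrAppend R m n).toLinearMap) where
  toFun x := ⟨(ffrAppend R m n).symm (x.1, 0), by
    rw [LinearMap.mem_ker]
    simp⟩
  invFun y := ⟨(ffrAppend R m n y.1).1, by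
    have h := y.2
    rw [LinearMap.mem_ker] at h
    have h1 := congrArg Prod.fst h
    rw [LinearMap.mem_ker]
    exact h1⟩
  map_add' x y := by
    apply Subtype.ext
    apply (ffrAppend R m n).injective
    simp
  map_smul' r x := by
    apply Subtype.ext
    apply (ffrAppend R m n).injective
    simp
  left_inv x := by
    apply Subtype.ext
    simp
  right_inv y := by
    apply Subtype.ext
    apply (ffrAppend R m n).injective
    have h := y.2
    rw [LinearMap.mem_ker] at h
    have h1 := congrArg Prod.snd h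
    simp only [LinearMap.coe_comp, LinearEquiv.coe_coe, Function.comp_apply,
      LinearMap.prodMap_apply, LinearMap.id_coe, id_eq, Prod.snd_zero] at h1
    simp only [LinearEquiv.apply_symm_apply]
    exact Prod.ext rfl h1.symm

/-- Adding a free module of finite rank.

Proof. `l = 0`: `(Fin m → R) × (Fin n → R) ≃ Fin (m + n) → R`. `l + 1`: if `f : (Fin m → R) → M` is
the surjection, use `(Fin (m + n) → R) ≃ (Fin m → R) × (Fin n → R) → M × (Fin n → R)`,
`(f, id)`, whose kernel is isomorphic to `ker f` (`FFRl.equiv`). -/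
theorem FFRl.add_free {l : ℕ} {M : Type u} [AddCommGroup M] [Module R M] {c : ℤ}
    (h : FFRl R l M c) (n : ℕ) : FFRl R l (M × (Fin n → R)) (c + n) := by
  cases l with
  | zero =>
    obtain ⟨m, ⟨e⟩, hc⟩ := h
    refine ⟨m + n, ⟨(e.prodCongr (LinearEquiv.refl R (Fin n → R))).trans
      (ffrAppend R m n).symm⟩, ?_⟩
    rw [hc]
    push_cast
    ring
  | succ l =>
    obtain ⟨m, f, hf, c', hc', hc⟩ := h
    refine ⟨m + n, (f.prodMap (LinearMap.id (R := R) (M := Fin n → R))) ∘ₗ
      (ffrAppend R m n).toLinearMap, ?_, c', hc'.equiv (ffrKerProd f), ?_⟩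
    · rw [LinearMap.coe_comp]
      refine Function.Surjective.comp ?_ (ffrAppend R m n).surjective
      rintro ⟨x, y⟩
      obtain ⟨z, hz⟩ := hf x
      exact ⟨(z, y), by simp [hz]⟩
    · rw [hc]
      push_cast
      ring

/-- The length may be increased.

Proof. Induction on `l`. For `l = 0` use the isomorphism as surjection, its kernel is trivial, i.e.
isomorphic to `Fin 0 → R`, `c' = 0`. -/
theorem FFRl.succ {l : ℕ} {M : Type u} [AddCommGroup M] [Module R M] {c : ℤ}
    (h : FFRl R l M c) : FFRl R (l + 1) M c := by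
  induction l generalizing M c with
  | zero =>
    obtain ⟨n, ⟨e⟩, hc⟩ := h
    refine ⟨n, e.symm.toLinearMap, e.symm.surjective, 0, ⟨0, ?_, by simp⟩, by simp [hc]⟩
    have hk : LinearMap.ker e.symm.toLinearMap = ⊥ := LinearEquiv.ker e.symm
    rw [hk]
    have : Subsingleton (⊥ : Submodule R (Fin n → R)) := inferInstance
    have : Subsingleton (Fin 0 → R) := inferInstance
    exact ⟨{ (0 : (⊥ : Submodule R (Fin n → R)) →ₗ[R] (Fin 0 → R)) with
      invFun := 0
      left_inv := fun x => Subsingleton.elim _ _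
      right_inv := fun x => Subsingleton.elim _ _ }⟩
  | succ l ih =>
    obtain ⟨n, f, hf, c', hc', hc⟩ := h
    exact ⟨n, f, hf, c', ih hc', hc⟩

theorem FFRl.mono {l l' : ℕ} (hl : l ≤ l') {M : Type u} [AddCommGroup M] [Module R M] {c : ℤ}
    (h : FFRl R l M c) : FFRl R l' M c := by
  induction l', hl using Nat.le_induction with
  | base => exact h
  | succ n _ ih => exact ih.succ

end Q62
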