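import Pool.Agent.W_04c03c_h62.FFRBb

/-!
# Quotients and four term sequences
-/

namespace Q62

universe u

variable {R : Type u} [Ring R]

/-- A quotient of modules with finite free resolutions has one.

Proof. By `FFRl.succ` there is a surjection `f : (Fin n → R) → B` with kernel `L`, `FFR R L l'`,
`b = n - l'`. The composition `p ∘ f` is surjective with kernel `M'`, and there is an exact sequence
`0 → L → M' → A → 0` (`f` maps `M'` onto `ker p = range i ≃ A`). By `FFR.extension`
`FFR R M' (l' + a)`, hence `FFR R C (n - (l' + a))`, and `n - (l' + a) = b - a`. -/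
theorem FFR.quotient {A B C : Type u} [AddCommGroup A] [Module R A] [AddCommGroup B] [Module R B]
    [AddCommGroup C] [Module R C] (i : A →ₗ[R] B) (p : B →ₗ[R] C) (hi : Function.Injective i)
    (hp : Function.Surjective p) (he : LinearMap.ker p = LinearMap.range i) {a b : ℤ}
    (hA : FFR R A a) (hB : FFR R B b) : FFR R C (b - a) := by
  obtain ⟨l, hl⟩ := hB
  obtain ⟨n, f, hf, c', hc', rfl⟩ := hl.succ
  have hle : LinearMap.ker f ≤ LinearMap.ker (p ∘ₗ f) := by
    intro x hx
    rw [LinearMap.mem_ker] at hx ⊢
    rw [LinearMap.comp_apply, hx, map_zero]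
  have hmem : ∀ x : LinearMap.ker (p ∘ₗ f), f x ∈ LinearMap.range i := by
    intro x
    rw [← he, LinearMap.mem_ker]
    exact x.2
  let e := LinearEquiv.ofInjective i hi
  let p1 : LinearMap.ker (p ∘ₗ f) →ₗ[R] A :=
    e.symm.toLinearMap ∘ₗ
      LinearMap.codRestrict (LinearMap.range i) (f ∘ₗ (LinearMap.ker (p ∘ₗ f)).subtype) hmem
  have hp1 : ∀ x, i (p1 x) = f x := by
    intro x
    have h1 : (e (p1 x) : B) = f x := by
      show ((e (e.symm _)) : B) = f x
      rw [LinearEquiv.apply_symm_apply]
      rfl
    rw [← h1]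
    rfl
  have hsurj : Function.Surjective p1 := by
    intro y
    obtain ⟨x, hx⟩ := hf (i y)
    have hxk : x ∈ LinearMap.ker (p ∘ₗ f) := by
      rw [LinearMap.mem_ker, LinearMap.comp_apply, hx]
      have h2 : i y ∈ LinearMap.ker p := by
        rw [he]
        exact ⟨y, rfl⟩
      exact h2
    refine ⟨⟨x, hxk⟩, hi ?_⟩
    rw [hp1]
    exact hx
  have hker : LinearMap.ker p1 = LinearMap.range (Submodule.inclusion hle) := by
    ext x
    rw [LinearMap.mem_ker, LinearMap.mem_range]
    constructor
    · intro h3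
      have h4 : f x = 0 := by
        rw [← hp1, h3, map_zero]
      exact ⟨⟨x, h4⟩, Subtype.ext rfl⟩
    · rintro ⟨y, rfl⟩
      apply hi
      rw [hp1, map_zero]
      exact y.2
  obtain ⟨l', hl'⟩ := FFR.extension (Submodule.inclusion hle) p1
    (Submodule.inclusion_injective hle) hsurj hker ⟨l, hc'⟩ hA
  exact ⟨l' + 1, n, p ∘ₗ f, hp.comp hf, c' + a, hl', by ring⟩

/-- Four term sequences `0 → A → B → C → D → 0`.

Proof. `FFR.quotient` for `0 → A → B → range j → 0` (`range j = ker q`) and then for
`0 → ker q → C → D → 0`. -/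
theorem FFR.four {A B C D : Type u} [AddCommGroup A] [Module R A] [AddCommGroup B] [Module R B]
    [AddCommGroup C] [Module R C] [AddCommGroup D] [Module R D] (i : A →ₗ[R] B) (j : B →ₗ[R] C)
    (q : C →ₗ[R] D) (hi : Function.Injective i) (hj : LinearMap.ker j = LinearMap.range i)
    (hq : LinearMap.ker q = LinearMap.range j) (hs : Function.Surjective q) {a b c : ℤ}
    (hA : FFR R A a) (hB : FFR R B b) (hC : FFR R C c) : FFR R D (c - (b - a)) := by
  have h1 : FFR R (LinearMap.range j) (b - a) :=
    FFR.quotient i j.rangeRestrict hi j.surjective_rangeRestrict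
      (by rw [LinearMap.ker_rangeRestrict, hj]) hA hB
  exact FFR.quotient (LinearMap.range j).subtype q (Submodule.subtype_injective _) hs
    (by rw [Submodule.range_subtype, hq]) h1 hC

end Q62
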