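import Pool.Agent.W_04c03c_h62.FFRA

/-!
# Uniqueness of the Euler characteristic
-/

namespace Q62

universe u

variable {R : Type u} [Ring R]

theorem FFRBa_aux [InvariantBasisNumber R] : ∀ (l : ℕ) (M : Type u) [AddCommGroup M] [Module R M]
    (c c' : ℤ), FFRl R l M c → FFRl R l M c' → c = c' := by
  intro l
  induction l with
  | zero =>
    intro M _ _ c c' h h'
    obtain ⟨n, ⟨e⟩, rfl⟩ := h
    obtain ⟨m, ⟨e'⟩, rfl⟩ := h'
    have := eq_of_fin_equiv R (e.symm.trans e')
    exact_mod_cast this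
  | succ l ih =>
    intro M _ _ c c' h h'
    obtain ⟨n, f, hf, a, ha, rfl⟩ := h
    obtain ⟨m, g, hg, b, hb, rfl⟩ := h'
    obtain ⟨e⟩ := schanuel f g hf hg
    have h1 : FFRl R l (LinearMap.ker f × (Fin m → R)) (b + n) := (hb.add_free n).equiv e
    have h2 : FFRl R l (LinearMap.ker f × (Fin m → R)) (a + m) := ha.add_free m
    have := ih _ _ _ h1 h2
    omega

/-- The Euler characteristic is unique (for rings with invariant basis number).

Proof. By `FFRl.mono` both have the same length `l`; induction on `l`, for all `M, c, c'`.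
`l = 0`: `Fin n → R ≃ Fin m → R`, so `n = m` (`InvariantBasisNumber.eq_of_fin_equiv`). `l + 1`:
`f, g` with kernels `K, K'`, Euler characteristics `a, b`, `c = n - a`, `c' = m - b`. By `schanuel`
`K' × (Fin n → R) ≃ K × (Fin m → R)`, with Euler characteristics `b + n` and `a + m` by
`FFRl.add_free`, of length `l`; the induction hypothesis gives `b + n = a + m`. -/
theorem FFR.unique [InvariantBasisNumber R] {M : Type u} [AddCommGroup M] [Module R M] {c c' : ℤ}
    (h : FFR R M c) (h' : FFR R M c') : c = c' := by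
  obtain ⟨l₁, h₁⟩ := h
  obtain ⟨l₂, h₂⟩ := h'
  have h₁' := h₁.mono (le_max_left l₁ l₂)
  have h₂' := h₂.mono (le_max_right l₁ l₂)
  revert h₁' h₂'
  generalize max l₁ l₂ = l
  clear h₁ h₂ l₁ l₂
  intro h₁ h₂
  exact FFRBa_aux l M c c' h₁ h₂

end Q62
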