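import Pool.Agent.W_04c03c_h62.FFRA

/-!
# Horseshoe lemma
-/

namespace Q62

universe u

variable {R : Type u} [Ring R]

theorem FFRBb_zero {A B C : Type u} [AddCommGroup A] [Module R A] [AddCommGroup B] [Module R B]
    [AddCommGroup C] [Module R C] (i : A →ₗ[R] B) (p : B →ₗ[R] C) (hi : Function.Injective i)
    (he : LinearMap.ker p = LinearMap.range i) (s : C →ₗ[R] B)
    (hs : p ∘ₗ s = LinearMap.id) : Nonempty ((A × C) ≃ₗ[R] B) := by
  have hs' : ∀ x, p (s x) = x := fun x => LinearMap.congr_fun hs x
  have hpi : ∀ x, p (i x) = 0 := fun x => by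
    have : i x ∈ LinearMap.ker p := by rw [he]; exact ⟨x, rfl⟩
    exact this
  let φ : (A × C) →ₗ[R] B := LinearMap.coprod i s
  refine ⟨LinearEquiv.ofBijective φ ⟨?_, ?_⟩⟩
  · rw [← LinearMap.ker_eq_bot, LinearMap.ker_eq_bot']
    rintro ⟨x, y⟩ h
    have h1 : i x + s y = 0 := h
    have h2 : y = 0 := by
      have := congrArg p h1
      rw [map_add, hpi, hs', zero_add, map_zero] at this
      exact this
    subst h2
    rw [map_zero, add_zero] at h1
    have h3 : x = 0 := hi (h1.trans (map_zero i).symm)
    rw [h3]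
    rfl
  · intro b
    have h1 : b - s (p b) ∈ LinearMap.ker p := by
      rw [LinearMap.mem_ker, map_sub, hs', sub_self]
    rw [he] at h1
    obtain ⟨x, hx⟩ := h1
    refine ⟨(x, p b), ?_⟩
    show i x + s (p b) = b
    rw [hx]
    abel

theorem FFRBb_aux : ∀ (l : ℕ) (A B C : Type u) [AddCommGroup A] [Module R A] [AddCommGroup B]
    [Module R B] [AddCommGroup C] [Module R C] (i : A →ₗ[R] B) (p : B →ₗ[R] C)
    (_ : Function.Injective i) (_ : Function.Surjective p)
    (_ : LinearMap.ker p = LinearMap.range i) (a c : ℤ)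
    (_ : FFRl R l A a) (_ : FFRl R l C c), FFRl R l B (a + c) := by
  intro l
  induction l with
  | zero =>
    intro A B C _ _ _ _ _ _ i p hi hp he a c hA hC
    obtain ⟨n, ⟨e⟩, rfl⟩ := hA
    obtain ⟨m, ⟨e'⟩, rfl⟩ := hC
    have hproj : Module.Projective R C := Module.Projective.of_equiv e'.symm
    obtain ⟨s, hs⟩ := Module.projective_lifting_property p LinearMap.id hp
    obtain ⟨φ⟩ := FFRBb_zero i p hi he s hs
    let χ : ((Fin n → R) × (Fin m → R)) ≃ₗ[R] (Fin (n + m) → R) :=
      (LinearEquiv.sumArrowLequivProdArrow (Fin n) (Fin m) R R).symm.trans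
        (LinearEquiv.funCongrLeft R R finSumFinEquiv.symm)
    let ψ : (A × C) ≃ₗ[R] ((Fin n → R) × (Fin m → R)) := LinearEquiv.prodCongr e e'
    exact ⟨n + m, ⟨(φ.symm.trans ψ).trans χ⟩, by push_cast; ring⟩
  | succ l ih =>
    intro A B C _ _ _ _ _ _ i p hi hp he a c hA hC
    obtain ⟨n, f, hf, a', ha, rfl⟩ := hA
    obtain ⟨m, g, hg, b', hb, rfl⟩ := hC
    obtain ⟨g', hg'⟩ := Module.projective_lifting_property p g hp
    have hg'' : ∀ x, p (g' x) = g x := fun x => LinearMap.congr_fun hg' x
    have hpi : ∀ x, p (i x) = 0 := fun x => by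
      have : i x ∈ LinearMap.ker p := by rw [he]; exact ⟨x, rfl⟩
      exact this
    let θ : (Fin (n + m) → R) ≃ₗ[R] (Fin n → R) × (Fin m → R) :=
      ((LinearEquiv.sumArrowLequivProdArrow (Fin n) (Fin m) R R).symm.trans
        (LinearEquiv.funCongrLeft R R finSumFinEquiv.symm)).symm
    let h0 : ((Fin n → R) × (Fin m → R)) →ₗ[R] B := LinearMap.coprod (i ∘ₗ f) g'
    have hh0 : ∀ x y, h0 (x, y) = i (f x) + g' y := fun x y => rfl
    let h : (Fin (n + m) → R) →ₗ[R] B := h0 ∘ₗ θ.toLinearMap
    have hh : ∀ z, h z = h0 (θ z) := fun z => rfl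
    refine ⟨n + m, h, ?_, a' + b', ?_, by push_cast; ring⟩
    · intro b
      obtain ⟨y, hy⟩ := hg (p b)
      have h1 : b - g' y ∈ LinearMap.ker p := by
        rw [LinearMap.mem_ker, map_sub, hg'', hy, sub_self]
      rw [he] at h1
      obtain ⟨x, hx⟩ := h1
      obtain ⟨x', rfl⟩ := hf x
      refine ⟨θ.symm (x', y), ?_⟩
      rw [hh, θ.apply_symm_apply, hh0, hx]
      abel
    · -- the exact sequence of the kernels
      let I : LinearMap.ker f →ₗ[R] LinearMap.ker h :=
        LinearMap.codRestrict (LinearMap.ker h)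
          (θ.symm.toLinearMap ∘ₗ LinearMap.inl R (Fin n → R) (Fin m → R) ∘ₗ
            (LinearMap.ker f).subtype) (by
          intro x
          rw [LinearMap.mem_ker]
          show h (θ.symm ((x : Fin n → R), (0 : Fin m → R))) = 0
          rw [hh, θ.apply_symm_apply, hh0, LinearMap.mem_ker.mp x.2, map_zero, map_zero, add_zero])
      let P : LinearMap.ker h →ₗ[R] LinearMap.ker g :=
        LinearMap.codRestrict (LinearMap.ker g)
          (LinearMap.snd R (Fin n → R) (Fin m → R) ∘ₗ θ.toLinearMap ∘ₗ
            (LinearMap.ker h).subtype) (by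
          intro z
          rw [LinearMap.mem_ker]
          show g (θ (z : Fin (n + m) → R)).2 = 0
          have hz := LinearMap.mem_ker.mp z.2
          rw [hh] at hz
          have h1 := congrArg p hz
          rw [show θ (z : Fin (n + m) → R) = ((θ (z : Fin (n + m) → R)).1,
            (θ (z : Fin (n + m) → R)).2) from rfl, hh0, map_add, hpi, hg'', zero_add,
            map_zero] at h1
          exact h1)
      have hI : ∀ x : LinearMap.ker f, ((I x : LinearMap.ker h) : Fin (n + m) → R)
          = θ.symm ((x : Fin n → R), (0 : Fin m → R)) := fun x => rfl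
      have hP : ∀ z : LinearMap.ker h, ((P z : LinearMap.ker g) : Fin m → R)
          = (θ (z : Fin (n + m) → R)).2 := fun z => rfl
      refine ih _ _ _ I P ?_ ?_ ?_ a' b' ha hb
      · intro x x' hx
        have h1 := congrArg (fun z : LinearMap.ker h => θ (z : Fin (n + m) → R)) hx
        simp only [hI, θ.apply_symm_apply] at h1
        exact Subtype.ext (Prod.ext_iff.mp h1).1
      · intro y
        have h1 : g' (y : Fin m → R) ∈ LinearMap.ker p := by
          rw [LinearMap.mem_ker, hg'', LinearMap.mem_ker.mp y.2]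
        rw [he] at h1
        obtain ⟨x, hx⟩ := h1
        obtain ⟨x', rfl⟩ := hf x
        refine ⟨⟨θ.symm (-x', (y : Fin m → R)), ?_⟩, ?_⟩
        · rw [LinearMap.mem_ker, hh, θ.apply_symm_apply, hh0, map_neg, map_neg, hx]
          abel
        · apply Subtype.ext
          rw [hP]
          show (θ (θ.symm (-x', (y : Fin m → R)))).2 = _
          rw [θ.apply_symm_apply]
      · ext z
        rw [LinearMap.mem_ker]
        constructor
        · intro hz
          have h1 : (θ (z : Fin (n + m) → R)).2 = 0 := by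
            rw [← hP, hz]; rfl
          have h2 := LinearMap.mem_ker.mp z.2
          rw [hh, show θ (z : Fin (n + m) → R) = ((θ (z : Fin (n + m) → R)).1,
            (θ (z : Fin (n + m) → R)).2) from rfl, hh0, h1, map_zero, add_zero] at h2
          have h3 : f (θ (z : Fin (n + m) → R)).1 = 0 := hi (h2.trans (map_zero i).symm)
          refine ⟨⟨(θ (z : Fin (n + m) → R)).1, h3⟩, ?_⟩
          apply Subtype.ext
          rw [hI]
          apply θ.injective
          rw [θ.apply_symm_apply]
          exact Prod.ext rfl h1.symm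
        · rintro ⟨x, rfl⟩
          apply Subtype.ext
          rw [hP, hI, θ.apply_symm_apply]
          rfl

/-- Horseshoe: an extension of modules with finite free resolutions has one.

Proof. By `FFRl.mono` `A` and `C` have resolutions of the same length `l`; induction on `l` for all
exact sequences `A → B → C` (`i` injective, `p` surjective, `ker p = range i`).
`l = 0`: `C` is free, so `p` splits and `B ≃ A × C ≃ Fin (n + m) → R`. `l + 1`: surjections
`f : (Fin n → R) → A` and `g : (Fin m → R) → C`; lift `g` to `g' : (Fin m → R) → B` and take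
`h : (Fin (n + m) → R) ≃ (Fin n → R) × (Fin m → R) → B`, `(x, y) ↦ i (f x) + g' y`; it is surjective
and there is an exact sequence `0 → ker f → ker h → ker g → 0` (surjectivity: for `y ∈ ker g`,
`g' y ∈ ker p = range i`, `g' y = - i (f x)`). -/
theorem FFR.extension {A B C : Type u} [AddCommGroup A] [Module R A] [AddCommGroup B] [Module R B]
    [AddCommGroup C] [Module R C] (i : A →ₗ[R] B) (p : B →ₗ[R] C) (hi : Function.Injective i)
    (hp : Function.Surjective p) (he : LinearMap.ker p = LinearMap.range i) {a c : ℤ}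
    (hA : FFR R A a) (hC : FFR R C c) : FFR R B (a + c) := by
  obtain ⟨l₁, h₁⟩ := hA
  obtain ⟨l₂, h₂⟩ := hC
  have h₁' := h₁.mono (le_max_left l₁ l₂)
  have h₂' := h₂.mono (le_max_right l₁ l₂)
  exact ⟨max l₁ l₂, FFRBb_aux (max l₁ l₂) A B C i p hi hp he a c h₁' h₂'⟩

end Q62
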