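import Mathlib

/-!
# Modules with a finite resolution by finitely generated free modules, and Euler characteristics
-/

namespace Q62

universe u

/-- `FFRl l M c`: the module `M` has a resolution of length `l` by free modules of finite rank, with
alternating sum of ranks `c`. -/
def FFRl (R : Type u) [Ring R] : ℕ → ∀ (M : Type u) [AddCommGroup M] [Module R M], ℤ → Prop
  | 0, M, _, _, c => ∃ n : ℕ, Nonempty (M ≃ₗ[R] (Fin n → R)) ∧ c = n
  | (l + 1), M, _, _, c => ∃ (n : ℕ) (f : (Fin n → R) →ₗ[R] M), Function.Surjective f ∧
      ∃ c' : ℤ, FFRl R l (LinearMap.ker f) c' ∧ c = n - c'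

/-- `M` has a finite free resolution with Euler characteristic `c`. -/
def FFR (R : Type u) [Ring R] (M : Type u) [AddCommGroup M] [Module R M] (c : ℤ) : Prop :=
  ∃ l, FFRl R l M c

end Q62
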