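import Pool.Agent.W_04c03c_h62.ShiftSeq
import Pool.Agent.W_04c03c_h62.BasisZ2

/-!
# The permutation module of the cusps has Euler characteristic zero
-/

namespace Q62

open MulAction

universe u

/-- Right translation on cosets. -/
def cuspR {G : Type u} [Group G] {I : Type u} (x y : I → G) (hxy : ∀ i, x i * y i = y i * x i)
    (n : ℤ) : (Σ i : I, G ⧸ Subgroup.zpowers (x i)) → (Σ i : I, G ⧸ Subgroup.zpowers (x i)) :=
  fun t => ⟨t.1, Quotient.map' (fun g : G => g * y t.1 ^ n) (by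
    intro a b hab
    have hab' := QuotientGroup.leftRel_apply.1 hab
    refine QuotientGroup.leftRel_apply.2 ?_
    obtain ⟨k, hk⟩ := Subgroup.mem_zpowers_iff.1 hab'
    refine Subgroup.mem_zpowers_iff.2 ⟨k, ?_⟩
    have hc : Commute (x t.1) (y t.1) := hxy t.1
    have hc' : x t.1 ^ k * y t.1 ^ n = y t.1 ^ n * x t.1 ^ k := (hc.zpow_zpow k n).eq
    show x t.1 ^ k = (a * y t.1 ^ n)⁻¹ * (b * y t.1 ^ n)
    have h1 : (a * y t.1 ^ n)⁻¹ * (b * y t.1 ^ n) = (y t.1 ^ n)⁻¹ * (a⁻¹ * b) * y t.1 ^ n := by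
      group
    rw [h1, ← hk, mul_assoc, hc', ← mul_assoc, inv_mul_cancel, one_mul]) t.2⟩

theorem cuspR_mk {G : Type u} [Group G] {I : Type u} (x y : I → G)
    (hxy : ∀ i, x i * y i = y i * x i) (n : ℤ) (i : I) (g : G) :
    cuspR x y hxy n ⟨i, (QuotientGroup.mk g : G ⧸ Subgroup.zpowers (x i))⟩ =
      ⟨i, (QuotientGroup.mk (g * y i ^ n) : G ⧸ Subgroup.zpowers (x i))⟩ := rfl

theorem cuspR_add {G : Type u} [Group G] {I : Type u} (x y : I → G)
    (hxy : ∀ i, x i * y i = y i * x i) (m n : ℤ) (t : Σ i : I, G ⧸ Subgroup.zpowers (x i)) :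
    cuspR x y hxy m (cuspR x y hxy n t) = cuspR x y hxy (n + m) t := by
  obtain ⟨i, g⟩ := t
  obtain ⟨g, rfl⟩ := QuotientGroup.mk_surjective g
  rw [cuspR_mk, cuspR_mk, cuspR_mk, mul_assoc, ← zpow_add]

theorem cuspR_zero {G : Type u} [Group G] {I : Type u} (x y : I → G)
    (hxy : ∀ i, x i * y i = y i * x i) (t : Σ i : I, G ⧸ Subgroup.zpowers (x i)) :
    cuspR x y hxy 0 t = t := by
  obtain ⟨i, g⟩ := t
  obtain ⟨g, rfl⟩ := QuotientGroup.mk_surjective g
  rw [cuspR_mk, zpow_zero, mul_one]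

/-- Powers of a permutation given by a one parameter family. -/
theorem cusp_zpow {T : Type*} (y : Equiv.Perm T) (z : ℤ → T → T) (h0 : ∀ t, z 0 t = t)
    (hadd : ∀ m n t, z m (z n t) = z (n + m) t) (h1 : ∀ t, y t = z 1 t) (n : ℤ) (t : T) :
    (y ^ n) t = z n t := by
  have hinv : ∀ t, y⁻¹ t = z (-1) t := by
    intro t
    rw [Equiv.Perm.inv_eq_iff_eq, h1, hadd]
    simp [h0]
  induction n using Int.induction_on generalizing t with
  | zero => simp [h0]
  | succ k ih =>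
    rw [zpow_add_one, Equiv.Perm.mul_apply, ih, h1, hadd]
    congr 1
    ring
  | pred k ih =>
    rw [zpow_sub_one, Equiv.Perm.mul_apply, ih, hinv, hadd]
    congr 1
    ring

/-- If all stabilizers of `G` on `Ξ` are isomorphic to `ℤ²` and `Ξ/G` is finite, then `ℤ[Ξ]` has a
finite free resolution over the group ring with Euler characteristic zero.

Proof. Let `I = Ξ/G`, `ξ i = i.out`, and `x i, y i ∈ Stab (ξ i)` a basis (`exists_basis_of_Z2`).
Three `G`-sets: `T1 = I × G` (left multiplication on the second factor; free with `#I` orbits),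
`T2 = Σ i, G ⧸ zpowers (x i)` (or the quotient of `T1` by the relation `(i, g) ~ (i, g * x i ^ n)`),
and `Ξ`.
First application of `FFR.shift`: `T = T1`, `T' = T2`, the automorphism `(i, g) ↦ (i, g * x i)`
(`g * x i ^ n = g` implies `n = 0`), `q` the projection; `GM.FFR_free` gives the hypothesis.
Second application: `T = T2`, `T' = Ξ`, the automorphism `(i, g ⟨x i⟩) ↦ (i, g * y i ⟨x i⟩)`
(well defined since `x i` and `y i` commute; its `n`-th power fixes a point iff
`y i ^ n ∈ zpowers (x i)` iff `n = 0`), `q (i, g ⟨x i⟩) = g • ξ i`; two points have the same image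
iff they have the same `i` and `g⁻¹ * g' ∈ Stab (ξ i) = {x i ^ a * y i ^ b}`. -/
theorem FFR_cusps {G : Type u} [Group G] {Ξ : Type u} [MulAction G Ξ]
    (hfin : Finite (orbitRel.Quotient G Ξ))
    (hstab : ∀ ξ : Ξ, Nonempty (stabilizer G ξ ≃* Multiplicative (ℤ × ℤ))) :
    FFR (MonoidAlgebra ℤ G) (GM G Ξ) 0 := by
  set I : Type u := orbitRel.Quotient G Ξ with hI
  set ξ : I → Ξ := fun i => Quotient.out i with hξ
  have hex : ∀ i : I, ∃ x y : G, x ∈ stabilizer G (ξ i) ∧ y ∈ stabilizer G (ξ i) ∧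
      x * y = y * x ∧ (∀ h ∈ stabilizer G (ξ i), ∃ a b : ℤ, h = x ^ a * y ^ b) ∧
      ∀ a b : ℤ, x ^ a * y ^ b = 1 → a = 0 ∧ b = 0 := by
    intro i
    obtain ⟨x, y, h1, h2, h3⟩ := exists_basis_of_Z2 (hstab (ξ i))
    refine ⟨x, y, x.2, y.2, ?_, ?_, ?_⟩
    · exact congrArg Subtype.val h1
    · intro h hh
      obtain ⟨a, b, hab⟩ := h2 ⟨h, hh⟩
      refine ⟨a, b, ?_⟩
      have := congrArg Subtype.val hab
      simpa using this
    · intro a b hab
      apply h3
      apply Subtype.ext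
      simpa using hab
  choose x y hx hy hxy hspan hind using hex
  -- the free G-set
  have hx1 : ∀ (i : I) (n : ℤ), x i ^ n = 1 → n = 0 := by
    intro i n hn
    exact (hind i n 0 (by simpa using hn)).1
  have hfree : FreeFin G (Σ _ : I, G) := by
    refine ⟨?_, ?_⟩
    · rintro g ⟨i, h⟩ hgh
      have h1 : g • h = h := by
        have h2 : (⟨i, g • h⟩ : Σ _ : I, G) = ⟨i, h⟩ := hgh
        simpa using h2
      rw [smul_eq_mul] at h1
      exact mul_eq_right.1 h1
    · apply Finite.of_surjective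
        (fun i : I => (Quotient.mk'' ⟨i, (1 : G)⟩ : orbitRel.Quotient G (Σ _ : I, G)))
      intro c
      induction c using Quotient.inductionOn' with
      | h t =>
        obtain ⟨i, g⟩ := t
        refine ⟨i, ?_⟩
        apply Quotient.sound'
        show (⟨i, (1 : G)⟩ : Σ _ : I, G) ∈ orbit G (⟨i, g⟩ : Σ _ : I, G)
        refine ⟨g⁻¹, ?_⟩
        show (⟨i, g⁻¹ • g⟩ : Σ _ : I, G) = ⟨i, 1⟩
        simp
  have hT1 := GM.FFR_free hfree
  -- first shift
  have hT2 : FFR (MonoidAlgebra ℤ G) (GM G (Σ i : I, G ⧸ Subgroup.zpowers (x i))) 0 := by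
    let z : ℤ → (Σ _ : I, G) → (Σ _ : I, G) := fun n t => ⟨t.1, t.2 * x t.1 ^ n⟩
    have z0 : ∀ t, z 0 t = t := by
      rintro ⟨i, g⟩
      show (⟨i, g * x i ^ (0 : ℤ)⟩ : Σ _ : I, G) = ⟨i, g⟩
      simp
    have zadd : ∀ m n t, z m (z n t) = z (n + m) t := by
      rintro m n ⟨i, g⟩
      show (⟨i, g * x i ^ n * x i ^ m⟩ : Σ _ : I, G) = ⟨i, g * x i ^ (n + m)⟩
      rw [mul_assoc, ← zpow_add]
    let Y : Equiv.Perm (Σ _ : I, G) :=
      { toFun := z 1
        invFun := z (-1)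
        left_inv := fun t => by rw [zadd]; simp [z0]
        right_inv := fun t => by rw [zadd]; simp [z0] }
    have hY : ∀ (n : ℤ) (t), (Y ^ n) t = z n t := cusp_zpow Y z z0 zadd (fun _ => rfl)
    refine FFR.shift (T := Σ _ : I, G) Y
      (fun t => ⟨t.1, (QuotientGroup.mk t.2 : G ⧸ Subgroup.zpowers (x t.1))⟩) ?_ ?_ ?_ ?_ ?_ hT1
    · rintro g ⟨i, h⟩
      show (⟨i, g * h * x i ^ (1 : ℤ)⟩ : Σ _ : I, G) = ⟨i, g * (h * x i ^ (1 : ℤ))⟩
      rw [mul_assoc]
    · rintro g ⟨i, h⟩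
      rfl
    · rintro n ⟨i, g⟩ hn
      rw [hY] at hn
      have h1 : g * x i ^ n = g := by
        have h2 : (⟨i, g * x i ^ n⟩ : Σ _ : I, G) = ⟨i, g⟩ := hn
        simpa using h2
      exact hx1 i n (mul_eq_left.1 h1)
    · rintro ⟨i, g⟩ ⟨i', g'⟩
      constructor
      · intro h
        have hi : i = i' := congrArg Sigma.fst h
        subst hi
        have h2 : (QuotientGroup.mk g : G ⧸ Subgroup.zpowers (x i)) = QuotientGroup.mk g' := by
          simpa using h
        obtain ⟨n, hn⟩ := Subgroup.mem_zpowers_iff.1 (QuotientGroup.eq.1 h2)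
        refine ⟨n, ?_⟩
        rw [hY]
        show (⟨i, g'⟩ : Σ _ : I, G) = ⟨i, g * x i ^ n⟩
        rw [hn, mul_inv_cancel_left]
      · rintro ⟨n, hn⟩
        rw [hY] at hn
        have hn' : (⟨i', g'⟩ : Σ _ : I, G) = ⟨i, g * x i ^ n⟩ := hn
        rw [hn']
        show (⟨i, (QuotientGroup.mk g : G ⧸ Subgroup.zpowers (x i))⟩ :
          Σ i : I, G ⧸ Subgroup.zpowers (x i)) =
          ⟨i, (QuotientGroup.mk (g * x i ^ n) : G ⧸ Subgroup.zpowers (x i))⟩
        congr 1
        apply QuotientGroup.eq.2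
        rw [inv_mul_cancel_left]
        exact Subgroup.zpow_mem_zpowers _ _
    · rintro ⟨i, c⟩
      obtain ⟨g, rfl⟩ := QuotientGroup.mk_surjective c
      exact ⟨⟨i, g⟩, rfl⟩
  -- second shift
  let Y : Equiv.Perm (Σ i : I, G ⧸ Subgroup.zpowers (x i)) :=
    { toFun := cuspR x y hxy 1
      invFun := cuspR x y hxy (-1)
      left_inv := fun t => by rw [cuspR_add]; simp [cuspR_zero]
      right_inv := fun t => by rw [cuspR_add]; simp [cuspR_zero] }
  have hY : ∀ (n : ℤ) (t), (Y ^ n) t = cuspR x y hxy n t :=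
    cusp_zpow Y (cuspR x y hxy) (cuspR_zero x y hxy) (cuspR_add x y hxy) (fun _ => rfl)
  let q : (Σ i : I, G ⧸ Subgroup.zpowers (x i)) → Ξ := fun t =>
    Quotient.liftOn' t.2 (fun g : G => g • ξ t.1) (by
      intro a b hab
      obtain ⟨k, hk⟩ := Subgroup.mem_zpowers_iff.1 (QuotientGroup.leftRel_apply.1 hab)
      have hb : b = a * x t.1 ^ k := by rw [hk, mul_inv_cancel_left]
      have hs : x t.1 ^ k ∈ stabilizer G (ξ t.1) := Subgroup.zpow_mem _ (hx t.1) k
      show a • ξ t.1 = b • ξ t.1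
      rw [hb, mul_smul, mem_stabilizer_iff.1 hs])
  have hqmk : ∀ (i : I) (g : G),
      q ⟨i, (QuotientGroup.mk g : G ⧸ Subgroup.zpowers (x i))⟩ = g • ξ i := fun _ _ => rfl
  refine FFR.shift (T := Σ i : I, G ⧸ Subgroup.zpowers (x i)) Y q ?_ ?_ ?_ ?_ ?_ hT2
  · rintro g ⟨i, c⟩
    obtain ⟨h, rfl⟩ := QuotientGroup.mk_surjective c
    show cuspR x y hxy 1 ⟨i, (QuotientGroup.mk (g * h) : G ⧸ Subgroup.zpowers (x i))⟩ =
      g • cuspR x y hxy 1 ⟨i, (QuotientGroup.mk h : G ⧸ Subgroup.zpowers (x i))⟩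
    rw [cuspR_mk, cuspR_mk, mul_assoc]
    rfl
  · rintro g ⟨i, c⟩
    obtain ⟨h, rfl⟩ := QuotientGroup.mk_surjective c
    show q ⟨i, (QuotientGroup.mk (g * h) : G ⧸ Subgroup.zpowers (x i))⟩ =
      g • q ⟨i, (QuotientGroup.mk h : G ⧸ Subgroup.zpowers (x i))⟩
    rw [hqmk, hqmk, mul_smul]
  · rintro n ⟨i, c⟩ hn
    obtain ⟨g, rfl⟩ := QuotientGroup.mk_surjective c
    rw [hY, cuspR_mk] at hn
    have h2 : (QuotientGroup.mk (g * y i ^ n) : G ⧸ Subgroup.zpowers (x i)) =
        QuotientGroup.mk g := by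
      simpa using hn
    obtain ⟨k, hk⟩ := Subgroup.mem_zpowers_iff.1 (QuotientGroup.eq.1 h2.symm)
    rw [inv_mul_cancel_left] at hk
    have h3 : x i ^ (-k) * y i ^ n = 1 := by
      rw [← hk, ← zpow_add]
      simp
    exact (hind i _ _ h3).2
  · rintro ⟨i, c⟩ ⟨i', c'⟩
    obtain ⟨g, rfl⟩ := QuotientGroup.mk_surjective c
    obtain ⟨g', rfl⟩ := QuotientGroup.mk_surjective c'
    rw [hqmk, hqmk]
    constructor
    · intro h
      have hi : i = i' := by
        have h1 : (Quotient.mk'' (ξ i) : orbitRel.Quotient G Ξ) = Quotient.mk'' (ξ i') := by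
          apply Quotient.sound'
          show ξ i ∈ orbit G (ξ i')
          refine ⟨g⁻¹ * g', ?_⟩
          show (g⁻¹ * g') • ξ i' = ξ i
          rw [mul_smul, ← h, inv_smul_smul]
        have h2 : ∀ i : I, (Quotient.mk'' (ξ i) : orbitRel.Quotient G Ξ) = i :=
          fun i => Quotient.out_eq' i
        rw [h2, h2] at h1
        exact h1
      subst hi
      have hs : g⁻¹ * g' ∈ stabilizer G (ξ i) := by
        rw [mem_stabilizer_iff, mul_smul, ← h, inv_smul_smul]
      obtain ⟨a, b, hab⟩ := hspan i _ hs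
      refine ⟨b, ?_⟩
      rw [hY, cuspR_mk]
      congr 1
      apply QuotientGroup.eq.2
      have hc : x i ^ a * y i ^ b = y i ^ b * x i ^ a := by
        have hc1 : Commute (x i) (y i) := hxy i
        exact (hc1.zpow_zpow a b).eq
      have h3 : g' = g * (y i ^ b * x i ^ a) := by
        rw [← hc, ← hab, mul_inv_cancel_left]
      have h4 : g'⁻¹ * (g * y i ^ b) = (x i ^ a)⁻¹ := by
        rw [h3]
        group
      rw [h4]
      exact Subgroup.inv_mem _ (Subgroup.zpow_mem_zpowers _ _)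
    · rintro ⟨n, hn⟩
      rw [hY, cuspR_mk] at hn
      have hi : i' = i := congrArg Sigma.fst hn
      subst hi
      have h1 : (QuotientGroup.mk g' : G ⧸ Subgroup.zpowers (x i')) =
          QuotientGroup.mk (g * y i' ^ n) := by
        simpa using hn
      have h2 := hqmk i' g'
      rw [h1, hqmk, mul_smul] at h2
      rw [← h2]
      have hs : y i' ^ n ∈ stabilizer G (ξ i') := Subgroup.zpow_mem _ (hy i') n
      rw [mem_stabilizer_iff.1 hs]
  · intro ζ
    refine ⟨⟨(Quotient.mk'' ζ : orbitRel.Quotient G Ξ), ?_⟩, ?_⟩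
    · have h1 : (Quotient.mk'' (ξ (Quotient.mk'' ζ : orbitRel.Quotient G Ξ)) :
          orbitRel.Quotient G Ξ) = Quotient.mk'' ζ := Quotient.out_eq' _
      have h2 : ζ ∈ orbit G (ξ (Quotient.mk'' ζ : orbitRel.Quotient G Ξ)) := by
        have h3 := Quotient.eq''.1 h1
        exact (orbitRel G Ξ).symm h3
      exact QuotientGroup.mk h2.choose
    · have h1 : (Quotient.mk'' (ξ (Quotient.mk'' ζ : orbitRel.Quotient G Ξ)) :
          orbitRel.Quotient G Ξ) = Quotient.mk'' ζ := Quotient.out_eq' _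
      have h2 : ζ ∈ orbit G (ξ (Quotient.mk'' ζ : orbitRel.Quotient G Ξ)) := by
        have h3 := Quotient.eq''.1 h1
        exact (orbitRel G Ξ).symm h3
      rw [hqmk]
      exact h2.choose_spec

end Q62
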