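import Pool.Agent.W_04c03c_h62.Defs

/-!
# Largeness for subgroups of finite index
-/

namespace Q62

/-- A group with a large subgroup of finite index is large. -/
theorem IsLarge.of_finiteIndex {G : Type*} [Group G] (N : Subgroup G) [N.FiniteIndex]
    (h : IsLarge N) : IsLarge G := by
  obtain ⟨H, hH, f, hf⟩ := h
  have hinj : Function.Injective N.subtype := N.subtype_injective
  let e : H ≃* H.map N.subtype := H.equivMapOfInjective N.subtype hinj
  refine ⟨H.map N.subtype, ?_, f.comp e.symm.toMonoidHom, ?_⟩
  · refine ⟨?_⟩
    rw [Subgroup.index_map_subtype]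
    exact mul_ne_zero hH.index_ne_zero (Subgroup.FiniteIndex.index_ne_zero (H := N))
  · exact hf.comp e.symm.surjective

end Q62
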