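import Pool.Agent.W_04c03c_h62.GModD

/-!
# The integral group ring has invariant basis number
-/

namespace Q62

open MulAction

universe u

/-- The integral group ring has invariant basis number.

Proof. A linear isomorphism `Rⁿ ≃ Rᵐ` gives matrices `A`, `B` over `R` with `A * B = 1`, `B * A = 1`
(of sizes `n × m`, `m × n`); map them to `ℤ` by the augmentation `MonoidAlgebra ℤ G → ℤ`
(`MonoidAlgebra.lift` of the trivial homomorphism) and use invariant basis number for `ℤ`. -/
instance GM.ibn (G : Type u) [Group G] : InvariantBasisNumber (MonoidAlgebra ℤ G) := by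
  rw [invariantBasisNumber_iff_matrix]
  intro n m A B hAB hBA
  have hZ : InvariantBasisNumber ℤ := inferInstance
  rw [invariantBasisNumber_iff_matrix] at hZ
  let ε : MonoidAlgebra ℤ G →+* ℤ := (MonoidAlgebra.lift ℤ ℤ G (1 : G →* ℤ)).toRingHom
  refine hZ n m (A.map ε) (B.map ε) ?_ ?_
  · have := congrArg (fun M => Matrix.map M ε) hAB
    simpa [Matrix.map_mul] using this
  · have := congrArg (fun M => Matrix.map M ε) hBA
    simpa [Matrix.map_mul] using this

end Q62
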