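import Pool.Agent.W_04c03c_h62.GModD

/-!
# Free permutation modules
-/

namespace Q62

open MulAction

universe u

theorem permRep_alg_single {G : Type u} [Group G] {S : Type u} [MulAction G S]
    (c : MonoidAlgebra ℤ G) (t : S) :
    (permRep G S).asAlgebraHom c (Finsupp.single t 1) =
      c.coeff.mapDomain (fun h : G => h • t) := by
  refine MonoidAlgebra.induction_on (motive := fun c => (permRep G S).asAlgebraHom c
    (Finsupp.single t 1) = c.coeff.mapDomain (fun h : G => h • t)) c ?_ ?_ ?_
  · intro g
    rw [Representation.asAlgebraHom_of]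
    show (Finsupp.single t (1 : ℤ)).mapDomain (fun s : S => g • s) = _
    rw [Finsupp.mapDomain_single]
    show _ = (Finsupp.single g (1 : ℤ)).mapDomain (fun h : G => h • t)
    rw [Finsupp.mapDomain_single]
  · intro a b ha hb
    rw [map_add, LinearMap.add_apply, ha, hb, MonoidAlgebra.coeff_add, Finsupp.mapDomain_add]
  · intro r a ha
    rw [map_smul, LinearMap.smul_apply, ha, MonoidAlgebra.coeff_smul, Finsupp.mapDomain_smul]

/-- The map from the free module on the orbits. -/
noncomputable def GM.fromFree (G : Type u) [Group G] (S : Type u) [MulAction G S] :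
    (orbitRel.Quotient G S →₀ MonoidAlgebra ℤ G) →ₗ[MonoidAlgebra ℤ G] GM G S :=
  Finsupp.linearCombination (MonoidAlgebra ℤ G)
    (fun q => (permRep G S).asModuleEquiv.symm (Finsupp.single (Quotient.out q) 1))

theorem GM.fromFree_single (G : Type u) [Group G] (S : Type u) [MulAction G S]
    (q : orbitRel.Quotient G S) (c : MonoidAlgebra ℤ G) :
    (permRep G S).asModuleEquiv (GM.fromFree G S (Finsupp.single q c)) =
      c.coeff.mapDomain (fun h : G => h • Quotient.out q) := by
  unfold GM.fromFree
  rw [Finsupp.linearCombination_single, Representation.asModuleEquiv_map_smul,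
    LinearEquiv.apply_symm_apply, permRep_alg_single]

theorem GM.fromFree_apply {G : Type u} [Group G] {S : Type u} [MulAction G S] (h : FreeFin G S)
    (x : orbitRel.Quotient G S →₀ MonoidAlgebra ℤ G) (q : orbitRel.Quotient G S) (g : G) :
    (permRep G S).asModuleEquiv (GM.fromFree G S x) (g • Quotient.out q) = (x q).coeff g := by
  classical
  induction x using Finsupp.induction_linear with
  | zero => simp
  | add x y hx hy =>
    rw [map_add, map_add, Finsupp.add_apply, hx, hy, Finsupp.add_apply, MonoidAlgebra.coeff_add,
      Finsupp.add_apply]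
  | single p c =>
    rw [GM.fromFree_single, Finsupp.single_apply]
    split_ifs with hpq
    · subst hpq
      have hinj : Function.Injective (fun h : G => h • Quotient.out p) := by
        intro a b hab
        have hab' : a • Quotient.out p = b • Quotient.out p := hab
        have h1 : (b⁻¹ * a) • Quotient.out p = Quotient.out p := by
          rw [mul_smul, hab', inv_smul_smul]
        have h2 := h.free _ _ h1
        have h3 : b * (b⁻¹ * a) = b * 1 := by rw [h2]
        simpa using h3
      exact Finsupp.mapDomain_apply hinj c.coeff g
    · rw [Finsupp.mapDomain_of_notMem_range]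
      · simp
      · rintro ⟨a, ha⟩
        apply hpq
        have ha' : a • Quotient.out p = g • Quotient.out q := ha
        have h1 : (Quotient.mk'' (a • Quotient.out p) : orbitRel.Quotient G S) =
            Quotient.mk'' (g • Quotient.out q) := by rw [ha']
        have h2 : ∀ (b : G) (r : orbitRel.Quotient G S),
            (Quotient.mk'' (b • Quotient.out r) : orbitRel.Quotient G S) = r := by
          intro b r
          have h3 : (Quotient.mk'' (b • Quotient.out r) : orbitRel.Quotient G S) =
              Quotient.mk'' (Quotient.out r) := by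
            apply Quotient.sound
            show (orbitRel G S) _ _
            rw [orbitRel_apply]
            exact ⟨b, rfl⟩
          rw [h3]
          exact Quotient.out_eq r
        rw [h2, h2] at h1
        exact h1

theorem GM.fromFree_bijective {G : Type u} [Group G] {S : Type u} [MulAction G S]
    (h : FreeFin G S) : Function.Bijective (GM.fromFree G S) := by
  constructor
  · rw [injective_iff_map_eq_zero]
    intro x hx
    ext q g
    rw [← GM.fromFree_apply h x q g, hx]
    simp
  · intro y
    obtain ⟨z, rfl⟩ := (permRep G S).asModuleEquiv.symm.surjective y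
    induction z using Finsupp.induction_linear with
    | zero => exact ⟨0, by simp⟩
    | add a b ha hb =>
      obtain ⟨a', ha'⟩ := ha
      obtain ⟨b', hb'⟩ := hb
      exact ⟨a' + b', by rw [map_add, ha', hb', map_add]⟩
    | single s n =>
      obtain ⟨g, hg⟩ : ∃ g : G, g • Quotient.out (Quotient.mk'' s : orbitRel.Quotient G S) = s := by
        have h1 : (orbitRel G S) s (Quotient.out (Quotient.mk'' s : orbitRel.Quotient G S)) := by
          apply Quotient.exact
          exact (Quotient.out_eq _).symm
        rw [orbitRel_apply] at h1
        obtain ⟨g, hg⟩ := h1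
        exact ⟨g, hg⟩
      refine ⟨Finsupp.single (Quotient.mk'' s) (MonoidAlgebra.single g n), ?_⟩
      apply (permRep G S).asModuleEquiv.injective
      rw [GM.fromFree_single, LinearEquiv.apply_symm_apply]
      show (Finsupp.single g n).mapDomain _ = _
      rw [Finsupp.mapDomain_single, hg]

/-- A free `G`-set with `n` orbits gives a free module of rank `n`.

Proof. `S` is equivariantly isomorphic to `(S/G) × G` (choose representatives; `(q, g) ↦ g • q.out`),
so `ℤ[S] ≃ ((S/G) × G →₀ ℤ) ≃ (Fin n → (G →₀ ℤ)) ≃ (Fin n → MonoidAlgebra ℤ G)`. Linearity over the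
group ring is checked on `MonoidAlgebra.of` (as in `GM.map`). Alternatively: the elements
`single q.out 1` form a basis. -/
theorem GM.free_equiv {G : Type u} [Group G] {S : Type u} [MulAction G S] (h : FreeFin G S) :
    Nonempty (GM G S ≃ₗ[MonoidAlgebra ℤ G]
      (Fin (Nat.card (orbitRel.Quotient G S)) → MonoidAlgebra ℤ G)) := by
  have := h.fin
  let e : orbitRel.Quotient G S ≃ Fin (Nat.card (orbitRel.Quotient G S)) :=
    Finite.equivFin (orbitRel.Quotient G S)
  let e1 := LinearEquiv.ofBijective (GM.fromFree G S) (GM.fromFree_bijective h)
  exact ⟨e1.symm.trans ((Finsupp.linearEquivFunOnFinite (MonoidAlgebra ℤ G) (MonoidAlgebra ℤ G)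
    (orbitRel.Quotient G S)).trans (LinearEquiv.funCongrLeft (MonoidAlgebra ℤ G)
      (MonoidAlgebra ℤ G) e.symm))⟩

theorem GM.FFR_free {G : Type u} [Group G] {S : Type u} [MulAction G S] (h : FreeFin G S) :
    FFR (MonoidAlgebra ℤ G) (GM G S) (Nat.card (orbitRel.Quotient G S)) :=
  ⟨0, _, GM.free_equiv h, rfl⟩

end Q62
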