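import Pool.Agent.W_04c03c_h62.Defs
import Pool.Agent.W_04c03c_h62.FFRDef

/-!
# Permutation modules over the group ring
-/

namespace Q62

open MulAction

universe u

/-- The permutation representation on `ℤ[T]`. -/
noncomputable def permRep (G : Type u) [Group G] (T : Type u) [MulAction G T] :
    Representation ℤ G (T →₀ ℤ) where
  toFun g := Finsupp.lmapDomain ℤ ℤ (fun t : T => g • t)
  map_one' := by
    refine LinearMap.ext fun x => ?_
    show x.mapDomain (fun t : T => (1 : G) • t) = x
    have h : (fun t : T => (1 : G) • t) = id := by
      funext t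
      simp
    rw [h, Finsupp.mapDomain_id]
  map_mul' := by
    intro g h
    refine LinearMap.ext fun x => ?_
    show x.mapDomain (fun t : T => (g * h) • t) =
      (x.mapDomain (fun t : T => h • t)).mapDomain (fun t : T => g • t)
    rw [← Finsupp.mapDomain_comp]
    congr 1
    funext t
    simp [mul_smul]

/-- `ℤ[T]` as a module over the group ring. -/
abbrev GM (G : Type u) [Group G] (T : Type u) [MulAction G T] : Type u := (permRep G T).asModule

/-- An additive map commuting with `G` is linear over the group ring. -/
noncomputable def GM.map {G : Type u} [Group G] {S T : Type u} [MulAction G S] [MulAction G T]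
    (f : (S →₀ ℤ) →ₗ[ℤ] (T →₀ ℤ))
    (hf : ∀ (g : G) (x : S →₀ ℤ), f (x.mapDomain (fun s : S => g • s)) =
      (f x).mapDomain (fun t : T => g • t)) :
    GM G S →ₗ[MonoidAlgebra ℤ G] GM G T where
  toFun x := (permRep G T).asModuleEquiv.symm (f ((permRep G S).asModuleEquiv x))
  map_add' := by
    intro x y
    simp [map_add]
  map_smul' := by
    intro r x
    simp only [RingHom.id_apply]
    apply (permRep G T).asModuleEquiv.injective
    rw [LinearEquiv.apply_symm_apply, Representation.asModuleEquiv_map_smul,
      Representation.asModuleEquiv_map_smul, LinearEquiv.apply_symm_apply]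
    generalize (permRep G S).asModuleEquiv x = z
    refine MonoidAlgebra.induction_on (motive := fun r => f ((permRep G S).asAlgebraHom r z) =
      (permRep G T).asAlgebraHom r (f z)) r ?_ ?_ ?_
    · intro g
      rw [Representation.asAlgebraHom_of, Representation.asAlgebraHom_of]
      exact hf g z
    · intro a b ha hb
      rw [map_add, map_add, LinearMap.add_apply, LinearMap.add_apply, map_add, ha, hb]
    · intro c a ha
      rw [map_smul, map_smul, LinearMap.smul_apply, LinearMap.smul_apply, map_smul, ha]

theorem GM.map_apply {G : Type u} [Group G] {S T : Type u} [MulAction G S] [MulAction G T]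
    (f : (S →₀ ℤ) →ₗ[ℤ] (T →₀ ℤ))
    (hf : ∀ (g : G) (x : S →₀ ℤ), f (x.mapDomain (fun s : S => g • s)) =
      (f x).mapDomain (fun t : T => g • t)) (x : S →₀ ℤ) :
    (permRep G T).asModuleEquiv (GM.map f hf ((permRep G S).asModuleEquiv.symm x)) = f x := rfl

end Q62
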