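import Pool.Agent.W_04c03c_h62.Lamp

/-!
# Normal closures of unions; surjectivity
-/

namespace Q62

/-- The union of an increasing sequence of normal closures is the normal closure of the union. -/
theorem mem_normalClosure_iUnion {L : Type*} [Group L] (R : ℕ → Set L) (hR : Monotone R) {w : L}
    (hw : w ∈ Subgroup.normalClosure (⋃ n, R n)) : ∃ n, w ∈ Subgroup.normalClosure (R n) := by
  let N : Subgroup L :=
    { carrier := {w | ∃ n, w ∈ Subgroup.normalClosure (R n)}
      mul_mem' := by
        rintro a b ⟨m, hm⟩ ⟨n, hn⟩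
        refine ⟨max m n, Subgroup.mul_mem _ ?_ ?_⟩
        · exact Subgroup.normalClosure_mono (hR (le_max_left m n)) hm
        · exact Subgroup.normalClosure_mono (hR (le_max_right m n)) hn
      one_mem' := ⟨0, Subgroup.one_mem _⟩
      inv_mem' := by
        rintro a ⟨m, hm⟩
        exact ⟨m, Subgroup.inv_mem _ hm⟩ }
  have hN : N.Normal := by
    constructor
    rintro a ⟨m, hm⟩ g
    exact ⟨m, Subgroup.normalClosure_normal.conj_mem a hm g⟩
  have hle : Subgroup.normalClosure (⋃ n, R n) ≤ N := by
    apply Subgroup.normalClosure_le_normal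
    intro x hx
    obtain ⟨n, hn⟩ := Set.mem_iUnion.1 hx
    exact ⟨n, Subgroup.subset_normalClosure hn⟩
  exact hle hw

theorem rel_mono : Monotone rel := by
  intro m n h x hx
  rcases hx with hx | ⟨j, h1, h2, h3⟩
  · exact Or.inl hx
  · exact Or.inr ⟨j, h1, h2.trans h, h3⟩

theorem lka_alpha_a : alpha l2a = lampA := by
  unfold alpha l2a
  rw [FreeGroup.lift_apply_of]
  rfl

theorem lka_alpha_s : alpha l2s = lampS := by
  unfold alpha l2s
  rw [FreeGroup.lift_apply_of]
  rfl

theorem lka_inr (n : ℤ) :
    (SemidirectProduct.inr (Multiplicative.ofAdd n) : Lamp) = lampS ^ n := by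
  unfold lampS
  rw [← map_zpow, ← ofAdd_zsmul]
  simp

theorem lka_conj (n : ℤ) (f : ℤ →₀ ZMod 2) :
    lampS ^ n * (SemidirectProduct.inl (Multiplicative.ofAdd f) : Lamp) * (lampS ^ n)⁻¹
      = SemidirectProduct.inl (Multiplicative.ofAdd (shiftEquiv n f)) := by
  rw [← lka_inr, ← map_inv, ← SemidirectProduct.inl_aut]
  rfl

theorem lka_single (j : ℤ) (c : ZMod 2) :
    (SemidirectProduct.inl (Multiplicative.ofAdd (Finsupp.single j c)) : Lamp)
      ∈ (alpha).range := by
  have h0 : (SemidirectProduct.inl (Multiplicative.ofAdd (Finsupp.single (0 : ℤ) c)) : Lamp)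
      ∈ (alpha).range := by
    fin_cases c
    · show (SemidirectProduct.inl (Multiplicative.ofAdd
        (Finsupp.single (0 : ℤ) (0 : ZMod 2))) : Lamp) ∈ (alpha).range
      rw [Finsupp.single_zero, ofAdd_zero, map_one]
      exact Subgroup.one_mem _
    · exact ⟨l2a, lka_alpha_a⟩
  have h1 : (SemidirectProduct.inl (Multiplicative.ofAdd (Finsupp.single j c)) : Lamp)
      = lampS ^ j * SemidirectProduct.inl (Multiplicative.ofAdd (Finsupp.single (0 : ℤ) c))
        * (lampS ^ j)⁻¹ := by
    rw [lka_conj, shiftEquiv_single, zero_add]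
  have hs : lampS ∈ (alpha).range := ⟨l2s, lka_alpha_s⟩
  rw [h1]
  exact Subgroup.mul_mem _ (Subgroup.mul_mem _ (Subgroup.zpow_mem _ hs j) h0)
    (Subgroup.inv_mem _ (Subgroup.zpow_mem _ hs j))

theorem alpha_surjective : Function.Surjective alpha := by
  intro x
  have hs : lampS ∈ (alpha).range := ⟨l2s, lka_alpha_s⟩
  have h1 : ∀ f : ℤ →₀ ZMod 2,
      (SemidirectProduct.inl (Multiplicative.ofAdd f) : Lamp) ∈ (alpha).range := by
    intro f
    induction f using Finsupp.induction_linear with
    | zero =>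
      rw [ofAdd_zero, map_one]
      exact Subgroup.one_mem _
    | add f g hf hg =>
      rw [ofAdd_add, map_mul]
      exact Subgroup.mul_mem _ hf hg
    | single j c => exact lka_single j c
  have h2 : x ∈ (alpha).range := by
    rw [← SemidirectProduct.inl_left_mul_inr_right x]
    refine Subgroup.mul_mem _ (h1 x.left.toAdd) ?_
    have h3 := lka_inr x.right.toAdd
    rw [ofAdd_toAdd] at h3
    rw [h3]
    exact Subgroup.zpow_mem _ hs _
  exact h2

end Q62
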