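import Pool.Agent.W_04c03c_h62.LKA

/-!
# Presentation of the lamplighter group
-/

namespace Q62

section Lift

variable {Q : Type*} [Group Q] {a s : Q}

/-- Universal property of the lamplighter group: existence of the homomorphism. -/
theorem lamp_lift_aux (ha : a ^ 2 = 1)
    (hc : ∀ j : ℕ, 1 ≤ j → a * (s ^ j * a * (s ^ j)⁻¹) = (s ^ j * a * (s ^ j)⁻¹) * a) :
    ∃ β : Lamp →* Q, β lampA = a ∧ β lampS = s := by
  classical
  let b : ℤ → Q := fun j => s ^ j * a * (s ^ j)⁻¹
  have hb2 : ∀ j, b j ^ 2 = 1 := by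
    intro j
    show (s ^ j * a * (s ^ j)⁻¹) ^ 2 = 1
    rw [conj_pow, ha, mul_one, mul_inv_cancel]
  have hbs : ∀ n j, s ^ n * b j * (s ^ n)⁻¹ = b (j + n) := by
    intro n j
    show s ^ n * (s ^ j * a * (s ^ j)⁻¹) * (s ^ n)⁻¹ = s ^ (j + n) * a * (s ^ (j + n))⁻¹
    rw [add_comm j n, zpow_add]
    group
  have h0 : ∀ k : ℕ, b 0 * b k = b k * b 0 := by
    intro k
    rcases Nat.eq_zero_or_pos k with hk | hk
    · subst hk; rfl
    · have := hc k hk
      have e0 : b 0 = a := by
        show s ^ (0 : ℤ) * a * (s ^ (0 : ℤ))⁻¹ = a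
        simp
      have e1 : b (k : ℤ) = s ^ k * a * (s ^ k)⁻¹ := by
        show s ^ (k : ℤ) * a * (s ^ (k : ℤ))⁻¹ = _
        rw [zpow_natCast]
      rw [e0, e1]
      exact this
  have hcomm' : ∀ (i : ℤ) (k : ℕ), b i * b (i + k) = b (i + k) * b i := by
    intro i k
    have h := h0 k
    have e0 : b i = s ^ i * b 0 * (s ^ i)⁻¹ := by rw [hbs, zero_add]
    have e1 : b (i + k) = s ^ i * b k * (s ^ i)⁻¹ := by rw [hbs, add_comm]
    rw [e0, e1]
    calc s ^ i * b 0 * (s ^ i)⁻¹ * (s ^ i * b k * (s ^ i)⁻¹)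
        = s ^ i * (b 0 * b k) * (s ^ i)⁻¹ := by group
      _ = s ^ i * (b k * b 0) * (s ^ i)⁻¹ := by rw [h]
      _ = s ^ i * b k * (s ^ i)⁻¹ * (s ^ i * b 0 * (s ^ i)⁻¹) := by group
  have hcomm : ∀ i j : ℤ, b i * b j = b j * b i := by
    intro i j
    rcases le_total i j with hij | hij
    · obtain ⟨k, rfl⟩ := Int.le.dest hij
      exact hcomm' i k
    · obtain ⟨k, rfl⟩ := Int.le.dest hij
      exact (hcomm' j k).symm
  let C : Subgroup Q := Subgroup.closure (Set.range b)
  letI : CommGroup C := Subgroup.closureCommGroupOfComm (k := Set.range b) (by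
    rintro _ ⟨i, rfl⟩ _ ⟨j, rfl⟩
    exact hcomm i j)
  let bC : ℤ → C := fun j => ⟨b j, Subgroup.subset_closure ⟨j, rfl⟩⟩
  have hbC2 : ∀ j, bC j ^ 2 = 1 := fun j => Subtype.ext (hb2 j)
  let z : ∀ _ : ℤ, ZMod 2 →+ Additive C := fun j =>
    ZMod.lift 2 ⟨zmultiplesHom (Additive C) (Additive.ofMul (bC j)), by
      have h := hbC2 j
      rw [zmultiplesHom_apply]
      rw [natCast_zsmul]
      rw [← ofMul_pow, h]
      rfl⟩
  have hz1 : ∀ j, z j 1 = Additive.ofMul (bC j) := by
    intro j
    have : (1 : ZMod 2) = ((1 : ℤ) : ZMod 2) := by simp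
    rw [this]
    show ZMod.lift 2 _ _ = _
    rw [ZMod.lift_coe]
    simp
  let β1 : Multiplicative (ℤ →₀ ZMod 2) →* C :=
    AddMonoidHom.toMultiplicativeLeft (Finsupp.liftAddHom z)
  let β0 : Multiplicative (ℤ →₀ ZMod 2) →* Q := C.subtype.comp β1
  have hβ1 : ∀ j, β0 (Multiplicative.ofAdd (Finsupp.single j 1)) = b j := by
    intro j
    have h1 : Finsupp.liftAddHom z (Finsupp.single j 1) = Additive.ofMul (bC j) := by
      rw [Finsupp.liftAddHom_apply_single, hz1]
    show ((Finsupp.liftAddHom z (Finsupp.single j 1)).toMul : Q) = b j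
    rw [h1]
    rfl
  have key : ∀ (n : ℤ) (x : ℤ →₀ ZMod 2),
      β0 (Multiplicative.ofAdd (shiftEquiv n x))
        = s ^ n * β0 (Multiplicative.ofAdd x) * (s ^ n)⁻¹ := by
    intro n x
    induction x using Finsupp.induction_linear with
    | zero => simp
    | add f g hf hg =>
      rw [map_add, ofAdd_add, map_mul, hf, hg, ofAdd_add, map_mul]
      group
    | single j c =>
      rw [shiftEquiv_single]
      have hc2 : c = 0 ∨ c = 1 := by
        revert c; decide
      rcases hc2 with rfl | rfl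
      · simp
      · rw [hβ1, hβ1, hbs]
  let fg : Multiplicative ℤ →* Q := zpowersHom Q s
  have hfg : ∀ n : Multiplicative ℤ, fg n = s ^ n.toAdd := fun n => by simp [fg, zpowersHom_apply]
  refine ⟨SemidirectProduct.lift β0 fg ?_, ?_, ?_⟩
  · intro g
    refine MonoidHom.ext fun x => ?_
    show β0 (Multiplicative.ofAdd (shiftEquiv g.toAdd x.toAdd)) = fg g * β0 x * (fg g)⁻¹
    rw [hfg]
    exact key g.toAdd x.toAdd
  · show SemidirectProduct.lift β0 fg _ (SemidirectProduct.inl _) = a
    rw [SemidirectProduct.lift_inl, hβ1]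
    show s ^ (0 : ℤ) * a * (s ^ (0 : ℤ))⁻¹ = a
    simp
  · show SemidirectProduct.lift β0 fg _ (SemidirectProduct.inr _) = s
    rw [SemidirectProduct.lift_inr, hfg]
    simp

end Lift

/-- The kernel of `L2 → Lamp` is the normal closure of all relations.

Proof. Let `𝒩 = normalClosure (⋃ n, rel n)`, `Q = L2 ⧸ 𝒩`, `a, s` the images of the generators and
`b j = s ^ j * a * s ^ (-j)` for `j : ℤ`. In `Q` all `b j` commute (conjugate the relation
`comJ (|i - j|)`) and `b j ^ 2 = 1`. So there is a homomorphism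
`β₀ : Multiplicative (ℤ →₀ ZMod 2) → Q` with `β₀ (single j 1) = b j` (its image lies in the
commutative subgroup generated by the `b j`; use `Finsupp.liftAddHom` / `zmultiplesHom` into that
commutative group, or `MonoidHom.noncommPiCoprod` on finite sets), and
`β : Lamp → Q`, `β (x, n) = β₀ x * s ^ n` is a homomorphism (`SemidirectProduct.lift`: the condition
is `s ^ n * β₀ x * s ^ (-n) = β₀ (shift n x)`). `β ∘ alpha` and the quotient map agree on `a` and `s`,
so they are equal; if `alpha w = 1` then `w ∈ 𝒩`. Then use `mem_normalClosure_iUnion`. -/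
theorem exists_rel_of_alpha {w : L2} (hw : alpha w = 1) :
    ∃ n, w ∈ Subgroup.normalClosure (rel n) := by
  apply mem_normalClosure_iUnion rel rel_mono
  set 𝒩 := Subgroup.normalClosure (⋃ n, rel n) with h𝒩
  let q : L2 →* L2 ⧸ 𝒩 := QuotientGroup.mk' 𝒩
  have hq : ∀ x, x ∈ 𝒩 → q x = 1 := fun x hx => (QuotientGroup.eq_one_iff x).2 hx
  have ha : q l2a ^ 2 = 1 := by
    rw [← map_pow]
    apply hq
    exact Subgroup.subset_normalClosure (Set.mem_iUnion.2 ⟨0, Or.inl rfl⟩)
  have hc : ∀ j : ℕ, 1 ≤ j → q l2a * (q l2s ^ j * q l2a * (q l2s ^ j)⁻¹)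
      = (q l2s ^ j * q l2a * (q l2s ^ j)⁻¹) * q l2a := by
    intro j hj
    have h : q (comJ j) = 1 := by
      apply hq
      exact Subgroup.subset_normalClosure (Set.mem_iUnion.2 ⟨j, Or.inr ⟨j, hj, le_refl j, rfl⟩⟩)
    simp only [comJ, map_mul, map_inv, map_pow] at h
    rw [mul_inv_eq_one, mul_inv_eq_iff_eq_mul] at h
    exact h
  obtain ⟨β, hβa, hβs⟩ := lamp_lift_aux ha hc
  have hcomp : β.comp alpha = q := by
    apply FreeGroup.ext_hom
    intro x
    cases x with
    | false => 
      show β (alpha (FreeGroup.of false)) = q l2a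
      have : alpha (FreeGroup.of false) = lampA := by simp [alpha]
      rw [this, hβa]
    | true =>
      show β (alpha (FreeGroup.of true)) = q l2s
      have : alpha (FreeGroup.of true) = lampS := by simp [alpha]
      rw [this, hβs]
  have h1 : q w = 1 := by
    rw [← hcomp, MonoidHom.comp_apply, hw, map_one]
  exact (QuotientGroup.eq_one_iff w).1 h1

/-- A finite set of elements of the kernel lies in the normal closure of finitely many relations. -/
theorem exists_rel_of_finite {W : Set L2} (hW : W.Finite) (h : ∀ w ∈ W, alpha w = 1) :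
    ∃ n, ∀ w ∈ W, w ∈ Subgroup.normalClosure (rel n) := by
  induction W, hW using Set.Finite.induction_on with
  | empty => exact ⟨0, fun w hw => absurd hw (Set.notMem_empty w)⟩
  | @insert x S hx hS ih =>
    obtain ⟨n, hn⟩ := ih fun w hw => h w (Set.mem_insert_of_mem _ hw)
    obtain ⟨m, hm⟩ := exists_rel_of_alpha (h x (Set.mem_insert _ _))
    refine ⟨max n m, fun w hw => ?_⟩
    rcases hw with rfl | hw
    · exact Subgroup.normalClosure_mono (rel_mono (le_max_right n m)) hm
    · exact Subgroup.normalClosure_mono (rel_mono (le_max_left n m)) (hn w hw)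

end Q62
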