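import Pool.Agent.W_04c03c_h62.Defs

/-!
# The lamplighter group `(ℤ/2) ≀ ℤ`: definitions
-/

namespace Q62

/-- The shift of `ℤ →₀ ZMod 2`. -/
noncomputable def shiftEquiv (n : ℤ) : (ℤ →₀ ZMod 2) ≃+ (ℤ →₀ ZMod 2) :=
  Finsupp.domCongr (Equiv.addRight n)

theorem shiftEquiv_single (n j : ℤ) (c : ZMod 2) :
    shiftEquiv n (Finsupp.single j c) = Finsupp.single (j + n) c := by
  simp [shiftEquiv, Finsupp.domCongr]

theorem shiftEquiv_apply (n : ℤ) (f : ℤ →₀ ZMod 2) (j : ℤ) :
    shiftEquiv n f j = f (j - n) := by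
  simp [shiftEquiv, Finsupp.domCongr, Finsupp.equivMapDomain_apply, sub_eq_add_neg]

/-- The action of `ℤ` by shifts. -/
noncomputable def shiftHom : Multiplicative ℤ →* MulAut (Multiplicative (ℤ →₀ ZMod 2)) where
  toFun n := AddEquiv.toMultiplicative (shiftEquiv n.toAdd)
  map_one' := by
    refine MulEquiv.ext fun f => ?_
    apply Multiplicative.toAdd.injective
    refine Finsupp.ext fun j => ?_
    show shiftEquiv 0 f.toAdd j = f.toAdd j
    rw [shiftEquiv_apply, sub_zero]
  map_mul' := by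
    intro m n
    refine MulEquiv.ext fun f => ?_
    apply Multiplicative.toAdd.injective
    refine Finsupp.ext fun j => ?_
    show shiftEquiv (m.toAdd + n.toAdd) f.toAdd j = shiftEquiv m.toAdd (shiftEquiv n.toAdd f.toAdd) j
    rw [shiftEquiv_apply, shiftEquiv_apply, shiftEquiv_apply]
    congr 1
    ring

/-- The lamplighter group. -/
abbrev Lamp := Multiplicative (ℤ →₀ ZMod 2) ⋊[shiftHom] Multiplicative ℤ

/-- the lamp at `0` -/
noncomputable def lampA : Lamp := SemidirectProduct.inl (Multiplicative.ofAdd (Finsupp.single 0 1))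

/-- the step -/
noncomputable def lampS : Lamp := SemidirectProduct.inr (Multiplicative.ofAdd 1)

/-- The free group on `a = of false` and `s = of true`. -/
abbrev L2 := FreeGroup Bool

def l2a : L2 := FreeGroup.of false
def l2s : L2 := FreeGroup.of true

/-- The canonical map `L2 → Lamp`. -/
noncomputable def alpha : L2 →* Lamp := FreeGroup.lift (fun b => if b then lampS else lampA)

/-- The commutator of `a` and `s ^ j * a * s ^ (-j)`. -/
def comJ (j : ℕ) : L2 :=
  l2a * (l2s ^ j * l2a * (l2s ^ j)⁻¹) * l2a⁻¹ * (l2s ^ j * l2a * (l2s ^ j)⁻¹)⁻¹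

/-- The first `n` relations of the lamplighter group. -/
def rel (n : ℕ) : Set L2 := {l2a ^ 2} ∪ {x | ∃ j : ℕ, 1 ≤ j ∧ j ≤ n ∧ x = comJ j}

end Q62
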