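import Pool.Agent.W_04c03c_h62.Chi
import Pool.Agent.W_04c03c_h62.CohA
import Pool.Agent.W_04c03c_h62.CohB
import Pool.Agent.W_04c03c_h62.CohC
import Pool.Agent.W_04c03c_h62.CrossLamp
import Pool.Agent.W_04c03c_h62.LampLarge
import Pool.Agent.W_04c03c_h62.HomZ
import Pool.Agent.W_04c03c_h62.FPSub
import Pool.Agent.W_04c03c_h62.ResFin

/-!
# The dichotomy
-/

namespace Q62

open MulAction

universe u

theorem chiT_ne_one {N : Type*} [Group N] (ψ : N →* Multiplicative ℤ)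
    (hψ : Function.Surjective ψ) : ∃ g, chiT ψ g ≠ 1 := by
  obtain ⟨g, hg⟩ := hψ (Multiplicative.ofAdd 1)
  refine ⟨g, fun h => ?_⟩
  rw [chiT_apply, hg] at h
  have := tU_zpow_eq_one h
  simp at this

/-- At least three orbits imply largeness. -/
theorem large_core {N : Type u} [Group N] {Ξ S0 S1 S2 : Type u} [MulAction N Ξ] [MulAction N S0]
    [MulAction N S1] [MulAction N S2] (P : PD N Ξ S0 S1 S2) (hfg : Group.FG N) (hfp : FPFree N)
    (hc : Nat.card (orbitRel.Quotient N S0) + Nat.card (orbitRel.Quotient N S2) =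
      Nat.card (orbitRel.Quotient N S1))
    (hfin : Finite (orbitRel.Quotient N Ξ)) (h3 : 3 ≤ Nat.card (orbitRel.Quotient N Ξ)) (ξ : Ξ)
    (x y : N) (hkill : ∀ ψ : N →* Multiplicative ℤ, ψ x = 1 → ψ y = 1 →
      ∀ g ∈ stabilizer N ξ, ψ g = 1) : IsLarge N := by
  obtain ⟨φ, hadd, hx, hy, hne⟩ := exists_hom P hc hfin h3 x y
  obtain ⟨ψ, hψ, hker⟩ := exists_surj_int φ hadd hne
  have hst : ∀ g ∈ stabilizer N ξ, (chiT ψ)⁻¹ g = 1 := by
    intro g hg
    have h1 := hkill ψ (hker x hx) (hker y hy) g hg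
    rw [MonoidHom.inv_apply, chiT_apply, h1]
    simp
  obtain ⟨ω, hω, hω0⟩ := exists_VF_of_stab (F := LF) (chiT ψ)⁻¹ ξ hst
  have h0 : ω ≠ 0 := fun h => hω0 (by rw [h]; rfl)
  obtain ⟨d, hd, hn⟩ := exists_crossed P (chiT ψ) hc LF_char_two (chiT_ne_one ψ hψ) hω h0
  obtain ⟨D, hD, ha, hs⟩ := exists_normalized ψ hψ d hd hn
  obtain ⟨Φ, hΦ⟩ := lamp_of_LP ψ D hD ha hs
  exact large_of_lamp hfp Φ hΦ

section
variable {G : Type u} [Group G] {Ξ S0 S1 S2 : Type u} [MulAction G Ξ] [MulAction G S0]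
    [MulAction G S1] [MulAction G S2] (P : PD G Ξ S0 S1 S2)

include P in
theorem chi_sub [Nonempty Ξ] (hfin : Finite (orbitRel.Quotient G Ξ))
    (hstab : ∀ ξ : Ξ, Nonempty (stabilizer G ξ ≃* Multiplicative (ℤ × ℤ)))
    (N : Subgroup G) [N.FiniteIndex] :
    Nat.card (orbitRel.Quotient N S0) + Nat.card (orbitRel.Quotient N S2) =
      Nat.card (orbitRel.Quotient N S1) := by
  have h := P.chi hfin hstab
  rw [(P.free0.sub N).2, (P.free1.sub N).2, (P.free2.sub N).2, ← mul_add, h]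

include P in
/-- The dichotomy for one subgroup of finite index. -/
theorem large_of_three [Nonempty Ξ] (hfp : Group.IsFinitelyPresented G)
    (hfin : Finite (orbitRel.Quotient G Ξ))
    (hstab : ∀ ξ : Ξ, Nonempty (stabilizer G ξ ≃* Multiplicative (ℤ × ℤ)))
    (N : Subgroup G) [N.FiniteIndex] (h3 : 3 ≤ Nat.card (orbitRel.Quotient N Ξ)) :
    IsLarge G := by
  apply IsLarge.of_finiteIndex N
  obtain ⟨ξ⟩ := ‹Nonempty Ξ›
  haveI : Nonempty Ξ := ⟨ξ⟩
  obtain ⟨x, y, hxy, hgen, -⟩ := exists_basis_of_Z2 (hstab ξ)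
  have hi : N.index ≠ 0 := Subgroup.FiniteIndex.index_ne_zero
  obtain ⟨n1, hn1, -, hx1⟩ := Subgroup.exists_pow_mem_of_index_ne_zero hi (x : G)
  obtain ⟨n2, hn2, -, hy2⟩ := Subgroup.exists_pow_mem_of_index_ne_zero hi (y : G)
  have hm : 0 < n1 * n2 := Nat.mul_pos hn1 hn2
  have hx : (x : G) ^ (n1 * n2) ∈ N := by
    rw [pow_mul]
    exact N.pow_mem hx1 n2
  have hy : (y : G) ^ (n1 * n2) ∈ N := by
    rw [mul_comm, pow_mul]
    exact N.pow_mem hy2 n1
  have hxy' : (x : G) * y = y * x := by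
    have := congrArg (Subtype.val) hxy
    simpa using this
  refine large_core (P.res N) (FG_of_FP hfp N) (FPFree.of_finiteIndex hfp N)
    (chi_sub P hfin hstab N) (finite_quotient_sub hfin N) h3 ξ
    ⟨(x : G) ^ (n1 * n2), hx⟩ ⟨(y : G) ^ (n1 * n2), hy⟩ ?_
  intro ψ h1 h2 g hg
  have hg' : (g : G) ∈ stabilizer G ξ := hg
  obtain ⟨a, b, hab⟩ := hgen ⟨g, hg'⟩
  have hab' : (g : G) = (x : G) ^ a * (y : G) ^ b := by
    have := congrArg (Subtype.val) hab
    simpa using this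
  exact kills_of_pow N ψ hxy' hm hx hy h1 h2 g a b hab'

end

/-- `(G, Ξ)` is a Poincare duality pair of dimension 3 (in cells). -/
def IsPDPair (G Ξ : Type u) [Group G] [MulAction G Ξ] : Prop :=
  ∃ (S0 S1 S2 : Type u) (_ : MulAction G S0) (_ : MulAction G S1) (_ : MulAction G S2),
    Nonempty (PD G Ξ S0 S1 S2)

/-- The main theorem. -/
theorem main (G Ξ : Type u) [Group G] [MulAction G Ξ] [Nonempty Ξ]
    (hfp : Group.IsFinitelyPresented G) (hfin : Finite (orbitRel.Quotient G Ξ))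
    (hstab : ∀ ξ : Ξ, Nonempty (stabilizer G ξ ≃* Multiplicative (ℤ × ℤ)))
    (hpd : IsPDPair G Ξ) :
    (∀ (N : Subgroup G) [N.FiniteIndex] (F : Type u) [Field F],
      ∃ f : Fin (Nat.card (orbitRel.Quotient N Ξ)) → (Additive N →+ F), LinearIndependent F f) ∧
    (IsLarge G ∨ ∀ (N : Subgroup G) [N.FiniteIndex], Nat.card (orbitRel.Quotient N Ξ) ≤ 2) ∧
    (ResFin G → IsLarge G ∨
      ∃ A : Subgroup G, A.FiniteIndex ∧ A.index ≤ 2 ∧ ∀ a ∈ A, ∀ b ∈ A, a * b = b * a) := by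
  obtain ⟨S0, S1, S2, _, _, _, ⟨P⟩⟩ := hpd
  have key : IsLarge G ∨ ∀ (N : Subgroup G) [N.FiniteIndex],
      Nat.card (orbitRel.Quotient N Ξ) ≤ 2 := by
    by_cases h : IsLarge G
    · exact Or.inl h
    · refine Or.inr fun N _ => ?_
      by_contra h3
      exact h (large_of_three P hfp hfin hstab N (by omega))
  refine ⟨?_, key, ?_⟩
  · intro N _ F _
    exact exists_homs (P.res N) F (chi_sub P hfin hstab N) (finite_quotient_sub hfin N)
  · intro hrf
    rcases key with h | h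
    · exact Or.inl h
    · right
      obtain ⟨ξ⟩ := ‹Nonempty Ξ›
      refine abelian_of_resFin hrf (stabilizer G ξ) ?_ ?_
      · intro a ha b hb
        obtain ⟨e⟩ := hstab ξ
        have h1 : (⟨a, ha⟩ : stabilizer G ξ) * ⟨b, hb⟩ = ⟨b, hb⟩ * ⟨a, ha⟩ := by
          apply e.injective
          rw [map_mul, map_mul, mul_comm]
        have := congrArg (Subtype.val) h1
        simpa using this
      · intro N hN hNf
        haveI := hNf
        exact (index_le ξ N hN (finite_quotient_sub hfin N)).trans (h N)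

end Q62
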