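import Pool.Agent.W_04c03c_h62.Main
import Pool.Agent.W_04c03c_h62.CohEc
import Pool.Agent.W_04c03c_h62.CycA
import Pool.Agent.W_04c03c_h62.CycB
import Pool.Agent.W_04c03c_h62.CycC

/-!
# Characterizations of largeness
-/

namespace Q62

open MulAction

universe u

theorem finite_map {G : Type*} [Group G] (N : Subgroup G) [N.FiniteIndex] (H : Subgroup N)
    (hH : H.FiniteIndex) : (H.map N.subtype).FiniteIndex := by
  constructor
  rw [Subgroup.index_map_subtype]
  exact mul_ne_zero hH.index_ne_zero Subgroup.FiniteIndex.index_ne_zero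

/-- Three independent homomorphisms on a subgroup of finite index imply largeness. -/
theorem large_of_betti {G Ξ S0 S1 S2 : Type u} [Group G] [MulAction G Ξ] [MulAction G S0]
    [MulAction G S1] [MulAction G S2] (P : PD G Ξ S0 S1 S2) [Nonempty Ξ]
    (hfp : Group.IsFinitelyPresented G) (hfin : Finite (orbitRel.Quotient G Ξ))
    (hstab : ∀ ξ : Ξ, Nonempty (stabilizer G ξ ≃* Multiplicative (ℤ × ℤ)))
    (N : Subgroup G) [N.FiniteIndex] (f : Fin 3 → (Additive N →+ ℚ))
    (hf : LinearIndependent ℚ f) : IsLarge G := by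
  -- pass to the orientable subgroup
  have hker : (P.eps.ker).FiniteIndex := by
    constructor
    have h1 : (P.eps.ker).index = Nat.card P.eps.range := Subgroup.index_ker P.eps
    rw [h1]
    exact Nat.card_pos.ne'
  let M : Subgroup G := N ⊓ P.eps.ker
  have hM : M.FiniteIndex := inferInstance
  by_cases h3 : 3 ≤ Nat.card (orbitRel.Quotient M Ξ)
  · exact large_of_three P hfp hfin hstab M h3
  push Not at h3
  -- restrict the homomorphisms to `M`
  have hMN : (M.subgroupOf N).FiniteIndex := by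
    constructor
    intro h0
    have := hM.index_ne_zero
    have h2 : M.relIndex N * N.index = M.index := Subgroup.relIndex_mul_index inf_le_left
    rw [← h2] at this
    apply this
    rw [Subgroup.relIndex, h0, zero_mul]
  have hr := restrict_indep (M.subgroupOf N) f hf
  let e : M ≃* (M.subgroupOf N) := (Subgroup.subgroupOfEquivOfLe inf_le_left).symm
  let g : Fin 3 → (Additive M →+ ℚ) := fun i =>
    ((f i).comp (MonoidHom.toAdditive (M.subgroupOf N).subtype)).comp
      (MonoidHom.toAdditive e.toMonoidHom)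
  have hg : LinearIndependent ℚ g := by
    rw [Fintype.linearIndependent_iff] at hr ⊢
    intro c hc
    apply hr c
    refine AddMonoidHom.ext fun x => ?_
    have := DFunLike.congr_fun hc (Additive.ofMul (e.symm x.toMul))
    rw [AddMonoidHom.finsetSum_apply] at this ⊢
    refine Eq.trans (Finset.sum_congr rfl fun i _ => ?_) this
    show c i • f i _ = c i • f i _
    congr 2
  -- the restricted structure, with trivial orientation character
  have he : ∀ g : M, (P.res M).eps g = 1 := fun g => g.2.2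
  obtain ⟨Q, hQ⟩ := (P.res M).exists_w_one he
  have hk : Nat.card (orbitRel.Quotient M Ξ) + 1 ≤ 3 := by omega
  obtain ⟨φ, hadd, hne, hkill⟩ := Q.exists_kill ℚ hQ (chi_sub P hfin hstab M)
    (finite_quotient_sub hfin M) (g ∘ Fin.castLE hk)
    (hg.comp _ (Fin.castLE_injective hk))
  have : Group.FG M := FG_of_FP hfp M
  obtain ⟨ψ, hψ, hker'⟩ := exists_surj_int φ hadd hne
  obtain ⟨ξ⟩ := ‹Nonempty Ξ›
  have : Nonempty Ξ := ⟨ξ⟩
  obtain ⟨H, hH, h3'⟩ := three_orbits ψ hψ ξ (fun g hg => hker' g (hkill ξ g hg)) (by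
    intro H hH
    have := hH
    have h5 := finite_quotient_sub (finite_quotient_sub hfin M) H
    exact h5)
  have := finite_map M H hH
  refine large_of_three P hfp hfin hstab (H.map M.subtype) ?_
  rw [card_map]
  exact h3'

/-- The main theorem. -/
theorem main2 (G Ξ : Type) [Group G] [MulAction G Ξ] [Nonempty Ξ]
    (hfp : Group.IsFinitelyPresented G) (hfin : Finite (orbitRel.Quotient G Ξ))
    (hstab : ∀ ξ : Ξ, Nonempty (stabilizer G ξ ≃* Multiplicative (ℤ × ℤ)))
    (hpd : IsPDPair G Ξ) :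
    (∀ (N : Subgroup G) [N.FiniteIndex] (F : Type) [Field F],
      ∃ f : Fin (Nat.card (orbitRel.Quotient N Ξ)) → (Additive N →+ F), LinearIndependent F f) ∧
    (IsLarge G ↔ ∃ N : Subgroup G, N.FiniteIndex ∧ 3 ≤ Nat.card (orbitRel.Quotient N Ξ)) ∧
    (IsLarge G ↔ ∃ N : Subgroup G, N.FiniteIndex ∧
      ∃ f : Fin 3 → (Additive N →+ ℚ), LinearIndependent ℚ f) ∧
    (ResFin G → IsLarge G ∨
      ∃ A : Subgroup G, A.FiniteIndex ∧ A.index ≤ 2 ∧ ∀ a ∈ A, ∀ b ∈ A, a * b = b * a) := by
  obtain ⟨h1, -, h3⟩ := main G Ξ hfp hfin hstab hpd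
  have hcomm : ∀ ξ : Ξ, ∀ a ∈ stabilizer G ξ, ∀ b ∈ stabilizer G ξ, a * b = b * a := by
    intro ξ a ha b hb
    obtain ⟨e⟩ := hstab ξ
    have h1 : (⟨a, ha⟩ : stabilizer G ξ) * ⟨b, hb⟩ = ⟨b, hb⟩ * ⟨a, ha⟩ := by
      apply e.injective
      rw [map_mul, map_mul, mul_comm]
    have := congrArg (Subtype.val) h1
    simpa using this
  obtain ⟨ξ⟩ := ‹Nonempty Ξ›
  have : Nonempty Ξ := ⟨ξ⟩
  have hfinN : ∀ H : Subgroup G, H.FiniteIndex → Finite (orbitRel.Quotient H Ξ) := by
    intro H hH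
    have := hH
    exact finite_quotient_sub hfin H
  obtain ⟨S0, S1, S2, _, _, _, ⟨P⟩⟩ := hpd
  have key : IsLarge G ↔ ∃ N : Subgroup G, N.FiniteIndex ∧
      3 ≤ Nat.card (orbitRel.Quotient N Ξ) := by
    refine ⟨fun h => three_of_large h ξ (hcomm ξ) hfinN, ?_⟩
    rintro ⟨N, hN, h3N⟩
    have := hN
    exact large_of_three P hfp hfin hstab N h3N
  refine ⟨h1, key, ⟨?_, ?_⟩, h3⟩
  · intro h
    obtain ⟨N, hN, h3N⟩ := key.1 h
    have := hN
    obtain ⟨f, hf⟩ := h1 N ℚ
    exact ⟨N, hN, f ∘ Fin.castLE h3N, hf.comp _ (Fin.castLE_injective h3N)⟩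
  · rintro ⟨N, hN, f, hf⟩
    have := hN
    exact large_of_betti P hfp hfin hstab N f hf

end Q62
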