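import Pool.Agent.W_04c03c_h62.Defs

/-!
# Finite quotients which are not almost commutative
-/

namespace Q62

/-- Some finite quotient of `G` has no commutative subgroup of index at most two. -/
def HasRichQuotient (G : Type*) [Group G] : Prop :=
  ∃ (n : ℕ) (f : G →* Equiv.Perm (Fin n)),
    ∀ A : Subgroup f.range, A.index ≤ 2 → ∃ a ∈ A, ∃ b ∈ A, a * b ≠ b * a

/-- The first 3-cycle. -/
def Rich_x : Equiv.Perm (Fin 4) := Equiv.swap 0 1 * Equiv.swap 1 2

/-- The second 3-cycle. -/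
def Rich_y : Equiv.Perm (Fin 4) := Equiv.swap 1 2 * Equiv.swap 2 3

theorem Rich_ne : (Rich_x ^ 2) ^ 2 * (Rich_y ^ 2) ^ 2 ≠ (Rich_y ^ 2) ^ 2 * (Rich_x ^ 2) ^ 2 := by
  decide

theorem Rich_sq {Γ : Type*} [Group Γ] [Finite Γ] (A : Subgroup Γ) (h : A.index ≤ 2) (u : Γ) :
    u ^ 2 ∈ A := by
  have h0 : A.index ≠ 0 := Subgroup.index_ne_zero_of_finite
  have h1 : A.index = 1 ∨ A.index = 2 := by omega
  rcases h1 with h1 | h1
  · rw [Subgroup.index_eq_one.mp h1]
    exact Subgroup.mem_top _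
  · exact Subgroup.sq_mem_of_index_two h1 u

/-- Large groups have such quotients.

Proof. Let `H ≤ G` of finite index and `f : H → FreeGroup (Fin 2)` onto. Let `x, y` be two
3-cycles in `Perm (Fin 4)` which do not commute (`x * y ≠ y * x` by `decide`), and
`h : H → Perm (Fin 4)` the composition of `f` with `FreeGroup.lift ![x, y]`; choose `a, b : H` with
`h a = x ^ 2`, `h b = y ^ 2`. Let `N` be the normal core (in `G`) of the image `M` in `G` of the kernel
of `h` (a subgroup of finite index of `G`); `G ⧸ N` is a finite group, so it embeds into `Perm (Fin n)`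
(regular representation, `MulAction.toPermHom`), which gives `F : G → Perm (Fin n)` with kernel `N`.
Suppose a subgroup `A` of `F.range` of index at most two is commutative. It contains all squares
(`Subgroup.sq_mem_of_index_two`, or `A = ⊤`; the index is not `0` because the group is finite), so
`F (a ^ 2)` and `F (b ^ 2)` commute, and the commutator of `a ^ 2` and `b ^ 2` is in `N ≤ M`, so its
image under `h` is trivial: `x ^ 4 = x` and `y ^ 4 = y` commute, contradiction. -/
theorem rich_of_large {G : Type*} [Group G] (h : IsLarge G) : HasRichQuotient G := by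
  obtain ⟨H, hH, f, hf⟩ := h
  let φ : H →* Equiv.Perm (Fin 4) := (FreeGroup.lift ![Rich_x, Rich_y]).comp f
  obtain ⟨a, ha⟩ : ∃ a : H, φ a = Rich_x ^ 2 := by
    obtain ⟨c, hc⟩ := hf (FreeGroup.of 0 ^ 2)
    refine ⟨c, ?_⟩
    change FreeGroup.lift ![Rich_x, Rich_y] (f c) = _
    rw [hc, map_pow, FreeGroup.lift_apply_of]
    rfl
  obtain ⟨b, hb⟩ : ∃ b : H, φ b = Rich_y ^ 2 := by
    obtain ⟨c, hc⟩ := hf (FreeGroup.of 1 ^ 2)
    refine ⟨c, ?_⟩
    change FreeGroup.lift ![Rich_x, Rich_y] (f c) = _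
    rw [hc, map_pow, FreeGroup.lift_apply_of]
    rfl
  let M : Subgroup G := φ.ker.map H.subtype
  have hM : M.FiniteIndex := by
    refine ⟨?_⟩
    change (φ.ker.map H.subtype).index ≠ 0
    rw [Subgroup.index_map_subtype]
    exact mul_ne_zero (Subgroup.FiniteIndex.index_ne_zero) hH.index_ne_zero
  let N : Subgroup G := M.normalCore
  have hN : N.FiniteIndex := inferInstanceAs M.normalCore.FiniteIndex
  have hNn : N.Normal := inferInstanceAs M.normalCore.Normal
  have hfin : Finite (G ⧸ N) := inferInstance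
  let e : (G ⧸ N) ≃ Fin (Nat.card (G ⧸ N)) := Finite.equivFin (G ⧸ N)
  let F : G →* Equiv.Perm (Fin (Nat.card (G ⧸ N))) :=
    (e.permCongrHom.toMonoidHom.comp (MulAction.toPermHom (G ⧸ N) (G ⧸ N))).comp
      (QuotientGroup.mk' N)
  have hF : ∀ g : G, F g = 1 → g ∈ M := by
    intro g hg
    have h1 : MulAction.toPermHom (G ⧸ N) (G ⧸ N) (QuotientGroup.mk' N g) = 1 := by
      have h2 : e.permCongrHom (MulAction.toPermHom (G ⧸ N) (G ⧸ N) (QuotientGroup.mk' N g)) =
        e.permCongrHom 1 := by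
        rw [map_one]
        exact hg
      exact e.permCongrHom.injective h2
    have h3 : QuotientGroup.mk' N g = 1 := by
      have h4 := congrArg (fun σ : Equiv.Perm (G ⧸ N) => σ 1) h1
      simpa using h4
    have h5 : g ∈ N := by
      have h6 : (QuotientGroup.mk' N g) = 1 ↔ g ∈ N := by
        rw [QuotientGroup.mk'_apply, QuotientGroup.eq_one_iff]
      exact h6.mp h3
    exact Subgroup.normalCore_le M h5
  refine ⟨_, F, fun A hA => ?_⟩
  by_contra hcon
  push Not at hcon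
  have hs := Rich_sq A hA (⟨F (a : G), ⟨(a : G), rfl⟩⟩ : F.range)
  have ht := Rich_sq A hA (⟨F (b : G), ⟨(b : G), rfl⟩⟩ : F.range)
  have hc := hcon _ hs _ ht
  have hc' : F (a : G) ^ 2 * F (b : G) ^ 2 = F (b : G) ^ 2 * F (a : G) ^ 2 :=
    congrArg Subtype.val hc
  have h7 : F (((a ^ 2 * b ^ 2 * (b ^ 2 * a ^ 2)⁻¹ : H)) : G) = 1 := by
    have h8 : (((a ^ 2 * b ^ 2 * (b ^ 2 * a ^ 2)⁻¹ : H)) : G) =
        (a : G) ^ 2 * (b : G) ^ 2 * ((b : G) ^ 2 * (a : G) ^ 2)⁻¹ := by
      push_cast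
      rfl
    rw [h8, map_mul, map_mul, map_pow, map_pow, map_inv, map_mul, map_pow, map_pow, hc',
      mul_inv_cancel]
  have h9 := hF _ h7
  obtain ⟨k, hk, hk'⟩ := h9
  have h10 : k = a ^ 2 * b ^ 2 * (b ^ 2 * a ^ 2)⁻¹ := Subtype.ext hk'
  have h11 : φ (a ^ 2 * b ^ 2 * (b ^ 2 * a ^ 2)⁻¹) = 1 := by
    rw [← h10]
    exact hk
  rw [map_mul, map_inv, map_mul, map_mul, map_pow, map_pow, ha, hb, mul_inv_eq_one] at h11
  exact Rich_ne h11

end Q62
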