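import Pool.Agent.W_04c03c_h62.Main2
import Pool.Agent.W_04c03c_h62.Rich

/-!
# The final theorem
-/

namespace Q62

open MulAction

universe u

/-- Equivalent conditions for largeness. -/
theorem main3 (G Ξ : Type) [Group G] [MulAction G Ξ] [Nonempty Ξ]
    (hfp : Group.IsFinitelyPresented G) (hfin : Finite (orbitRel.Quotient G Ξ))
    (hstab : ∀ ξ : Ξ, Nonempty (stabilizer G ξ ≃* Multiplicative (ℤ × ℤ)))
    (hpd : IsPDPair G Ξ) :
    List.TFAE [IsLarge G,
      ∃ N : Subgroup G, N.FiniteIndex ∧ 3 ≤ Nat.card (orbitRel.Quotient N Ξ),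
      ∃ N : Subgroup G, N.FiniteIndex ∧
        ∃ f : Fin 3 → (Additive N →+ ℚ), LinearIndependent ℚ f,
      HasRichQuotient G] := by
  obtain ⟨-, h2, h3, -⟩ := main2 G Ξ hfp hfin hstab hpd
  tfae_have 1 ↔ 2 := h2
  tfae_have 1 ↔ 3 := h3
  tfae_have 1 → 4 := rich_of_large
  tfae_have 4 → 2 := by
    rintro ⟨n, f, hf⟩
    have hN : f.ker.FiniteIndex := by
      constructor
      rw [Subgroup.index_ker]
      exact Nat.card_pos.ne'
    refine ⟨f.ker, hN, ?_⟩
    by_contra h
    obtain ⟨ξ⟩ := ‹Nonempty Ξ›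
    have hi := index_le ξ f.ker inferInstance (finite_quotient_sub hfin f.ker)
    have hi2 : ((stabilizer G ξ).map f.rangeRestrict).index ≤ 2 := by
      rw [Subgroup.index_map, MonoidHom.ker_rangeRestrict,
        MonoidHom.range_eq_top.2 f.rangeRestrict_surjective, Subgroup.index_top, mul_one]
      omega
    obtain ⟨a, ha, b, hb, hab⟩ := hf _ hi2
    obtain ⟨a', ha', rfl⟩ := ha
    obtain ⟨b', hb', rfl⟩ := hb
    apply hab
    rw [← map_mul, ← map_mul]
    congr 1
    obtain ⟨e⟩ := hstab ξ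
    have h1 : (⟨a', ha'⟩ : stabilizer G ξ) * ⟨b', hb'⟩ = ⟨b', hb'⟩ * ⟨a', ha'⟩ := by
      apply e.injective
      rw [map_mul, map_mul, mul_comm]
    have := congrArg (Subtype.val) h1
    simpa using this
  tfae_finish

end Q62
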