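import Pool.Agent.W_04c03c_h62.Defs

/-!
# Stabilizers in subgroups are generated by two elements
-/

namespace Q62

open MulAction

/-- Subgroups of `ℤ²` are generated by two elements.

Proof. A subgroup of `Multiplicative (ℤ × ℤ)` corresponds to a `ℤ`-submodule `L` of `ℤ × ℤ`.
Elementary: `{b | ∃ a, (a, b) ∈ L}` is a subgroup of `ℤ`, generated by some `b1` with
`(a1, b1) ∈ L`, and `{a | (a, 0) ∈ L}` is generated by some `a2`; then
`(a, b) = k • (a1, b1) + l • (a2, 0)`. (Or use that submodules of free modules over a principal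
ideal domain are free of at most the same rank.) Transport by the isomorphism. -/
theorem gen_two {K : Type*} [Group K] (e : Nonempty (K ≃* Multiplicative (ℤ × ℤ)))
    (L : Subgroup K) : ∃ x y : L, ∀ h : L, ∃ a b : ℤ, h = x ^ a * y ^ b := by
  obtain ⟨e⟩ := e
  let M : AddSubgroup (ℤ × ℤ) :=
    { carrier := {v | e.symm (Multiplicative.ofAdd v) ∈ L}
      zero_mem' := by
        change e.symm (Multiplicative.ofAdd 0) ∈ L
        rw [ofAdd_zero, map_one]
        exact L.one_mem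
      add_mem' := by
        intro a b ha hb
        change e.symm (Multiplicative.ofAdd (a + b)) ∈ L
        rw [ofAdd_add, map_mul]
        exact L.mul_mem ha hb
      neg_mem' := by
        intro a ha
        change e.symm (Multiplicative.ofAdd (-a)) ∈ L
        rw [ofAdd_neg, map_inv]
        exact L.inv_mem ha }
  have hM : ∀ v, v ∈ M ↔ e.symm (Multiplicative.ofAdd v) ∈ L := fun v => Iff.rfl
  obtain ⟨b1, hb1⟩ := Int.subgroup_cyclic (M.map (AddMonoidHom.snd ℤ ℤ))
  obtain ⟨a2, ha2⟩ := Int.subgroup_cyclic (M.comap (AddMonoidHom.inl ℤ ℤ))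
  have h1 : b1 ∈ M.map (AddMonoidHom.snd ℤ ℤ) := by
    rw [hb1]
    exact AddSubgroup.subset_closure rfl
  obtain ⟨⟨a1, b1'⟩, h2, h3⟩ := h1
  have h4 : b1' = b1 := h3
  subst h4
  have h5 : a2 ∈ M.comap (AddMonoidHom.inl ℤ ℤ) := by
    rw [ha2]
    exact AddSubgroup.subset_closure rfl
  have h6 : (a2, (0 : ℤ)) ∈ M := h5
  refine ⟨⟨_, (hM _).1 h2⟩, ⟨_, (hM _).1 h6⟩, fun h => ?_⟩
  obtain ⟨⟨a, b⟩, hv⟩ : ∃ v : ℤ × ℤ, e.symm (Multiplicative.ofAdd v) = (h : K) :=
    ⟨(e h).toAdd, by rw [ofAdd_toAdd]; exact e.symm_apply_apply _⟩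
  have h7 : (a, b) ∈ M := by
    rw [hM, hv]
    exact h.2
  have h8 : b ∈ M.map (AddMonoidHom.snd ℤ ℤ) := ⟨(a, b), h7, rfl⟩
  rw [hb1, AddSubgroup.mem_closure_singleton] at h8
  obtain ⟨k, hk⟩ := h8
  have h9 : a - k * a1 ∈ M.comap (AddMonoidHom.inl ℤ ℤ) := by
    change (a - k * a1, (0 : ℤ)) ∈ M
    have h10 := M.sub_mem h7 (M.zsmul_mem h2 k)
    have h11 : (a, b) - k • (a1, b1') = (a - k * a1, (0 : ℤ)) := by
      ext
      · simp
      · simp only [Prod.snd_sub, Prod.smul_snd, hk, sub_self]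
    rwa [h11] at h10
  rw [ha2, AddSubgroup.mem_closure_singleton] at h9
  obtain ⟨l, hl⟩ := h9
  refine ⟨k, l, Subtype.ext ?_⟩
  rw [Subgroup.coe_mul, Subgroup.coe_zpow, Subgroup.coe_zpow, ← hv]
  change _ = e.symm (Multiplicative.ofAdd (a1, b1')) ^ k *
    e.symm (Multiplicative.ofAdd (a2, 0)) ^ l
  rw [← map_zpow e.symm, ← map_zpow e.symm, ← map_mul e.symm, ← ofAdd_zsmul, ← ofAdd_zsmul,
    ← ofAdd_add]
  congr 2
  ext
  · simp only [Prod.fst_add, Prod.smul_fst, smul_eq_mul] at hl ⊢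
    omega
  · simp only [Prod.snd_add, Prod.smul_snd, smul_eq_mul, mul_zero, add_zero] at hk ⊢
    omega

/-- The stabilizer of a point in a subgroup is generated by two elements.

Proof. The stabilizer in `N` is isomorphic to the subgroup `N.subgroupOf (stabilizer G ξ)` of
`stabilizer G ξ`; use `gen_two`. -/
theorem stab_gen {G : Type*} [Group G] {Ξ : Type*} [MulAction G Ξ] (N : Subgroup G) (ξ : Ξ)
    (e : Nonempty (stabilizer G ξ ≃* Multiplicative (ℤ × ℤ))) :
    ∃ x y : stabilizer N ξ, ∀ h : stabilizer N ξ, ∃ a b : ℤ, h = x ^ a * y ^ b := by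
  let φ : stabilizer N ξ →* stabilizer G ξ :=
    { toFun := fun n => ⟨((n : N) : G), n.2⟩
      map_one' := rfl
      map_mul' := fun _ _ => rfl }
  have hφ : Function.Injective φ := by
    intro a b hab
    have h1 : ((a : N) : G) = ((b : N) : G) := congrArg (fun z : stabilizer G ξ => (z : G)) hab
    exact Subtype.ext (Subtype.ext h1)
  obtain ⟨⟨_, x, rfl⟩, ⟨_, y, rfl⟩, h⟩ := gen_two e φ.range
  refine ⟨x, y, fun n => ?_⟩
  obtain ⟨a, b, hab⟩ := h ⟨φ n, n, rfl⟩
  refine ⟨a, b, hφ ?_⟩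
  rw [map_mul, map_zpow, map_zpow]
  exact congrArg Subtype.val hab

end Q62
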