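import Pool.Agent.W_04c03c_h62.Defs

/-!
# Elementary abelian coverings
-/

namespace Q62

open MulAction

/-- Two homomorphisms `g1`, `g2` to `ZMod p`, independent and zero on the stabilizer, give a
subgroup of finite index with three orbits. -/
theorem modPB_two {N : Type*} [Group N] {Ξ : Type*} [MulAction N Ξ] (p : ℕ) [Fact p.Prime]
    (g1 g2 : Additive N →+ ZMod p) (n1 n2 : N) (ξ : Ξ)
    (h1 : g1 (Additive.ofMul n1) ≠ 0) (h2 : g2 (Additive.ofMul n1) = 0)
    (h3 : g2 (Additive.ofMul n2) ≠ 0)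
    (hs1 : ∀ h : N, h • ξ = ξ → g1 (Additive.ofMul h) = 0)
    (hs2 : ∀ h : N, h • ξ = ξ → g2 (Additive.ofMul h) = 0)
    (hfin : ∀ H : Subgroup N, H.FiniteIndex → Finite (orbitRel.Quotient H Ξ)) :
    ∃ H : Subgroup N, H.FiniteIndex ∧ 3 ≤ Nat.card (orbitRel.Quotient H Ξ) := by
  have hfact : p.Prime := Fact.out
  have hne : NeZero p := ⟨hfact.ne_zero⟩
  let ψ : N →* Multiplicative (ZMod p × ZMod p) :=
    { toFun := fun n => Multiplicative.ofAdd (g1 (Additive.ofMul n), g2 (Additive.ofMul n))
      map_one' := by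
        rw [ofMul_one, map_zero, map_zero]
        rfl
      map_mul' := fun x y => by
        rw [ofMul_mul, map_add, map_add]
        rfl }
  have hψ : ∀ n, n ∈ ψ.ker → g1 (Additive.ofMul n) = 0 ∧ g2 (Additive.ofMul n) = 0 := by
    intro n hn
    have h4 : (g1 (Additive.ofMul n), g2 (Additive.ofMul n)) = ((0, 0) : ZMod p × ZMod p) :=
      congrArg Multiplicative.toAdd (MonoidHom.mem_ker.1 hn)
    exact ⟨congrArg Prod.fst h4, congrArg Prod.snd h4⟩
  have hfi : ψ.ker.FiniteIndex := Subgroup.finiteIndex_ker ψ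
  refine ⟨ψ.ker, hfi, ?_⟩
  have hF := hfin ψ.ker hfi
  let r : Fin 3 → N := ![1, n1, n2]
  let q : Fin 3 → orbitRel.Quotient ψ.ker Ξ := fun i => Quotient.mk (orbitRel ψ.ker Ξ) (r i • ξ)
  have key : ∀ i j : Fin 3, q i = q j →
      g1 (Additive.ofMul (r i)) = g1 (Additive.ofMul (r j)) ∧
      g2 (Additive.ofMul (r i)) = g2 (Additive.ofMul (r j)) := by
    intro i j hij
    have h4 : (r i • ξ) ∈ orbit ψ.ker (r j • ξ) := orbitRel_apply.1 (Quotient.exact hij)
    obtain ⟨⟨k, hk⟩, hk2⟩ := h4
    have h5 : k • (r j • ξ) = r i • ξ := hk2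
    have h6 : ((r i)⁻¹ * k * r j) • ξ = ξ := by
      rw [mul_smul, mul_smul, h5, inv_smul_smul]
    obtain ⟨hk3, hk4⟩ := hψ k hk
    have h7 := hs1 _ h6
    have h8 := hs2 _ h6
    rw [ofMul_mul, ofMul_mul, ofMul_inv, map_add, map_add, map_neg] at h7 h8
    rw [hk3] at h7
    rw [hk4] at h8
    constructor
    · linear_combination -h7
    · linear_combination -h8
  have e0 : ∀ g : Additive N →+ ZMod p, g (Additive.ofMul (r 0)) = 0 := fun g => by
    change g (Additive.ofMul 1) = 0
    rw [ofMul_one, map_zero]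
  have hq : Function.Injective q := by
    have h01 : q 0 ≠ q 1 := fun h => by
      have h4 := (key 0 1 h).1
      rw [e0] at h4
      exact h1 h4.symm
    have h02 : q 0 ≠ q 2 := fun h => by
      have h4 := (key 0 2 h).2
      rw [e0] at h4
      exact h3 h4.symm
    have h12 : q 1 ≠ q 2 := fun h => by
      have h4 := (key 1 2 h).2
      apply h3
      change g2 (Additive.ofMul n1) = g2 (Additive.ofMul n2) at h4
      rw [← h4]
      exact h2
    intro i j hij
    fin_cases i <;> fin_cases j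
    · rfl
    · exact absurd hij h01
    · exact absurd hij h02
    · exact absurd hij.symm h01
    · rfl
    · exact absurd hij h12
    · exact absurd hij.symm h02
    · exact absurd hij.symm h12
    · rfl
  have h6 := Nat.card_le_card_of_injective q hq
  simpa using h6

/-- Four independent homomorphisms to `ZMod p` give a subgroup of finite index with at least three
orbits, if the stabilizers are generated by two elements.

Proof. `F : N → Multiplicative (Fin 4 → ZMod p)`, `g ↦ (i ↦ f i g)`, is onto: its image corresponds to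
an additive subgroup of `Fin 4 → ZMod p`, i.e. a `ZMod p`-subspace; if it is proper, a nonzero
functional `c` vanishes on it and `∑ c i • f i = 0`. Let `H = F.ker`, of index `p ^ 4`. The image
of `stabilizer N ξ` is `{F x ^ a * F y ^ b}`, with at most `p ^ 2` elements, so its index is at least
`p ^ 2 ≥ 4`. Choose three elements `g i` of `N` whose images are in different cosets of the image of
the stabilizer; the points `g i • ξ` are in different `H`-orbits: `h • g i • ξ = g j • ξ` with
`h ∈ H` gives `(g j)⁻¹ * h * g i ∈ stabilizer N ξ`, whose image is `F (g j)⁻¹ * F (g i)`. -/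
theorem three_of_modp {N : Type*} [Group N] {Ξ : Type*} [MulAction N Ξ] (p : ℕ) [Fact p.Prime]
    (f : Fin 4 → (Additive N →+ ZMod p)) (hf : LinearIndependent (ZMod p) f) (ξ : Ξ)
    (hξ : ∃ x y : stabilizer N ξ, ∀ h : stabilizer N ξ, ∃ a b : ℤ, h = x ^ a * y ^ b)
    (hfin : ∀ H : Subgroup N, H.FiniteIndex → Finite (orbitRel.Quotient H Ξ)) :
    ∃ H : Subgroup N, H.FiniteIndex ∧ 3 ≤ Nat.card (orbitRel.Quotient H Ξ) := by
  obtain ⟨x, y, hxy⟩ := hξ
  set T : (Fin 4 → ZMod p) →ₗ[ZMod p] (Additive N →+ ZMod p) :=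
    Fintype.linearCombination (ZMod p) f with hT
  have hTi : Function.Injective T := linearIndependent_iff_injective_fintypeLinearCombination.1 hf
  let ev : N → (Additive N →+ ZMod p) →ₗ[ZMod p] ZMod p := fun n =>
    { toFun := fun g => g (Additive.ofMul n)
      map_add' := fun _ _ => rfl
      map_smul' := fun _ _ => rfl }
  let Φ : (Fin 4 → ZMod p) →ₗ[ZMod p] (ZMod p × ZMod p) :=
    ((ev (x : N)).prod (ev (y : N))).comp T
  have hker : 1 < Module.finrank (ZMod p) (LinearMap.ker Φ) := by
    have h1 := LinearMap.finrank_range_add_finrank_ker Φ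
    have h2 : Module.finrank (ZMod p) (LinearMap.range Φ) ≤ 2 := by
      have h3 := Submodule.finrank_le (LinearMap.range Φ)
      have h4 : Module.finrank (ZMod p) (ZMod p × ZMod p) = 2 := by
        rw [Module.finrank_prod, Module.finrank_self]
      omega
    have h5 : Module.finrank (ZMod p) (Fin 4 → ZMod p) = 4 := by
      rw [Module.finrank_fin_fun]
    omega
  have hnt : Nontrivial (LinearMap.ker Φ) :=
    Module.nontrivial_of_finrank_pos (R := ZMod p) (by omega)
  obtain ⟨c, hc⟩ := exists_ne (0 : LinearMap.ker Φ)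
  obtain ⟨d, hcd⟩ := exists_linearIndependent_pair_of_one_lt_finrank hker hc
  have hstab : ∀ z : LinearMap.ker Φ, ∀ h : N, h • ξ = ξ →
      T (z : Fin 4 → ZMod p) (Additive.ofMul h) = 0 := by
    intro z h hh
    obtain ⟨a, b, hab⟩ := hxy ⟨h, hh⟩
    have h1 : h = (x : N) ^ a * (y : N) ^ b := congrArg (fun w : stabilizer N ξ => (w : N)) hab
    have h2 : Φ (z : Fin 4 → ZMod p) = 0 := LinearMap.mem_ker.1 z.2
    have h3 : T (z : Fin 4 → ZMod p) (Additive.ofMul (x : N)) = 0 := congrArg Prod.fst h2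
    have h4 : T (z : Fin 4 → ZMod p) (Additive.ofMul (y : N)) = 0 := congrArg Prod.snd h2
    rw [h1, ofMul_mul, map_add, ofMul_zpow, ofMul_zpow, map_zsmul, map_zsmul, h3, h4, smul_zero,
      smul_zero, add_zero]
  have hc' : T (c : Fin 4 → ZMod p) ≠ 0 := by
    intro h
    apply hc
    apply Subtype.ext
    apply hTi
    rw [h]
    exact (map_zero T).symm
  obtain ⟨n1, hn1⟩ : ∃ n1 : N, T (c : Fin 4 → ZMod p) (Additive.ofMul n1) ≠ 0 := by
    by_contra hcon
    push Not at hcon
    exact hc' (AddMonoidHom.ext fun n => hcon n.toMul)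
  set t : ZMod p := T (d : Fin 4 → ZMod p) (Additive.ofMul n1) /
    T (c : Fin 4 → ZMod p) (Additive.ofMul n1) with ht
  have hd' : T ((d - t • c : LinearMap.ker Φ) : Fin 4 → ZMod p) ≠ 0 := by
    intro h
    have h1 : d - t • c = 0 := by
      apply Subtype.ext
      apply hTi
      rw [h]
      exact (map_zero T).symm
    have h2 := LinearIndependent.pair_iff.1 hcd (-t) 1 (by
      rw [neg_smul, one_smul, neg_add_eq_sub]
      exact h1)
    exact one_ne_zero h2.2
  obtain ⟨n2, hn2⟩ : ∃ n2 : N,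
      T ((d - t • c : LinearMap.ker Φ) : Fin 4 → ZMod p) (Additive.ofMul n2) ≠ 0 := by
    by_contra hcon
    push Not at hcon
    exact hd' (AddMonoidHom.ext fun n => hcon n.toMul)
  refine modPB_two p (T (c : Fin 4 → ZMod p)) (T ((d - t • c : LinearMap.ker Φ) :
    Fin 4 → ZMod p)) n1 n2 ξ hn1 ?_ hn2 (hstab c) (hstab _) hfin
  rw [Submodule.coe_sub, Submodule.coe_smul, map_sub, map_smul]
  change T (d : Fin 4 → ZMod p) (Additive.ofMul n1) -
    t * T (c : Fin 4 → ZMod p) (Additive.ofMul n1) = 0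
  rw [ht, div_mul_cancel₀ _ hn1, sub_self]

end Q62
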