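import Pool.Agent.W_04c03c_h62.Defs

/-!
# Large groups have subgroups of finite index with large homology mod `p`
-/

namespace Q62

/-- The index of a level. -/
def modPC_lv (l : ZMod 3) : Fin 4 := ⟨l.val, by have := ZMod.val_lt l; omega⟩

theorem modPC_iff (l : ZMod 3) : l = 2 ↔ l + 1 = 0 := by
  revert l
  decide

/-- The generator `a` acts on level `l` by adding `e_l`. -/
def modPC_A (p : ℕ) : Equiv.Perm (ZMod 3 × (Fin 4 → ZMod p)) where
  toFun x := (x.1, x.2 + Pi.single (modPC_lv x.1) 1)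
  invFun x := (x.1, x.2 - Pi.single (modPC_lv x.1) 1)
  left_inv x := by simp
  right_inv x := by simp

/-- The generator `b` goes one level up and adds `e_3` at level `2`. -/
def modPC_B (p : ℕ) : Equiv.Perm (ZMod 3 × (Fin 4 → ZMod p)) where
  toFun x := (x.1 + 1, x.2 + if x.1 + 1 = 0 then Pi.single 3 1 else 0)
  invFun x := (x.1 - 1, x.2 - if x.1 = 0 then Pi.single 3 1 else 0)
  left_inv x := by simp
  right_inv x := by simp

/-- The action of the free group. -/
noncomputable def modPC_rho (p : ℕ) :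
    FreeGroup (Fin 2) →* Equiv.Perm (ZMod 3 × (Fin 4 → ZMod p)) :=
  FreeGroup.lift (fun i => if i = 0 then modPC_A p else modPC_B p)

/-- The level. -/
noncomputable def modPC_beta : FreeGroup (Fin 2) →* Multiplicative (ZMod 3) :=
  FreeGroup.lift (fun i => Multiplicative.ofAdd (if i = 0 then 0 else 1))

theorem modPC_rho_zero (p : ℕ) : modPC_rho p (FreeGroup.of 0) = modPC_A p := by
  simp [modPC_rho]

theorem modPC_rho_one (p : ℕ) : modPC_rho p (FreeGroup.of 1) = modPC_B p := by
  simp [modPC_rho]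

theorem modPC_beta_zero : modPC_beta (FreeGroup.of 0) = Multiplicative.ofAdd 0 := by
  simp [modPC_beta]

theorem modPC_beta_one : modPC_beta (FreeGroup.of 1) = Multiplicative.ofAdd 1 := by
  simp [modPC_beta]

theorem modPC_inv {p : ℕ} {g : FreeGroup (Fin 2)} {u : ZMod 3 → Fin 4 → ZMod p}
    (h : ∀ l v, modPC_rho p g (l, v) = (l + (modPC_beta g).toAdd, v + u l)) :
    ∀ l v, modPC_rho p g⁻¹ (l, v) =
      (l + (modPC_beta g⁻¹).toAdd, v + -u (l - (modPC_beta g).toAdd)) := by
  intro l v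
  rw [map_inv (modPC_rho p), Equiv.Perm.inv_eq_iff_eq, h, map_inv modPC_beta, toAdd_inv]
  ext
  · simp
  · simp [← sub_eq_add_neg]

theorem modPC_form (p : ℕ) (g : FreeGroup (Fin 2)) : ∃ u : ZMod 3 → Fin 4 → ZMod p,
    ∀ l v, modPC_rho p g (l, v) = (l + (modPC_beta g).toAdd, v + u l) := by
  have hA : ∃ u : ZMod 3 → Fin 4 → ZMod p, ∀ l v, modPC_rho p (FreeGroup.of 0) (l, v) =
      (l + (modPC_beta (FreeGroup.of 0)).toAdd, v + u l) := by
    refine ⟨fun l => Pi.single (modPC_lv l) 1, fun l v => ?_⟩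
    rw [modPC_rho_zero, modPC_beta_zero]
    change (l, v + Pi.single (modPC_lv l) 1) = (l + 0, v + Pi.single (modPC_lv l) 1)
    rw [add_zero]
  have hB : ∃ u : ZMod 3 → Fin 4 → ZMod p, ∀ l v, modPC_rho p (FreeGroup.of 1) (l, v) =
      (l + (modPC_beta (FreeGroup.of 1)).toAdd, v + u l) := by
    refine ⟨fun l => if l + 1 = 0 then Pi.single 3 1 else 0, fun l v => ?_⟩
    rw [modPC_rho_one, modPC_beta_one]
    rfl
  have hof : ∀ i : Fin 2, ∃ u : ZMod 3 → Fin 4 → ZMod p, ∀ l v,
      modPC_rho p (FreeGroup.of i) (l, v) =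
      (l + (modPC_beta (FreeGroup.of i)).toAdd, v + u l) := by
    intro i
    rcases (by omega : i = 0 ∨ i = 1) with rfl | rfl
    · exact hA
    · exact hB
  induction g using FreeGroup.induction_on with
  | C1 =>
    refine ⟨0, fun l v => ?_⟩
    rw [map_one, map_one, toAdd_one, add_zero]
    simp
  | of i => exact hof i
  | inv_of i h =>
    obtain ⟨u, hu⟩ := hof i
    exact ⟨_, modPC_inv hu⟩
  | mul x y hx hy =>
    obtain ⟨u, hu⟩ := hx
    obtain ⟨w, hw⟩ := hy
    refine ⟨fun l => w l + u (l + (modPC_beta y).toAdd), fun l v => ?_⟩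
    rw [map_mul (modPC_rho p), Equiv.Perm.mul_apply, hw, hu, map_mul modPC_beta, toAdd_mul]
    ext
    · simp only []
      ring
    · simp only [Pi.add_apply]
      ring

/-- The vector of a word. -/
noncomputable def modPC_D (p : ℕ) (g : FreeGroup (Fin 2)) : Fin 4 → ZMod p :=
  (modPC_rho p g (0, 0)).2

theorem modPC_D_mul (p : ℕ) {g h : FreeGroup (Fin 2)} (hh : (modPC_beta h).toAdd = 0) :
    modPC_D p (g * h) = modPC_D p g + modPC_D p h := by
  obtain ⟨u, hu⟩ := modPC_form p g
  obtain ⟨w, hw⟩ := modPC_form p h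
  rw [modPC_D, modPC_D, modPC_D, map_mul, Equiv.Perm.mul_apply, hw, hh, add_zero, hu, hu]
  change (0 : Fin 4 → ZMod p) + w 0 + u 0 = 0 + u 0 + (0 + w 0)
  ring

theorem modPC_A_apply (p : ℕ) (l : ZMod 3) (v : Fin 4 → ZMod p) :
    modPC_A p (l, v) = (l, v + Pi.single (modPC_lv l) 1) := rfl

theorem modPC_B_apply (p : ℕ) (l : ZMod 3) (v : Fin 4 → ZMod p) :
    modPC_B p (l, v) = (l + 1, v + if l + 1 = 0 then Pi.single 3 1 else 0) := rfl

theorem modPC_Bi_apply (p : ℕ) (l : ZMod 3) (v : Fin 4 → ZMod p) :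
    (modPC_B p)⁻¹ (l, v) = (l - 1, v - if l = 0 then Pi.single 3 1 else 0) := rfl

theorem modPC_B0 (p : ℕ) (v : Fin 4 → ZMod p) : modPC_B p (0, v) = (1, v) := by
  rw [modPC_B_apply, if_neg (by decide), add_zero]
  rfl

theorem modPC_B1 (p : ℕ) (v : Fin 4 → ZMod p) : modPC_B p (1, v) = (2, v) := by
  rw [modPC_B_apply, if_neg (by decide), add_zero]
  rfl

theorem modPC_B2 (p : ℕ) (v : Fin 4 → ZMod p) :
    modPC_B p (2, v) = (0, v + Pi.single 3 1) := by
  rw [modPC_B_apply, if_pos (by decide)]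
  rfl

theorem modPC_Bi1 (p : ℕ) (v : Fin 4 → ZMod p) : (modPC_B p)⁻¹ (1, v) = (0, v) := by
  rw [modPC_Bi_apply, if_neg (by decide), sub_zero]
  rfl

theorem modPC_Bi2 (p : ℕ) (v : Fin 4 → ZMod p) : (modPC_B p)⁻¹ (2, v) = (1, v) := by
  rw [modPC_Bi_apply, if_neg (by decide), sub_zero]
  rfl

theorem modPC_exists (p : ℕ) (i : Fin 4) : ∃ g : FreeGroup (Fin 2), modPC_beta g = 1 ∧
    modPC_D p g = Pi.single i 1 := by
  have hb : modPC_beta (FreeGroup.of 1) = Multiplicative.ofAdd 1 := modPC_beta_one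
  have ha : modPC_beta (FreeGroup.of 0) = 1 := modPC_beta_zero
  fin_cases i
  · refine ⟨FreeGroup.of 0, ha, ?_⟩
    rw [modPC_D, modPC_rho_zero]
    change (0 : Fin 4 → ZMod p) + Pi.single 0 1 = Pi.single 0 1
    rw [zero_add]
  · refine ⟨(FreeGroup.of 1)⁻¹ * FreeGroup.of 0 * FreeGroup.of 1, ?_, ?_⟩
    · rw [map_mul, map_mul, map_inv, hb, ha]
      rfl
    · rw [modPC_D, map_mul, map_mul, map_inv, modPC_rho_zero, modPC_rho_one,
        Equiv.Perm.mul_apply, Equiv.Perm.mul_apply, modPC_B0, modPC_A_apply, modPC_Bi1, zero_add]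
      rfl
  · refine ⟨(FreeGroup.of 1)⁻¹ * (FreeGroup.of 1)⁻¹ * FreeGroup.of 0 * FreeGroup.of 1 *
      FreeGroup.of 1, ?_, ?_⟩
    · rw [map_mul, map_mul, map_mul, map_mul, map_inv, hb, ha]
      rfl
    · rw [modPC_D, map_mul, map_mul, map_mul, map_mul, map_inv, modPC_rho_zero, modPC_rho_one,
        Equiv.Perm.mul_apply, Equiv.Perm.mul_apply, Equiv.Perm.mul_apply, Equiv.Perm.mul_apply,
        modPC_B0, modPC_B1, modPC_A_apply, modPC_Bi2, modPC_Bi1, zero_add]
      rfl
  · refine ⟨FreeGroup.of 1 * FreeGroup.of 1 * FreeGroup.of 1, ?_, ?_⟩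
    · rw [map_mul, map_mul, hb]
      rfl
    · rw [modPC_D, map_mul, map_mul, modPC_rho_one, Equiv.Perm.mul_apply, Equiv.Perm.mul_apply,
        modPC_B0, modPC_B1, modPC_B2, zero_add]
      rfl

/-- A large group has, for every prime `p`, a subgroup of finite index with four independent
homomorphisms to `ZMod p`.

Proof. It is enough to find a subgroup `K` of finite index in `F = FreeGroup (Fin 2)` (on `a, b`) with
four independent homomorphisms `K → ZMod p`: if `H ≤ G` has finite index and `f : H → F` is onto, pull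
them back to `K.comap f` (onto `K`) and map this subgroup to `G` (`Subgroup.map H.subtype`).
Let `K` be the kernel of `F → Multiplicative (ZMod 3)`, `a ↦ 0`, `b ↦ 1`. For `j : ZMod 3` define
`φ_j : K → ZMod p` (or `→ ℤ`, then reduce) as the exponent sum of the letters `a` read at level `j`:
there is a crossed homomorphism `D : F → (ZMod 3 → ℤ)`, `D (g * h) = D g + shift (β g) (D h)`,
`D a = single 0 1`, `D b = 0` (a homomorphism to the semidirect product
`(ZMod 3 → ℤ) ⋊ ZMod 3`, given on the generators by `FreeGroup.lift`; `β` is the homomorphism to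
`ZMod 3`), and on `K` it is a homomorphism with components `φ_0, φ_1, φ_2`. The fourth one is `ψ`, the
exponent sum of `b` divided by `3` (the exponent sum of `b` is divisible by `3` on `K`). The
elements `a`, `b * a * b⁻¹`, `b ^ 2 * a * b⁻¹ ^ 2`, `b ^ 3` of `K` have the values
`e_0, e_1, e_2, e_3` (standard basis), which shows the independence. -/
theorem modp_of_large {G : Type*} [Group G] (h : IsLarge G) (p : ℕ) [Fact p.Prime] :
    ∃ N : Subgroup G, N.FiniteIndex ∧
      ∃ f : Fin 4 → (Additive N →+ ZMod p), LinearIndependent (ZMod p) f := by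
  obtain ⟨H, hH, f, hf⟩ := h
  have hne : NeZero p := ⟨(Fact.out : p.Prime).ne_zero⟩
  set K : Subgroup H := (modPC_beta.comp f).ker with hK
  have hKfi : K.FiniteIndex := Subgroup.finiteIndex_ker _
  have hN : (K.map H.subtype).FiniteIndex := by
    constructor
    rw [Subgroup.index_map_subtype]
    exact mul_ne_zero hKfi.index_ne_zero hH.index_ne_zero
  refine ⟨K.map H.subtype, hN, ?_⟩
  let E : K ≃* K.map H.subtype := K.equivMapOfInjective H.subtype H.subtype_injective
  have hβ : ∀ k : K, (modPC_beta (f (k : H))).toAdd = 0 := by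
    intro k
    have h1 : modPC_beta (f (k : H)) = 1 := k.2
    rw [h1]
    rfl
  let F : Fin 4 → (Additive (K.map H.subtype) →+ ZMod p) := fun i =>
    { toFun := fun n => modPC_D p (f ((E.symm n.toMul : K) : H)) i
      map_zero' := by
        have h1 := modPC_D_mul p (g := 1) (h := 1) (by rw [map_one]; rfl)
        rw [mul_one] at h1
        rw [toMul_zero, map_one, Subgroup.coe_one, map_one]
        have h2 := congrArg (fun z : Fin 4 → ZMod p => z i) h1
        simp only [Pi.add_apply] at h2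
        exact (left_eq_add.1 h2)
      map_add' := fun x y => by
        rw [toMul_add, map_mul, Subgroup.coe_mul, map_mul, modPC_D_mul p (hβ _)]
        rfl }
  refine ⟨F, ?_⟩
  rw [Fintype.linearIndependent_iff]
  intro c hc j
  obtain ⟨g, hg1, hg2⟩ := modPC_exists p j
  obtain ⟨h, rfl⟩ := hf g
  have h1 := congrArg (fun z : Additive (K.map H.subtype) →+ ZMod p =>
    z (Additive.ofMul (E ⟨h, hg1⟩))) hc
  have h2 : ∀ i, F i (Additive.ofMul (E ⟨h, hg1⟩)) = (Pi.single j 1 : Fin 4 → ZMod p) i := by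
    intro i
    change modPC_D p (f ((E.symm (E ⟨h, hg1⟩) : K) : H)) i = _
    rw [E.symm_apply_apply, hg2]
  simp only [AddMonoidHom.finsetSum_apply, AddMonoidHom.smul_apply, h2, AddMonoidHom.zero_apply,
    smul_eq_mul] at h1
  simpa [Pi.single_apply] using h1

end Q62
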