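import Pool.Agent.W_04c03c_h62.Main3
import Pool.Agent.W_04c03c_h62.ModPA
import Pool.Agent.W_04c03c_h62.ModPB
import Pool.Agent.W_04c03c_h62.ModPC

/-!
# The final theorem, with homology mod `p`
-/

namespace Q62

open MulAction

/-- Equivalent conditions for largeness. -/
theorem main4 (G Ξ : Type) [Group G] [MulAction G Ξ] [Nonempty Ξ] (p : ℕ) [Fact p.Prime]
    (hfp : Group.IsFinitelyPresented G) (hfin : Finite (orbitRel.Quotient G Ξ))
    (hstab : ∀ ξ : Ξ, Nonempty (stabilizer G ξ ≃* Multiplicative (ℤ × ℤ)))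
    (hpd : IsPDPair G Ξ) :
    List.TFAE [IsLarge G,
      ∃ N : Subgroup G, N.FiniteIndex ∧ 3 ≤ Nat.card (orbitRel.Quotient N Ξ),
      ∃ N : Subgroup G, N.FiniteIndex ∧
        ∃ f : Fin 3 → (Additive N →+ ℚ), LinearIndependent ℚ f,
      ∃ N : Subgroup G, N.FiniteIndex ∧
        ∃ f : Fin 4 → (Additive N →+ ZMod p), LinearIndependent (ZMod p) f,
      HasRichQuotient G] := by
  have h0 := main3 G Ξ hfp hfin hstab hpd
  tfae_have 1 ↔ 2 := h0.out 0 1
  tfae_have 1 ↔ 3 := h0.out 0 2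
  tfae_have 1 ↔ 5 := h0.out 0 3
  tfae_have 1 → 4 := fun h => modp_of_large h p
  tfae_have 4 → 2 := by
    rintro ⟨N, hN, f, hf⟩
    obtain ⟨ξ⟩ := ‹Nonempty Ξ›
    obtain ⟨H, hH, h3⟩ := three_of_modp p f hf ξ (stab_gen N ξ (hstab ξ)) (by
      intro H hH
      exact finite_quotient_sub (finite_quotient_sub hfin N) H)
    refine ⟨H.map N.subtype, finite_map N H hH, ?_⟩
    rw [card_map]
    exact h3
  tfae_finish

end Q62
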