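import Pool.Agent.W_04c03c_h62.Defs

/-!
# Orbits of subgroups of finite index
-/

namespace Q62

open MulAction

/-- A subgroup of finite index has finitely many orbits on a `G`-set with finitely many orbits.

Proof. The map `(G ⧸ N) × S/G → S/N`, `(x, q) ↦ N • (x.out⁻¹ • q.out)` is surjective: if
`s = g • q.out`, let `x` be the class of `g⁻¹`; then `x.out = g⁻¹ * n` with `n : N`, so
`x.out⁻¹ • q.out = n⁻¹ • g • q.out` is in the `N`-orbit of `s`. -/
theorem finite_quotient_sub {G : Type*} [Group G] {Ξ : Type*} [MulAction G Ξ]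
    (h : Finite (orbitRel.Quotient G Ξ)) (N : Subgroup G) [N.FiniteIndex] :
    Finite (orbitRel.Quotient N Ξ) := by
  classical
  let f : (G ⧸ N) × orbitRel.Quotient G Ξ → orbitRel.Quotient N Ξ :=
    fun p => Quotient.mk _ (p.1.out⁻¹ • p.2.out)
  haveI : Finite (orbitRel.Quotient G Ξ) := h
  haveI : Finite (G ⧸ N) := inferInstance
  refine Finite.of_surjective f ?_
  intro q
  induction q using Quotient.inductionOn with
  | h s =>
    let q0 : orbitRel.Quotient G Ξ := Quotient.mk _ s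
    have h1 : (orbitRel G Ξ).r s q0.out := by
      apply Quotient.exact
      rw [Quotient.out_eq]
    obtain ⟨g, hg⟩ : ∃ g : G, g • q0.out = s := h1
    refine ⟨(((g⁻¹ : G) : G ⧸ N), q0), ?_⟩
    have h2 : ((((g⁻¹ : G) : G ⧸ N).out : G) : G ⧸ N) = ((g⁻¹ : G) : G ⧸ N) :=
      Quotient.out_eq _
    have h3 : (((g⁻¹ : G) : G ⧸ N).out)⁻¹ * g⁻¹ ∈ N := QuotientGroup.eq.1 h2
    apply Quotient.sound
    refine ⟨⟨(((g⁻¹ : G) : G ⧸ N).out)⁻¹ * g⁻¹, h3⟩, ?_⟩
    change ((((g⁻¹ : G) : G ⧸ N).out)⁻¹ * g⁻¹) • s = (((g⁻¹ : G) : G ⧸ N).out)⁻¹ • q0.out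
    rw [← hg, smul_smul, mul_assoc, inv_mul_cancel, mul_one]

end Q62
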