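import Pool.Agent.W_04c03c_h62.Defs

/-!
# Free orbits of subgroups of finite index
-/

namespace Q62

open MulAction

theorem OrbA_out {G : Type*} [Group G] {S : Type*} [MulAction G S] (s : S) :
    ∃ g : G, g • (Quotient.out (Quotient.mk (orbitRel G S) s)) = s := by
  have h : (orbitRel G S) (Quotient.out (Quotient.mk (orbitRel G S) s)) s :=
    Quotient.mk_out (s := orbitRel G S) s
  rw [orbitRel_apply] at h
  obtain ⟨g, hg⟩ := h
  refine ⟨g⁻¹, ?_⟩
  rw [← hg]
  exact inv_smul_smul g s

/-- The bijection of the proof of `FreeFin.sub`. -/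
noncomputable def OrbA_map (G : Type*) [Group G] (S : Type*) [MulAction G S] (N : Subgroup G) :
    (G ⧸ N) × orbitRel.Quotient G S → orbitRel.Quotient N S :=
  fun x => Quotient.mk (orbitRel N S) ((Quotient.out x.1)⁻¹ • (Quotient.out x.2 : S))

theorem OrbA_bij {G : Type*} [Group G] {S : Type*} [MulAction G S]
    (h : ∀ (g : G) (s : S), g • s = s → g = 1) (N : Subgroup G) :
    Function.Bijective (OrbA_map G S N) := by
  constructor
  · rintro ⟨x, q⟩ ⟨y, q'⟩ he
    unfold OrbA_map at he
    have h1 : (orbitRel N S) ((Quotient.out x)⁻¹ • (Quotient.out q : S))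
        ((Quotient.out y)⁻¹ • (Quotient.out q' : S)) := Quotient.exact he
    rw [orbitRel_apply] at h1
    obtain ⟨n, hn⟩ := h1
    have hn' : (n : G) • ((Quotient.out y)⁻¹ • (Quotient.out q' : S)) =
        (Quotient.out x)⁻¹ • (Quotient.out q : S) := hn
    have h2 : (Quotient.out x * n * (Quotient.out y)⁻¹) • (Quotient.out q' : S) =
        (Quotient.out q : S) := by
      rw [mul_smul, mul_smul, hn', smul_inv_smul]
    have hq : q = q' := by
      rw [← Quotient.out_eq q, ← Quotient.out_eq q']
      apply Quotient.sound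
      show (orbitRel G S) _ _
      rw [orbitRel_apply]
      exact ⟨_, h2⟩
    subst hq
    have h3 := h _ _ h2
    have h4 : (Quotient.out x)⁻¹ * Quotient.out y = n := by
      have h5 : Quotient.out x * (n : G) = Quotient.out y := by
        rw [← mul_inv_eq_one]
        exact h3
      rw [← h5, inv_mul_cancel_left]
    have h5 : x = y := by
      rw [← QuotientGroup.out_eq' x, ← QuotientGroup.out_eq' y, QuotientGroup.eq, h4]
      exact n.2
    rw [h5]
  · intro c
    obtain ⟨s, rfl⟩ := Quotient.exists_rep c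
    obtain ⟨g, hg⟩ := OrbA_out (G := G) s
    refine ⟨((g⁻¹ : G), Quotient.mk (orbitRel G S) s), ?_⟩
    unfold OrbA_map
    apply Quotient.sound
    show (orbitRel N S) _ _
    rw [orbitRel_apply]
    obtain ⟨n, hn⟩ := QuotientGroup.mk_out_eq_mul N g⁻¹
    refine ⟨n⁻¹, ?_⟩
    show ((n⁻¹ : N) : G) • s = (Quotient.out ((g⁻¹ : G) : G ⧸ N))⁻¹ •
      Quotient.out (Quotient.mk (orbitRel G S) s)
    have hn' : Quotient.out ((g⁻¹ : G) : G ⧸ N) = g⁻¹ * n := hn
    rw [hn', mul_inv_rev, inv_inv, mul_smul, hg, Subgroup.coe_inv]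

/-- If `S` is a free `G`-set with finitely many orbits and `N` has finite index, then `S` is a free
`N`-set with `N.index * #(S/G)` orbits.

Proof. Freeness is clear (`(n : G) • s = s` gives `(n : G) = 1`). Choose representatives
`s_q = q.out` of the `G`-orbits; the map
`(G ⧸ N)-like set of right cosets × S/G → S/N`, `(N g, q) ↦ N • (g • s_q)` is a bijection: every
`s : S` is `g • s_q` with unique `q` and (freeness) unique `g`, and `N • (g • s_q) = N • (g' • s_q)`
iff `g' = n g` for some `n : N`. The number of right cosets of `N` is `N.index`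
(use the bijection `g ↦ g⁻¹` with left cosets `G ⧸ N`, i.e. send `(x : G ⧸ N, q)` to the class of
`x.out⁻¹ • s_q`). -/
theorem FreeFin.sub {G : Type*} [Group G] {S : Type*} [MulAction G S] (h : FreeFin G S)
    (N : Subgroup G) [N.FiniteIndex] :
    FreeFin N S ∧
      Nat.card (orbitRel.Quotient N S) = N.index * Nat.card (orbitRel.Quotient G S) := by
  have hb := OrbA_bij h.free N
  have hfin := h.fin
  refine ⟨⟨fun g s hg => ?_, Finite.of_surjective _ hb.surjective⟩, ?_⟩
  · have h1 : (g : G) • s = s := hg
    exact Subtype.ext (h.free _ s h1)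
  · rw [← Nat.card_congr (Equiv.ofBijective _ hb), Nat.card_prod]
    rfl

end Q62
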