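import Pool.Agent.W_04c03c_h62.Bform

/-!
# The second coboundary, nontrivial character
-/

namespace Q62

open MulAction

section
variable {G : Type*} [Group G] {Ξ S0 S1 S2 : Type*} [MulAction G Ξ] [MulAction G S0]
    [MulAction G S1] [MulAction G S2] (P : PD G Ξ S0 S1 S2)
variable {F : Type*} [Field F] (χ : G →* Fˣ)

/-- In characteristic two, for a nontrivial character with a nonzero `ω ∈ VF F χ⁻¹ Ξ`, the image of
the second coboundary is a proper subspace.

Proof. If `Bom P ω u = 0` for all `u ∈ VF F χ S2`, then by `ev_eta_of_Bom` and `eq_w_of_ev_eta`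
`ω ξ = c * w ξ = c` (`char F = 2`, so `(±1 : F) = 1`). For `g` with `χ g ≠ 1`:
`c = ω (g • ξ) = χ(g)⁻¹ * c`, so `c = 0` (if `Ξ` is empty, `ω = 0` anyway), contradiction. So
`Bom P ω` (linear by `exists_Blin`) is a nonzero functional on `VF F χ S2` which vanishes on the
range of `P.D2.pullV χ` (`Bom_pull`); the range is a proper subspace of a space of dimension
`Nat.card (S2/G)` (`finrank_VF_free`). -/
theorem rank_two (hchar : CharP F 2) (hχ : ∃ g, χ g ≠ 1) {ω : Ξ → F} (hω : ω ∈ VF F χ⁻¹ Ξ)
    (h0 : ω ≠ 0) :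
    Module.finrank F (LinearMap.range (P.D2.pullV χ)) + 1 ≤
      Nat.card (orbitRel.Quotient G S2) := by
  obtain ⟨B, hB⟩ := exists_Blin P (F := F)
  obtain ⟨hfd, hd⟩ := finrank_VF_free (F := F) χ P.free2
  have := hfd
  let f : VF F χ S2 →ₗ[F] F := (B ω) ∘ₗ (VF F χ S2).subtype
  have hf : f ≠ 0 := by
    intro hf0
    have h1 : ∀ u ∈ VF F χ S2, Bom P ω u = 0 := by
      intro u hu
      have := LinearMap.congr_fun hf0 ⟨u, hu⟩
      rw [← hB]
      exact this
    obtain ⟨c, hc⟩ := eq_w_of_ev_eta P (fun s => ev_eta_of_Bom P χ hω h1 s)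
    have hc' : ∀ ξ, ω ξ = c := by
      intro ξ
      rw [hc ξ]
      rcases Int.units_eq_one_or (P.w ξ) with h | h
      · rw [h]
        simp
      · rw [h]
        simp only [Units.val_neg, Units.val_one, Int.cast_neg, Int.cast_one, mul_neg, mul_one]
        exact CharTwo.neg_eq c
    obtain ⟨g, hg⟩ := hχ
    apply h0
    funext ξ
    have h2 := hω g ξ
    rw [hc', hc'] at h2
    have h3 : (((χ⁻¹ g : Fˣ) : F) - 1) * c = 0 := by
      rw [sub_mul, one_mul, ← h2, sub_self]
    rcases mul_eq_zero.1 h3 with h | h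
    · exfalso
      apply hg
      have h4 : χ⁻¹ g = 1 := Units.ext (sub_eq_zero.1 h)
      simpa using h4
    · rw [hc', h]
      rfl
  have hle : LinearMap.range (P.D2.pullV χ) ≤ LinearMap.ker f := by
    rintro _ ⟨u, rfl⟩
    rw [LinearMap.mem_ker]
    show B ω (P.D2.pull u.1) = 0
    rw [hB]
    exact Bom_pull P χ hω u.2
  have h1 := Submodule.finrank_mono hle
  have h2 := LinearMap.finrank_range_add_finrank_ker f
  have h3 : 1 ≤ Module.finrank F (LinearMap.range f) := by
    rw [Submodule.one_le_finrank_iff]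
    intro h
    exact hf (LinearMap.range_eq_bot.1 h)
  rw [hd] at h2
  omega

end

end Q62
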