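import Pool.Agent.W_04c03c_h62.Defs

/-!
# Quotients of permutation modules by a free automorphism: chains
-/

namespace Q62

open MulAction

universe u

/-- The map `y - 1` on `ℤ[T]` is injective if all powers of `y` act freely.

Proof. Suppose `x.mapDomain y = x`, i.e. `x (y t) = x t` for all `t`. If `x t ≠ 0`, then
`x (y^n t) = x t ≠ 0` for all integers `n`, and the points `y^n t` are pairwise distinct: this
contradicts the finiteness of the support. -/
theorem shift_injective {T : Type*} (y : Equiv.Perm T)
    (hy : ∀ (n : ℤ) (t : T), (y ^ n) t = t → n = 0) :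
    Function.Injective (fun x : T →₀ ℤ => x.mapDomain y - x) := by
  intro x x' hxx
  have hxx' : x.mapDomain y - x = x'.mapDomain y - x' := hxx
  obtain ⟨d, hd⟩ : ∃ d, d = x - x' := ⟨_, rfl⟩
  have h0 : d.mapDomain y = d := by
    have h1 : d.mapDomain y = x.mapDomain y - x'.mapDomain y := by
      rw [hd]
      exact map_sub (Finsupp.mapDomain.addMonoidHom (M := ℤ) (y : T → T)) x x'
    rw [h1, hd, sub_eq_sub_iff_add_eq_add, add_comm x, ← sub_eq_sub_iff_add_eq_add.1 hxx']
  have h1 : ∀ t, d (y t) = d t := by
    intro t
    conv_lhs => rw [← h0]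
    exact Finsupp.mapDomain_apply y.injective d t
  have h2 : ∀ (n : ℕ) (t : T), d ((y ^ n) t) = d t := by
    intro n
    induction n with
    | zero => intro t; rfl
    | succ n ih =>
      intro t
      rw [pow_succ, Equiv.Perm.mul_apply, ih, h1]
  have h3 : d = 0 := by
    by_contra hne
    obtain ⟨t, ht⟩ := Finsupp.ne_iff.1 hne
    have h4 : (d.support : Set T).Infinite := by
      refine Set.infinite_of_injective_forall_mem (f := fun n : ℕ => (y ^ n) t) ?_ ?_
      · intro m n hmn
        have hmn' : (y ^ m) t = (y ^ n) t := hmn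
        have h5 : (y ^ ((m : ℤ) - n)) t = t := by
          rw [sub_eq_neg_add, zpow_add, Equiv.Perm.mul_apply, zpow_natCast, hmn', ← zpow_natCast,
            ← Equiv.Perm.mul_apply, ← zpow_add, neg_add_cancel, zpow_zero, Equiv.Perm.one_apply]
        have h6 := hy _ _ h5
        omega
      · intro n
        rw [Finset.mem_coe, Finsupp.mem_support_iff, h2]
        exact ht
    exact h4 (Finset.finite_toSet _)
  rw [← sub_eq_zero, ← hd]
  exact h3

/-- Exactness at `ℤ[T]`: if the fibres of `q : T → T'` are the orbits of `y`, then a chain on `T`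
which is sent to zero by `q` is of the form `y x - x`.

Proof. Induction on the size of the support (or on `∑ |coefficients|`): it is enough to show that
`single t 1 - single t' 1` with `q t = q t'` is in the range `Rg` of `x ↦ x.mapDomain y - x` (a
subgroup), and that every `z` with `z.mapDomain q = 0` is a combination of such differences (choose
for every point `t'` in the image a representative `r t'`, then
`z = ∑ z t • (single t 1 - single (r (q t)) 1)` because `∑_{q t = c} z t = 0`). For the first:
`t' = y^n t`, and `single (y t) 1 - single t 1 ∈ Rg` for all `t`, then telescope. -/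
theorem shift_exact {T T' : Type*} (y : Equiv.Perm T) (q : T → T')
    (hq : ∀ t t', q t = q t' ↔ ∃ n : ℤ, t' = (y ^ n) t) (z : T →₀ ℤ)
    (hz : z.mapDomain q = 0) : ∃ x : T →₀ ℤ, x.mapDomain y - x = z := by
  classical
  let φ : (T →₀ ℤ) →+ (T →₀ ℤ) :=
    Finsupp.mapDomain.addMonoidHom (M := ℤ) (y : T → T) - AddMonoidHom.id _
  have hφ : ∀ x, φ x = x.mapDomain y - x := fun x => rfl
  have h1 : ∀ t, (Finsupp.single (y t) 1 - Finsupp.single t 1 : T →₀ ℤ) ∈ φ.range := by
    intro t
    exact ⟨Finsupp.single t 1, by rw [hφ, Finsupp.mapDomain_single]⟩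
  have h2 : ∀ (n : ℕ) (t : T),
      (Finsupp.single ((y ^ n) t) 1 - Finsupp.single t 1 : T →₀ ℤ) ∈ φ.range := by
    intro n
    induction n with
    | zero =>
      intro t
      rw [pow_zero, Equiv.Perm.one_apply, sub_self]
      exact zero_mem _
    | succ n ih =>
      intro t
      have h := add_mem (ih (y t)) (h1 t)
      rwa [sub_add_sub_cancel, ← Equiv.Perm.mul_apply, ← pow_succ] at h
  have h3 : ∀ t t', q t = q t' →
      (Finsupp.single t 1 - Finsupp.single t' 1 : T →₀ ℤ) ∈ φ.range := by
    intro t t' h
    obtain ⟨n, rfl⟩ := (hq t t').1 h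
    obtain ⟨m, rfl | rfl⟩ := n.eq_nat_or_neg
    · rw [zpow_natCast, ← neg_sub]
      exact neg_mem (h2 m t)
    · have h4 := h2 m ((y ^ (-(m : ℤ))) t)
      rwa [← Equiv.Perm.mul_apply, ← zpow_natCast, ← zpow_add, add_neg_cancel, zpow_zero,
        Equiv.Perm.one_apply] at h4
  rcases isEmpty_or_nonempty T with hT | hT
  · exact ⟨0, Subsingleton.elim _ _⟩
  · have h4 : ∀ w : T →₀ ℤ, w - w.mapDomain (fun t => Function.invFun q (q t)) ∈ φ.range := by
      intro w
      induction w using Finsupp.induction_linear with
      | zero =>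
        rw [Finsupp.mapDomain_zero, sub_zero]
        exact zero_mem _
      | add f g hf hg =>
        rw [Finsupp.mapDomain_add, add_sub_add_comm]
        exact add_mem hf hg
      | single t n =>
        rw [Finsupp.mapDomain_single]
        have h5 : q t = q (Function.invFun q (q t)) :=
          (Function.invFun_eq (f := q) (b := q t) ⟨t, rfl⟩).symm
        have h6 := zsmul_mem (h3 _ _ h5) n
        rwa [smul_sub, Finsupp.smul_single, Finsupp.smul_single, smul_eq_mul, mul_one] at h6
    have h5 := h4 z
    have h6 : z.mapDomain (fun t => Function.invFun q (q t)) = 0 := by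
      have h7 := Finsupp.mapDomain_comp (f := q) (g := Function.invFun q) (v := z)
      rw [hz, Finsupp.mapDomain_zero] at h7
      exact h7
    rw [h6, sub_zero] at h5
    obtain ⟨x, hx⟩ := h5
    exact ⟨x, by rw [← hφ]; exact hx⟩

end Q62
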