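import Pool.Agent.W_04c03c_h62.GMod
import Pool.Agent.W_04c03c_h62.FFRB
import Pool.Agent.W_04c03c_h62.ShiftA

/-!
# Quotients of permutation modules by a free automorphism: resolutions
-/

namespace Q62

open MulAction

universe u

/-- If `ℤ[T]` has a finite free resolution, and `T' = T/y` for a free equivariant automorphism `y`,
then `ℤ[T']` has a finite free resolution with Euler characteristic `0`.

Proof. `FFR.quotient` for `0 → ℤ[T] → ℤ[T] → ℤ[T'] → 0` with the maps `GM.map (y - 1)` and
`GM.map q` (`Finsupp.lmapDomain`): injectivity `shift_injective`, exactness `shift_exact` (and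
`q ∘ y = q`), surjectivity from the surjectivity of `q`; `c - c = 0`. -/
theorem FFR.shift {G : Type u} [Group G] {T T' : Type u} [MulAction G T] [MulAction G T']
    (y : Equiv.Perm T) (q : T → T') (hyG : ∀ (g : G) (t : T), y (g • t) = g • y t)
    (hqG : ∀ (g : G) (t : T), q (g • t) = g • q t)
    (hy : ∀ (n : ℤ) (t : T), (y ^ n) t = t → n = 0)
    (hq : ∀ t t', q t = q t' ↔ ∃ n : ℤ, t' = (y ^ n) t) (hs : Function.Surjective q) {c : ℤ}
    (h : FFR (MonoidAlgebra ℤ G) (GM G T) c) : FFR (MonoidAlgebra ℤ G) (GM G T') 0 := by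
  have hqy : ∀ t, q (y t) = q t := fun t => ((hq t (y t)).mpr ⟨1, by rw [zpow_one]⟩).symm
  set fY : (T →₀ ℤ) →ₗ[ℤ] (T →₀ ℤ) := Finsupp.lmapDomain ℤ ℤ y - LinearMap.id with hfY
  set fQ : (T →₀ ℤ) →ₗ[ℤ] (T' →₀ ℤ) := Finsupp.lmapDomain ℤ ℤ q with hfQ
  have hY : ∀ x : T →₀ ℤ, fY x = x.mapDomain y - x := fun _ => rfl
  have hQ : ∀ x : T →₀ ℤ, fQ x = x.mapDomain q := fun _ => rfl
  have h1 : ∀ (g : G) (x : T →₀ ℤ), fY (x.mapDomain (fun t : T => g • t)) =
      (fY x).mapDomain (fun t : T => g • t) := by
    intro g x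
    have h2 := map_sub (Finsupp.lmapDomain ℤ ℤ (fun t : T => g • t)) (x.mapDomain y) x
    simp only [Finsupp.lmapDomain_apply] at h2
    rw [hY, hY, h2, ← Finsupp.mapDomain_comp, ← Finsupp.mapDomain_comp]
    congr 2
    funext t
    exact hyG g t
  have h2 : ∀ (g : G) (x : T →₀ ℤ), fQ (x.mapDomain (fun t : T => g • t)) =
      (fQ x).mapDomain (fun t : T' => g • t) := by
    intro g x
    rw [hQ, hQ, ← Finsupp.mapDomain_comp, ← Finsupp.mapDomain_comp]
    congr 1
    funext t
    exact hqG g t
  have hi : Function.Injective (GM.map fY h1) := by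
    intro a b hab
    have h3 : fY ((permRep G T).asModuleEquiv a) = fY ((permRep G T).asModuleEquiv b) :=
      (permRep G T).asModuleEquiv.symm.injective hab
    exact (permRep G T).asModuleEquiv.injective (shift_injective y hy h3)
  have hp : Function.Surjective (GM.map fQ h2) := by
    intro b
    obtain ⟨x, hx⟩ := Finsupp.mapDomain_surjective hs ((permRep G T').asModuleEquiv b)
    refine ⟨(permRep G T).asModuleEquiv.symm x, ?_⟩
    apply (permRep G T').asModuleEquiv.injective
    rw [GM.map_apply]
    exact hx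
  have he : LinearMap.ker (GM.map fQ h2) = LinearMap.range (GM.map fY h1) := by
    ext z
    rw [LinearMap.mem_ker, LinearMap.mem_range]
    constructor
    · intro hz
      have h3 : ((permRep G T).asModuleEquiv z).mapDomain q = 0 := by
        have h4 := congrArg (permRep G T').asModuleEquiv hz
        rw [map_zero] at h4
        exact h4
      obtain ⟨x, hx⟩ := shift_exact y q hq _ h3
      refine ⟨(permRep G T).asModuleEquiv.symm x, ?_⟩
      apply (permRep G T).asModuleEquiv.injective
      rw [GM.map_apply]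
      exact hx
    · rintro ⟨w, rfl⟩
      apply (permRep G T').asModuleEquiv.injective
      rw [map_zero]
      change fQ (fY ((permRep G T).asModuleEquiv w)) = 0
      rw [hY, map_sub, hQ, hQ, ← Finsupp.mapDomain_comp, sub_eq_zero]
      congr 1
      funext t
      exact hqy t
  have h3 := FFR.quotient (GM.map fY h1) (GM.map fQ h2) hi hp he h h
  rwa [sub_self] at h3

end Q62
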