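import Pool.Agent.W_04c03c_h62.ThD

/-!
# Relations in the wreath product
-/

namespace Q62

theorem ThA_a_left (m : ℕ) : (theta m l2a).left 1 = tA := by
  unfold theta l2a
  rw [FreeGroup.lift_apply_of]
  simp

theorem ThA_a_left_ne (m : ℕ) {x : Multiplicative (ZMod m)} (hx : x ≠ 1) :
    (theta m l2a).left x = 1 := by
  unfold theta l2a
  rw [FreeGroup.lift_apply_of]
  simp [Pi.mulSingle_eq_of_ne hx]

theorem ThA_a_right (m : ℕ) : (theta m l2a).right = 1 := by
  unfold theta l2a
  rw [FreeGroup.lift_apply_of]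
  simp

theorem ThA_s_left (m : ℕ) : (theta m l2s).left 1 = tS := by
  unfold theta l2s
  rw [FreeGroup.lift_apply_of]
  simp

theorem ThA_s_left_ne (m : ℕ) {x : Multiplicative (ZMod m)} (hx : x ≠ 1) :
    (theta m l2s).left x = 1 := by
  unfold theta l2s
  rw [FreeGroup.lift_apply_of]
  simp [Pi.mulSingle_eq_of_ne hx]

theorem ThA_s_right (m : ℕ) :
    (theta m l2s).right = Multiplicative.ofAdd (1 : ZMod m) := by
  unfold theta l2s
  rw [FreeGroup.lift_apply_of]
  simp

theorem ThA_pow_right (m j : ℕ) :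
    (theta m l2s ^ j).right = Multiplicative.ofAdd (1 : ZMod m) ^ j := by
  induction j with
  | zero => rw [pow_zero, pow_zero, RegularWreathProduct.one_right]
  | succ j ih => rw [pow_succ, pow_succ, RegularWreathProduct.mul_right, ih, ThA_s_right]

theorem ThA_zeta {m j : ℕ} (h1 : 1 ≤ j) (h2 : j < m) :
    Multiplicative.ofAdd (1 : ZMod m) ^ j ≠ 1 := by
  intro h
  rw [← ofAdd_nsmul, ← ofAdd_zero] at h
  have h3 : ((j : ℕ) : ZMod m) = 0 := by
    have := Multiplicative.ofAdd.injective h
    rwa [nsmul_eq_mul, mul_one] at this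
  rw [ZMod.natCast_eq_zero_iff] at h3
  exact absurd (Nat.le_of_dvd h1 h3) (by omega)

theorem ThA_conj_right (m j : ℕ) :
    (theta m l2s ^ j * theta m l2a * (theta m l2s ^ j)⁻¹).right = 1 := by
  rw [RegularWreathProduct.mul_right, RegularWreathProduct.mul_right, ThA_a_right, mul_one,
    RegularWreathProduct.inv_right, mul_inv_cancel]

theorem ThA_conj_left {m j : ℕ} (h1 : 1 ≤ j) (h2 : j < m) :
    (theta m l2s ^ j * theta m l2a * (theta m l2s ^ j)⁻¹).left 1 = 1 := by
  have hz := ThA_zeta h1 h2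
  have hne : ((theta m l2s ^ j).right)⁻¹ * 1 ≠ 1 := by
    rw [ThA_pow_right, mul_one]
    exact inv_ne_one.mpr hz
  simp only [RegularWreathProduct.mul_left, RegularWreathProduct.mul_right,
    RegularWreathProduct.inv_left, Pi.mul_apply, Pi.inv_apply]
  rw [ThA_a_left_ne m hne, ThA_a_right, mul_one, mul_one, mul_one, mul_inv_cancel,
    mul_inv_cancel]

theorem ThA_comm {m : ℕ} {u v : WR m} (hu : u.right = 1) (hv : v.right = 1)
    (h1 : v.left 1 = 1) (h2 : ∀ x, x ≠ 1 → u.left x = 1) : u * v = v * u := by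
  refine RegularWreathProduct.ext ?_ ?_
  · funext x
    rw [RegularWreathProduct.mul_left, RegularWreathProduct.mul_left, Pi.mul_apply, Pi.mul_apply,
      hu, hv]
    simp only [inv_one, one_mul]
    by_cases hx : x = 1
    · rw [hx, h1, mul_one, one_mul]
    · rw [h2 x hx, mul_one, one_mul]
  · rw [RegularWreathProduct.mul_right, RegularWreathProduct.mul_right, hu, hv]

theorem ThA_sq (m : ℕ) : theta m l2a ^ 2 = 1 := by
  rw [pow_two]
  refine RegularWreathProduct.ext ?_ ?_
  · funext x
    rw [RegularWreathProduct.mul_left, Pi.mul_apply, ThA_a_right]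
    simp only [inv_one, one_mul, RegularWreathProduct.one_left, Pi.one_apply]
    by_cases hx : x = 1
    · rw [hx, ThA_a_left]
      unfold tA
      rw [← map_mul, Equiv.swap_mul_self, map_one]
    · rw [ThA_a_left_ne m hx, mul_one]
  · rw [RegularWreathProduct.mul_right, ThA_a_right, mul_one, RegularWreathProduct.one_right]

/-- `Θ` kills the first `n` relations if `n < m`.

Proof. Write `ζ = ofAdd 1` and `a = (δ₁(tA), 1)`, `s = (δ₁(tS), ζ)`; the multiplication is
`(f, q) * (f', q') = (f * (x ↦ f' (q⁻¹ * x)), q * q')`. `a ^ 2 = (δ₁(tA ^ 2), 1) = 1`. By induction on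
`j ≤ m`: `s ^ j = (g_j, ζ ^ j)` with `g_j x = tS` if `x = ζ ^ i` for some `i < j` and `1` otherwise.
So for `j < m` `s ^ j * a * s ^ (-j) = (δ_{ζ ^ j}(tA), 1)` (the factor `g_j (ζ ^ j)` is `1`), and for
`0 < j < m` it commutes with `a = (δ₁(tA), 1)` because `ζ ^ j ≠ 1`. -/
theorem theta_rel {m n : ℕ} (h : n < m) {x : L2} (hx : x ∈ rel n) : theta m x = 1 := by
  rcases hx with hx | ⟨j, h1, h2, rfl⟩
  · rw [Set.mem_singleton_iff.mp hx, map_pow]
    exact ThA_sq m
  · unfold comJ
    simp only [map_mul, map_inv, map_pow]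
    have h3 := ThA_comm (ThA_a_right m) (ThA_conj_right m j) (ThA_conj_left h1 (by omega))
      (fun x hx => ThA_a_left_ne m hx)
    rw [h3]
    group

/-- The value of `Θ (s ^ m)` at the coordinate `1` is `tS`.

Proof. The formula for `s ^ m` in `theta_rel`: the points `ζ ^ i`, `i < m`, are all points, each hit
once. -/
theorem theta_s_pow {m : ℕ} (hm : 0 < m) :
    (theta m (l2s ^ m)).left 1 = tS ∧ (theta m (l2s ^ m)).right = 1 := by
  rw [map_pow]
  constructor
  · have h : ∀ j, 1 ≤ j → j ≤ m → (theta m l2s ^ j).left 1 = tS := by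
      intro j hj
      induction j, hj using Nat.le_induction with
      | base =>
        intro _
        rw [pow_one, ThA_s_left]
      | succ j hj ih =>
        intro h2
        rw [pow_succ, RegularWreathProduct.mul_left, Pi.mul_apply, ih (by omega)]
        have hne : ((theta m l2s ^ j).right)⁻¹ * 1 ≠ 1 := by
          rw [ThA_pow_right, mul_one]
          exact inv_ne_one.mpr (ThA_zeta hj (by omega))
        rw [ThA_s_left_ne m hne, mul_one]
    exact h m hm le_rfl
  · rw [ThA_pow_right, ← ofAdd_nsmul, ← ofAdd_zero]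
    congr 1
    rw [nsmul_eq_mul, mul_one]
    exact ZMod.natCast_self m

theorem theta_a (m : ℕ) : (theta m l2a).left 1 = tA ∧ (theta m l2a).right = 1 :=
  ⟨ThA_a_left m, ThA_a_right m⟩

end Q62
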