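import Pool.Agent.W_04c03c_h62.ThA

/-!
# Subgroups of the wreath product
-/

namespace Q62

/-- the two elements generate `T` -/
theorem thb_gen (K : Subgroup TT) (ha : tA ∈ K) (hs : tS ∈ K) : K = ⊤ := by
  have h1 : ∀ x : FreeGroup (Fin 2), (SemidirectProduct.inl x : TT) ∈ K := by
    intro x
    have h2 : (SemidirectProduct.inl (FreeGroup.of 1) : TT) ∈ K := by
      have h3 : (SemidirectProduct.inl (FreeGroup.of 1) : TT) = tA * tS * tA⁻¹ := by
        have h4 := SemidirectProduct.inl_aut (φ := swapHom) (Equiv.swap (0 : Fin 2) 1)
          (FreeGroup.of 0)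
        have h5 : (swapHom (Equiv.swap (0 : Fin 2) 1)) (FreeGroup.of 0) = FreeGroup.of 1 := by
          show FreeGroup.freeGroupCongr (Equiv.swap (0 : Fin 2) 1) (FreeGroup.of 0) = _
          simp
        rw [h5] at h4
        rw [h4, map_inv]
        rfl
      rw [h3]
      exact K.mul_mem (K.mul_mem ha hs) (K.inv_mem ha)
    induction x using FreeGroup.induction_on with
    | C1 => rw [map_one]; exact K.one_mem
    | of i =>
      fin_cases i
      · exact hs
      · exact h2
    | inv_of i hi => rw [map_inv]; exact K.inv_mem hi
    | mul x y hx hy => rw [map_mul]; exact K.mul_mem hx hy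
  have h6 : ∀ σ : Equiv.Perm (Fin 2), (SemidirectProduct.inr σ : TT) ∈ K := by
    intro σ
    have h7 : σ = 1 ∨ σ = Equiv.swap 0 1 := by
      revert σ
      decide
    rcases h7 with rfl | rfl
    · rw [map_one]; exact K.one_mem
    · exact ha
  rw [eq_top_iff]
  intro x _
  rw [← SemidirectProduct.inl_left_mul_inr_right x]
  exact K.mul_mem (h1 _) (h6 _)

/-- A subgroup of the wreath product which contains `Θ a` and `Θ s`: more precisely, a group `N` with
a homomorphism to `WR m` whose image contains `Θ a` and `Θ s` is large.

Proof. Let `N₁ ≤ N` be the subgroup of the `g` with `(f g).right = 1`, of finite index (`ZMod m` is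
finite, `m > 0`). On `N₁` the map `e g = (f g).left 1` is a homomorphism to `T`. It is onto: its
image contains `tA` (`theta_a`) and `tS` (`theta_s_pow`, the element `s_N ^ m`), and these generate
`T` (`tA * tS * tA⁻¹ = inl (of 1)`; every element of `T` is `inl x * inr σ`). Let `N₂ ≤ N₁` be the
subgroup of the `g` with `(e g).right = 1` (index at most two); `g ↦ (e g).left` is a homomorphism
`N₂ → F₂`, onto because `e` is onto. Map `N₂` to a subgroup of `N` (`Subgroup.map N₁.subtype`). -/
theorem large_of_theta {N : Type*} [Group N] {m : ℕ} (hm : 0 < m) (f : N →* WR m)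
    (ha : ∃ a, f a = theta m l2a) (hs : ∃ s, f s = theta m l2s) : IsLarge N := by
  haveI : NeZero m := ⟨hm.ne'⟩
  haveI : Finite (Multiplicative (ZMod m)) := inferInstanceAs (Finite (ZMod m))
  set r : N →* Multiplicative (ZMod m) := (RegularWreathProduct.rightHom).comp f with hr
  have hrk : ∀ g : r.ker, (f g).right = 1 := fun g => g.2
  haveI : Finite r.range := inferInstance
  have hfi : r.ker.FiniteIndex := inferInstance
  let e : r.ker →* TT :=
    { toFun := fun g => (f g).left 1
      map_one' := by simp
      map_mul' := by
        intro g h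
        simp [hrk g] }
  have he : ∀ g : r.ker, e g = (f g).left 1 := fun _ => rfl
  have hsurj : Function.Surjective e := by
    rw [← MonoidHom.range_eq_top]
    obtain ⟨a, ha⟩ := ha
    obtain ⟨s, hs⟩ := hs
    apply thb_gen
    · refine ⟨⟨a, ?_⟩, ?_⟩
      · show (f a).right = 1
        rw [ha]
        exact (theta_a m).2
      · rw [he]
        show (f a).left 1 = tA
        rw [ha]
        exact (theta_a m).1
    · refine ⟨⟨s ^ m, ?_⟩, ?_⟩
      · show (f (s ^ m)).right = 1
        rw [map_pow, hs, ← map_pow]
        exact (theta_s_pow hm).2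
      · rw [he]
        show (f (s ^ m)).left 1 = tS
        rw [map_pow, hs, ← map_pow]
        exact (theta_s_pow hm).1
  set q : r.ker →* Equiv.Perm (Fin 2) := (SemidirectProduct.rightHom).comp e with hq
  have hqk : ∀ g : q.ker, (e g).right = 1 := fun g => g.2
  have hfi2 : q.ker.FiniteIndex := inferInstance
  let u : q.ker →* FreeGroup (Fin 2) :=
    { toFun := fun g => (e g).left
      map_one' := by simp
      map_mul' := by
        intro g h
        have h1 := hqk g
        simp [h1] }
  have hu : ∀ g : q.ker, u g = (e g).left := fun _ => rfl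
  have husurj : Function.Surjective u := by
    intro x
    obtain ⟨g, hg⟩ := hsurj (SemidirectProduct.inl x)
    refine ⟨⟨g, ?_⟩, ?_⟩
    · show (e g).right = 1
      rw [hg]
      simp
    · rw [hu]
      show (e g).left = x
      rw [hg]
      simp
  refine ⟨q.ker.map r.ker.subtype, ?_, ?_⟩
  · constructor
    rw [Subgroup.index_map_subtype]
    exact mul_ne_zero hfi2.index_ne_zero hfi.index_ne_zero
  · refine ⟨u.comp (q.ker.equivMapOfInjective r.ker.subtype
      (Subgroup.subtype_injective _)).symm.toMonoidHom, ?_⟩
    exact husurj.comp (MulEquiv.surjective _)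

end Q62
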