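import Pool.Agent.W_04c03c_h62.Lamp

/-!
# Homomorphisms to wreath products
-/

namespace Q62

/-- The swap action of `Perm (Fin 2)` on the free group of rank two. -/
def swapHom : Equiv.Perm (Fin 2) →* MulAut (FreeGroup (Fin 2)) where
  toFun σ := FreeGroup.freeGroupCongr σ
  map_one' := by
    refine MulEquiv.ext fun x => ?_
    simp
  map_mul' := by
    intro σ τ
    refine MulEquiv.ext fun x => ?_
    simp only [MulAut.mul_apply, FreeGroup.freeGroupCongr_apply]
    rw [FreeGroup.map.comp]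
    rfl

/-- `T = F₂ ⋊ ℤ/2 = ℤ * ℤ/2`. -/
abbrev TT := FreeGroup (Fin 2) ⋊[swapHom] Equiv.Perm (Fin 2)

def tA : TT := SemidirectProduct.inr (Equiv.swap 0 1)
def tS : TT := SemidirectProduct.inl (FreeGroup.of 0)

/-- The wreath product `T ≀ ℤ/m`. -/
abbrev WR (m : ℕ) := RegularWreathProduct TT (Multiplicative (ZMod m))

/-- `Θ : L2 → T ≀ ℤ/m`. -/
noncomputable def theta (m : ℕ) : L2 →* WR m :=
  open Classical in
  FreeGroup.lift (fun b => if b then ⟨Pi.mulSingle 1 tS, Multiplicative.ofAdd 1⟩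
    else ⟨Pi.mulSingle 1 tA, 1⟩)

end Q62
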